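import Pool.Agent.ShghI.ClaimD
import Pool.Agent.ShghL.CloseD2

/-!
# ShghI, BaseR: a non-special multiset `K` with room is a base multiset
-/

namespace ShghI

open ShghJ

/-- MULTIPLICATION: if there is a curve of degree `g` with the multiplicities `S`, then a further
generic point of multiplicity `μ ≤ d + 1 - g` imposes independent conditions in degree `d`. -/
def MulFun (h : ℕ → Multiset ℕ → ℕ) (D : ℕ) : Prop := ∀ (d g μ : ℕ) (S : Multiset ℕ),
  d ≤ D → g + μ ≤ d + 1 → 1 ≤ h g S → h d (μ ::ₘ S) + T μ ≤ h d S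

variable {h : ℕ → Multiset ℕ → ℕ} {d : ℕ}

theorem two_TT_le (W : Multiset ℕ) {k : ℕ} (hW : ∀ w ∈ W, w ≤ k) :
    2 * TT W ≤ W.sum * (k + 1) := by
  induction W using Multiset.induction_on with
  | empty => simp [TT_zero]
  | cons a W ih =>
    have h1 := ih (fun w hw => hW w (Multiset.mem_cons_of_mem hw))
    have h2 := hW a (Multiset.mem_cons_self a W)
    have h3 := two_T a
    rw [TT_cons, Multiset.sum_cons]
    nlinarith

/-- The drop of `T` from `d + 1` to `d + 2 - w`. -/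
theorem two_T_sub {d w : ℕ} (h1 : 1 ≤ w) (h2 : w ≤ d + 1) :
    2 * T (d + 1) ≤ 2 * T (d + 2 - w) + 2 * (w - 1) * (d + 1) := by
  obtain ⟨v, rfl⟩ : ∃ v, w = v + 1 := ⟨w - 1, by omega⟩
  obtain ⟨e, rfl⟩ : ∃ e, d = v + e := ⟨d - v, by omega⟩
  rw [show v + e + 2 - (v + 1) = e + 1 by omega, Nat.add_sub_cancel]
  have h3 := two_T (v + e + 1)
  have h4 := two_T (e + 1)
  have h5 : v ≤ v * v := Nat.le_mul_self v
  nlinarith

/-- Adding one point to a non-special multiset. -/
theorem cons_indep (H : ∀ d' ≤ d, HFun d' (h d')) (Mu : MulFun h d) {w : ℕ} {S : Multiset ℕ}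
    (hw : w ≤ d + 1) (hS : h d S + TT S = T (d + 1)) (hT : TT S < T (d + 2 - w)) :
    h d (w ::ₘ S) + TT (w ::ₘ S) = T (d + 1) := by
  rcases Nat.eq_zero_or_pos w with h0 | h0
  · subst h0
    rw [(H d le_rfl).zero, TT_cons, T_zero, zero_add]
    exact hS
  · have h1 := (H (d + 1 - w) (by omega)).chi_le S
    rw [show d + 1 - w + 1 = d + 2 - w by omega] at h1
    have h2 := Mu d (d + 1 - w) w S le_rfl (by omega) (by omega)
    have h3 := (H d le_rfl).chi_le (w ::ₘ S)
    rw [TT_cons] at h3 ⊢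
    omega

/-- `K` is non-special with room: configurations. -/
theorem base_of_room (H : ∀ d' ≤ d, HFun d' (h d')) (Mu : MulFun h d) {k : ℕ} {K : Multiset ℕ}
    (hK : h d K + TT K = T (d + 1)) (hroom : 2 * TT K + 3 * k * (d + 1) ≤ 2 * T (d + 1)) :
    ∀ W : Multiset ℕ, (∀ w ∈ W, w ≤ k) → W.sum ≤ d + 1 →
      h d (W + K) + TT (W + K) = T (d + 1) := by
  intro W
  induction W using Multiset.induction_on with
  | empty =>
    intro _ _
    rw [zero_add]
    exact hK
  | cons w W ih =>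
    intro h1 h2
    rw [Multiset.sum_cons] at h2
    have hwk := h1 w (Multiset.mem_cons_self w W)
    have h3 := ih (fun x hx => h1 x (Multiset.mem_cons_of_mem hx)) (by omega)
    rw [Multiset.cons_add]
    refine cons_indep H Mu (by omega) h3 ?_
    rcases Nat.eq_zero_or_pos w with h0 | h0
    · have h4 := two_TT_le W (fun x hx => h1 x (Multiset.mem_cons_of_mem hx))
      have h5 : T (d + 1) + (d + 2) = T (d + 2) := (T_succ (d + 1)).symm
      subst h0
      rw [Nat.sub_zero, TT_add]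
      have h6 : W.sum * (k + 1) ≤ (d + 1) * (k + 1) := Nat.mul_le_mul_right _ (by omega)
      nlinarith
    · have h4 := two_TT_le W (fun x hx => h1 x (Multiset.mem_cons_of_mem hx))
      have h5 := two_T_sub h0 (show w ≤ d + 1 by omega)
      rw [TT_add]
      obtain ⟨v, rfl⟩ : ∃ v, w = v + 1 := ⟨w - 1, by omega⟩
      rw [Nat.add_sub_cancel] at h5
      obtain ⟨j, rfl⟩ : ∃ j, k = v + 1 + j := ⟨k - (v + 1), by omega⟩
      have h6 : W.sum * (v + 1 + j + 1) ≤ (d + 1) * (v + 1 + j + 1) :=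
        Nat.mul_le_mul_right _ (by omega)
      nlinarith

/-- The base data of a non-special multiset with room. -/
theorem baseD_of_room (H : ∀ d' ≤ d, HFun d' (h d')) (Mu : MulFun h d) {k : ℕ} {K : Multiset ℕ}
    (hK : h d K + TT K = T (d + 1)) (hroom : 2 * TT K + 3 * k * (d + 1) ≤ 2 * T (d + 1)) :
    BaseD d (h d) K k (d + 1) (fun w => min w k) T where
  reach_le := fun w => min_le_left w k
  base := base_of_room H Mu hK hroom
  amp := by
    intro S w τ h0 _ h4
    have h1 : τ ≤ w := h0.trans (min_le_left w k)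
    have h3 : τ ≤ k := h0.trans (min_le_right w k)
    refine ⟨{τ}, fun x hx => ?_, by simp, by simp [TT], ?_⟩
    · rw [Multiset.mem_singleton.1 hx]
      exact h3
    · rw [Multiset.singleton_add]
      exact h4.trans ((H d le_rfl).anti_le _ h1)

/-- The numerical conditions with the cap `k`. -/
theorem hce_of_hcd {D1 k M : ℕ} {κ : ℝ} {m : List ℕ} {F : ℕ → ℝ} (hm : ∀ x ∈ m, x ≤ M)
    (hk : 3 * M * d ≤ k * (k + 1) + 1) (HF : HCD d D1 κ m F) : HCE d D1 (fun w => min w k) T κ m F := by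
  intro l1 l h1 h2 hb ha w s w' w1 hwd hw1d hw'w hsd hc hF hmw hm1 hy hB
  by_cases hcase : w' = w ∨ w' + s = D1
  · refine HF l1 l h1 h2 hb ha w s w' w1 hwd hw1d hw'w hsd hcase hF hmw hm1 hy ?_
    intro B hB'
    obtain ⟨h3, h4⟩ := hB B hB'
    refine ⟨h3, ?_⟩
    rw [T_real] at h4
    linarith
  · have hwk : w' = k := by
      rcases hc with h3 | h3
      · rcases min_choice w k with h4 | h4
        · exact absurd (Or.inl (h3.trans h4)) hcase
        · exact h3.trans h4
      · exact absurd (Or.inr h3) hcase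
    obtain ⟨-, h4⟩ := hB M (by
      intro z hz
      exact hm z (List.mem_of_mem_take (List.mem_of_mem_drop hz)))
    rw [hwk, T_real] at h4
    have h5 : ((m[l] : ℕ) : ℝ) ≤ M := by exact_mod_cast hm _ (List.getElem_mem h2)
    have h6 : ((m[l] : ℕ) : ℝ) ≤ w := by exact_mod_cast hmw
    have h7 := bad_simple h6
    have h8 : (w : ℝ) ≤ d := by exact_mod_cast hwd
    have h9 : (w1 : ℝ) ≤ d := by exact_mod_cast hw1d
    have h10 : 3 * (M : ℝ) * d ≤ k * (k + 1) + 1 := by exact_mod_cast hk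
    have h11 : (0 : ℝ) ≤ w := Nat.cast_nonneg _
    have h12 : (0 : ℝ) ≤ M := Nat.cast_nonneg _
    have h13 : 2 * ((m[l] : ℕ) : ℝ) * w ≤ 2 * (M * d) := by
      have : ((m[l] : ℕ) : ℝ) * w ≤ M * d := mul_le_mul h5 h8 h11 h12
      linarith
    have h14 : (M : ℝ) * w1 ≤ M * d := mul_le_mul_of_nonneg_left h9 h12
    linarith

theorem hce0_of_hcd0 {D1 k M : ℕ} {κ : ℝ} {m : List ℕ} {F : ℕ → ℝ} (hm : ∀ x ∈ m, x ≤ M)
    (hk : 3 * M * d ≤ k * (k + 1) + 1) (HF : HCD0 d D1 κ m F) : HCE0 d D1 (fun w => min w k) T κ m F := by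
  intro l h2 ha w s w' hwd hw'w hsd hc hF hmw hT
  by_cases hcase : w' = w ∨ w' + s = D1
  · refine HF l h2 ha w s w' hwd hw'w hsd hcase hF hmw ?_
    rw [T_real] at hT
    linarith
  · have hwk : w' = k := by
      rcases hc with h3 | h3
      · rcases min_choice w k with h4 | h4
        · exact absurd (Or.inl (h3.trans h4)) hcase
        · exact h3.trans h4
      · exact absurd (Or.inr h3) hcase
    rw [hwk, T_real] at hT
    have h5 : ((m[l] : ℕ) : ℝ) ≤ M := by exact_mod_cast hm _ (List.getElem_mem h2)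
    have h6 : ((m[l] : ℕ) : ℝ) ≤ w := by exact_mod_cast hmw
    have h7 := bad_simple h6
    have h8 : (w : ℝ) ≤ d := by exact_mod_cast hwd
    have h10 : 3 * (M : ℝ) * d ≤ k * (k + 1) + 1 := by exact_mod_cast hk
    have h11 : (0 : ℝ) ≤ w := Nat.cast_nonneg _
    have h12 : (0 : ℝ) ≤ M := Nat.cast_nonneg _
    have h13 : 2 * ((m[l] : ℕ) : ℝ) * w ≤ 2 * (M * d) := by
      have : ((m[l] : ℕ) : ℝ) * w ≤ M * d := mul_le_mul h5 h8 h11 h12
      linarith
    have h14 : (0 : ℝ) ≤ (M : ℝ) * d := by positivity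
    linarith

end ShghI
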