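import Pool.Agent.ShghI.Redis
import Pool.Agent.ShghI.BaseR
import Pool.Agent.ShghL.Main2

/-!
# ShghI, Mult: multiplication by a curve of smaller degree
-/

namespace ShghI

open MvPolynomial ShghJ

universe u v

theorem mul_indep {K : Type u} [Field K] {s : ℕ} (d g μ : ℕ) (m : Fin s → ℕ)
    (P : Fin s → Fin 2 → K) (p : Fin 2 → K) (hg : g + μ ≤ d + 1) (hgd : g ≤ d)
    (G : MvPolynomial (Fin 2) K) (hG : G ∈ ShghT.LS g m P) (hGp : eval ![p 0, p 1] G ≠ 0) :
    Module.finrank K (fil (ShghT.LS d m P) p μ) + (μ + 1).choose 2 ≤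
      Module.finrank K (ShghT.LS d m P) := by
  classical
  set B := ShghT.LS d m P with hB
  set A := fil B p μ with hA
  have hAB : A ≤ B := fun f hf => hf.1
  have hG' := ShghT.mem_LS.1 hG
  have hG0 : G ≠ 0 := by
    rintro rfl
    rw [map_zero] at hGp
    exact hGp rfl
  set E : Submodule K (MvPolynomial (Fin 2) K) :=
    ShghT.LS (d - g) (fun i : Fin 0 => i.elim0) (fun i : Fin 0 => i.elim0) with hE
  set E' : Submodule K (MvPolynomial (Fin 2) K) :=
    ShghT.LS (d - g) (fun _ : Fin 1 => μ) (fun _ : Fin 1 => p) with hE'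
  have hEE : Module.finrank K E' + (μ + 1).choose 2 = Module.finrank K E := by
    have h2 := tBase K 0 (d - g) (fun i : Fin 0 => i.elim0) (fun i : Fin 0 => i.elim0)
      (fun i => i.elim0) (by simp)
    have h3 := tBase K 1 (d - g) (fun _ : Fin 1 => μ) (fun _ : Fin 1 => p)
      (fun i j hij => absurd (Subsingleton.elim i j) hij) (by
        rw [Fin.sum_univ_one]
        omega)
    rw [Fin.sum_univ_one] at h3
    simp only [Finset.univ_eq_empty, Finset.sum_empty, add_zero] at h2
    rw [← hE] at h2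
    rw [← hE'] at h3
    omega
  have hinj : Function.Injective (LinearMap.mulLeft K G) := by
    intro f g hfg
    exact mul_left_cancel₀ hG0 hfg
  set U := E.map (LinearMap.mulLeft K G) with hU
  have hUfin : Module.finrank K U = Module.finrank K E :=
    (Submodule.equivMapOfInjective _ hinj E).finrank_eq.symm
  have hU'fin : Module.finrank K (E'.map (LinearMap.mulLeft K G)) = Module.finrank K E' :=
    (Submodule.equivMapOfInjective _ hinj E').finrank_eq.symm
  have hUB : U ≤ B := by
    rintro _ ⟨e, he, rfl⟩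
    have he' := ShghT.mem_LS.1 he
    refine ShghT.mem_LS.2 ⟨?_, fun i => ?_⟩
    · refine (totalDegree_mul G e).trans ?_
      have := he'.1
      have := hG'.1
      omega
    · exact Ideal.mul_mem_right _ _ (hG'.2 i)
  have hUA : U ⊓ A ≤ E'.map (LinearMap.mulLeft K G) := by
    rintro f ⟨⟨e, he, rfl⟩, hfA⟩
    have he' := ShghT.mem_LS.1 he
    refine ⟨e, ShghT.mem_LS.2 ⟨he'.1, fun _ => ?_⟩, rfl⟩
    exact unit_cancel (p 0) (p 1) μ G e hGp hfA.2
  have : Module.Finite K E := by rw [hE]; infer_instance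
  have : Module.Finite K E' := by rw [hE']; infer_instance
  have : Module.Finite K U := by rw [hU]; infer_instance
  have : Module.Finite K B := by rw [hB]; infer_instance
  have : Module.Finite K A := geo_finite_of_le hAB inferInstance
  have h4 := Submodule.finrank_sup_add_finrank_inf_eq U A
  have h5 := Submodule.finrank_mono (sup_le hUB hAB)
  have h6 := Submodule.finrank_mono hUA
  omega

/-- One further generic point of multiplicity one is a condition on every nonzero system. -/
theorem one_lt {d : ℕ} {h : Multiset ℕ → ℕ} (H : HFun d h) {S : Multiset ℕ} (hS : 1 ≤ h S) :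
    h (1 ::ₘ S) + 1 ≤ h S := by
  by_contra hc
  have h0 : h (0 ::ₘ S) ≤ h ((0 + 1) ::ₘ S) + 0 := by
    rw [H.zero]
    have e : (0 + 1) ::ₘ S = 1 ::ₘ S := rfl
    rw [e]
    omega
  have h1 : ∀ j, h S ≤ h (j ::ₘ S) := by
    intro j
    induction j with
    | zero => rw [H.zero]
    | succ j ih =>
      have h2 := H.mac_from h0 j (Nat.zero_le j) 0 h0 le_rfl
      omega
  have h2 := h1 (d + 1)
  rw [H.big] at h2
  omega

variable (F : Type u) [Field F]

theorem mulFun_hF (D : ℕ) (hD : ∀ n : ℕ, 1 ≤ n → n ≤ D → (n : F) ≠ 0) : MulFun (hF F) D := by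
  classical
  intro d g μ S hd hg hS
  have Hd := hfun_hF F d (fun n h1 h2 => hD n h1 (h2.trans hd))
  rcases Nat.eq_zero_or_pos μ with h0 | h0
  · subst h0
    rw [Hd.zero, T_zero]
    omega
  have hgd : g ≤ d := by omega
  have Hg := hfun_hF F g (fun n h1 h2 => hD n h1 (h2.trans (hgd.trans hd)))
  have h1 := one_lt Hg hS
  rw [geo_hF_cons F g tInv, geo_hF F g tInv] at h1
  have h2 : ¬ geoV F g S.toList ≤ fil (geoV F g S.toList) (up F 0) 1 := by
    intro hle
    have hfin : Module.Finite (UF F) (fil (geoV F g S.toList) (up F 0) 1) :=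
      geo_finite_of_le (geo_fil_le _ _ _) inferInstance
    have := Submodule.finrank_mono hle
    omega
  obtain ⟨G, hG1, hG2⟩ := SetLike.not_le_iff_exists.1 h2
  have hGp : eval ![up F 0 0, up F 0 1] G ≠ 0 := by
    intro h3
    apply hG2
    refine ⟨hG1, ?_⟩
    refine (ShghE.tf_mem_iff _ _ 1 G).2 fun x hx => ?_
    have hx0 : x = 0 := by
      rw [← Finsupp.degree_eq_zero_iff]
      omega
    rw [hx0, coeff_zero_shift]
    exact h3
  have h3 := mul_indep (K := UF F) d g μ (fun i : Fin S.toList.length => S.toList.get i)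
    (fun i => up F (i + 1)) (up F 0) hg hgd G hG1 hGp
  rw [geo_hF_cons F d tInv, geo_hF F d tInv, geo_T]
  exact h3

end ShghI
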