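import Pool.Agent.ShghI.CloseM
import Pool.Agent.ShghI.Mult

/-!
# ShghI, MainR: the relative theorem for generic points

`K` arbitrary and non-special in degree `d` (`hF F d K + TT K = T (d + 1)`), with room. Then
`K + S` has the expected dimension for all `S` with multiplicities `≤ M`, and for all `S` with the
mass condition.
-/

namespace ShghI

open MvPolynomial ShghJ ShghL

universe u

variable (F : Type u) [Field F] (d : ℕ) (hd : ∀ n : ℕ, 1 ≤ n → n ≤ d → (n : F) ≠ 0)

include hd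

theorem hFD (d' : ℕ) (hd' : d' ≤ d) : HFunD d' (hF F d') :=
  hfunD_hF F d' fun n h1 h2 => hd n h1 (h2.trans hd')

/-- RELATIVE WINDOW. -/
theorem hF_rel_window (M k : ℕ) (K S : Multiset ℕ) (hK : hF F d K + TT K = T (d + 1))
    (hroom : 2 * TT K + 3 * k * (d + 1) ≤ 2 * T (d + 1)) (hk : 3 * M * d ≤ k * (k + 1) + 1)
    (hS : ∀ x ∈ S, x ≤ M) :
    (1 ≤ hF F d (K + S) →
      20 * (hF F d (K + S) + TT (K + S)) ≤ 41 * M ^ 2 + 20 * T (d + 1)) ∧
    (18 * (M : ℤ) ^ 2 ≤ 5 * ((T (d + 1) : ℤ) - TT (K + S)) →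
      hF F d (K + S) + TT (K + S) = T (d + 1)) :=
  win_rel (h := hF F) (hFD F d hd) (mulFun_hF F d hd) hK hroom hk hS

/-- RELATIVE THEOREM, bounded multiplicities. -/
theorem hF_rel_full (M k : ℕ) (K S : Multiset ℕ) (hM : 1 ≤ M)
    (hK : hF F d K + TT K = T (d + 1)) (hk : 3 * M * d ≤ k * (k + 1) + 1)
    (hroom : 2 * TT K + (20 * M ^ 2 + 3 * k) * (d + 1) ≤ 2 * T (d + 1))
    (hS : ∀ x ∈ S, x ≤ M) : hF F d (K + S) = T (d + 1) - TT (K + S) :=
  full_rel (h := hF F) (hFD F d hd) (mulFun_hF F d hd) (cmFun_hF' F d hd) hM hK hk hroom hS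

/-- RELATIVE THEOREM, mass condition. -/
theorem hF_rel_mixed (M N k : ℕ) (K S : Multiset ℕ)
    (hK : hF F d K + TT K = T (d + 1)) (hk1 : 1 ≤ k) (hk : 3 * M * d ≤ k * (k + 1) + 1)
    (hroom : 2 * TT K + (2 * N + 3 * k) * (d + 1) ≤ 2 * T (d + 1))
    (hSM : ∀ x ∈ S, x ≤ M)
    (hS : ∀ m ∈ S, 2 ≤ m → 1275 * (m : ℤ) ^ 2 ≤
      max (40 * |(T (d + 1) : ℤ) - TT (K + S)|) (4 * (N : ℤ)) +
        5 * TT (S.filter (fun j => j < m))) :
    hF F d (K + S) = T (d + 1) - TT (K + S) := by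
  refine mixed_rel (h := hF F) (hFD F d hd) (mulFun_hF F d hd) (cmFun_hF' F d hd) hK hk1 hk hroom
    hSM fun m hm h2 => ?_
  have h3 := hS m hm h2
  have h4 : (1275 : ℝ) * (m : ℝ) ^ 2 ≤
      max (40 * |(T (d + 1) : ℝ) - TT (K + S)|) (4 * (N : ℝ)) +
        5 * TT (S.filter (fun j => j < m)) := by exact_mod_cast h3
  have h5 : max (40 * |(T (d + 1) : ℝ) - TT (K + S)|) (4 * (N : ℝ)) =
      5 * max (8 * |(T (d + 1) : ℝ) - TT (K + S)|) (4 * (N : ℝ) / 5) := by
    rw [mul_max_of_nonneg _ _ (by norm_num : (0 : ℝ) ≤ 5)]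
    congr 1
    · ring
    · ring
  rw [h5] at h4
  linarith

/-- GREEDY CRITERION for non-special multisets: the points are added one after the other. -/
theorem hF_greedy (l : List ℕ)
    (hl : ∀ (i : ℕ) (hi : i < l.length), l[i] ≤ d + 1 ∧
      TT ((l.take i : List ℕ) : Multiset ℕ) < T (d + 2 - l[i])) :
    hF F d (l : Multiset ℕ) + TT (l : Multiset ℕ) = T (d + 1) := by
  have key : ∀ n, n ≤ l.length → hF F d ((l.take n : List ℕ) : Multiset ℕ) +
      TT ((l.take n : List ℕ) : Multiset ℕ) = T (d + 1) := by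
    intro n
    induction n with
    | zero =>
      intro _
      have := (hFD F d hd d le_rfl).small 0 (by simp)
      simpa using this
    | succ n ih =>
      intro hn
      have hn' : n < l.length := hn
      rw [take_succ_coe l hn']
      exact cons_indep (h := hF F) (fun d' hd' => (hFD F d hd d' hd').toHFun)
        (mulFun_hF F d hd) (hl n hn').1 (ih (by omega)) (hl n hn').2
  have := key l.length le_rfl
  rwa [List.take_length] at this

/-- Adding a point of multiplicity `w` to a non-special multiset through which there is a curve of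
degree `d + 1 - w`. -/
theorem hF_add_point (K : Multiset ℕ) (w g : ℕ) (hg : g + w ≤ d + 1) (hK1 : 1 ≤ hF F g K)
    (hK : hF F d K + TT K = T (d + 1)) : hF F d (w ::ₘ K) + TT (w ::ₘ K) = T (d + 1) := by
  have h1 := mulFun_hF F d hd d g w K le_rfl hg hK1
  have h2 := (hFD F d hd d le_rfl).chi_le (w ::ₘ K)
  rw [TT_cons] at h2 ⊢
  omega

end ShghI
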