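import Pool.Agent.ShghI.CloseS
import Pool.Agent.ShghI.MainR

/-!
# ShghI, MainS: one arbitrary multiplicity `b ≤ d - 30 M` for generic points
-/

namespace ShghI

open MvPolynomial ShghJ ShghL

universe u

variable (F : Type u) [Field F] (d : ℕ) (hd : ∀ n : ℕ, 1 ≤ n → n ≤ d → (n : F) ≠ 0)

include hd

theorem hFB (d' : ℕ) (hd' : d' ≤ d) : HFunB d' (hF F d') where
  toHFunD := hFD F d hd d' hd'
  super := fun b W h1 h2 h3 => hF_super F d' b h1 W h2 h3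
  redis := fun b w t S W h1 h2 h3 h4 h5 h6 => hF_redis F d' b w t S W h1 h2 h3 h4 h5 h6

/-- WINDOW with one arbitrary multiplicity. -/
theorem hF_super_window (b M : ℕ) (S : Multiset ℕ) (hM : 1 ≤ M) (hb : b + 15 * M ≤ d + 1)
    (hS : ∀ x ∈ S, x ≤ M) :
    (1 ≤ hF F d (b ::ₘ S) → hF F d (b ::ₘ S) + TT (b ::ₘ S) ≤ 6 * M ^ 2 + T (d + 1)) ∧
    (23 * (M : ℤ) ^ 2 ≤ 2 * ((T (d + 1) : ℤ) - TT (b ::ₘ S)) →
      hF F d (b ::ₘ S) + TT (b ::ₘ S) = T (d + 1)) :=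
  win_big (hFB F d hd d le_rfl) hb hM hS

/-- ONE ARBITRARY MULTIPLICITY: `30 M² + 15 M ≤ d` and `b + 30 M ≤ d`. -/
theorem hF_super_full (b M : ℕ) (S : Multiset ℕ) (hM : 1 ≤ M) (hdM : 30 * M ^ 2 + 15 * M ≤ d)
    (hb : b + 30 * M ≤ d) (hS : ∀ x ∈ S, x ≤ M) :
    hF F d (b ::ₘ S) = T (d + 1) - TT (b ::ₘ S) :=
  super_full (h := hF F) (fun d' hd' => hFB F d hd d' hd') (cmFun_hF' F d hd) hM hdM hb hS

end ShghI
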