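import Pool.Agent.ShghI.CloseT
import Pool.Agent.ShghI.MainS

/-!
# ShghI, MainT: the final statements for generic points
-/

namespace ShghI

open MvPolynomial ShghJ ShghL

universe u

/-- The largest member of a multiset. -/
theorem exists_top (S : Multiset ℕ) : ∃ M : ℕ, (∀ m ∈ S, m ≤ M) ∧ (M = 0 ∨ M ∈ S) := by
  induction S using Multiset.induction_on with
  | empty => exact ⟨0, by simp, Or.inl rfl⟩
  | cons a S ih =>
    obtain ⟨M, h1, h2⟩ := ih
    rcases Nat.le_total a M with h3 | h3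
    · refine ⟨M, ?_, ?_⟩
      · intro m hm
        rcases Multiset.mem_cons.1 hm with rfl | hm
        · exact h3
        · exact h1 m hm
      · rcases h2 with h2 | h2
        · exact Or.inl h2
        · exact Or.inr (Multiset.mem_cons_of_mem h2)
    · refine ⟨a, ?_, Or.inr (Multiset.mem_cons_self a S)⟩
      intro m hm
      rcases Multiset.mem_cons.1 hm with rfl | hm
      · exact le_rfl
      · exact (h1 m hm).trans h3

variable (F : Type u) [Field F] (d : ℕ) (hd : ∀ n : ℕ, 1 ≤ n → n ≤ d → (n : F) ≠ 0)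

include hd

/-- ONE ARBITRARY MULTIPLICITY, mass condition. -/
theorem hF_super_mixed (b : ℕ) (S : Multiset ℕ) (hb : b + 100 ≤ d)
    (hSb : ∀ m ∈ S, b + 50 * m ≤ d)
    (hS : ∀ m ∈ S, 2 ≤ m → 1275 * (m : ℤ) ^ 2 ≤
      max (40 * |(T (d + 1) : ℤ) - TT (b ::ₘ S)|) (2 * (d : ℤ)) +
        5 * TT (S.filter (fun j => j < m))) :
    hF F d (b ::ₘ S) = T (d + 1) - TT (b ::ₘ S) := by
  refine mixed_super (h := hF F) (fun d' hd' => hFB F d hd d' hd') (cmFun_hF' F d hd) hb hSb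
    fun m hm h2 => ?_
  have h3 := hS m hm h2
  have h4 : (1275 : ℝ) * (m : ℝ) ^ 2 ≤
      max (40 * |(T (d + 1) : ℝ) - TT (b ::ₘ S)|) (2 * (d : ℝ)) +
        5 * TT (S.filter (fun j => j < m)) := by exact_mod_cast h3
  have h5 : max (40 * |(T (d + 1) : ℝ) - TT (b ::ₘ S)|) (2 * (d : ℝ)) =
      5 * max (8 * |(T (d + 1) : ℝ) - TT (b ::ₘ S)|) (2 * (d : ℝ) / 5) := by
    rw [mul_max_of_nonneg _ _ (by norm_num : (0 : ℝ) ≤ 5)]
    congr 1
    · ring
    · ring
  rw [h5] at h4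
  linarith

/-- Case 1: `K` non-special with room. -/
theorem hF_case1 (M N k : ℕ) (K S : Multiset ℕ) (hK : hF F d K + TT K = T (d + 1))
    (hk1 : 1 ≤ k) (hk : 3 * M * d ≤ k ^ 2) (hSM : ∀ x ∈ S, x ≤ M)
    (hroom : 2 * TT K + (N + 3 * k + 1) * (d + 1) ≤ 2 * T (d + 1))
    (hS : (∀ m ∈ S, 20 * m ^ 2 ≤ N) ∨ ∀ m ∈ S, 2 ≤ m → 1275 * (m : ℤ) ^ 2 ≤
      max (40 * |(T (d + 1) : ℤ) - TT (K + S)|) (2 * (N : ℤ)) +
        5 * TT (S.filter (fun j => j < m))) :
    hF F d (K + S) = T (d + 1) - TT (K + S) := by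
  have hmix : (∀ m ∈ S, 2 ≤ m → 1275 * (m : ℤ) ^ 2 ≤
      max (40 * |(T (d + 1) : ℤ) - TT (K + S)|) (2 * (N : ℤ)) +
        5 * TT (S.filter (fun j => j < m))) → hF F d (K + S) = T (d + 1) - TT (K + S) := by
    intro h
    refine hF_rel_mixed F d hd M ((N + 1) / 2) k K S hK hk1 (by nlinarith) ?_ hSM
      fun m hm h2 => ?_
    · have : (2 * ((N + 1) / 2) + 3 * k) * (d + 1) ≤ (N + 3 * k + 1) * (d + 1) :=
        Nat.mul_le_mul_right _ (by omega)
      omega
    · have h3 := h m hm h2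
      have h4 : max (40 * |(T (d + 1) : ℤ) - TT (K + S)|) (2 * (N : ℤ)) ≤
          max (40 * |(T (d + 1) : ℤ) - TT (K + S)|) (4 * (((N + 1) / 2 : ℕ) : ℤ)) :=
        max_le_max le_rfl (by omega)
      linarith
  rcases hS with hS | hS
  · obtain ⟨M0, h1, h2⟩ := exists_top S
    rcases Nat.eq_zero_or_pos M0 with h0 | h0
    · refine hmix fun m hm h3 => ?_
      have := h1 m hm
      omega
    · have h3 : M0 ∈ S := by
        rcases h2 with h2 | h2
        · omega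
        · exact h2
      have h4 := hS M0 h3
      have h5 := hSM M0 h3
      refine hF_rel_full F d hd M0 k K S h0 hK ?_ ?_ h1
      · have : 3 * M0 * d ≤ 3 * M * d := Nat.mul_le_mul_right _ (by omega)
        nlinarith
      · have : (20 * M0 ^ 2 + 3 * k) * (d + 1) ≤ (N + 3 * k + 1) * (d + 1) :=
          Nat.mul_le_mul_right _ (by omega)
        omega
  · exact hmix hS

/-- Case 2: `2 ΣK + N ≤ d`. -/
theorem hF_case2 (N : ℕ) (K S : Multiset ℕ) (hK : 2 * K.sum + N ≤ d)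
    (hS : (∀ m ∈ S, 72 * m ^ 2 ≤ N) ∨ ∀ m ∈ S, 2 ≤ m → 1275 * (m : ℤ) ^ 2 ≤
      max (40 * |(T (d + 1) : ℤ) - TT (K + S)|) (2 * (N : ℤ)) +
        5 * TT (S.filter (fun j => j < m))) :
    hF F d (K + S) = T (d + 1) - TT (K + S) := by
  have hmix : (∀ m ∈ S, 2 ≤ m → 1275 * (m : ℤ) ^ 2 ≤
      max (40 * |(T (d + 1) : ℤ) - TT (K + S)|) (2 * (N : ℤ)) +
        5 * TT (S.filter (fun j => j < m))) → hF F d (K + S) = T (d + 1) - TT (K + S) := by
    intro h
    refine hF_mixedD F d hd K S (by omega) fun m hm h2 => ?_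
    have h3 := h m hm h2
    have h4 : max (40 * |(T (d + 1) : ℤ) - TT (K + S)|) (2 * (N : ℤ)) ≤
        max (40 * |(T (d + 1) : ℤ) - TT (K + S)|) (2 * ((d : ℤ) - 2 * (K.sum : ℕ))) :=
      max_le_max le_rfl (by omega)
    linarith
  rcases hS with hS | hS
  · obtain ⟨M0, h1, h2⟩ := exists_top S
    rcases Nat.eq_zero_or_pos M0 with h0 | h0
    · refine hmix fun m hm h3 => ?_
      have := h1 m hm
      omega
    · have h3 : M0 ∈ S := by
        rcases h2 with h2 | h2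
        · omega
        · exact h2
      have h4 := hS M0 h3
      exact hF_largeD F d hd M0 K S h0 h1 (by omega)
  · exact hmix hS

/-- Case 3: one arbitrary multiplicity. -/
theorem hF_case3 (N b : ℕ) (S : Multiset ℕ) (hN : N ≤ d) (hb : b + 100 ≤ d)
    (hSb : ∀ m ∈ S, b + 50 * m ≤ d)
    (hS : (∀ m ∈ S, 72 * m ^ 2 ≤ N) ∨ ∀ m ∈ S, 2 ≤ m → 1275 * (m : ℤ) ^ 2 ≤
      max (40 * |(T (d + 1) : ℤ) - TT (b ::ₘ S)|) (2 * (N : ℤ)) +
        5 * TT (S.filter (fun j => j < m))) :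
    hF F d (b ::ₘ S) = T (d + 1) - TT (b ::ₘ S) := by
  have hmix : (∀ m ∈ S, 2 ≤ m → 1275 * (m : ℤ) ^ 2 ≤
      max (40 * |(T (d + 1) : ℤ) - TT (b ::ₘ S)|) (2 * (N : ℤ)) +
        5 * TT (S.filter (fun j => j < m))) →
      hF F d (b ::ₘ S) = T (d + 1) - TT (b ::ₘ S) := by
    intro h
    refine hF_super_mixed F d hd b S hb hSb fun m hm h2 => ?_
    have h3 := h m hm h2
    have h4 : max (40 * |(T (d + 1) : ℤ) - TT (b ::ₘ S)|) (2 * (N : ℤ)) ≤
        max (40 * |(T (d + 1) : ℤ) - TT (b ::ₘ S)|) (2 * (d : ℤ)) :=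
      max_le_max le_rfl (by omega)
    linarith
  rcases hS with hS | hS
  · obtain ⟨M0, h1, h2⟩ := exists_top S
    rcases Nat.eq_zero_or_pos M0 with h0 | h0
    · refine hmix fun m hm h3 => ?_
      have := h1 m hm
      omega
    · have h3 : M0 ∈ S := by
        rcases h2 with h2 | h2
        · omega
        · exact h2
      have h4 := hS M0 h3
      have h5 := hSb M0 h3
      have h6 : M0 ≤ M0 ^ 2 := Nat.le_self_pow (by norm_num) _
      exact hF_super_full F d hd b M0 S h0 (by omega) (by omega) h1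
  · exact hmix hS

end ShghI
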