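import Pool.Agent.ShghJ.CombD2

/-!
# ShghI, ClaimD: bad configurations and amplification with a general base multiset `K` (sharp form)

The configurations are the multisets `W` with members `≤ k` and sum `≤ D1`. `base`: the conditions
`W + K` are independent. `amp`: a member of multiplicity `w` at a further generic point gives, for
all `τ ≤ reach w`, a member with the multiplicities `W''` (members `≤ k`, sum `τ`, mass `≥ G τ`).
-/

namespace ShghI

open ShghJ

variable {d : ℕ} {h : Multiset ℕ → ℕ}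

/-- The first bad step of a special chain which starts at a non-special multiset. -/
theorem first_bad' (H : HFun d h) (m : List ℕ) (W : Multiset ℕ) (hW : h W + TT W = T (d + 1)) :
    ∀ l, l ≤ m.length → 1 ≤ h (((m.take l : List ℕ) : Multiset ℕ) + W) →
      (h (((m.take l : List ℕ) : Multiset ℕ) + W) + TT (((m.take l : List ℕ) : Multiset ℕ) + W)
        = T (d + 1)) ∨
      ∃ (l1 : ℕ) (h1 : l1 < m.length), l1 < l ∧
        Bad h (((m.take l1 : List ℕ) : Multiset ℕ) + W) m[l1] ∧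
        h (((m.take l1 : List ℕ) : Multiset ℕ) + W) +
          TT (((m.take l1 : List ℕ) : Multiset ℕ) + W) = T (d + 1) := by
  intro l
  induction l with
  | zero =>
    intro _ _
    left
    simpa using hW
  | succ l ih =>
    intro hl hh
    have hl' : l < m.length := hl
    have e : ((m.take (l + 1) : List ℕ) : Multiset ℕ) + W =
        m[l] ::ₘ (((m.take l : List ℕ) : Multiset ℕ) + W) := by
      rw [take_succ_coe m hl', Multiset.cons_add]
    rw [e] at hh ⊢
    rcases ih (by omega) (hh.trans (H.cons_le _ _)) with h1 | ⟨l1, h1, h2, h3, h4⟩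
    · by_cases hb : Bad h (((m.take l : List ℕ) : Multiset ℕ) + W) m[l]
      · exact Or.inr ⟨l, hl', Nat.lt_succ_self _, hb, h1⟩
      · left
        have h5 : h (m[l] ::ₘ (((m.take l : List ℕ) : Multiset ℕ) + W)) + T m[l] ≤
            h (((m.take l : List ℕ) : Multiset ℕ) + W) := by
          by_contra hc
          exact hb ⟨hh, by omega⟩
        have h6 := H.le_add_T (((m.take l : List ℕ) : Multiset ℕ) + W) m[l]
        rw [TT_cons]
        omega
    · exact Or.inr ⟨l1, h1, by omega, h3, h4⟩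

/-- The numerical condition on the bound `F`, potential `ω - κ σ - F`. -/
def HCE (d D1 : ℕ) (reach G : ℕ → ℕ) (κ : ℝ) (m : List ℕ) (F : ℕ → ℝ) : Prop :=
  ∀ (l1 l : ℕ) (h1 : l1 < l) (h2 : l < m.length), 2 ≤ m[l1]'(h1.trans h2) → 2 ≤ m[l] →
    ∀ w s w' w1 : ℕ, w ≤ d → w1 ≤ d → w' ≤ w → s + w' ≤ D1 →
      (w' = reach w ∨ w' + s = D1) → F l + κ * s < w → m[l] ≤ w →
      m[l1]'(h1.trans h2) ≤ w1 →
      (w1 : ℝ) ≤ w + κ * w' + F l1 - F l →
      (∀ B : ℕ, (∀ z ∈ (m.take l).drop l1, z ≤ B) →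
        2 * TT (((m.take l).drop l1 : List ℕ) : Multiset ℕ) + 4 ≤
            2 * (m[l1]'(h1.trans h2) * w1) + B * w1 ∧
        2 * (G w' : ℝ) + 2 ≤ ((m[l] : ℕ) - 1) * (2 * w + 4 - (m[l] : ℕ)) + B * w1) → False

/-- The numerical condition when the new chain has no bad step. -/
def HCE0 (d D1 : ℕ) (reach G : ℕ → ℕ) (κ : ℝ) (m : List ℕ) (F : ℕ → ℝ) : Prop :=
  ∀ (l : ℕ) (h2 : l < m.length), 2 ≤ m[l] → ∀ w s w' : ℕ, w ≤ d → w' ≤ w → s + w' ≤ D1 →
      (w' = reach w ∨ w' + s = D1) → F l + κ * s < w → m[l] ≤ w →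
      2 * (G w' : ℝ) + 2 ≤ ((m[l] : ℕ) - 1) * (2 * w + 4 - (m[l] : ℕ)) → False

/-- The data of a base multiset. -/
structure BaseD (d : ℕ) (h : Multiset ℕ → ℕ) (K : Multiset ℕ) (k D1 : ℕ) (reach G : ℕ → ℕ) :
    Prop where
  reach_le : ∀ w, reach w ≤ w
  base : ∀ W : Multiset ℕ, (∀ w ∈ W, w ≤ k) → W.sum ≤ D1 → h (W + K) + TT (W + K) = T (d + 1)
  amp : ∀ (S : Multiset ℕ) (w τ : ℕ), τ ≤ reach w → w ≤ d → 1 ≤ h (w ::ₘ (S + K)) →
    ∃ W : Multiset ℕ, (∀ x ∈ W, x ≤ k) ∧ W.sum = τ ∧ G τ ≤ TT W ∧ 1 ≤ h (W + (S + K))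

/-- THE AMPLIFICATION: all bad configurations satisfy `ω ≤ κ σ + F`. -/
theorem claimE (H : HFunD d h) (κ : ℝ) (m : List ℕ) (F : ℕ → ℝ) {K : Multiset ℕ} {k D1 : ℕ}
    {reach G : ℕ → ℕ} (HB : BaseD d h K k D1 reach G)
    (HF0 : HCE0 d D1 reach G κ m F) (HF : HCE d D1 reach G κ m F) :
    ∀ (l : ℕ) (hl : l < m.length) (W : Multiset ℕ), (∀ w ∈ W, w ≤ k) → W.sum ≤ D1 →
      Bad h (((m.take l : List ℕ) : Multiset ℕ) + (W + K)) m[l] →
      (om h d (((m.take l : List ℕ) : Multiset ℕ) + (W + K)) : ℝ) ≤ κ * W.sum + F l := by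
  classical
  by_contra hcon
  push Not at hcon
  obtain ⟨l0, hl0, W0, hk0, hW0, hb0, hv0⟩ := hcon
  let P : ℕ × ℕ × ℕ → Prop := fun p => ∃ (hl : p.1 < m.length) (W : Multiset ℕ),
    (∀ w ∈ W, w ≤ k) ∧ W.sum ≤ D1 ∧ Bad h (((m.take p.1 : List ℕ) : Multiset ℕ) + (W + K)) m[p.1] ∧
    W.sum = p.2.1 ∧ om h d (((m.take p.1 : List ℕ) : Multiset ℕ) + (W + K)) = p.2.2
  let Z : Finset (ℕ × ℕ × ℕ) :=
    (Finset.range m.length ×ˢ Finset.range (D1 + 1) ×ˢ Finset.range (d + 1)).filter P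
  have hmem : ∀ (l : ℕ) (hl : l < m.length) (W : Multiset ℕ), (∀ w ∈ W, w ≤ k) → W.sum ≤ D1 →
      Bad h (((m.take l : List ℕ) : Multiset ℕ) + (W + K)) m[l] →
      (l, W.sum, om h d (((m.take l : List ℕ) : Multiset ℕ) + (W + K))) ∈ Z := by
    intro l hl W hk h1 h2
    have h4 : om h d (((m.take l : List ℕ) : Multiset ℕ) + (W + K)) ≤ d := om_le _
    refine Finset.mem_filter.2 ⟨Finset.mem_product.2 ⟨Finset.mem_range.2 hl,
      Finset.mem_product.2 ⟨Finset.mem_range.2 ?_, Finset.mem_range.2 ?_⟩⟩, hl, W, hk, h1, h2, rfl,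
      rfl⟩
    · show W.sum < D1 + 1
      omega
    · show om h d (((m.take l : List ℕ) : Multiset ℕ) + (W + K)) < d + 1
      omega
  have hz0 := hmem l0 hl0 W0 hk0 hW0 hb0
  obtain ⟨⟨l, s, w⟩, hz, hmax⟩ :=
    Finset.exists_max_image Z (fun p => (p.2.2 : ℝ) - κ * p.2.1 - F p.1) ⟨_, hz0⟩
  have hpos : (0 : ℝ) < w - κ * s - F l := by
    have h1 := hmax _ hz0
    simp only at h1
    linarith
  obtain ⟨hl, W, hkW, hW, hb, hsW, hwW⟩ := (Finset.mem_filter.1 hz).2
  simp only at hl hb hsW hwW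
  set S : Multiset ℕ := ((m.take l : List ℕ) : Multiset ℕ) + (W + K) with hSdef
  have hωd : w ≤ d := by rw [← hwW]; exact om_le _
  have hsd : s ≤ D1 := by rw [← hsW]; exact hW
  have hSpos : 1 ≤ h S := H.bad_pos hb
  obtain ⟨w', hw'r, hw'd, hw'c⟩ : ∃ w', w' ≤ reach w ∧ s + w' ≤ D1 ∧
      (w' = reach w ∨ w' + s = D1) := by
    refine ⟨min (reach w) (D1 - s), min_le_left _ _, ?_, ?_⟩
    · have : min (reach w) (D1 - s) ≤ D1 - s := min_le_right _ _
      omega
    · rcases min_choice (reach w) (D1 - s) with h1 | h1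
      · exact Or.inl h1
      · right; rw [h1]; omega
  have hw'w : w' ≤ w := hw'r.trans (HB.reach_le w)
  have hSw : 1 ≤ h (w ::ₘ S) := H.pos_of_le_om hSpos (by rw [hwW])
  have hSK : S = ((m.take l : List ℕ) : Multiset ℕ) + W + K := by rw [hSdef, add_assoc]
  rw [hSK] at hSw
  obtain ⟨W2, hkW2, hW2sum, hGW2, hS'⟩ := HB.amp _ w w' hw'r hωd hSw
  rw [← hSK] at hS'
  set W' : Multiset ℕ := W2 + W with hW'def
  have hW'sum : W'.sum = w' + s := by rw [hW'def, Multiset.sum_add, hW2sum, hsW]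
  have hkW' : ∀ x ∈ W', x ≤ k := by
    intro x hx
    rcases Multiset.mem_add.1 hx with h1 | h1
    · exact hkW2 x h1
    · exact hkW x h1
  have eS' : ((m.take l : List ℕ) : Multiset ℕ) + (W' + K) = W2 + S := by
    rw [hW'def, hSdef, add_assoc W2 W K]
    exact add_left_comm _ _ _
  have hN2 : 2 * (h S : ℝ) ≤ ((m[l] : ℕ) - 1) * (2 * w + 4 - (m[l] : ℕ)) := by
    rw [← hwW]; exact H.bad_two_N hb
  have hchi := H.chi_le S
  have hm2 := H.bad_two_le hb
  have hmw : m[l] ≤ w := by rw [← hwW]; exact H.bad_le_om hb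
  have hFl : F l + κ * s < w := by linarith
  have hTT2 : TT (W2 + S) = TT W2 + TT S := TT_add _ _
  rcases first_bad' H.toHFun m (W' + K) (HB.base W' hkW' (by omega)) l hl.le
      (by rw [eS']; exact hS') with
    hz1 | ⟨l1, hl1m, hl1, hb1, he1⟩
  · rw [eS'] at hz1
    have h1 : G w' + 1 ≤ h S := by omega
    have h2 : (G w' : ℝ) + 1 ≤ h S := by exact_mod_cast h1
    exact HF0 l hl hm2 w s w' hωd hw'w hw'd hw'c hFl hmw (by linarith)
  · set S1 : Multiset ℕ := ((m.take l1 : List ℕ) : Multiset ℕ) + (W' + K) with hS1def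
    set w1 := om h d S1 with hw1def
    have hw1d : w1 ≤ d := om_le _
    have hm1w : m[l1] ≤ w1 := H.bad_le_om hb1
    have hm12 := H.bad_two_le hb1
    have hN1 : h S1 < m[l1] * w1 := H.bad_lt hb1
    have hy : (w1 : ℝ) ≤ w + κ * w' + F l1 - F l := by
      have h2 := hmem l1 hl1m W' hkW' (by rw [hW'sum]; omega) hb1
      have h3 := hmax _ h2
      simp only at h3
      rw [hW'sum, Nat.cast_add] at h3
      have h4 : (w1 : ℝ) - κ * (w' + s) - F l1 ≤ w - κ * s - F l := h3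
      linarith
    have hseg : ((m.take l : List ℕ) : Multiset ℕ) + (W' + K) =
        (((m.take l).drop l1 : List ℕ) : Multiset ℕ) + S1 := by
      rw [take_eq_drop_add m hl1.le, hS1def, add_assoc]
    have hS'' : 1 ≤ h ((((m.take l).drop l1 : List ℕ) : Multiset ℕ) + S1) := by
      rw [← hseg, eS']; exact hS'
    refine HF l1 l hl1 hl hm12 hm2 w s w' w1 hωd hw1d hw'w hw'd hw'c hFl hmw hm1w hy ?_
    intro B hB
    have h1 := H.chainD _ S1 hS'' hB
    have h3 : TT (W2 + S) = TT (((m.take l).drop l1 : List ℕ) : Multiset ℕ) + TT S1 := by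
      rw [← eS', hseg, TT_add]
    rw [← hw1def] at h1
    constructor
    · omega
    · have h5 : 2 * G w' + 2 ≤ 2 * h S + B * w1 := by omega
      have h6 : 2 * (G w' : ℝ) + 2 ≤ 2 * h S + B * w1 := by exact_mod_cast h5
      linarith

/-- The final form: a special effective system `m + K` has a first bad step with `ω ≤ F`. -/
theorem finalE (H : HFunD d h) (κ : ℝ) (m : List ℕ) (F : ℕ → ℝ) {K : Multiset ℕ} {k D1 : ℕ}
    {reach G : ℕ → ℕ} (HB : BaseD d h K k D1 reach G)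
    (HF0 : HCE0 d D1 reach G κ m F) (HF : HCE d D1 reach G κ m F)
    (hpos : 1 ≤ h ((m : Multiset ℕ) + K))
    (he : T (d + 1) < h ((m : Multiset ℕ) + K) + TT ((m : Multiset ℕ) + K)) :
    ∃ (l : ℕ) (hl : l < m.length) (y : ℕ) (A : Multiset ℕ),
      A = ((m.take l : List ℕ) : Multiset ℕ) + K ∧
      (m : Multiset ℕ) + K = ((m.drop l : List ℕ) : Multiset ℕ) + A ∧
      2 ≤ m[l] ∧ (y : ℝ) ≤ F l ∧ m[l] ≤ y ∧ y ≤ d ∧
      (∀ x ∈ m.drop l, x ≤ y) ∧ h A + TT A = T (d + 1) ∧ 1 ≤ h A ∧ h A < m[l] * y ∧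
      2 * (h A : ℝ) ≤ ((m[l] : ℕ) - 1) * (2 * y + 4 - (m[l] : ℕ)) ∧
      (∀ B : ℕ, (∀ x ∈ m.drop l, x ≤ B) →
        2 * TT (m.drop l) + 2 * h ((m : Multiset ℕ) + K) ≤ 2 * h A + B * y) ∧
      (∀ μ : ℕ, (∀ x ∈ m.drop l, μ ≤ x) →
        (m.drop l).length * (μ * (μ + 1)) + 2 * h ((m : Multiset ℕ) + K) ≤
          2 * h A + μ * y) := by
  have hclaim := claimE H κ m F HB HF0 HF
  have hb0 := HB.base 0 (by simp) (by simp)
  rw [zero_add] at hb0
  have hfb := first_bad' H.toHFun m K hb0 m.length le_rfl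
    (by rw [List.take_length]; exact hpos)
  rw [List.take_length] at hfb
  rcases hfb with h1 | ⟨l, hl, _, hb, he1⟩
  · omega
  · have hω := hclaim l hl 0 (by simp) (by simp) (by rw [zero_add]; exact hb)
    rw [zero_add, Multiset.sum_zero, Nat.cast_zero, mul_zero, zero_add] at hω
    have hm2 := H.bad_two_le hb
    have hmω := H.bad_le_om hb
    have hN1 := H.bad_lt hb
    have hN2 := H.bad_two_N hb
    have hA1 := H.bad_pos hb
    have hsplit : (m : Multiset ℕ) + K = ((m.drop l : List ℕ) : Multiset ℕ) +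
        (((m.take l : List ℕ) : Multiset ℕ) + K) := by
      have := take_eq_drop_add m (l1 := l) (l := m.length) hl.le
      rw [List.take_length] at this
      rw [this, add_assoc]
    have hpos' := hpos
    rw [hsplit] at hpos'
    refine ⟨l, hl, _, _, rfl, hsplit, hm2, hω, hmω, om_le _, ?_, he1, hA1, hN1, hN2, ?_, ?_⟩
    · intro x hx
      have h1 : 1 ≤ h (x ::ₘ (((m.take l : List ℕ) : Multiset ℕ) + K)) := by
        obtain ⟨A, B, hAB⟩ := List.append_of_mem hx
        have h2 : ((m.drop l : List ℕ) : Multiset ℕ) +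
            (((m.take l : List ℕ) : Multiset ℕ) + K) =
            ((A : Multiset ℕ) + (B : Multiset ℕ)) +
              (x ::ₘ (((m.take l : List ℕ) : Multiset ℕ) + K)) := by
          rw [hAB, ← Multiset.coe_add, ← Multiset.cons_coe, Multiset.add_cons, Multiset.add_cons,
            Multiset.cons_add]
        rw [h2] at hpos'
        exact hpos'.trans (H.add_le _ _)
      exact H.le_om h1
    · intro B hB
      have h1 := H.chainD _ _ hpos' hB
      rw [← hsplit] at h1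
      exact (Nat.le_add_right _ _).trans h1
    · intro μ hμ
      have h1 := H.chainCount _ _ hpos' hμ
      rw [← hsplit] at h1
      exact (Nat.le_add_right _ _).trans h1

end ShghI
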