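import Pool.Agent.ShghI.CloseR

/-!
# ShghI, CloseM: the relative theorem, mass condition
-/

namespace ShghI

open ShghJ ShghL

variable {h : ℕ → Multiset ℕ → ℕ} {d k M N : ℕ} {K S : Multiset ℕ}

/-- The mass property of the base multisets `K` and `n ::ₘ K`. -/
def MassProp (h : Multiset ℕ → ℕ) (d k M : ℕ) (K : Multiset ℕ) : Prop :=
  ∀ K1 : Multiset ℕ, (K1 = K ∨ ∃ n, K1 = n ::ₘ K) → h K1 + TT K1 = T (d + 1) →
    2 * TT K1 + 3 * k * (d + 1) ≤ 2 * T (d + 1) → ∀ S : Multiset ℕ, (∀ x ∈ S, x ≤ M) →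
    ∀ x : ℝ, 0 ≤ x →
    (∀ m ∈ S, 2 ≤ m → 62 * (m : ℝ) ^ 2 ≤ x + TT (S.filter (fun j => j < m))) →
    x ≤ 8 * |(T (d + 1) : ℝ) - TT (K1 + S)| → h (K1 + S) = T (d + 1) - TT (K1 + S)

/-- RELATIVE THEOREM, mass condition, from the mass property. -/
theorem mixed_core (H : ∀ d' ≤ d, HFunD d' (h d')) (Mu : MulFun h d) (C : CMFun h d)
    (hK : h d K + TT K = T (d + 1)) (hk1 : 1 ≤ k)
    (hroom : 2 * TT K + (2 * N + 3 * k) * (d + 1) ≤ 2 * T (d + 1))
    (hSM : ∀ x ∈ S, x ≤ M) (hW : MassProp (h d) d k M K)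
    (hS : ∀ m ∈ S, 2 ≤ m → 255 * (m : ℝ) ^ 2 ≤
      max (8 * |(T (d + 1) : ℝ) - TT (K + S)|) (4 * (N : ℝ) / 5) +
        TT (S.filter (fun j => j < m))) :
    h d (K + S) = T (d + 1) - TT (K + S) := by
  have hHF : ∀ d' ≤ d, HFun d' (h d') := fun d' hd' => (H d' hd').toHFun
  have hS' : ∀ m ∈ S, 2 ≤ m → 255 * (m : ℝ) ^ 2 ≤
      max (8 * |(T (d + 1) : ℝ) - TT (K + S)|) (4 * (N : ℝ) / 5) + rr S m := hS
  have hroom3 : 2 * TT K + 3 * k * (d + 1) ≤ 2 * T (d + 1) := by nlinarith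
  obtain ⟨Y, hY⟩ : ∃ Y : ℝ, Y = 2 * (N : ℝ) / 5 := ⟨_, rfl⟩
  have hY2 : 4 * (N : ℝ) / 5 = 2 * Y := by rw [hY]; ring
  rw [hY2] at hS'
  have habs := abs_nonneg ((T (d + 1) : ℝ) - TT (K + S))
  by_cases h1 : 2 * Y ≤ 8 * |(T (d + 1) : ℝ) - TT (K + S)|
  · refine hW K (Or.inl rfl) hK hroom3 S hSM (8 * |(T (d + 1) : ℝ) - TT (K + S)|)
      (by positivity) (fun m hm h2m => ?_) le_rfl
    have e1 := hS' m hm h2m
    rw [max_eq_left h1] at e1
    change _ ≤ _ + (rr S m : ℝ)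
    nlinarith [sq_nonneg (m : ℝ)]
  rw [not_le] at h1
  have hS2 : ∀ m ∈ S, 2 ≤ m → 255 * (m : ℝ) ^ 2 ≤ 2 * Y + rr S m := by
    intro m hm h2m
    have e1 := hS' m hm h2m
    rwa [max_eq_right h1.le] at e1
  by_cases h2 : 2 * Y ≤ 512
  · refine hW K (Or.inl rfl) hK hroom3 S hSM 0 le_rfl (fun m hm h2m => ?_) (by positivity)
    have e1 := hS2 m hm h2m
    change _ ≤ _ + (rr S m : ℝ)
    have e2 : (2 : ℝ) ≤ m := by exact_mod_cast h2m
    nlinarith
  rw [not_le] at h2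
  have hNY : 2.5 * Y ≤ (N : ℝ) := by
    rw [hY]
    linarith
  have hNr : (640 : ℝ) ≤ N := by linarith
  have hNn : 640 ≤ N := by exact_mod_cast hNr
  have hT := two_T (d + 1)
  have h2N : 2 * N + 3 * k ≤ d + 2 := by
    by_contra hc
    push Not at hc
    have h1 : (d + 3) * (d + 1) ≤ (2 * N + 3 * k) * (d + 1) := Nat.mul_le_mul_right _ hc
    nlinarith
  have e1 : (TT (K + S) : ℝ) = TT K + TT S := by
    rw [TT_add]
    push_cast
    ring
  have hχ : |(T (d + 1) : ℝ) - TT (K + S)| < 1 / 4 * Y := by linarith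
  rw [abs_lt] at hχ
  have hroomR : 2 * (TT K : ℝ) + (2 * N + 3 * k) * (d + 1) ≤ 2 * T (d + 1) := by
    exact_mod_cast hroom
  have hk1r : (1 : ℝ) ≤ k := by exact_mod_cast hk1
  have hmass : (1.92 : ℝ) * T N ≤ TT S := by
    have g1 : (T N : ℝ) = (N : ℝ) * (N + 1) / 2 := T_real N
    have g2 : 2 * (N : ℝ) + 3 ≤ d + 2 := by
      have : 2 * N + 3 ≤ d + 2 := by omega
      exact_mod_cast this
    have g3 : (2 * (N : ℝ) + 3) * (2 * N + 2) ≤ (2 * N + 3 * k) * (d + 1) :=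
      mul_le_mul (by linarith) (by linarith) (by linarith) (by linarith)
    have g4 : Y ≤ N := by linarith
    rw [g1]
    nlinarith
  obtain ⟨A, B, n, p1, p2, p3, p4, p5, p6, p7⟩ := choose_partsD (by linarith) hNY hmass hS2
  have hn3 : 3 ≤ n := by
    have : (3 : ℝ) ≤ n := by linarith
    exact_mod_cast this
  obtain ⟨κ, rfl⟩ : ∃ κ, n = κ + 1 := ⟨n - 1, by omega⟩
  have hroomκ : 2 * TT K + (2 * κ + 3 * k) * (d + 1) ≤ 2 * T (d + 1) := by
    have : (2 * κ + 3 * k) * (d + 1) ≤ (2 * N + 3 * k) * (d + 1) :=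
      Nat.mul_le_mul_right _ (by omega)
    omega
  obtain ⟨i1, i2⟩ := room_cons hHF Mu (r := 3 * k) (N := κ) (n := κ) hK hroomκ (by omega)
    (by omega) (by omega)
  obtain ⟨j1, j2⟩ := room_cons hHF Mu (r := 3 * k) (N := κ) (n := κ + 1) hK hroomκ (by omega)
    (by omega) le_rfl
  have hκ1 : 1 ≤ κ := by omega
  have hκd : κ ≤ d := by omega
  have hTκ : (T (κ + 1) : ℝ) = T κ + (κ + 1) := by
    rw [T_succ]
    push_cast
    ring
  have hc : (((κ + 1 : ℕ) : ℝ)) = κ + 1 := by push_cast; ring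
  rw [hc] at p3 p5
  have e2 : (TT S : ℝ) = TT A + TT B := by
    rw [p1, TT_add]
    push_cast
    ring
  have e3 : (TT (K + A) : ℝ) = TT K + TT A := by
    rw [TT_add]
    push_cast
    ring
  have hKA : K + S = (K + A) + B := by rw [p1, add_assoc]
  have hAM : ∀ x ∈ A, x ≤ M := fun x hx => hSM x (by rw [p1]; exact Multiset.mem_add.2 (Or.inl hx))
  have hp6 : ∀ m ∈ A, 2 ≤ m → 62 * (m : ℝ) ^ 2 ≤ 2.04 * Y + TT (A.filter (fun j => j < m)) := by
    intro m hm h2m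
    have := p6 m hm h2m
    change _ ≤ _ + (rr A m : ℝ)
    nlinarith [sq_nonneg (m : ℝ)]
  have hp7 : ∀ m ∈ B, 2 ≤ m → 127 * (m : ℝ) ^ 2 ≤ Y + TT (B.filter (fun j => j < m)) := p7
  rw [hKA]
  refine close_core (κ := κ) (H d le_rfl).toHFun C hκ1 hκd ?_ ?_ ?_ ?_
  · have q1 := yBaseD κ (h κ) (H κ hκd) 0 B Y (by simp) (by linarith) hp7 (by
      rw [zero_add, abs_of_nonneg (by linarith)]
      linarith)
    rw [zero_add] at q1
    have q2 : TT B ≤ T (κ + 1) := by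
      have : (TT B : ℝ) ≤ T (κ + 1) := by linarith
      exact_mod_cast this
    omega
  · have q0 : κ - 1 + 1 = κ := by omega
    have q1 := yBaseD (κ - 1) (h (κ - 1)) (H (κ - 1) (by omega)) 0 B Y (by simp) (by linarith)
      hp7 (by
        rw [zero_add, q0, abs_of_nonpos (by linarith)]
        linarith)
    rw [zero_add, q0] at q1
    have q2 : T κ ≤ TT B := by
      have : (T κ : ℝ) ≤ TT B := by linarith
      exact_mod_cast this
    omega
  · have q3 : (TT ((κ ::ₘ K) + A) : ℝ) = T κ + TT (K + A) := by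
      rw [Multiset.cons_add, TT_cons]
      push_cast
      ring
    have q1 := hW (κ ::ₘ K) (Or.inr ⟨_, rfl⟩) i1 i2 A hAM (2.04 * Y) (by linarith) hp6 (by
      rw [q3, abs_of_nonneg (by linarith)]
      linarith)
    rw [Multiset.cons_add, TT_cons] at q1
    have q2 : T κ + TT (K + A) ≤ T (d + 1) := by
      have : (T κ : ℝ) + TT (K + A) ≤ T (d + 1) := by linarith
      exact_mod_cast this
    omega
  · have q3 : (TT (((κ + 1) ::ₘ K) + A) : ℝ) = T (κ + 1) + TT (K + A) := by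
      rw [Multiset.cons_add, TT_cons]
      push_cast
      ring
    have q1 := hW ((κ + 1) ::ₘ K) (Or.inr ⟨_, rfl⟩) j1 j2 A hAM (2.04 * Y) (by linarith) hp6 (by
      rw [q3, abs_of_nonpos (by linarith)]
      linarith)
    rw [Multiset.cons_add, TT_cons] at q1
    have q2 : T (d + 1) ≤ T (κ + 1) + TT (K + A) := by
      have : (T (d + 1) : ℝ) ≤ T (κ + 1) + TT (K + A) := by linarith
      exact_mod_cast this
    omega

/-- RELATIVE THEOREM, mass condition. -/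
theorem mixed_rel (H : ∀ d' ≤ d, HFunD d' (h d')) (Mu : MulFun h d) (C : CMFun h d)
    (hK : h d K + TT K = T (d + 1)) (hk1 : 1 ≤ k) (hk : 3 * M * d ≤ k * (k + 1) + 1)
    (hroom : 2 * TT K + (2 * N + 3 * k) * (d + 1) ≤ 2 * T (d + 1))
    (hSM : ∀ x ∈ S, x ≤ M)
    (hS : ∀ m ∈ S, 2 ≤ m → 255 * (m : ℝ) ^ 2 ≤
      max (8 * |(T (d + 1) : ℝ) - TT (K + S)|) (4 * (N : ℝ) / 5) +
        TT (S.filter (fun j => j < m))) :
    h d (K + S) = T (d + 1) - TT (K + S) :=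
  mixed_core H Mu C hK hk1 hroom hSM
    (fun K1 _ h1 h2 S hS x hx0 hm hx => mass_rel H Mu h1 h2 hk hS hx0 hm hx) hS

end ShghI
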