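import Pool.Agent.ShghI.WinR

/-!
# ShghI, CloseR: the relative theorem for bounded multiplicities
-/

namespace ShghI

open ShghJ ShghL

variable {h : ℕ → Multiset ℕ → ℕ} {d k M : ℕ} {K S : Multiset ℕ}

/-- A large point added to a non-special multiset with room. -/
theorem room_cons (H : ∀ d' ≤ d, HFun d' (h d')) (Mu : MulFun h d) {r N n : ℕ}
    (hK : h d K + TT K = T (d + 1))
    (hroom : 2 * TT K + (2 * N + r) * (d + 1) ≤ 2 * T (d + 1)) (hN : 2 ≤ N) (hr : 1 ≤ r)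
    (hn : n ≤ N + 1) :
    h d (n ::ₘ K) + TT (n ::ₘ K) = T (d + 1) ∧
      2 * TT (n ::ₘ K) + r * (d + 1) ≤ 2 * T (d + 1) := by
  have hT := two_T (d + 1)
  have h2N : 2 * N + r ≤ d + 2 := by
    by_contra hc
    push Not at hc
    have h1 : (d + 3) * (d + 1) ≤ (2 * N + r) * (d + 1) := Nat.mul_le_mul_right _ hc
    nlinarith
  have hnd : n ≤ d + 1 := by omega
  constructor
  · refine cons_indep H Mu hnd hK ?_
    rcases Nat.eq_zero_or_pos n with h0 | h0
    · subst h0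
      have h5 : T (d + 1) + (d + 2) = T (d + 2) := (T_succ (d + 1)).symm
      rw [Nat.sub_zero]
      omega
    · have h3 := two_T_sub h0 hnd
      have h4 : 2 * (n - 1) * (d + 1) ≤ 2 * N * (d + 1) :=
        Nat.mul_le_mul_right _ (by omega)
      nlinarith
  · rw [TT_cons]
    have h3 := two_T n
    have h4 : n * (n + 1) ≤ 2 * N * (d + 1) := by
      rcases Nat.lt_or_ge n 2 with h5 | h5
      · have h6 : n * (n + 1) ≤ 2 := by
          interval_cases n
          · omega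
          · omega
        have h7 : 2 * 1 * 1 ≤ 2 * N * (d + 1) :=
          Nat.mul_le_mul (Nat.mul_le_mul_left _ (by omega)) (by omega)
        omega
      · exact Nat.mul_le_mul (by omega) (by omega)
    nlinarith

/-- The window property of the base multisets `K` and `n ::ₘ K`. -/
def WinProp (h : Multiset ℕ → ℕ) (d k M : ℕ) (K : Multiset ℕ) : Prop :=
  ∀ K1 : Multiset ℕ, (K1 = K ∨ ∃ n, K1 = n ::ₘ K) → h K1 + TT K1 = T (d + 1) →
    2 * TT K1 + 3 * k * (d + 1) ≤ 2 * T (d + 1) → ∀ S : Multiset ℕ, (∀ x ∈ S, x ≤ M) →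
    (1 ≤ h (K1 + S) → 20 * (h (K1 + S) + TT (K1 + S)) ≤ 41 * M ^ 2 + 20 * T (d + 1)) ∧
    (18 * (M : ℤ) ^ 2 ≤ 5 * ((T (d + 1) : ℤ) - TT (K1 + S)) →
      h (K1 + S) + TT (K1 + S) = T (d + 1))

/-- RELATIVE THEOREM for bounded multiplicities, from the window property. -/
theorem full_core (H : ∀ d' ≤ d, HFunD d' (h d')) (Mu : MulFun h d) (C : CMFun h d)
    (hM : 1 ≤ M) (hK : h d K + TT K = T (d + 1)) (hk1 : 1 ≤ k)
    (hroom : 2 * TT K + (20 * M ^ 2 + 3 * k) * (d + 1) ≤ 2 * T (d + 1))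
    (hW : WinProp (h d) d k M K)
    (hS : ∀ x ∈ S, x ≤ M) : h d (K + S) = T (d + 1) - TT (K + S) := by
  have hM2 : 1 ≤ M ^ 2 := Nat.one_le_pow _ _ hM
  have hTM : 4 * T M ≤ 3 * M ^ 2 + 1 := by
    have h1 := two_T M
    have h2 : 2 * M ≤ M ^ 2 + 1 := by
      zify
      nlinarith [sq_nonneg ((M : ℤ) - 1)]
    nlinarith
  have hHF : ∀ d' ≤ d, HFun d' (h d') := fun d' hd' => (H d' hd').toHFun
  have hT := two_T (d + 1)
  have h2κ : 20 * M ^ 2 + 3 * k ≤ d + 2 := by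
    by_contra hc
    push Not at hc
    have h1 : (d + 3) * (d + 1) ≤ (20 * M ^ 2 + 3 * k) * (d + 1) := Nat.mul_le_mul_right _ hc
    nlinarith
  have hlow := (H d le_rfl).toHFun.chi_le (K + S)
  obtain ⟨hwin1, hwin2⟩ := hW K (Or.inl rfl) hK (by nlinarith) S hS
  set w := M ^ 2 with hw
  have hwM : (w : ℤ) = (M : ℤ) ^ 2 := by rw [hw]; push_cast; rfl
  rw [← hwM] at hwin2
  by_cases hχ : 18 * (w : ℤ) ≤ 5 * ((T (d + 1) : ℤ) - TT (K + S))
  · have := hwin2 hχ
    omega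
  by_cases hχ2 : 20 * T (d + 1) + 41 * w ≤ 20 * TT (K + S)
  · by_cases h0 : 1 ≤ h d (K + S)
    · have := hwin1 h0
      omega
    · omega
  obtain ⟨κ, hκ⟩ : ∃ κ, κ = 10 * w := ⟨_, rfl⟩
  have hTκ := T_succ κ
  obtain ⟨i1, i2⟩ := room_cons hHF Mu (r := 3 * k) (N := κ) (n := κ) hK (by
    rw [hκ]; nlinarith) (by omega) (by omega) (by omega)
  obtain ⟨j1, j2⟩ := room_cons hHF Mu (r := 3 * k) (N := κ) (n := κ + 1) hK (by
    rw [hκ]; nlinarith) (by omega) (by omega) le_rfl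
  -- the total mass is large
  have e1 := TT_add K S
  have hmass : T (κ + 1) ≤ TT S := by
    have h5 := two_T (κ + 1)
    have h6 : (2 * κ) * (d + 1) ≤ (20 * w + 3 * k) * (d + 1) := Nat.mul_le_mul_right _ (by omega)
    have h7 : (2 * κ) * (2 * κ) ≤ (2 * κ) * (d + 1) := Nat.mul_le_mul_left _ (by omega)
    have h8 : 10 * κ ≤ κ * κ := Nat.mul_le_mul_right _ (by omega)
    zify at *
    nlinarith
  obtain ⟨t, ht1, ht2, ht3, ht4, ht5⟩ : ∃ t : ℕ, t ≤ T (κ + 1) ∧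
      5 * t + 18 * w ≤ 5 * T (κ + 1) ∧
      20 * T (d + 1) + 20 * t + 41 * w ≤ 20 * TT (K + S) + 20 * T (κ + 1) ∧
      20 * T κ + 41 * w + 20 * T M ≤ 20 * t ∧
      5 * T κ + 18 * w + 5 * TT (K + S) + 5 * T M ≤ 5 * T (d + 1) + 5 * t := by
    by_cases hc : 20 * T (d + 1) ≤ 20 * TT (K + S) + 31 * w
    · refine ⟨T (κ + 1) - (18 * w + 4) / 5, by omega, by omega, by omega, by omega, by omega⟩
    · refine ⟨T (κ + 1) - (20 * T (d + 1) + 41 * w + 19 - 20 * TT (K + S)) / 20, by omega,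
        by omega, by omega, by omega, by omega⟩
  obtain ⟨A, B, hAB, hB1, hB2⟩ := exists_part (T M) t S
    (fun m hm => T_mono (hS m hm)) (by omega)
  have hSA : ∀ m ∈ A, m ≤ M := fun m hm => hS m (by rw [hAB]; exact Multiset.mem_add.2 (Or.inl hm))
  have hSB : ∀ m ∈ B, m ≤ M := fun m hm => hS m (by rw [hAB]; exact Multiset.mem_add.2 (Or.inr hm))
  have e2 : TT S = TT A + TT B := by rw [hAB, TT_add]
  have e3 := TT_add K A
  have hKA : K + S = (K + A) + B := by rw [hAB, add_assoc]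
  rw [hKA]
  refine close_core (κ := κ) (H d le_rfl).toHFun C (by omega) (by omega) ?_ ?_ ?_ ?_
  · have h1 := (winD κ (h κ) (H κ (by omega)) M 0 B (by simp) hSB).2 (by
      rw [zero_add, Multiset.sum_zero]
      have : (M : ℤ) * (108 * M + 40 * ((0 : ℕ) : ℤ)) = 108 * w := by rw [hwM]; push_cast; ring
      rw [this]
      zify at *
      omega)
    rw [zero_add] at h1
    exact h1
  · have h1 := (winD (κ - 1) (h (κ - 1)) (H (κ - 1) (by omega)) M 0 B (by simp) hSB).1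
    have h2 : κ - 1 + 1 = κ := by omega
    have h3 : M * (123 * M + 40 * (0 : Multiset ℕ).sum) = 123 * w := by
      rw [hw, Multiset.sum_zero]; ring
    rw [zero_add, h2, h3] at h1
    by_contra h0
    have := h1 (by omega)
    omega
  · have h1 := (hW (κ ::ₘ K) (Or.inr ⟨_, rfl⟩) i1 i2 A hSA).2 (by
      rw [← hwM, Multiset.cons_add, TT_cons]
      zify at *
      omega)
    rw [Multiset.cons_add, TT_cons] at h1
    exact h1
  · have h1 := (hW ((κ + 1) ::ₘ K) (Or.inr ⟨_, rfl⟩) j1 j2 A hSA).1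
    rw [Multiset.cons_add, TT_cons, ← hw] at h1
    by_contra h0
    have := h1 (by omega)
    omega

/-- RELATIVE THEOREM for bounded multiplicities: if `K` is non-special and
`2 TT K + (20 M² + 3 k) (d + 1) ≤ 2 T (d + 1)`, `3 M d ≤ k (k + 1) + 1`, then `K + S` has the
expected dimension for all `S` with multiplicities `≤ M`. -/
theorem full_rel (H : ∀ d' ≤ d, HFunD d' (h d')) (Mu : MulFun h d) (C : CMFun h d)
    (hM : 1 ≤ M) (hK : h d K + TT K = T (d + 1)) (hk : 3 * M * d ≤ k * (k + 1) + 1)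
    (hroom : 2 * TT K + (20 * M ^ 2 + 3 * k) * (d + 1) ≤ 2 * T (d + 1))
    (hS : ∀ x ∈ S, x ≤ M) : h d (K + S) = T (d + 1) - TT (K + S) := by
  have hM2 : 1 ≤ M ^ 2 := Nat.one_le_pow _ _ hM
  have hT := two_T (d + 1)
  have h2κ : 20 * M ^ 2 + 3 * k ≤ d + 2 := by
    by_contra hc
    push Not at hc
    have h1 : (d + 3) * (d + 1) ≤ (20 * M ^ 2 + 3 * k) * (d + 1) := Nat.mul_le_mul_right _ hc
    nlinarith
  have hk1 : 1 ≤ k := by
    by_contra hc
    have h0 : k = 0 := by omega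
    subst h0
    have h1 : 3 * 1 * 18 ≤ 3 * M * d := Nat.mul_le_mul (Nat.mul_le_mul_left _ hM) (by omega)
    omega
  exact full_core H Mu C hM hK hk1 hroom (fun K1 _ h1 h2 S hS => win_rel H Mu h1 h2 hk hS) hS

end ShghI
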