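import Pool.Agent.ShghI.SupD
import Pool.Agent.ShghI.CloseR

/-!
# ShghI, CloseS: one arbitrary multiplicity, bounded form
-/

namespace ShghI

open ShghJ ShghL

variable {h : ℕ → Multiset ℕ → ℕ} {d b M : ℕ} {S : Multiset ℕ}

/-- ONE ARBITRARY MULTIPLICITY: `30 M² + 15 M ≤ d` and `b + 30 M ≤ d`. -/
theorem super_full (H : ∀ d' ≤ d, HFunB d' (h d')) (C : CMFun h d)
    (hM : 1 ≤ M) (hd : 30 * M ^ 2 + 15 * M ≤ d) (hb : b + 30 * M ≤ d)
    (hS : ∀ x ∈ S, x ≤ M) : h d (b ::ₘ S) = T (d + 1) - TT (b ::ₘ S) := by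
  have hM2 : 1 ≤ M ^ 2 := Nat.one_le_pow _ _ hM
  have hTM : 4 * T M ≤ 3 * M ^ 2 + 1 := by
    have h1 := two_T M
    have h2 : 2 * M ≤ M ^ 2 + 1 := by
      zify
      nlinarith [sq_nonneg ((M : ℤ) - 1)]
    nlinarith
  have hlow := (H d le_rfl).toHFun.chi_le (b ::ₘ S)
  obtain ⟨hwin1, hwin2⟩ := win_big (H d le_rfl) (b := b) (by omega) hM hS
  set w := M ^ 2 with hw
  have hwM : (w : ℤ) = (M : ℤ) ^ 2 := by rw [hw]; push_cast; rfl
  rw [← hwM] at hwin2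
  by_cases hχ : 23 * (w : ℤ) ≤ 2 * ((T (d + 1) : ℤ) - TT (b ::ₘ S))
  · have := hwin2 hχ
    omega
  by_cases hχ2 : T (d + 1) + 6 * w ≤ TT (b ::ₘ S)
  · by_cases h0 : 1 ≤ h d (b ::ₘ S)
    · have := hwin1 h0
      omega
    · omega
  obtain ⟨κ, hκ1, hκ2, hκ3⟩ : ∃ κ, 30 * w ≤ κ ∧ b + 15 * M ≤ κ ∧ κ + 15 * M ≤ d := by
    rcases Nat.le_total (30 * w) (b + 15 * M) with h1 | h1
    · exact ⟨b + 15 * M, h1, le_rfl, by omega⟩
    · exact ⟨30 * w, le_rfl, h1, hd⟩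
  have hTκ := T_succ κ
  have e1 : TT (b ::ₘ S) = T b + TT S := TT_cons b S
  have hTb : T b ≤ T κ := T_mono (by omega)
  -- the total mass is large
  have hmass : T (κ + 1) ≤ T b + TT S := by
    have h5 := two_T (κ + 1)
    have h6 := two_T (d + 1)
    have h7 : T (κ + 1 + 15 * M) ≤ T (d + 1) := T_mono (by omega)
    have h8 := two_T (κ + 1 + 15 * M)
    have h9 : 30 * w * (15 * M) ≤ κ * (15 * M) := Nat.mul_le_mul_right _ hκ1
    have h10 : w * 1 ≤ w * M := Nat.mul_le_mul_left _ hM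
    zify at *
    nlinarith
  obtain ⟨t, ht1, ht2, ht3, ht4, ht5⟩ : ∃ t : ℕ, t ≤ T (κ + 1) ∧
      2 * t + 23 * w ≤ 2 * T (κ + 1) ∧
      T (d + 1) + t + 6 * w ≤ TT (b ::ₘ S) + T (κ + 1) ∧
      T κ + 6 * w + T M ≤ t ∧
      2 * T κ + 23 * w + 2 * TT (b ::ₘ S) + 2 * T M ≤ 2 * T (d + 1) + 2 * t := by
    by_cases hc : 2 * T (d + 1) ≤ 2 * TT (b ::ₘ S) + 11 * w
    · refine ⟨T (κ + 1) - (23 * w + 1) / 2, by omega, by omega, by omega, by omega, by omega⟩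
    · refine ⟨T (κ + 1) - (T (d + 1) + 6 * w - TT (b ::ₘ S)), by omega,
        by omega, by omega, by omega, by omega⟩
  obtain ⟨A, B, hAB, hB1, hB2⟩ := exists_part (T M) (t - T b) S
    (fun m hm => T_mono (hS m hm)) (by omega)
  have hSA : ∀ m ∈ A, m ≤ M := fun m hm => hS m (by rw [hAB]; exact Multiset.mem_add.2 (Or.inl hm))
  have hSB : ∀ m ∈ B, m ≤ M := fun m hm => hS m (by rw [hAB]; exact Multiset.mem_add.2 (Or.inr hm))
  have e2 : TT S = TT A + TT B := by rw [hAB, TT_add]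
  have hKA : b ::ₘ S = A + (b ::ₘ B) := by rw [hAB, Multiset.add_cons]
  rw [hKA]
  refine close_core (κ := κ) (H d le_rfl).toHFun C (by omega) (by omega) ?_ ?_ ?_ ?_
  · refine (win_big (H κ (by omega)) (b := b) (by omega) hM hSB).2 ?_
    rw [← hwM, TT_cons]
    zify at *
    omega
  · have h1 := (win_big (H (κ - 1) (by omega)) (b := b) (by omega) hM hSB).1
    have h2 : κ - 1 + 1 = κ := by omega
    rw [h2, TT_cons, ← hw] at h1
    by_contra h0
    have := h1 (by omega)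
    omega
  · have h1 := (win_big (H d le_rfl) (b := κ) (by omega) hM hSA).2 (by
      rw [← hwM, TT_cons]
      zify at *
      omega)
    rw [TT_cons] at h1
    exact h1
  · have h1 := (win_big (H d le_rfl) (b := κ + 1) (by omega) hM hSA).1
    rw [TT_cons, ← hw] at h1
    by_contra h0
    have := h1 (by omega)
    omega

end ShghI
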