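import Pool.Agent.ShghI.CloseS

/-!
# ShghI, CloseT: one arbitrary multiplicity, mass condition
-/

namespace ShghI

open ShghJ ShghL

/-- The choice of the parts, with a point of multiplicity `b` in the cluster. -/
theorem choose_partsB {S : Multiset ℕ} {Y : ℝ} {b N : ℕ} (hY : 256 ≤ Y) (hbN : b ≤ N)
    (hN : 2.5 * Y ≤ N) (hΘ : 50 * Y ≤ (T N : ℝ) - T b)
    (hmass : (1.92 : ℝ) * ((T N : ℝ) - T b) ≤ TT S)
    (hS : ∀ m ∈ S, 2 ≤ m → 255 * (m : ℝ) ^ 2 ≤ 2 * Y + rr S m) :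
    ∃ (A B : Multiset ℕ) (n : ℕ), S = A + B ∧ n ≤ N ∧ 2.04 * Y ≤ n ∧
      0.957 * ((N : ℝ) - b) ≤ (n : ℝ) - b ∧
      0.505 * Y ≤ (T n : ℝ) - T b - TT B ∧ (T n : ℝ) - T b - TT B ≤ n - 0.505 * Y ∧
      (∀ m ∈ A, 2 ≤ m → 127 * (m : ℝ) ^ 2 ≤ 2.04 * Y + rr A m) ∧
      (∀ m ∈ B, 2 ≤ m → 127 * (m : ℝ) ^ 2 ≤ Y + rr B m) := by
  classical
  obtain ⟨Θ, hΘd⟩ : ∃ Θ : ℝ, Θ = (T N : ℝ) - T b := ⟨_, rfl⟩
  rw [← hΘd] at hΘ hmass
  have hNr : (640 : ℝ) ≤ N := by linarith
  have hTN : (T N : ℝ) = (N : ℝ) * (N + 1) / 2 := T_real N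
  have hTb : (T b : ℝ) = (b : ℝ) * (b + 1) / 2 := T_real b
  have hbNr : (b : ℝ) ≤ N := by exact_mod_cast hbN
  have hb0 : (0 : ℝ) ≤ b := Nat.cast_nonneg _
  obtain ⟨S1, S2, ml, h1, h2, h3, h4, h5, h6, h7⟩ := exists_prefix S (1.92 * Θ)
    (by linarith) hmass
  obtain ⟨A1, B0, h8, h9⟩ := half_split S1
  have hml : (T ml : ℝ) ≤ 0.006 * Θ := by
    by_cases h10 : 2 ≤ ml
    · have h11 := hS ml (by rw [h1]; exact Multiset.mem_add.2 (Or.inl h2)) h10
      have h12 := T_le_sq' ml h10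
      nlinarith
    · have h12 := T_le_one ml h10
      nlinarith
  -- the masses of the halves
  have h10 := h9 (ml + 1)
  have hS1lt : ∀ a ∈ S1, a < ml + 1 := fun a ha => Nat.lt_succ_of_le (h3 a ha)
  have hA1lt : ∀ a ∈ A1, a < ml + 1 := fun a ha =>
    hS1lt a (by rw [h8]; exact Multiset.mem_add.2 (Or.inl ha))
  have hB0lt : ∀ a ∈ B0, a < ml + 1 := fun a ha =>
    hS1lt a (by rw [h8]; exact Multiset.mem_add.2 (Or.inr ha))
  rw [rr_eq_TT hS1lt, rr_eq_TT hA1lt, rr_eq_TT hB0lt, Nat.add_sub_cancel] at h10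
  have h11 : (TT S1 : ℝ) ≤ 2 * TT A1 + T ml := by exact_mod_cast h10.1
  have h12 : (TT S1 : ℝ) ≤ 2 * TT B0 + T ml := by exact_mod_cast h10.2
  have h13 : (TT S1 : ℝ) = TT A1 + TT B0 := by
    rw [h8, TT_add]
    push_cast
    ring
  have hB0u : (TT B0 : ℝ) ≤ 0.966 * Θ := by linarith
  have hB0l : (0.957 : ℝ) * Θ ≤ TT B0 := by linarith
  have hA1l : (0.957 : ℝ) * Θ ≤ TT A1 := by linarith
  set A0 : Multiset ℕ := A1 + S2 with hA0
  have hSAB : S = A0 + B0 := by
    rw [h1, h8, hA0, add_assoc, add_assoc, add_comm B0 S2]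
  -- the mass conditions of the halves
  have hA0c : ∀ m ∈ A0, 2 ≤ m → 127.25 * (m : ℝ) ^ 2 ≤ Y + rr A0 m := by
    intro m hm h2m
    have e1 := hS m (by rw [hSAB]; exact Multiset.mem_add.2 (Or.inl hm)) h2m
    have e2 : (rr S1 m : ℝ) ≤ 2 * rr A1 m + T (m - 1) := by exact_mod_cast (h9 m).1
    have e3 : (rr S m : ℝ) = rr S1 m + rr S2 m := by
      rw [h1, rr_add]
      push_cast
      ring
    have e4 : (rr A0 m : ℝ) = rr A1 m + rr S2 m := by
      rw [hA0, rr_add]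
      push_cast
      ring
    have e5 := T_pred_le m (by omega)
    have e6 : (0 : ℝ) ≤ rr S2 m := Nat.cast_nonneg _
    linarith
  have hB0c : ∀ m ∈ B0, 2 ≤ m → 127.25 * (m : ℝ) ^ 2 ≤ Y + rr B0 m := by
    intro m hm h2m
    have e1 := hS m (by rw [hSAB]; exact Multiset.mem_add.2 (Or.inr hm)) h2m
    have e2 : (rr S1 m : ℝ) ≤ 2 * rr B0 m + T (m - 1) := by exact_mod_cast (h9 m).2
    have e7 : rr S2 m = 0 := rr_eq_zero fun a ha => by
      have := h4 a ha
      have := hB0lt m hm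
      omega
    have e3 : (rr S m : ℝ) = rr S1 m := by
      rw [h1, rr_add, e7, add_zero]
    have e5 := T_pred_le m (by omega)
    linarith
  -- the degree
  have hex : ∃ n : ℕ, (TT B0 : ℝ) + 0.505 * Y ≤ (T n : ℝ) - T b := by
    refine ⟨N, ?_⟩
    rw [← hΘd]
    linarith
  obtain ⟨n, hn, hmin⟩ : ∃ n : ℕ, ((TT B0 : ℝ) + 0.505 * Y ≤ (T n : ℝ) - T b) ∧
      ∀ k : ℕ, k < n → ¬ ((TT B0 : ℝ) + 0.505 * Y ≤ (T k : ℝ) - T b) :=
    ⟨Nat.find hex, Nat.find_spec hex, fun k hk => Nat.find_min hex hk⟩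
  have hnN : n ≤ N := by
    by_contra hcon
    apply hmin N (by omega)
    rw [← hΘd]
    linarith
  have hnNr : (n : ℝ) ≤ N := by exact_mod_cast hnN
  have hTn : (T n : ℝ) = (n : ℝ) * (n + 1) / 2 := T_real n
  have hn0 : (0 : ℝ) ≤ n := Nat.cast_nonneg _
  have hbn : (b : ℝ) ≤ n := by
    by_contra hcon
    rw [not_le] at hcon
    have hcon' : n < b := by exact_mod_cast hcon
    have e1 : (T n : ℝ) ≤ T b := by exact_mod_cast T_mono hcon'.le
    linarith
  have hnb : 0.957 * ((N : ℝ) - b) ≤ (n : ℝ) - b := by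
    by_contra hcon
    rw [not_le] at hcon
    have e2 : (0.957 : ℝ) * Θ ≤ (T n : ℝ) - T b := by linarith
    rw [hΘd, hTN, hTn, hTb] at e2
    -- (N - b) (N + b + 1) 0.957 ≤ (n - b) (n + b + 1) < 0.957 (N - b) (N + b + 1)
    have e3 : (n : ℝ) * (n + 1) - b * (b + 1) = (n - b) * (n + b + 1) := by ring
    have e4 : (N : ℝ) * (N + 1) - b * (b + 1) = (N - b) * (N + b + 1) := by ring
    have e5 : 0.957 * ((N - b) * ((N : ℝ) + b + 1)) ≤ (n - b) * (n + b + 1) := by linarith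
    have e6 : ((n : ℝ) - b) * (n + b + 1) ≤ (n - b) * (N + b + 1) :=
      mul_le_mul_of_nonneg_left (by linarith) (by linarith)
    have e7 : ((n : ℝ) - b) * (N + b + 1) < (0.957 * (N - b)) * (N + b + 1) :=
      mul_lt_mul_of_pos_right hcon (by linarith)
    linarith
  have hn1 : 2.04 * Y ≤ (n : ℝ) := by linarith
  have hn2 : 1 ≤ n := by
    rcases Nat.eq_zero_or_pos n with h0 | h0
    · exfalso
      rw [h0] at hn1
      simp only [Nat.cast_zero] at hn1
      linarith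
    · exact h0
  have hn3 : (T n : ℝ) - T b < TT B0 + 0.505 * Y + n := by
    have e1 := hmin (n - 1) (by omega)
    rw [not_le] at e1
    have e2 : T n = T (n - 1) + n := by
      obtain ⟨k, rfl⟩ : ∃ k, n = k + 1 := ⟨n - 1, by omega⟩
      rw [Nat.add_sub_cancel, T_succ]
    have e3 : (T n : ℝ) = T (n - 1) + n := by exact_mod_cast e2
    linarith
  by_cases hcase : (T n : ℝ) - T b - TT B0 ≤ n - 0.505 * Y
  · refine ⟨A0, B0, n, hSAB, hnN, hn1, hnb, by linarith, hcase, ?_, ?_⟩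
    · intro m hm h2m
      have := hA0c m hm h2m
      nlinarith [sq_nonneg (m : ℝ)]
    · intro m hm h2m
      have := hB0c m hm h2m
      nlinarith [sq_nonneg (m : ℝ)]
  · rw [not_le] at hcase
    have hA0l : (1.01 : ℝ) * Y ≤ TT A0 := by
      have e1 : (TT A0 : ℝ) = TT A1 + TT S2 := by
        rw [hA0, TT_add]
        push_cast
        ring
      have e2 : (0 : ℝ) ≤ TT S2 := Nat.cast_nonneg _
      linarith
    obtain ⟨Z, A, mz, z1, z2, z3, z4, z5, z6, z7⟩ := exists_prefix A0 (1.01 * Y)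
      (by linarith) hA0l
    have hmz : (T mz : ℝ) ≤ 0.02 * Y := by
      by_cases h10 : 2 ≤ mz
      · have h11 := hA0c mz (by rw [z1]; exact Multiset.mem_add.2 (Or.inl z2)) h10
        have h12 := T_le_sq' mz h10
        nlinarith
      · have h12 := T_le_one mz h10
        linarith
    refine ⟨A, B0 + Z, n, ?_, hnN, hn1, hnb, ?_, ?_, ?_, ?_⟩
    · rw [hSAB, z1, add_comm Z A, add_assoc, add_comm Z B0]
    · rw [TT_add]
      push_cast
      linarith
    · rw [TT_add]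
      push_cast
      linarith
    · intro m hm h2m
      have e1 := hA0c m (by rw [z1]; exact Multiset.mem_add.2 (Or.inr hm)) h2m
      have e2 : (rr A0 m : ℝ) = rr Z m + rr A m := by
        rw [z1, rr_add]
        push_cast
        ring
      have e3 : (rr Z m : ℝ) ≤ TT Z := by exact_mod_cast rr_le Z m
      nlinarith [sq_nonneg (m : ℝ)]
    · intro m hm h2m
      have e5 : (rr (B0 + Z) m : ℝ) = rr B0 m + rr Z m := by
        rw [rr_add]
        push_cast
        ring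
      rcases Multiset.mem_add.1 hm with hm | hm
      · have e1 := hB0c m hm h2m
        have e2 : (0 : ℝ) ≤ rr Z m := Nat.cast_nonneg _
        nlinarith [sq_nonneg (m : ℝ)]
      · have e1 := hS m (by
          rw [hSAB, z1]
          exact Multiset.mem_add.2 (Or.inl (Multiset.mem_add.2 (Or.inl hm)))) h2m
        have e2 : rr A m = 0 := rr_eq_zero fun a ha => (z3 m hm).trans (z4 a ha)
        have e3 : (rr S m : ℝ) = rr B0 m + rr Z m := by
          rw [hSAB, z1, rr_add, rr_add, e2]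
          push_cast
          ring
        have e6 : (0 : ℝ) ≤ rr B0 m + rr Z m := by positivity
        nlinarith [sq_nonneg (m : ℝ)]

variable {h : ℕ → Multiset ℕ → ℕ} {d b : ℕ} {S : Multiset ℕ}

/-- ONE ARBITRARY MULTIPLICITY, mass condition. -/
theorem mixed_super (H : ∀ d' ≤ d, HFunB d' (h d')) (C : CMFun h d) (hb : b + 100 ≤ d)
    (hSb : ∀ m ∈ S, b + 50 * m ≤ d)
    (hS : ∀ m ∈ S, 2 ≤ m → 255 * (m : ℝ) ^ 2 ≤
      max (8 * |(T (d + 1) : ℝ) - TT (b ::ₘ S)|) (2 * (d : ℝ) / 5) +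
        TT (S.filter (fun j => j < m))) :
    h d (b ::ₘ S) = T (d + 1) - TT (b ::ₘ S) := by
  rcases Nat.eq_zero_or_pos b with h0 | hbpos
  · subst h0
    have e0 : TT (0 ::ₘ S) = TT (0 + S) := by rw [TT_cons, zero_add, T_zero, zero_add]
    rw [(H d le_rfl).zero, e0]
    have h1 := large_mixedD (fun d' hd' => (H d' hd').toHFunD) C 0 S (by simp) (by
      intro m hm h2
      have h3 := hS m hm h2
      rw [e0] at h3
      simpa using h3)
    rw [zero_add] at h1 ⊢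
    exact h1
  have hS' : ∀ m ∈ S, 2 ≤ m → 255 * (m : ℝ) ^ 2 ≤
      max (8 * |(T (d + 1) : ℝ) - TT (b ::ₘ S)|) (2 * (d : ℝ) / 5) + rr S m := hS
  obtain ⟨Y, hY⟩ : ∃ Y : ℝ, Y = (d : ℝ) / 5 := ⟨_, rfl⟩
  have hY2 : 2 * (d : ℝ) / 5 = 2 * Y := by rw [hY]; ring
  rw [hY2] at hS'
  have habs := abs_nonneg ((T (d + 1) : ℝ) - TT (b ::ₘ S))
  by_cases h1 : 2 * Y ≤ 8 * |(T (d + 1) : ℝ) - TT (b ::ₘ S)|
  · refine mass_big (H d le_rfl) (by omega) (fun m hm => by have := hSb m hm; omega)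
      (x := 8 * |(T (d + 1) : ℝ) - TT (b ::ₘ S)|) (by positivity) (fun m hm h2m => ?_) le_rfl
    have e1 := hS' m hm h2m
    rw [max_eq_left h1] at e1
    change _ ≤ _ + (rr S m : ℝ)
    nlinarith [sq_nonneg (m : ℝ)]
  rw [not_le] at h1
  have hS2 : ∀ m ∈ S, 2 ≤ m → 255 * (m : ℝ) ^ 2 ≤ 2 * Y + rr S m := by
    intro m hm h2m
    have e1 := hS' m hm h2m
    rwa [max_eq_right h1.le] at e1
  by_cases h2 : 2 * Y ≤ 512
  · refine mass_big (H d le_rfl) (by omega) (fun m hm => by have := hSb m hm; omega)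
      (x := 0) le_rfl (fun m hm h2m => ?_) (by positivity)
    have e1 := hS2 m hm h2m
    change _ ≤ _ + (rr S m : ℝ)
    have e2 : (2 : ℝ) ≤ m := by exact_mod_cast h2m
    nlinarith
  rw [not_le] at h2
  have hdr : (1280 : ℝ) < d := by linarith
  have hdn : 1280 < d := by exact_mod_cast hdr
  obtain ⟨N, hN⟩ : ∃ N, N = (b + d) / 2 := ⟨_, rfl⟩
  have hN1 : 2 * N ≤ b + d := by omega
  have hN2 : b + d ≤ 2 * N + 1 := by omega
  have hN1' : 2 * (N : ℝ) ≤ b + d := by exact_mod_cast hN1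
  have hN2' : (b : ℝ) + d ≤ 2 * N + 1 := by exact_mod_cast hN2
  have hb' : (b : ℝ) + 100 ≤ d := by exact_mod_cast hb
  have hb1 : (1 : ℝ) ≤ b := by exact_mod_cast hbpos
  have hbN : b ≤ N := by omega
  have hNY : 2.5 * Y ≤ (N : ℝ) := by
    rw [hY]
    linarith
  have e1 : (TT (b ::ₘ S) : ℝ) = T b + TT S := by
    rw [TT_cons]
    push_cast
    ring
  have hχ : |(T (d + 1) : ℝ) - TT (b ::ₘ S)| < 1 / 4 * Y := by linarith
  rw [abs_lt] at hχ
  have hTN : (T N : ℝ) = (N : ℝ) * (N + 1) / 2 := T_real N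
  have hTb : (T b : ℝ) = (b : ℝ) * (b + 1) / 2 := T_real b
  have hTd : (T (d + 1) : ℝ) = ((d : ℝ) + 1) * (d + 2) / 2 := by
    rw [T_real]
    push_cast
    ring
  have hw : 49.5 ≤ (N : ℝ) - b := by linarith
  have hΘe : (T N : ℝ) - T b = (N - b) * (N + b + 1) / 2 := by
    rw [hTN, hTb]
    ring
  have hΘ : 50 * Y ≤ (T N : ℝ) - T b := by
    rw [hΘe, hY]
    have e4 : 49.5 * ((N : ℝ) + b + 1) ≤ (N - b) * (N + b + 1) :=
      mul_le_mul_of_nonneg_right hw (by linarith)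
    linarith
  have hmass : (1.92 : ℝ) * ((T N : ℝ) - T b) ≤ TT S := by
    have g1 : (T (d + 1) : ℝ) - T b = (d + 1 - b) * (d + 2 + b) / 2 := by
      rw [hTd, hTb]
      ring
    have g2 : ((N : ℝ) - b) * (N + b + 1) ≤ ((d - b) / 2) * ((d + 3 * b + 2) / 2) :=
      mul_le_mul (by linarith) (by linarith) (by linarith) (by linarith)
    have g3 : ((d : ℝ) - b) * (d + 3 * b + 2) ≤ (d - b) * (2 * (d + b + 2)) :=
      mul_le_mul_of_nonneg_left (by linarith) (by linarith)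
    have g4 : 100 * ((d : ℝ) + b + 2) ≤ (d - b) * (d + b + 2) :=
      mul_le_mul_of_nonneg_right (by linarith) (by linarith)
    have g5 : ((d : ℝ) - b) * (d + b + 2) ≤ (d + 1 - b) * (d + 2 + b) := by nlinarith
    rw [hΘe]
    linarith
  obtain ⟨A, B, n, p1, p2, p3, p8, p4, p5, p6, p7⟩ :=
    choose_partsB (by linarith) hbN hNY hΘ hmass hS2
  have p2' : (n : ℝ) ≤ N := by exact_mod_cast p2
  have hn0 : b + 40 ≤ n := by
    have : (b : ℝ) + 40 ≤ n := by linarith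
    exact_mod_cast this
  have hwid : 0.4785 * ((d : ℝ) - b) ≤ n - b + 0.4785 := by linarith
  obtain ⟨κ, rfl⟩ : ∃ κ, n = κ + 1 := ⟨n - 1, by omega⟩
  have hκ1 : 1 ≤ κ := by omega
  have hκd : κ ≤ d := by omega
  have hTκ : (T (κ + 1) : ℝ) = T κ + (κ + 1) := by
    rw [T_succ]
    push_cast
    ring
  have hc : (((κ + 1 : ℕ) : ℝ)) = κ + 1 := by push_cast; ring
  rw [hc] at p3 p5 hwid
  have hwP : ∀ m : ℕ, b + 50 * m ≤ d → b + 23 * m ≤ κ := by
    intro m hm
    have hm' : (b : ℝ) + 50 * m ≤ d := by exact_mod_cast hm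
    have : (b : ℝ) + 23 * m ≤ κ := by
      rcases Nat.lt_or_ge m 2 with h3 | h3
      · have h4 : (m : ℝ) ≤ 1 := by exact_mod_cast (show m ≤ 1 by omega)
        linarith
      · have h4 : (2 : ℝ) ≤ m := by exact_mod_cast h3
        linarith
    exact_mod_cast this
  have hwA : ∀ m : ℕ, b + 50 * m ≤ d → κ + 1 + 23 * m ≤ d + 1 := by
    intro m hm
    omega
  have e2 : (TT S : ℝ) = TT A + TT B := by
    rw [p1, TT_add]
    push_cast
    ring
  have hSA : ∀ m ∈ A, b + 50 * m ≤ d := fun m hm =>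
    hSb m (by rw [p1]; exact Multiset.mem_add.2 (Or.inl hm))
  have hSB : ∀ m ∈ B, b + 50 * m ≤ d := fun m hm =>
    hSb m (by rw [p1]; exact Multiset.mem_add.2 (Or.inr hm))
  have hKA : b ::ₘ S = A + (b ::ₘ B) := by rw [p1, Multiset.add_cons]
  have hp6 : ∀ m ∈ A, 2 ≤ m → 127 * (m : ℝ) ^ 2 ≤ 2.04 * Y + TT (A.filter (fun j => j < m)) := p6
  have hp7 : ∀ m ∈ B, 2 ≤ m → 127 * (m : ℝ) ^ 2 ≤ Y + TT (B.filter (fun j => j < m)) := p7
  have q0 : κ - 1 + 1 = κ := by omega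
  have qB : (TT (b ::ₘ B) : ℝ) = T b + TT B := by
    rw [TT_cons]
    push_cast
    ring
  rw [hKA]
  refine close_core (κ := κ) (H d le_rfl).toHFun C hκ1 hκd ?_ ?_ ?_ ?_
  · have q1 := mass_big (H κ hκd) (b := b) (S := B) (by omega)
      (fun m hm => by have := hwP m (hSB m hm); omega) (x := Y) (by linarith) hp7 (by
      rw [qB, abs_of_nonneg (by linarith)]
      linarith)
    have q2 : TT (b ::ₘ B) ≤ T (κ + 1) := by
      have : (TT (b ::ₘ B) : ℝ) ≤ T (κ + 1) := by linarith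
      exact_mod_cast this
    omega
  · have q1 := mass_big (H (κ - 1) (by omega)) (b := b) (S := B) (by omega)
      (fun m hm => by have := hwP m (hSB m hm); omega) (x := Y) (by linarith) hp7 (by
        rw [q0, qB, abs_of_nonpos (by linarith)]
        linarith)
    rw [q0] at q1
    have q2 : T κ ≤ TT (b ::ₘ B) := by
      have : (T κ : ℝ) ≤ TT (b ::ₘ B) := by linarith
      exact_mod_cast this
    omega
  · have q3 : (TT (κ ::ₘ A) : ℝ) = T κ + TT A := by
      rw [TT_cons]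
      push_cast
      ring
    have q1 := mass_big (H d le_rfl) (b := κ) (S := A) (by omega)
      (fun m hm => by have := hwA m (hSA m hm); omega) (x := 2.04 * Y) (by linarith) hp6 (by
      rw [q3, abs_of_nonneg (by linarith)]
      linarith)
    rw [TT_cons] at q1
    have q2 : T κ + TT A ≤ T (d + 1) := by
      have : (T κ : ℝ) + TT A ≤ T (d + 1) := by linarith
      exact_mod_cast this
    omega
  · have q3 : (TT ((κ + 1) ::ₘ A) : ℝ) = T (κ + 1) + TT A := by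
      rw [TT_cons]
      push_cast
      ring
    have q1 := mass_big (H d le_rfl) (b := κ + 1) (S := A) (by omega)
      (fun m hm => by have := hwA m (hSA m hm); omega) (x := 2.04 * Y) (by linarith) hp6 (by
      rw [q3, abs_of_nonpos (by linarith)]
      linarith)
    rw [TT_cons] at q1
    have q2 : T (d + 1) ≤ T (κ + 1) + TT A := by
      have : (T (d + 1) : ℝ) ≤ T (κ + 1) + TT A := by linarith
      exact_mod_cast this
    omega

end ShghI
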