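import Pool.Agent.ShghI.WinR

/-!
# ShghI, SupD: one multiplicity `b` close to the degree
-/

namespace ShghI

open ShghJ

/-- `HFunD` with the two properties of a point of very large multiplicity. -/
structure HFunB (d : ℕ) (h : Multiset ℕ → ℕ) : Prop extends HFunD d h where
  super : ∀ (b : ℕ) (W : Multiset ℕ), b ≤ d → (∀ w ∈ W, w + b ≤ d + 1) → W.sum ≤ b + 1 →
    h (b ::ₘ W) + TT (b ::ₘ W) = T (d + 1)
  redis : ∀ (b w t : ℕ) (S W : Multiset ℕ), b ≤ d → t ≤ b → t ≤ w → d + t ≤ b + w → W.sum ≤ t →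
    1 ≤ h (b ::ₘ w ::ₘ S) → 1 ≤ h (W + (b ::ₘ (w - t) ::ₘ S))

/-- The mass of `k, ..., k, r` with sum `τ`. -/
def GS (k τ : ℕ) : ℕ := τ / k * T k + T (τ % k)

theorem GS_le {k τ : ℕ} (hk : 1 ≤ k) (h : τ ≤ k) : GS k τ = T τ := by
  unfold GS
  rcases Nat.lt_or_ge τ k with h1 | h1
  · rw [Nat.div_eq_of_lt h1, Nat.mod_eq_of_lt h1]
    omega
  · have e : τ = k := le_antisymm h h1
    subst e
    rw [Nat.div_self hk, Nat.mod_self, T_zero]
    omega

theorem GS_ge {k τ : ℕ} (hk : 1 ≤ k) (h : k ≤ τ) :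
    4 / 5 * ((τ : ℝ) * (k + 1)) ≤ 2 * (GS k τ : ℝ) := by
  obtain ⟨q, hq⟩ : ∃ q, q = τ / k := ⟨_, rfl⟩
  obtain ⟨r, hr⟩ : ∃ r, r = τ % k := ⟨_, rfl⟩
  have h1 : 1 ≤ q := by
    rw [hq]
    exact (Nat.one_le_div_iff hk).2 h
  have h2 : r < k := by
    rw [hr]
    exact Nat.mod_lt _ hk
  have h3 : τ = q * k + r := by
    rw [hq, hr]
    exact (Nat.div_add_mod' τ k).symm
  have h4 : (GS k τ : ℝ) = q * ((k : ℝ) * (k + 1) / 2) + (r : ℝ) * (r + 1) / 2 := by
    unfold GS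
    rw [← hq, ← hr]
    push_cast
    rw [T_real, T_real]
  have h5 : (τ : ℝ) = q * k + r := by exact_mod_cast h3
  have h6 : (1 : ℝ) ≤ q := by exact_mod_cast h1
  have h7 : (r : ℝ) + 1 ≤ k := by exact_mod_cast h2
  have h8 : (0 : ℝ) ≤ r := Nat.cast_nonneg _
  rw [h4, h5]
  have h9 : (0 : ℝ) ≤ (q - 1) * (k * (k + 1)) := by
    have : (0 : ℝ) ≤ q - 1 := by linarith
    positivity
  have h10 : 4 * ((r : ℝ) * k) ≤ k * k + 5 * (r * r) := by
    nlinarith [sq_nonneg ((k : ℝ) - 2 * r), sq_nonneg (r : ℝ)]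
  nlinarith

variable {d : ℕ} {h : Multiset ℕ → ℕ}

theorem baseD_super (H : HFunB d h) {b : ℕ} (hb : b + 1 ≤ d) :
    BaseD d h {b} (d - b) (b + 1) (fun w => w) (GS (d - b)) where
  reach_le := fun w => le_rfl
  base := by
    intro W h1 h2
    have e : W + {b} = b ::ₘ W := by
      rw [← Multiset.singleton_add, add_comm]
    rw [e]
    exact H.super b W (by omega) (fun w hw => by have := h1 w hw; omega) h2
  amp := by
    intro S w τ h1 h2 h4
    set k := d - b with hk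
    have hk1 : 1 ≤ k := by omega
    have hS : w ::ₘ (S + {b}) = b ::ₘ w ::ₘ S := by
      have : S + {b} = b ::ₘ S := by rw [← Multiset.singleton_add, add_comm]
      rw [this, Multiset.cons_swap]
    rcases Nat.lt_or_ge τ (k + 1) with h5 | h5
    · refine ⟨{τ}, fun x hx => ?_, by simp, ?_, ?_⟩
      · rw [Multiset.mem_singleton.1 hx]
        omega
      · rw [GS_le hk1 (by omega)]
        simp [TT]
      · rw [Multiset.singleton_add]
        exact h4.trans (H.anti_le _ h1)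
    · obtain ⟨q, hq⟩ : ∃ q, τ / k = q + 1 := by
        have : 1 ≤ τ / k := (Nat.one_le_div_iff hk1).2 (by omega)
        exact ⟨τ / k - 1, by omega⟩
      have h6 : τ = (q + 1) * k + τ % k := by
        rw [← hq]
        exact (Nat.div_add_mod' τ k).symm
      have h7 : τ % k < k := Nat.mod_lt _ hk1
      refine ⟨Multiset.replicate (q + 1) k + {τ % k}, ?_, ?_, ?_, ?_⟩
      · intro x hx
        rcases Multiset.mem_add.1 hx with h8 | h8
        · exact (Multiset.eq_of_mem_replicate h8).le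
        · rw [Multiset.mem_singleton.1 h8]
          omega
      · rw [Multiset.sum_add, Multiset.sum_replicate, Multiset.sum_singleton, smul_eq_mul]
        exact h6.symm
      · rw [TT_add]
        unfold GS
        rw [hq]
        have e2 : (q + 1) * T k = T k + q * T k := by ring
        rw [e2]
        simp [TT]
      · rw [hS] at h4
        have h8 := H.redis b w (w - k) S (Multiset.replicate q k + {τ % k}) (by omega) (by omega)
          (by omega) (by omega) (by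
            rw [Multiset.sum_add, Multiset.sum_replicate, Multiset.sum_singleton, smul_eq_mul]
            have : (q + 1) * k = q * k + k := by ring
            omega) h4
        have h9 : w - (w - k) = k := by omega
        rw [h9] at h8
        have e : Multiset.replicate (q + 1) k + {τ % k} + (S + {b}) =
            Multiset.replicate q k + {τ % k} + (b ::ₘ k ::ₘ S) := by
          have e1 : S + {b} = b ::ₘ S := by rw [← Multiset.singleton_add, add_comm]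
          rw [e1, Multiset.replicate_succ, Multiset.cons_add, Multiset.cons_add,
            Multiset.cons_swap b k, Multiset.add_cons k]
        rw [e]
        exact h8

/-- increasing order: the conditions -/
theorem hce_super_incr {b : ℕ} {m : List ℕ} (hb1 : b + 1 ≤ d) (hb2 : d ≤ 2 * (b + 1))
    (hm : ∀ x ∈ m, 15 * x ≤ d - b + 1) (hs : m.Pairwise (· ≤ ·)) :
    HCE d (b + 1) (fun w => w) (GS (d - b)) 4 m (FiD 12 m) := by
  intro l1 l h1 h2 hb ha w s w' w1 hwd hw1d hw'w hsd hc hF hmw hm1 hy hB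
  have hc' : w' = w ∨ w' + s = b + 1 := hc
  have hk1 : 1 ≤ d - b := by omega
  by_cases hcase : w' ≤ d - b
  · refine HCD_incrK hb2 hs l1 l h1 h2 hb ha w s w' w1 hwd hw1d hw'w hsd hc' hF hmw hm1 hy ?_
    intro B hB'
    obtain ⟨h3, h4⟩ := hB B hB'
    refine ⟨h3, ?_⟩
    rw [GS_le hk1 hcase, T_real] at h4
    linarith
  · have h3 := GS_ge hk1 (show d - b ≤ w' by omega)
    have hab : m[l1]'(h1.trans h2) ≤ m[l] := incr_le hs h1.le h2
    rw [FiD_eq _ m h2] at hF hy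
    rw [FiD_eq _ m (h1.trans h2)] at hy
    have hT := (hB m[l] (by
      intro z hz
      obtain ⟨i, hi, _, hil, rfl⟩ := mem_seg hz
      exact incr_le hs hil.le h2)).2
    have h5 : 15 * ((m[l] : ℕ) : ℝ) ≤ ((d - b : ℕ) : ℝ) + 1 := by
      exact_mod_cast hm _ (List.getElem_mem h2)
    have ha' : (2 : ℝ) ≤ (m[l] : ℕ) := by exact_mod_cast ha
    have hab' : ((m[l1]'(h1.trans h2) : ℕ) : ℝ) ≤ (m[l] : ℕ) := by exact_mod_cast hab
    have hmw' : ((m[l] : ℕ) : ℝ) ≤ w := by exact_mod_cast hmw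
    have hsimp := bad_simple hmw'
    have hw0 : (0 : ℝ) ≤ w := Nat.cast_nonneg _
    have hs0 : (0 : ℝ) ≤ s := Nat.cast_nonneg _
    have hw'0 : (0 : ℝ) ≤ w' := Nat.cast_nonneg _
    have hwd' : (w : ℝ) ≤ d := by exact_mod_cast hwd
    have hw1d' : (w1 : ℝ) ≤ d := by exact_mod_cast hw1d
    have hD1' : (d : ℝ) ≤ 2 * ((b + 1 : ℕ) : ℝ) := by exact_mod_cast hb2
    generalize ((d - b : ℕ) : ℝ) = k at *
    have h6 : 12 * ((m[l] : ℕ) : ℝ) * w' ≤ 4 / 5 * ((w' : ℝ) * (k + 1)) := by nlinarith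
    rcases hc' with hc' | hc'
    · subst hc'
      have h7 : (w1 : ℝ) ≤ 5 * w' := by linarith
      have h8 : ((m[l] : ℕ) : ℝ) * w1 ≤ ((m[l] : ℕ) : ℝ) * (5 * w') :=
        mul_le_mul_of_nonneg_left h7 (by linarith)
      nlinarith
    · have hc'' : (w' : ℝ) + s = ((b + 1 : ℕ) : ℝ) := by exact_mod_cast hc'
      have h7 : 1 / 4 * (d : ℝ) + 3 * ((m[l] : ℕ) : ℝ) ≤ w' := by linarith
      have h8 : ((m[l] : ℕ) : ℝ) * w1 ≤ ((m[l] : ℕ) : ℝ) * d :=
        mul_le_mul_of_nonneg_left hw1d' (by linarith)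
      have h9 : ((m[l] : ℕ) : ℝ) * w ≤ ((m[l] : ℕ) : ℝ) * d :=
        mul_le_mul_of_nonneg_left hwd' (by linarith)
      have h10 : ((m[l] : ℕ) : ℝ) * (1 / 4 * (d : ℝ) + 3 * ((m[l] : ℕ) : ℝ)) ≤
          ((m[l] : ℕ) : ℝ) * w' := mul_le_mul_of_nonneg_left h7 (by linarith)
      nlinarith

theorem hce0_super_incr {b : ℕ} {m : List ℕ} (hb1 : b + 1 ≤ d) (hb2 : d ≤ 2 * (b + 1))
    (hm : ∀ x ∈ m, 15 * x ≤ d - b + 1) :
    HCE0 d (b + 1) (fun w => w) (GS (d - b)) 4 m (FiD 12 m) := by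
  intro l h2 ha w s w' hwd hw'w hsd hc hF hmw hT
  have hc' : w' = w ∨ w' + s = b + 1 := hc
  have hk1 : 1 ≤ d - b := by omega
  by_cases hcase : w' ≤ d - b
  · refine HCD0_incrK hb2 l h2 ha w s w' hwd hw'w hsd hc' hF hmw ?_
    rw [GS_le hk1 hcase, T_real] at hT
    linarith
  · have h3 := GS_ge hk1 (show d - b ≤ w' by omega)
    rw [FiD_eq _ m h2] at hF
    have h5 : 15 * ((m[l] : ℕ) : ℝ) ≤ ((d - b : ℕ) : ℝ) + 1 := by
      exact_mod_cast hm _ (List.getElem_mem h2)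
    have ha' : (2 : ℝ) ≤ (m[l] : ℕ) := by exact_mod_cast ha
    have hmw' : ((m[l] : ℕ) : ℝ) ≤ w := by exact_mod_cast hmw
    have hsimp := bad_simple hmw'
    have hw0 : (0 : ℝ) ≤ w := Nat.cast_nonneg _
    have hs0 : (0 : ℝ) ≤ s := Nat.cast_nonneg _
    have hw'0 : (0 : ℝ) ≤ w' := Nat.cast_nonneg _
    have hwd' : (w : ℝ) ≤ d := by exact_mod_cast hwd
    have hD1' : (d : ℝ) ≤ 2 * ((b + 1 : ℕ) : ℝ) := by exact_mod_cast hb2
    generalize ((d - b : ℕ) : ℝ) = k at *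
    have h6 : 12 * ((m[l] : ℕ) : ℝ) * w' ≤ 4 / 5 * ((w' : ℝ) * (k + 1)) := by nlinarith
    rcases hc' with hc' | hc'
    · subst hc'
      nlinarith
    · have hc'' : (w' : ℝ) + s = ((b + 1 : ℕ) : ℝ) := by exact_mod_cast hc'
      have h7 : 1 / 4 * (d : ℝ) + 3 * ((m[l] : ℕ) : ℝ) ≤ w' := by linarith
      have h9 : ((m[l] : ℕ) : ℝ) * w ≤ ((m[l] : ℕ) : ℝ) * d :=
        mul_le_mul_of_nonneg_left hwd' (by linarith)
      have h10 : ((m[l] : ℕ) : ℝ) * (1 / 4 * (d : ℝ) + 3 * ((m[l] : ℕ) : ℝ)) ≤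
          ((m[l] : ℕ) : ℝ) * w' := mul_le_mul_of_nonneg_left h7 (by linarith)
      nlinarith

/-- decreasing order: the conditions -/
theorem hce_super_decr {b : ℕ} {x : ℝ} (hx : 0 ≤ x) {m : List ℕ} (hb1 : b + 1 ≤ d)
    (hb2 : d ≤ 2 * (b + 1)) (hm : ∀ x ∈ m, 23 * x ≤ d - b + 1) (hs : m.Pairwise (· ≥ ·))
    (hM : MassD 127 x m) :
    HCE d (b + 1) (fun w => w) (GS (d - b)) (18 / 5) m (FdC x m) := by
  intro l1 l h1 h2 hb ha w s w' w1 hwd hw1d hw'w hsd hc hF hmw hm1 hy hB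
  have hc' : w' = w ∨ w' + s = b + 1 := hc
  have hk1 : 1 ≤ d - b := by omega
  by_cases hcase : w' ≤ d - b
  · refine HCD_decrK hx hb2 hs hM l1 l h1 h2 hb ha w s w' w1 hwd hw1d hw'w hsd hc' hF hmw hm1 hy ?_
    intro B hB'
    obtain ⟨h3, h4⟩ := hB B hB'
    refine ⟨h3, ?_⟩
    rw [GS_le hk1 hcase, T_real] at h4
    linarith
  · have h3 := GS_ge hk1 (show d - b ≤ w' by omega)
    have h1m := h1.trans h2
    have hab : m[l] ≤ m[l1]'h1m := decr_le hs h1.le h2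
    have hFge1 := FdD_ge hM h1m hb
    have hF0 := FdC_nonneg hx m l
    obtain ⟨hmass, hT⟩ := hB (m[l1]'h1m) (by
      intro z hz
      obtain ⟨i, hi, hli, _, rfl⟩ := mem_seg hz
      exact decr_le hs hli hi)
    have e1 := FdC_eq x m h2 ha
    have e2 := FdC_eq x m h1m hb
    have e3 : (TT (m.drop l1 : List ℕ) : ℝ) =
        TT (((m.take l).drop l1 : List ℕ) : Multiset ℕ) + TT (m.drop l : List ℕ) := by
      rw [drop_split m h1.le h2.le, ← Multiset.coe_add, TT_add]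
      push_cast
      ring
    have hmass' : 2 * (TT (((m.take l).drop l1 : List ℕ) : Multiset ℕ) : ℝ) + 4 ≤
        2 * ((m[l1]'h1m : ℕ) * w1) + (m[l1]'h1m : ℕ) * w1 := by exact_mod_cast hmass
    have h5 : 23 * ((m[l1]'h1m : ℕ) : ℝ) ≤ ((d - b : ℕ) : ℝ) + 1 := by
      exact_mod_cast hm _ (List.getElem_mem h1m)
    have ha' : (2 : ℝ) ≤ (m[l] : ℕ) := by exact_mod_cast ha
    have hab' : ((m[l] : ℕ) : ℝ) ≤ (m[l1]'h1m : ℕ) := by exact_mod_cast hab
    have hmw' : ((m[l] : ℕ) : ℝ) ≤ w := by exact_mod_cast hmw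
    have hsimp := bad_simple hmw'
    have hw0 : (0 : ℝ) ≤ w := Nat.cast_nonneg _
    have hw10 : (0 : ℝ) ≤ w1 := Nat.cast_nonneg _
    have hs0 : (0 : ℝ) ≤ s := Nat.cast_nonneg _
    have hw'0 : (0 : ℝ) ≤ w' := Nat.cast_nonneg _
    have hwd' : (w : ℝ) ≤ d := by exact_mod_cast hwd
    have hw1d' : (w1 : ℝ) ≤ d := by exact_mod_cast hw1d
    have hD1' : (d : ℝ) ≤ 2 * ((b + 1 : ℕ) : ℝ) := by exact_mod_cast hb2
    generalize FdC x m l = a at *
    generalize FdC x m l1 = a1 at *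
    generalize ((m[l] : ℕ) : ℝ) = μ at *
    generalize ((m[l1]'h1m : ℕ) : ℝ) = μ1 at *
    generalize ((d - b : ℕ) : ℝ) = k at *
    have hda : a1 - a ≤ 3 / 16 * w1 := by
      have h3 : 8 * μ1 * (a1 - a) ≤ 8 * μ1 * (3 / 16 * w1) := by nlinarith
      exact le_of_mul_le_mul_left h3 (by linarith)
    have hT2 : 2 * (GS (d - b) w' : ℝ) + 2 ≤ 2 * μ1 * w + μ1 * w1 := by
      nlinarith [mul_nonneg (sub_nonneg.2 hab') hw0]
    have h6 : 18 * μ1 * w' ≤ 4 / 5 * ((w' : ℝ) * (k + 1)) := by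
      have : w' * (23 * μ1) ≤ (w' : ℝ) * (k + 1) := mul_le_mul_of_nonneg_left h5 hw'0
      nlinarith
    rcases hc' with hc' | hc'
    · subst hc'
      have h7 : (w1 : ℝ) ≤ 6 * w' := by linarith
      have h8 : μ1 * w1 ≤ μ1 * (6 * w') := mul_le_mul_of_nonneg_left h7 (by linarith)
      nlinarith
    · have hc'' : (w' : ℝ) + s = ((b + 1 : ℕ) : ℝ) := by exact_mod_cast hc'
      have h7 : 1 / 6 * (d : ℝ) + 4 * μ1 ≤ w' := by linarith
      have h8 : μ1 * w1 ≤ μ1 * d := mul_le_mul_of_nonneg_left hw1d' (by linarith)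
      have h9 : μ1 * w ≤ μ1 * d := mul_le_mul_of_nonneg_left hwd' (by linarith)
      have h10 : μ1 * (1 / 6 * (d : ℝ) + 4 * μ1) ≤ μ1 * w' :=
        mul_le_mul_of_nonneg_left h7 (by linarith)
      nlinarith

theorem hce0_super_decr {b : ℕ} {x : ℝ} {m : List ℕ} (hb1 : b + 1 ≤ d)
    (hb2 : d ≤ 2 * (b + 1)) (hm : ∀ x ∈ m, 23 * x ≤ d - b + 1) (hM : MassD 127 x m) :
    HCE0 d (b + 1) (fun w => w) (GS (d - b)) (18 / 5) m (FdC x m) := by
  intro l h2 ha w s w' hwd hw'w hsd hc hF hmw hT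
  have hc' : w' = w ∨ w' + s = b + 1 := hc
  have hk1 : 1 ≤ d - b := by omega
  by_cases hcase : w' ≤ d - b
  · refine HCD0_decrK hb2 hM l h2 ha w s w' hwd hw'w hsd hc' hF hmw ?_
    rw [GS_le hk1 hcase, T_real] at hT
    linarith
  · have h3 := GS_ge hk1 (show d - b ≤ w' by omega)
    have hFge := FdD_ge hM h2 ha
    have h5 : 23 * ((m[l] : ℕ) : ℝ) ≤ ((d - b : ℕ) : ℝ) + 1 := by
      exact_mod_cast hm _ (List.getElem_mem h2)
    have ha' : (2 : ℝ) ≤ (m[l] : ℕ) := by exact_mod_cast ha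
    have hmw' : ((m[l] : ℕ) : ℝ) ≤ w := by exact_mod_cast hmw
    have hsimp := bad_simple hmw'
    have hw0 : (0 : ℝ) ≤ w := Nat.cast_nonneg _
    have hs0 : (0 : ℝ) ≤ s := Nat.cast_nonneg _
    have hw'0 : (0 : ℝ) ≤ w' := Nat.cast_nonneg _
    have hwd' : (w : ℝ) ≤ d := by exact_mod_cast hwd
    have hD1' : (d : ℝ) ≤ 2 * ((b + 1 : ℕ) : ℝ) := by exact_mod_cast hb2
    generalize FdC x m l = a at *
    generalize ((m[l] : ℕ) : ℝ) = μ at *
    generalize ((d - b : ℕ) : ℝ) = k at *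
    have h6 : 18 * μ * w' ≤ 4 / 5 * ((w' : ℝ) * (k + 1)) := by
      have : w' * (23 * μ) ≤ (w' : ℝ) * (k + 1) := mul_le_mul_of_nonneg_left h5 hw'0
      nlinarith
    rcases hc' with hc' | hc'
    · subst hc'
      nlinarith
    · have hc'' : (w' : ℝ) + s = ((b + 1 : ℕ) : ℝ) := by exact_mod_cast hc'
      have h7 : 1 / 6 * (d : ℝ) + 4 * μ ≤ w' := by linarith
      have h9 : μ * w ≤ μ * d := mul_le_mul_of_nonneg_left hwd' (by linarith)
      have h10 : μ * (1 / 6 * (d : ℝ) + 4 * μ) ≤ μ * w' :=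
        mul_le_mul_of_nonneg_left h7 (by linarith)
      nlinarith

/-- WINDOW with one arbitrary multiplicity `b`, `15 M ≤ d - b + 1`. -/
theorem win_big (H : HFunB d h) {b M : ℕ} {S : Multiset ℕ} (hb : b + 15 * M ≤ d + 1)
    (hM : 1 ≤ M) (hS : ∀ x ∈ S, x ≤ M) :
    (1 ≤ h (b ::ₘ S) → h (b ::ₘ S) + TT (b ::ₘ S) ≤ 6 * M ^ 2 + T (d + 1)) ∧
    (23 * (M : ℤ) ^ 2 ≤ 2 * ((T (d + 1) : ℤ) - TT (b ::ₘ S)) →
      h (b ::ₘ S) + TT (b ::ₘ S) = T (d + 1)) := by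
  have e : b ::ₘ S = {b} + S := (Multiset.singleton_add b S).symm
  rw [e]
  by_cases h2b : 2 * b ≤ d + 2
  · exact winBaseD d h H.toHFunD M {b} S (by rw [Multiset.sum_singleton]; exact h2b) hS
  · have hb1 : b + 1 ≤ d := by omega
    have hb2 : d ≤ 2 * (b + 1) := by omega
    have hm : ∀ m : List ℕ, (∀ x ∈ m, x ≤ M) → ∀ x ∈ m, 15 * x ≤ d - b + 1 := by
      intro m hm x hx
      have := hm x hx
      omega
    obtain ⟨h1, h2⟩ := win_of_base H.toHFunD (baseD_super H hb1) (κ := 4) (R := 12) (by norm_num) hS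
      (fun m _ hm' => hce0_super_incr hb1 hb2 (hm m hm'))
      (fun m hs hm' => hce_super_incr hb1 hb2 (hm m hm') hs)
    constructor
    · intro h0
      have h3 := h1 h0
      have h4 : (h ({b} + S) : ℝ) + TT ({b} + S) ≤ 6 * (M : ℝ) ^ 2 + T (d + 1) := by
        linarith
      exact_mod_cast h4
    · intro h0
      refine h2 ?_
      have h3 : 23 * (M : ℝ) ^ 2 ≤ 2 * ((T (d + 1) : ℝ) - TT ({b} + S)) := by exact_mod_cast h0
      linarith

/-- MASS CONDITION with one arbitrary multiplicity `b`, `23 m ≤ d - b + 1`. -/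
theorem mass_big (H : HFunB d h) {b : ℕ} {S : Multiset ℕ} (hb : b + 1 ≤ d)
    (hSb : ∀ m ∈ S, b + 23 * m ≤ d + 1) {x : ℝ} (hx0 : 0 ≤ x)
    (hS : ∀ m ∈ S, 2 ≤ m → 127 * (m : ℝ) ^ 2 ≤ x + TT (S.filter (fun j => j < m)))
    (hx : x ≤ 8 * |(T (d + 1) : ℝ) - TT (b ::ₘ S)|) :
    h (b ::ₘ S) = T (d + 1) - TT (b ::ₘ S) := by
  have e : b ::ₘ S = {b} + S := (Multiset.singleton_add b S).symm
  rw [e] at hx ⊢
  by_cases h2b : 2 * b ≤ d + 2
  · exact yBaseD d h H.toHFunD {b} S x (by rw [Multiset.sum_singleton]; exact h2b) hx0 hS hx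
  · have hb2 : d ≤ 2 * (b + 1) := by omega
    obtain ⟨M, hMb, hM⟩ : ∃ M, (∀ y : ℕ, y ≤ M → 23 * y ≤ d - b + 1) ∧ ∀ y ∈ S, y ≤ M := by
      refine ⟨(d - b + 1) / 23, fun y hy => by omega, fun y hy => ?_⟩
      have := hSb y hy
      omega
    exact mass_of_base H.toHFunD (baseD_super H hb) (κ := 18 / 5) (c := 127) (by norm_num) hM
      (fun m _ hm' hMd => hce0_super_decr hb hb2 (fun y hy => hMb y (hm' y hy)) hMd)
      (fun m hs hm' hMd => hce_super_decr hx0 hb hb2 (fun y hy => hMb y (hm' y hy)) hs hMd)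
      hS hx

end ShghI
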