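import Pool.Agent.ShghI.ClaimG
import Pool.Agent.ShghI.SupD

/-!
# ShghI, MassU: the mass theorem for strips
-/

namespace ShghI

open ShghJ ShghG

section

variable {d G0 : ℕ} {h : Multiset ℕ → ℕ}

/-- MASS CONDITION for a general base, without `small`. -/
theorem mass_of_baseG (H : HG d h) {K : Multiset ℕ} {k D1 : ℕ} {reach G : ℕ → ℕ}
    (HB : BaseG G0 d h K k D1 reach G) {κ c x : ℝ} {M : ℕ} {S : Multiset ℕ}
    (hSM : ∀ y ∈ S, y ≤ M)
    (HF0 : ∀ m : List ℕ, m.Pairwise (· ≥ ·) → (∀ y ∈ m, y ≤ M) → MassD c x m →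
      HCE0 d D1 reach G κ m (FdC x m))
    (HF : ∀ m : List ℕ, m.Pairwise (· ≥ ·) → (∀ y ∈ m, y ≤ M) → MassD c x m →
      HCE d D1 reach G κ m (FdC x m))
    (hS : ∀ m ∈ S, 2 ≤ m → c * (m : ℝ) ^ 2 ≤ x + TT (S.filter (fun j => j < m)))
    (hx : x ≤ 8 * |(G0 : ℝ) - TT (K + S)|) :
    h (K + S) = G0 - TT (K + S) := by
  have hK0 := HB.base 0 (by simp) (by simp)
  rw [zero_add] at hK0
  have hchi : G0 ≤ h (K + S) + TT (K + S) := by
    rw [add_comm K S]
    exact chiG H hK0 S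
  by_cases h0 : 1 ≤ h (K + S)
  · by_cases he : G0 < h (K + S) + TT (K + S)
    · exfalso
      have hcoe : ((S.sort (· ≥ ·) : List ℕ) : Multiset ℕ) = S := Multiset.sort_eq _ _
      have hs : (S.sort (· ≥ ·)).Pairwise (· ≥ ·) := Multiset.pairwise_sort _ _
      have hmM : ∀ y ∈ S.sort (· ≥ ·), y ≤ M := fun y hy => hSM y (by simpa using hy)
      generalize S.sort (· ≥ ·) = m at *
      subst hcoe
      rw [add_comm K (m : Multiset ℕ)] at h0 he hx
      have hM : MassD c x m := by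
        intro l hl h2
        have h3 := hS m[l] (by simp) h2
        have h4 := filter_le_drop hs hl
        have h6 : (TT ((m : Multiset ℕ).filter (fun j => j < m[l])) : ℝ) ≤
            (TT (m.drop l : List ℕ) : ℝ) := by exact_mod_cast h4
        linarith
      obtain ⟨l, hl, y, A, hA, hsplit, h2, hyF, hmy, hyd, hxy, he1, hA1, hN, _, hB, _⟩ :=
        finalG H κ m (FdC x m) HB (HF0 m hs hmM hM) (HF m hs hmM hM) h0 he
      have h3 := hB m[l] (by
        intro z hz
        obtain ⟨i, hi, hli, rfl⟩ := mem_drop hz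
        exact decr_le hs hli hi)
      have e1 := FdC_eq x m hl h2
      have h4 : TT ((m : Multiset ℕ) + K) =
          TT ((m.drop l : List ℕ) : Multiset ℕ) + TT A := by rw [hsplit, TT_add]
      have h3' : 2 * (TT (m.drop l : List ℕ) : ℝ) + 2 * h ((m : Multiset ℕ) + K) ≤
          2 * h A + (m[l] : ℕ) * y := by exact_mod_cast h3
      have hN' : (h A : ℝ) < (m[l] : ℕ) * y := by exact_mod_cast hN
      have he1' : (h A : ℝ) + TT A = G0 := by exact_mod_cast he1
      have h4' : (TT ((m : Multiset ℕ) + K) : ℝ) = TT (m.drop l : List ℕ) + TT A := by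
        exact_mod_cast h4
      have h0' : (1 : ℝ) ≤ h ((m : Multiset ℕ) + K) := by exact_mod_cast h0
      have hA1' : (1 : ℝ) ≤ h A := by exact_mod_cast hA1
      have h2' : (2 : ℝ) ≤ (m[l] : ℕ) := by exact_mod_cast h2
      have h7 : 8 * ((m[l] : ℕ) * (y : ℝ)) ≤ x + TT (m.drop l : List ℕ) := by
        rw [← e1]; nlinarith
      have h12 := end_mass (c := 8) (χ := (G0 : ℝ) - TT ((m : Multiset ℕ) + K))
        (by norm_num) (Nat.cast_nonneg (TT (m.drop l : List ℕ)))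
        (show (0 : ℝ) < h ((m : Multiset ℕ) + K) by linarith) hx
        (by rw [h4', ← he1']; ring) hN' h3' (by linarith)
      linarith
    · omega
  · omega

end

/-- The properties of the dimension `h e B` of the polynomials with exponents in `Sf n τ e` and
multiplicities `B` which are used here. -/
structure StripU (n τ : ℕ) (h : ℕ → Multiset ℕ → ℕ) : Prop where
  /-- local properties -/
  hg : ∀ e, HG (e + τ) (h e)
  /-- few conditions are independent -/
  base : ∀ (e : ℕ) (W : Multiset ℕ), n * τ ≤ e → (∀ w ∈ W, w ≤ τ + 1) →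
    W.sum ≤ e - n * τ + 1 → h e W + TT W = h e 0
  /-- a point of multiplicity larger than `τ` contains its fibre -/
  fib : ∀ e m B, τ ≤ m → h (e + 1) ((m + 1) ::ₘ B) ≤ h e (m ::ₘ B)
  /-- the same in degree `0` -/
  fib0 : ∀ m B, τ ≤ m → h 0 ((m + 1) ::ₘ B) = 0
  /-- multiplication by fibres -/
  mul : ∀ e m B, h e B ≤ h (e + m) (m ::ₘ B)

variable {n τ : ℕ} {h : ℕ → Multiset ℕ → ℕ}

theorem fibsU (H : StripU n τ h) (S : Multiset ℕ) : ∀ v e : ℕ, 1 ≤ h e ((τ + v) ::ₘ S) →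
    v ≤ e ∧ 1 ≤ h (e - v) (τ ::ₘ S) := by
  intro v
  induction v with
  | zero => intro e he; exact ⟨Nat.zero_le _, he⟩
  | succ v ih =>
    intro e he
    rcases Nat.eq_zero_or_pos e with h0 | h0
    · subst h0
      have := H.fib0 (τ + v) S (by omega)
      rw [show τ + v + 1 = τ + (v + 1) by ring] at this
      omega
    · obtain ⟨e', rfl⟩ : ∃ e', e = e' + 1 := ⟨e - 1, by omega⟩
      have h1 := H.fib e' (τ + v) S (by omega)
      rw [show τ + v + 1 = τ + (v + 1) by ring] at h1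
      obtain ⟨h2, h3⟩ := ih e' (by omega)
      refine ⟨by omega, ?_⟩
      rw [show e' + 1 - (v + 1) = e' - v by omega]
      exact h3

theorem mulU (H : StripU n τ h) (W : Multiset ℕ) : ∀ (e : ℕ) (B : Multiset ℕ),
    h e B ≤ h (e + W.sum) (W + B) := by
  induction W using Multiset.induction_on with
  | empty => intro e B; simp
  | cons w W ih =>
    intro e B
    have h1 := ih e B
    have h2 := H.mul (e + W.sum) w (W + B)
    rw [Multiset.sum_cons, Multiset.cons_add, show e + (w + W.sum) = e + W.sum + w by ring]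
    exact h1.trans h2

theorem monoU (H : StripU n τ h) {e e' : ℕ} (he : e ≤ e') (B : Multiset ℕ) :
    h e B ≤ h e' B := by
  obtain ⟨m, rfl⟩ := Nat.exists_eq_add_of_le he
  exact (H.mul e m B).trans ((H.hg _).cons_le _ _)

theorem baseG_strip (H : StripU n τ h) (hτ : 1 ≤ τ) {e : ℕ} (he : n * τ ≤ e) :
    BaseG (h e 0) (e + τ) (h e) 0 τ (e - n * τ + 1) (fun w => w) (GS τ) where
  reach_le := fun _ => le_rfl
  base := by
    intro W hW hs
    rw [add_zero]
    exact H.base e W he (fun w hw => (hW w hw).trans (Nat.le_succ _)) hs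
  amp := by
    intro S w t htw hwd h4
    rw [add_zero] at h4 ⊢
    rcases Nat.lt_or_ge t (τ + 1) with h5 | h5
    · refine ⟨{t}, fun x hx => ?_, by simp, ?_, ?_⟩
      · rw [Multiset.mem_singleton.1 hx]
        omega
      · rw [GS_le hτ (by omega)]
        simp [TT]
      · rw [Multiset.singleton_add]
        exact h4.trans ((H.hg e).anti_le _ htw)
    · obtain ⟨v, hv⟩ : ∃ v, w = τ + v := ⟨w - τ, by omega⟩
      rw [hv] at h4
      obtain ⟨h6, h7⟩ := fibsU H S v e h4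
      obtain ⟨q, hq⟩ : ∃ q, t / τ = q + 1 := by
        have : 1 ≤ t / τ := (Nat.one_le_div_iff hτ).2 (by omega)
        exact ⟨t / τ - 1, by omega⟩
      have h8 : t = (q + 1) * τ + t % τ := by
        rw [← hq]
        exact (Nat.div_add_mod' t τ).symm
      have h9 : t % τ < τ := Nat.mod_lt _ hτ
      have h10 : (q + 1) * τ = q * τ + τ := by ring
      refine ⟨Multiset.replicate (q + 1) τ + {t % τ}, ?_, ?_, ?_, ?_⟩
      · intro x hx
        rcases Multiset.mem_add.1 hx with h8 | h8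
        · exact (Multiset.eq_of_mem_replicate h8).le
        · rw [Multiset.mem_singleton.1 h8]
          omega
      · rw [Multiset.sum_add, Multiset.sum_replicate, Multiset.sum_singleton, smul_eq_mul]
        exact h8.symm
      · rw [TT_add]
        unfold GS
        rw [hq]
        have e2 : (q + 1) * T τ = T τ + q * T τ := by ring
        rw [e2]
        simp [TT]
      · have h11 := mulU H (Multiset.replicate q τ + {t % τ}) (e - v) (τ ::ₘ S)
        have hsum : (Multiset.replicate q τ + {t % τ}).sum = q * τ + t % τ := by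
          rw [Multiset.sum_add, Multiset.sum_replicate, Multiset.sum_singleton, smul_eq_mul]
        rw [hsum] at h11
        have h12 := monoU H (show e - v + (q * τ + t % τ) ≤ e by omega)
          (Multiset.replicate q τ + {t % τ} + (τ ::ₘ S))
        have e3 : Multiset.replicate (q + 1) τ + {t % τ} + S =
            Multiset.replicate q τ + {t % τ} + (τ ::ₘ S) := by
          rw [Multiset.replicate_succ, Multiset.cons_add, Multiset.cons_add, Multiset.add_cons]
        rw [e3]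
        exact h7.trans (h11.trans h12)

/-- The conditions for strips in the decreasing order. -/
theorem hce_strip_decr {x : ℝ} (hx : 0 ≤ x) {m : List ℕ} {M e : ℕ} (hM : 1 ≤ M)
    (hm : ∀ x ∈ m, x ≤ M) (hτ : 19 * M ≤ τ + 1) (he : 14 * (n + 1) * τ ≤ e)
    (hs : m.Pairwise (· ≥ ·)) (hMD : MassD 62 x m) :
    HCE (e + τ) (e - n * τ + 1) (fun w => w) (GS τ) (7 / 5) m (FdC x m) := by
  intro l1 l h1 h2 hb1 ha w s w' w1 hwd hw1d hw'w hsd hc hF hmw hm1 hy hB
  have hτ1 : 1 ≤ τ := by omega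
  have hnτ : 14 * (n + 1) * τ = 14 * (n * τ) + 14 * τ := by ring
  have hMr : (1 : ℝ) ≤ M := by exact_mod_cast hM
  have hτr : 19 * (M : ℝ) ≤ τ + 1 := by exact_mod_cast hτ
  have her : 14 * ((n * τ : ℕ) : ℝ) + 14 * τ ≤ e := by
    have : 14 * (n * τ) + 14 * τ ≤ e := by omega
    exact_mod_cast this
  have hnτ0 : (0 : ℝ) ≤ ((n * τ : ℕ) : ℝ) := Nat.cast_nonneg _
  have hτ0 : (1 : ℝ) ≤ τ := by exact_mod_cast hτ1
  have h1m := h1.trans h2
  have hlM : ((m[l1]'h1m : ℕ) : ℝ) ≤ M := by exact_mod_cast hm _ (List.getElem_mem h1m)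
  have hmw' : ((m[l] : ℕ) : ℝ) ≤ w := by exact_mod_cast hmw
  have hsimp := bad_simple hmw'
  have hw0 : (0 : ℝ) ≤ w := Nat.cast_nonneg _
  have hw10 : (0 : ℝ) ≤ w1 := Nat.cast_nonneg _
  have hs0 : (0 : ℝ) ≤ s := Nat.cast_nonneg _
  have hab : m[l] ≤ m[l1]'h1m := decr_le hs h1.le h2
  have hab' : ((m[l] : ℕ) : ℝ) ≤ (m[l1]'h1m : ℕ) := by exact_mod_cast hab
  have hFge1 := FdD_ge hMD h1m hb1
  have hF0 := FdC_nonneg hx m l
  obtain ⟨hmass, hT⟩ := hB (m[l1]'h1m) (by
    intro z hz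
    obtain ⟨i, hi, hli, _, rfl⟩ := mem_seg hz
    exact decr_le hs hli hi)
  have e1 := FdC_eq x m h2 ha
  have e2 := FdC_eq x m h1m hb1
  have e3 : (TT (m.drop l1 : List ℕ) : ℝ) =
      TT (((m.take l).drop l1 : List ℕ) : Multiset ℕ) + TT (m.drop l : List ℕ) := by
    rw [drop_split m h1.le h2.le, ← Multiset.coe_add, TT_add]
    push_cast
    ring
  have hmass' : 2 * (TT (((m.take l).drop l1 : List ℕ) : Multiset ℕ) : ℝ) + 4 ≤
      2 * ((m[l1]'h1m : ℕ) * w1) + (m[l1]'h1m : ℕ) * w1 := by exact_mod_cast hmass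
  have ha' : (2 : ℝ) ≤ (m[l] : ℕ) := by exact_mod_cast ha
  have hda : FdC x m l1 - FdC x m l ≤ 3 / 16 * w1 := by
    have h3 : 8 * ((m[l1]'h1m : ℕ) : ℝ) * (FdC x m l1 - FdC x m l) ≤
        8 * ((m[l1]'h1m : ℕ) : ℝ) * (3 / 16 * w1) := by nlinarith
    exact le_of_mul_le_mul_left h3 (by linarith)
  have hw'r : (w' : ℝ) ≤ w := by exact_mod_cast hw'w
  have hw1w : (w1 : ℝ) ≤ 3 * w := by linarith
  have hTM : 2 * (GS τ w' : ℝ) + 2 ≤ 2 * M * w + M * w1 := by
    have h4 : 2 * ((m[l] : ℕ) : ℝ) * w ≤ 2 * M * w :=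
      mul_le_mul_of_nonneg_right (by linarith) hw0
    have h5 : ((m[l1]'h1m : ℕ) : ℝ) * w1 ≤ M * w1 := mul_le_mul_of_nonneg_right hlM hw10
    linarith
  have hwd' : (w : ℝ) ≤ e + τ := by exact_mod_cast hwd
  have hw1d' : (w1 : ℝ) ≤ e + τ := by exact_mod_cast hw1d
  have hcr : w' + s = e - n * τ + 1 → (w' : ℝ) + s + ((n * τ : ℕ) : ℝ) = e + 1 := by
    intro hc
    have : w' + s + n * τ = e + 1 := by omega
    exact_mod_cast this
  by_cases hcase : w' ≤ τ
  · have hGT : (GS τ w' : ℝ) = (w' : ℝ) * (w' + 1) / 2 := by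
      rw [GS_le hτ1 hcase, T_real]
    rcases hc with hc | hc
    · refine HCD_decr (d := e + τ) hx hs hMD l1 l h1 h2 hb1 ha w s w' w1 hwd hw1d hw'w
        (by omega) (Or.inl hc) hF hmw hm1 hy ?_
      intro B hB'
      obtain ⟨h3, h4⟩ := hB B hB'
      refine ⟨h3, ?_⟩
      rw [hGT] at h4
      linarith
    · have h3 := hcr hc
      have h4 : (w' : ℝ) ≤ τ := by exact_mod_cast hcase
      linarith
  · have h3 := GS_ge hτ1 (show τ ≤ w' by omega)
    have hw'0 : (0 : ℝ) ≤ w' := Nat.cast_nonneg _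
    have h6 : 19 * M * w' ≤ (w' : ℝ) * (τ + 1) := by nlinarith
    rcases hc with hc | hc
    · have hc' : (w' : ℝ) = w := by exact_mod_cast hc
      have h9 : (M : ℝ) * w1 ≤ M * (3 * w) := mul_le_mul_of_nonneg_left hw1w (by linarith)
      rw [hc'] at h3 h6
      have h10 : (0 : ℝ) ≤ M * w := mul_nonneg (by linarith) hw0
      linarith
    · have h4 := hcr hc
      have h7 : 1 / 5 * ((e : ℝ) + τ) ≤ w' := by linarith
      have h8 : (M : ℝ) * w1 ≤ M * (e + τ) := mul_le_mul_of_nonneg_left hw1d' (by linarith)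
      have h9 : (M : ℝ) * w ≤ M * (e + τ) := mul_le_mul_of_nonneg_left hwd' (by linarith)
      have h10 : (M : ℝ) * (1 / 5 * (e + τ)) ≤ M * w' := mul_le_mul_of_nonneg_left h7 (by linarith)
      have h11 : (0 : ℝ) ≤ M * (e + τ) := by positivity
      linarith

theorem hce0_strip_decr {x : ℝ} {m : List ℕ} {M e : ℕ} (hx : 0 ≤ x) (hM : 1 ≤ M)
    (hm : ∀ x ∈ m, x ≤ M) (hτ : 19 * M ≤ τ + 1) (he : 14 * (n + 1) * τ ≤ e)
    (hMD : MassD 62 x m) :
    HCE0 (e + τ) (e - n * τ + 1) (fun w => w) (GS τ) (7 / 5) m (FdC x m) := by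
  intro l h2 ha w s w' hwd hw'w hsd hc hF hmw hT
  have hτ1 : 1 ≤ τ := by omega
  have hnτ : 14 * (n + 1) * τ = 14 * (n * τ) + 14 * τ := by ring
  have hMr : (1 : ℝ) ≤ M := by exact_mod_cast hM
  have hτr : 19 * (M : ℝ) ≤ τ + 1 := by exact_mod_cast hτ
  have her : 14 * ((n * τ : ℕ) : ℝ) + 14 * τ ≤ e := by
    have : 14 * (n * τ) + 14 * τ ≤ e := by omega
    exact_mod_cast this
  have hnτ0 : (0 : ℝ) ≤ ((n * τ : ℕ) : ℝ) := Nat.cast_nonneg _
  have hτ0 : (1 : ℝ) ≤ τ := by exact_mod_cast hτ1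
  have hlM : ((m[l] : ℕ) : ℝ) ≤ M := by exact_mod_cast hm _ (List.getElem_mem h2)
  have hmw' : ((m[l] : ℕ) : ℝ) ≤ w := by exact_mod_cast hmw
  have hsimp := bad_simple hmw'
  have hw0 : (0 : ℝ) ≤ w := Nat.cast_nonneg _
  have hs0 : (0 : ℝ) ≤ s := Nat.cast_nonneg _
  have hF0 := FdC_nonneg hx m l
  have hTM : 2 * (GS τ w' : ℝ) + 2 ≤ 2 * M * w := by
    have h4 : 2 * ((m[l] : ℕ) : ℝ) * w ≤ 2 * M * w :=
      mul_le_mul_of_nonneg_right (by linarith) hw0
    linarith
  have hwd' : (w : ℝ) ≤ e + τ := by exact_mod_cast hwd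
  have hcr : w' + s = e - n * τ + 1 → (w' : ℝ) + s + ((n * τ : ℕ) : ℝ) = e + 1 := by
    intro hc
    have : w' + s + n * τ = e + 1 := by omega
    exact_mod_cast this
  by_cases hcase : w' ≤ τ
  · have hGT : (GS τ w' : ℝ) = (w' : ℝ) * (w' + 1) / 2 := by
      rw [GS_le hτ1 hcase, T_real]
    rcases hc with hc | hc
    · refine HCD0_decr (d := e + τ) hMD l h2 ha w s w' hwd hw'w (by omega) (Or.inl hc) hF hmw ?_
      rw [hGT] at hT
      linarith
    · have h3 := hcr hc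
      have h4 : (w' : ℝ) ≤ τ := by exact_mod_cast hcase
      linarith
  · have h3 := GS_ge hτ1 (show τ ≤ w' by omega)
    have hw'0 : (0 : ℝ) ≤ w' := Nat.cast_nonneg _
    have h6 : 19 * M * w' ≤ (w' : ℝ) * (τ + 1) := by nlinarith
    rcases hc with hc | hc
    · have hc' : (w' : ℝ) = w := by exact_mod_cast hc
      rw [hc'] at h3 h6
      have h10 : (0 : ℝ) ≤ M * w := mul_nonneg (by linarith) hw0
      linarith
    · have h4 := hcr hc
      have h7 : 1 / 5 * ((e : ℝ) + τ) ≤ w' := by linarith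
      have h9 : (M : ℝ) * w ≤ M * (e + τ) := mul_le_mul_of_nonneg_left hwd' (by linarith)
      have h10 : (M : ℝ) * (1 / 5 * (e + τ)) ≤ M * w' := mul_le_mul_of_nonneg_left h7 (by linarith)
      have h11 : (0 : ℝ) ≤ M * (e + τ) := by positivity
      linarith

/-- THE MASS THEOREM FOR STRIPS. -/
theorem mass_strip (H : StripU n τ h) {M e : ℕ} {B : Multiset ℕ} (hM : 1 ≤ M)
    (hτ : 19 * M ≤ τ + 1) (he : 14 * (n + 1) * τ ≤ e) (hBM : ∀ y ∈ B, y ≤ M) {x : ℝ}
    (hx0 : 0 ≤ x)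
    (hB : ∀ m ∈ B, 2 ≤ m → 62 * (m : ℝ) ^ 2 ≤ x + TT (B.filter (fun j => j < m)))
    (hx : x ≤ 8 * |(h e 0 : ℝ) - TT B|) : h e B = h e 0 - TT B := by
  have hnτ : 14 * (n + 1) * τ = 14 * (n * τ) + 14 * τ := by ring
  have h1 := mass_of_baseG (H.hg e) (baseG_strip H (by omega) (show n * τ ≤ e by omega))
    (κ := 7 / 5) (c := 62) (x := x) (S := B) hBM
    (fun _ _ hm hMD => hce0_strip_decr hx0 hM hm hτ he hMD)
    (fun _ hs hm hMD => hce_strip_decr hx0 hM hm hτ he hs hMD) hB (by rw [zero_add]; exact hx)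
  rwa [zero_add] at h1

end ShghI
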