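import Pool.Agent.ShghI.SpecU

/-!
# ShghI/PartsU: the choice of the parts for Theorem U
-/

namespace ShghI

open MvPolynomial ShghJ ShghC ShghL

theorem tPartsU : S_PartsU := by
  intro S Y N Tm R ℓ hR0 hR hℓ hTm hY hN hmass hS
  classical
  have hRl : ∀ t, t ≤ Tm → (t : ℝ) * N ≤ R t := by
    intro t
    induction t with
    | zero => intro _; rw [hR0]; simp
    | succ t ih =>
      intro ht
      have e1 := ih (by omega)
      have e2 : (N : ℝ) ≤ ℓ t := by exact_mod_cast hℓ t (by omega)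
      have e3 : (R (t + 1) : ℝ) = R t + ℓ t := by exact_mod_cast hR t
      rw [e3]
      push_cast
      linarith
  have hTm' : (20 : ℝ) ≤ Tm := by exact_mod_cast hTm
  have hQ : 50 * Y ≤ (R Tm : ℝ) := by
    have e1 := hRl Tm le_rfl
    have e2 : (20 : ℝ) * N ≤ Tm * N := mul_le_mul_of_nonneg_right hTm' (by linarith)
    linarith
  obtain ⟨S1, S2, ml, h1, h2, h3, h4, h5, h6, h7⟩ := exists_prefix S (1.92 * R Tm)
    (by linarith) hmass
  obtain ⟨A1, B0, h8, h9⟩ := half_split S1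
  have hml : (T ml : ℝ) ≤ 0.006 * R Tm := by
    by_cases h10 : 2 ≤ ml
    · have h11 := hS ml (by rw [h1]; exact Multiset.mem_add.2 (Or.inl h2)) h10
      have h12 := T_le_sq' ml h10
      linarith
    · have h12 := T_le_one ml h10
      linarith
  -- the masses of the halves
  have h10 := h9 (ml + 1)
  have hS1lt : ∀ a ∈ S1, a < ml + 1 := fun a ha => Nat.lt_succ_of_le (h3 a ha)
  have hA1lt : ∀ a ∈ A1, a < ml + 1 := fun a ha =>
    hS1lt a (by rw [h8]; exact Multiset.mem_add.2 (Or.inl ha))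
  have hB0lt : ∀ a ∈ B0, a < ml + 1 := fun a ha =>
    hS1lt a (by rw [h8]; exact Multiset.mem_add.2 (Or.inr ha))
  rw [rr_eq_TT hS1lt, rr_eq_TT hA1lt, rr_eq_TT hB0lt, Nat.add_sub_cancel] at h10
  have h11 : (TT S1 : ℝ) ≤ 2 * TT A1 + T ml := by exact_mod_cast h10.1
  have h12 : (TT S1 : ℝ) ≤ 2 * TT B0 + T ml := by exact_mod_cast h10.2
  have h13 : (TT S1 : ℝ) = TT A1 + TT B0 := by
    rw [h8, TT_add]
    push_cast
    ring
  have hB0u : (TT B0 : ℝ) ≤ 0.966 * R Tm := by linarith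
  have hB0l : (0.957 : ℝ) * R Tm ≤ TT B0 := by linarith
  have hA1l : (0.957 : ℝ) * R Tm ≤ TT A1 := by linarith
  set A0 : Multiset ℕ := A1 + S2 with hA0
  have hSAB : S = A0 + B0 := by
    rw [h1, h8, hA0, add_assoc, add_assoc, add_comm B0 S2]
  -- the mass conditions of the halves
  have hA0c : ∀ m ∈ A0, 2 ≤ m → 127.25 * (m : ℝ) ^ 2 ≤ Y + rr A0 m := by
    intro m hm h2m
    have e1 := hS m (by rw [hSAB]; exact Multiset.mem_add.2 (Or.inl hm)) h2m
    have e2 : (rr S1 m : ℝ) ≤ 2 * rr A1 m + T (m - 1) := by exact_mod_cast (h9 m).1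
    have e3 : (rr S m : ℝ) = rr S1 m + rr S2 m := by
      rw [h1, rr_add]
      push_cast
      ring
    have e4 : (rr A0 m : ℝ) = rr A1 m + rr S2 m := by
      rw [hA0, rr_add]
      push_cast
      ring
    have e5 := T_pred_le m (by omega)
    have e6 : (0 : ℝ) ≤ rr S2 m := Nat.cast_nonneg _
    linarith
  have hB0c : ∀ m ∈ B0, 2 ≤ m → 127.25 * (m : ℝ) ^ 2 ≤ Y + rr B0 m := by
    intro m hm h2m
    have e1 := hS m (by rw [hSAB]; exact Multiset.mem_add.2 (Or.inr hm)) h2m
    have e2 : (rr S1 m : ℝ) ≤ 2 * rr B0 m + T (m - 1) := by exact_mod_cast (h9 m).2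
    have e7 : rr S2 m = 0 := rr_eq_zero fun a ha => by
      have := h4 a ha
      have := hB0lt m hm
      omega
    have e3 : (rr S m : ℝ) = rr S1 m := by
      rw [h1, rr_add, e7, add_zero]
    have e5 := T_pred_le m (by omega)
    linarith
  -- the degree
  have hex : ∃ t : ℕ, (TT B0 : ℝ) + 0.505 * Y ≤ R t := ⟨Tm, by linarith⟩
  obtain ⟨t, ht, hmin⟩ : ∃ t : ℕ, ((TT B0 : ℝ) + 0.505 * Y ≤ R t) ∧
      ∀ k : ℕ, k < t → ¬ ((TT B0 : ℝ) + 0.505 * Y ≤ R k) :=
    ⟨Nat.find hex, Nat.find_spec hex, fun k hk => Nat.find_min hex hk⟩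
  have htN : t ≤ Tm := by
    by_contra hcon
    apply hmin Tm (by omega)
    linarith
  have ht1 : 1 ≤ t := by
    rcases Nat.eq_zero_or_pos t with h0 | h0
    · exfalso
      rw [h0, hR0] at ht
      have e1 : (0 : ℝ) ≤ TT B0 := Nat.cast_nonneg _
      simp only [Nat.cast_zero] at ht
      linarith
    · exact h0
  have hlN : (N : ℝ) ≤ ℓ (t - 1) := by exact_mod_cast hℓ (t - 1) (by omega)
  have ht3 : (R t : ℝ) < TT B0 + 0.505 * Y + ℓ (t - 1) := by
    have e1 := hmin (t - 1) (by omega)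
    rw [not_le] at e1
    have e2 : R t = R (t - 1) + ℓ (t - 1) := by
      have e4 := hR (t - 1)
      rwa [Nat.sub_add_cancel ht1] at e4
    have e3 : (R t : ℝ) = R (t - 1) + ℓ (t - 1) := by exact_mod_cast e2
    linarith
  have ht4 : (0.957 : ℝ) * R Tm ≤ R t := by linarith
  by_cases hcase : (R t : ℝ) - TT B0 ≤ ℓ (t - 1) - 0.505 * Y
  · refine ⟨A0, B0, t, hSAB, ht1, htN, ht4, by linarith, hcase, ?_, ?_⟩
    · intro m hm h2m
      have := hA0c m hm h2m
      nlinarith [sq_nonneg (m : ℝ)]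
    · intro m hm h2m
      have := hB0c m hm h2m
      nlinarith [sq_nonneg (m : ℝ)]
  · rw [not_le] at hcase
    have hA0l : (1.01 : ℝ) * Y ≤ TT A0 := by
      have e1 : (TT A0 : ℝ) = TT A1 + TT S2 := by
        rw [hA0, TT_add]
        push_cast
        ring
      have e2 : (0 : ℝ) ≤ TT S2 := Nat.cast_nonneg _
      linarith
    obtain ⟨Z, A, mz, z1, z2, z3, z4, z5, z6, z7⟩ := exists_prefix A0 (1.01 * Y)
      (by positivity) hA0l
    have hmz : (T mz : ℝ) ≤ 0.02 * Y := by
      by_cases h10 : 2 ≤ mz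
      · have h11 := hA0c mz (by rw [z1]; exact Multiset.mem_add.2 (Or.inl z2)) h10
        have h12 := T_le_sq' mz h10
        nlinarith
      · have h12 := T_le_one mz h10
        linarith
    refine ⟨A, B0 + Z, t, ?_, ht1, htN, ht4, ?_, ?_, ?_, ?_⟩
    · rw [hSAB, z1, add_comm Z A, add_assoc, add_comm Z B0]
    · rw [TT_add]
      push_cast
      linarith
    · rw [TT_add]
      push_cast
      linarith
    · intro m hm h2m
      have e1 := hA0c m (by rw [z1]; exact Multiset.mem_add.2 (Or.inr hm)) h2m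
      have e2 : (rr A0 m : ℝ) = rr Z m + rr A m := by
        rw [z1, rr_add]
        push_cast
        ring
      have e3 : (rr Z m : ℝ) ≤ TT Z := by exact_mod_cast rr_le Z m
      nlinarith [sq_nonneg (m : ℝ)]
    · intro m hm h2m
      have e5 : (rr (B0 + Z) m : ℝ) = rr B0 m + rr Z m := by
        rw [rr_add]
        push_cast
        ring
      rcases Multiset.mem_add.1 hm with hm | hm
      · have e1 := hB0c m hm h2m
        have e2 : (0 : ℝ) ≤ rr Z m := Nat.cast_nonneg _
        nlinarith [sq_nonneg (m : ℝ)]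
      · have e1 := hS m (by
          rw [hSAB, z1]
          exact Multiset.mem_add.2 (Or.inl (Multiset.mem_add.2 (Or.inl hm)))) h2m
        have e2 : rr A m = 0 := rr_eq_zero fun a ha => (z3 m hm).trans (z4 a ha)
        have e3 : (rr S m : ℝ) = rr B0 m + rr Z m := by
          rw [hSAB, z1, rr_add, rr_add, e2]
          push_cast
          ring
        have e6 : (0 : ℝ) ≤ rr B0 m + rr Z m := by positivity
        nlinarith [sq_nonneg (m : ℝ)]


end ShghI
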