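import Pool.Agent.ShghI.RedG
import Pool.Agent.ShghI.MassU
import Pool.Agent.ShghI.PartsU

/-!
# ShghI, CloseU: Theorem U, the closing
-/

namespace ShghI

open MvPolynomial ShghJ ShghC ShghL

universe u

/-- THEOREM U from the mass property of the left side. -/
theorem core_U (F : Type u) [Field F] [CharZero F]
    (HU : ∀ n τ : ℕ, 1 ≤ n → StripU n τ (fun e B => hN F (Sf n τ e) B))
    (d a M : ℕ) (K S : Multiset ℕ) (hM : 1 ≤ M) (hSM : ∀ x ∈ S, x ≤ M) (ha : 1 ≤ a)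
    (h1 : 650 * (M * a) ≤ d) (hK : TT K ≤ T (d - 50 * (M * a) + 1))
    (hW : ∀ (e : ℕ) (A : Multiset ℕ) (x : ℝ), (∀ y ∈ A, y ≤ M) → d ≤ e + 23 * (M * a) → e ≤ d →
      0 ≤ x → (∀ m ∈ A, 2 ≤ m → 127 * (m : ℝ) ^ 2 ≤ x + rr A m) →
      x ≤ 8 * |(T (e + 1) : ℝ) - TT (K + A)| → hF F e (K + A) = T (e + 1) - TT (K + A))
    (hS : ∀ m ∈ S, 2 ≤ m → 255 * (m : ℝ) ^ 2 ≤
      max (8 * |(T (d + 1) : ℝ) - TT (K + S)|) (3 / 5 * ((a : ℝ) * d)) + rr S m) :
    hF F d (K + S) = T (d + 1) - TT (K + S) := by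
  obtain ⟨Y, hY⟩ : ∃ Y : ℝ, Y = 3 / 10 * ((a : ℝ) * d) := ⟨_, rfl⟩
  have hY2 : 3 / 5 * ((a : ℝ) * d) = 2 * Y := by rw [hY]; ring
  rw [hY2] at hS
  have hY0 : 0 ≤ Y := by rw [hY]; positivity
  have habs := abs_nonneg ((T (d + 1) : ℝ) - TT (K + S))
  by_cases hc1 : 2 * Y ≤ 8 * |(T (d + 1) : ℝ) - TT (K + S)|
  · refine hW d S (8 * |(T (d + 1) : ℝ) - TT (K + S)|) hSM (by omega) le_rfl
      (by positivity) (fun m hm h2m => ?_) le_rfl
    have e1 := hS m hm h2m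
    rw [max_eq_left hc1] at e1
    nlinarith [sq_nonneg (m : ℝ)]
  rw [not_le] at hc1
  have hS2 : ∀ m ∈ S, 2 ≤ m → 255 * (m : ℝ) ^ 2 ≤ 2 * Y + rr S m := by
    intro m hm h2m
    have e1 := hS m hm h2m
    rwa [max_eq_right hc1.le] at e1
  by_cases hc2 : 2 * Y ≤ 512
  · refine hW d S 0 hSM (by omega) le_rfl le_rfl (fun m hm h2m => ?_) (by positivity)
    have e1 := hS2 m hm h2m
    have e2 : (2 : ℝ) ≤ m := by exact_mod_cast h2m
    nlinarith
  rw [not_le] at hc2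
  -- numbers
  obtain ⟨n, hn⟩ : ∃ n, n = a * a := ⟨_, rfl⟩
  obtain ⟨nM, hnM⟩ : ∃ nM, nM = a * a * M := ⟨_, rfl⟩
  obtain ⟨ad, had'⟩ : ∃ ad, ad = a * d := ⟨_, rfl⟩
  have hMa : M ≤ M * a := Nat.le_mul_of_pos_right _ ha
  have haM : a ≤ M * a := Nat.le_mul_of_pos_left _ hM
  have hA : 650 * nM ≤ ad := by
    have e1 : a * (650 * (M * a)) ≤ a * d := Nat.mul_le_mul_left _ h1
    have e2 : a * (650 * (M * a)) = 650 * nM := by rw [hnM]; ring
    omega
  have hnnM : n ≤ nM := by rw [hn, hnM]; exact Nat.le_mul_of_pos_right _ hM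
  have hMnM : M ≤ nM := by rw [hnM]; exact Nat.le_mul_of_pos_left _ (Nat.mul_pos ha ha)
  have hn1 : 1 ≤ a * a := Nat.mul_pos ha ha
  have had : a ≤ d := by omega
  obtain ⟨δ, hδ⟩ : ∃ δ, 2 * (δ + 1) + a * a = a * (2 * d + 3) := by
    have h8 := two_T (d + 1)
    have h9 := two_T (d + 1 - a)
    have h10 : T (d + 1 - a) + 1 ≤ T (d + 1) := by
      have e1 : T (d + 1 - a) ≤ T d := ShghL.T_mono (by omega)
      have e2 := T_succ d
      omega
    obtain ⟨i, hi⟩ := Nat.exists_eq_add_of_le (show a ≤ d + 1 by omega)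
    refine ⟨T (d + 1) - T (d + 1 - a) - 1, ?_⟩
    rw [show T (d + 1) - T (d + 1 - a) - 1 + 1 = T (d + 1) - T (d + 1 - a) by omega]
    rw [hi, Nat.add_sub_cancel_left] at h9
    rw [show d + 1 - a = i by omega] at h10 ⊢
    have hd : d = a + i - 1 := by omega
    zify [show T i ≤ T (d + 1) by omega] at *
    have hd' : (d : ℤ) = a + i - 1 := by omega
    rw [hd'] at h8 ⊢
    linarith
  have hδ2 : 2 * (δ + 1) + n = 2 * ad + 3 * a := by
    rw [hn, hδ, had']; ring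
  have hδnM : 649 * nM ≤ δ := by omega
  have hδr1 : (ad : ℝ) ≤ (δ + 1) + n / 2 := by
    have : 2 * ad ≤ 2 * (δ + 1) + n := by omega
    have h' : (2 : ℝ) * ad ≤ 2 * (δ + 1) + n := by exact_mod_cast this
    linarith
  have hnr : (650 : ℝ) * n ≤ ad := by
    have : 650 * n ≤ ad := by omega
    exact_mod_cast this
  have hnMr : (649 : ℝ) * nM ≤ δ + 1 := by
    have : 649 * nM ≤ δ + 1 := by omega
    exact_mod_cast this
  have hMr : (1 : ℝ) ≤ M := by exact_mod_cast hM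
  have hadr : (ad : ℝ) = (a : ℝ) * d := by rw [had']; push_cast; ring
  rw [← hadr] at hY
  have hδpos : (0 : ℝ) < δ + 1 := by positivity
  -- the rows
  obtain ⟨ℓ, hℓ⟩ : ∃ ℓ : ℕ → ℕ, ℓ = fun k => δ + 1 - a * a * k := ⟨_, rfl⟩
  obtain ⟨R, hR⟩ : ∃ R : ℕ → ℕ, R = fun t => ∑ k ∈ Finset.range t, (δ + 1 - a * a * k) := ⟨_, rfl⟩
  have hR0 : R 0 = 0 := by rw [hR]; simp
  have hRs : ∀ t, R (t + 1) = R t + ℓ t := by
    intro t
    rw [hR, hℓ]
    exact Finset.sum_range_succ _ _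
  have hanM : a * a * (23 * M) = 23 * nM := by rw [hnM]; ring
  have hanM5 : a * a * (50 * M) = 50 * nM := by rw [hnM]; ring
  have hℓN : ∀ t, t < 23 * M → δ + 1 - 23 * nM ≤ ℓ t := by
    intro t ht
    rw [hℓ]
    have : a * a * t ≤ a * a * (23 * M) := Nat.mul_le_mul_left _ ht.le
    show δ + 1 - 23 * nM ≤ δ + 1 - a * a * t
    omega
  have hℓN5 : ∀ t, t < 50 * M → δ + 1 - 50 * nM ≤ ℓ t := by
    intro t ht
    rw [hℓ]
    have : a * a * t ≤ a * a * (50 * M) := Nat.mul_le_mul_left _ ht.le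
    show δ + 1 - 50 * nM ≤ δ + 1 - a * a * t
    omega
  have hRup : ∀ t, R t ≤ t * (δ + 1) := by
    intro t
    induction t with
    | zero => rw [hR0]; omega
    | succ t ih =>
      rw [hRs]
      have e1 : ℓ t ≤ δ + 1 := by rw [hℓ]; exact Nat.sub_le _ _
      have e2 : (t + 1) * (δ + 1) = t * (δ + 1) + (δ + 1) := by ring
      omega
  have hRlow : ∀ t, t ≤ 23 * M → t * (δ + 1 - 23 * nM) ≤ R t := by
    intro t
    induction t with
    | zero => intro _; omega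
    | succ t ih =>
      intro ht
      rw [hRs]
      have e1 := ih (by omega)
      have e2 := hℓN t (by omega)
      have e3 : (t + 1) * (δ + 1 - 23 * nM) = t * (δ + 1 - 23 * nM) + (δ + 1 - 23 * nM) := by ring
      omega
  have hRlow5 : ∀ t, t ≤ 50 * M → t * (δ + 1 - 50 * nM) ≤ R t := by
    intro t
    induction t with
    | zero => intro _; omega
    | succ t ih =>
      intro ht
      rw [hRs]
      have e1 := ih (by omega)
      have e2 := hℓN5 t (by omega)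
      have e3 : (t + 1) * (δ + 1 - 50 * nM) = t * (δ + 1 - 50 * nM) + (δ + 1 - 50 * nM) := by ring
      omega
  have hNr : ((δ + 1 - 23 * nM : ℕ) : ℝ) = (δ + 1) - 23 * nM := by
    rw [Nat.cast_sub (by omega)]
    push_cast
    ring
  have hNr5 : ((δ + 1 - 50 * nM : ℕ) : ℝ) = (δ + 1) - 50 * nM := by
    rw [Nat.cast_sub (by omega)]
    push_cast
    ring
  have hχ : |(T (d + 1) : ℝ) - TT (K + S)| < 1 / 4 * Y := by linarith
  rw [abs_lt] at hχ
  have hTTKS : (TT (K + S) : ℝ) = TT K + TT S := by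
    rw [TT_add]
    push_cast
    ring
  -- the mass of `S`
  have hmass : (1.92 : ℝ) * R (23 * M) ≤ TT S := by
    have g1 := row_sum d a δ hδ (50 * M) (by
      have : 50 * M * a = 50 * (M * a) := by ring
      omega)
    have g2 : 50 * M * a = 50 * (M * a) := by ring
    rw [g2] at g1
    have g3 : R (50 * M) = ∑ k ∈ Finset.range (50 * M), (δ + 1 - a * a * k) := by rw [hR]
    rw [← g3] at g1
    have g4 : (T (d + 1) : ℝ) = T (d - 50 * (M * a) + 1) + R (50 * M) := by exact_mod_cast g1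
    have g5 : (TT K : ℝ) ≤ T (d - 50 * (M * a) + 1) := by exact_mod_cast hK
    have g6 : ((50 * M : ℕ) : ℝ) * ((δ + 1) - 50 * nM) ≤ R (50 * M) := by
      rw [← hNr5]
      exact_mod_cast hRlow5 (50 * M) le_rfl
    have g7 : (R (23 * M) : ℝ) ≤ ((23 * M : ℕ) : ℝ) * (δ + 1) := by exact_mod_cast hRup (23 * M)
    push_cast at g6 g7
    have g8 : (M : ℝ) * (649 * nM) ≤ M * (δ + 1) := mul_le_mul_of_nonneg_left hnMr (by linarith)
    have g9 : (1 : ℝ) * (δ + 1) ≤ M * (δ + 1) := mul_le_mul_of_nonneg_right hMr hδpos.le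
    linarith
  obtain ⟨A, B, t, p1, p2, p3, p4, p5, p6, p7, p8⟩ := tPartsU S Y (δ + 1 - 23 * nM) (23 * M) R ℓ
    hR0 hRs hℓN (by omega) (by linarith) (by rw [hNr]; linarith) hmass hS2
  -- the thickness
  have ht : 19 * M + 1 ≤ t := by
    by_contra hcon
    push Not at hcon
    have g1 : (R t : ℝ) ≤ (t : ℝ) * (δ + 1) := by exact_mod_cast hRup t
    have g2 : (t : ℝ) ≤ 19 * M := by
      have : t ≤ 19 * M := by omega
      exact_mod_cast this
    have g3 : ((23 * M : ℕ) : ℝ) * ((δ + 1) - 23 * nM) ≤ R (23 * M) := by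
      rw [← hNr]
      exact_mod_cast hRlow (23 * M) le_rfl
    push_cast at g3
    have g4 : (t : ℝ) * (δ + 1) ≤ 19 * M * (δ + 1) := mul_le_mul_of_nonneg_right g2 hδpos.le
    have g5 : (M : ℝ) * (649 * nM) ≤ M * (δ + 1) := mul_le_mul_of_nonneg_left hnMr (by linarith)
    have g6 : (0 : ℝ) < M * (δ + 1) := by positivity
    linarith
  obtain ⟨τ, rfl⟩ : ∃ τ, t = τ + 1 := ⟨t - 1, by omega⟩
  have hta : (τ + 1) * a ≤ 23 * (M * a) := by
    have : (τ + 1) * a ≤ 23 * M * a := Nat.mul_le_mul_right _ p3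
    have e : 23 * M * a = 23 * (M * a) := by ring
    omega
  have hτa : (τ + 1) * a = τ * a + a := by ring
  rw [Nat.add_sub_cancel] at p6
  have hRt := hRs τ
  have hsum1 := row_sum d a δ hδ τ (by omega)
  have hsum2 := row_sum d a δ hδ (τ + 1) (by omega)
  have hR1 : ∑ k ∈ Finset.range τ, (δ + 1 - a * a * k) = R τ := by rw [hR]
  have hR2 : ∑ k ∈ Finset.range (τ + 1), (δ + 1 - a * a * k) = R (τ + 1) := by rw [hR]
  rw [hR1] at hsum1
  rw [hR2] at hsum2
  have hSA : ∀ m ∈ A, m ≤ M := fun m hm => hSM m (by rw [p1]; exact Multiset.mem_add.2 (Or.inl hm))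
  have hSB : ∀ m ∈ B, m ≤ M := fun m hm => hSM m (by rw [p1]; exact Multiset.mem_add.2 (Or.inr hm))
  have hTTS : (TT S : ℝ) = TT A + TT B := by
    rw [p1, TT_add]
    push_cast
    ring
  have hTTKA : (TT (K + A) : ℝ) = TT K + TT A := by
    rw [TT_add]
    push_cast
    ring
  have hKS : K + S = (K + A) + B := by rw [p1, add_assoc]
  have hRtr : (R (τ + 1) : ℝ) = R τ + ℓ τ := by exact_mod_cast hRt
  have hs1r : (T (d + 1) : ℝ) = T (d - τ * a + 1) + R τ := by exact_mod_cast hsum1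
  have hs2r : (T (d + 1) : ℝ) = T (d - (τ + 1) * a + 1) + R (τ + 1) := by exact_mod_cast hsum2
  have hdeg : ∀ τ' : ℕ, τ' ≤ 23 * M → 14 * (a * a + 1) * τ' ≤ δ := by
    intro τ' hτ'
    have e1 : 14 * (a * a + 1) * τ' ≤ 14 * (a * a + 1) * (23 * M) := Nat.mul_le_mul_left _ hτ'
    have e2 : 14 * (a * a + 1) * (23 * M) = 322 * nM + 322 * M := by rw [hnM]; ring
    omega
  have hnτ : a * a * τ ≤ δ := by
    have e1 := hdeg τ (by omega)
    have e2 : 14 * (a * a + 1) * τ = 14 * (a * a * τ) + 14 * τ := by ring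
    omega
  obtain ⟨c, hc⟩ : ∃ c, δ = a * a * τ + c := Nat.exists_eq_add_of_le hnτ
  have p7' : ∀ m ∈ A, 2 ≤ m → 127 * (m : ℝ) ^ 2 ≤ 2.04 * Y + rr A m := p7
  have p8' : ∀ m ∈ B, 2 ≤ m → 62 * (m : ℝ) ^ 2 ≤ Y + TT (B.filter (fun j => j < m)) := by
    intro m hm h2m
    have e1 := p8 m hm h2m
    change _ ≤ _ + (rr B m : ℝ)
    nlinarith [sq_nonneg (m : ℝ)]
  have HG1 := mStripG F (a * a) τ hn1
  have HG0 := mStripG F (a * a) (τ - 1) hn1
  rw [hKS]
  refine close_exact F d a τ δ c (K + A) B ha (by omega) (by omega) hδ hc ?_ ?_ ?_ ?_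
  · intro k hk
    have e1 : k * a ≤ τ * a := Nat.mul_le_mul_right _ hk
    have e2 : (T (d - τ * a + 1) : ℝ) ≤ T (d - k * a + 1) := by
      exact_mod_cast ShghL.T_mono (show d - τ * a + 1 ≤ d - k * a + 1 by omega)
    have e3 : 0.255 * Y ≤ (T (d - k * a + 1) : ℝ) - TT (K + A) := by linarith
    have e4 := hW (d - k * a) A (2.04 * Y) hSA (by omega) (by omega) (by linarith) p7' (by
      rw [abs_of_nonneg (by linarith)]
      linarith)
    have e5 : (TT (K + A) : ℝ) ≤ T (d - k * a + 1) := by linarith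
    have e6 : TT (K + A) ≤ T (d - k * a + 1) := by exact_mod_cast e5
    omega
  · have e3 : (T (d - (τ + 1) * a + 1) : ℝ) - TT (K + A) ≤ -(0.255 * Y) := by linarith
    have e4 := hW (d - (τ + 1) * a) A (2.04 * Y) hSA (by omega) (by omega) (by linarith) p7' (by
      rw [abs_of_nonpos (by linarith)]
      linarith)
    have e5 : (T (d - (τ + 1) * a + 1) : ℝ) ≤ TT (K + A) := by linarith
    have e6 : T (d - (τ + 1) * a + 1) ≤ TT (K + A) := by exact_mod_cast e5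
    omega
  · have e0 : hN F (Sf (a * a) (τ - 1) δ) 0 = R τ := by
      rw [HG0.empty δ, show τ - 1 + 1 = τ by omega, hR1]
    have e1 := mass_strip (HU (a * a) (τ - 1) hn1) (e := δ) hM (by omega) (hdeg (τ - 1) (by omega))
      hSB hY0 p8' (by
        show Y ≤ 8 * |((hN F (Sf (a * a) (τ - 1) δ) 0 : ℕ) : ℝ) - TT B|
        rw [e0, abs_of_nonpos (by linarith)]
        linarith)
    change hN F (Sf (a * a) (τ - 1) δ) B = hN F (Sf (a * a) (τ - 1) δ) 0 - TT B at e1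
    rw [e0] at e1
    have e5 : (R τ : ℝ) ≤ TT B := by linarith
    have e6 : R τ ≤ TT B := by exact_mod_cast e5
    omega
  · have e0 : hN F (Sf (a * a) τ δ) 0 = R (τ + 1) := by
      rw [HG1.empty δ, hR2]
    have e1 := mass_strip (HU (a * a) τ hn1) (e := δ) hM (by omega) (hdeg τ (by omega))
      hSB hY0 p8' (by
        show Y ≤ 8 * |((hN F (Sf (a * a) τ δ) 0 : ℕ) : ℝ) - TT B|
        rw [e0, abs_of_nonneg (by linarith)]
        linarith)
    change hN F (Sf (a * a) τ δ) B = hN F (Sf (a * a) τ δ) 0 - TT B at e1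
    rw [e0] at e1
    have e5 : (TT B : ℝ) ≤ R (τ + 1) := by linarith
    have e6 : TT B ≤ R (τ + 1) := by exact_mod_cast e5
    rw [hR2]
    omega

end ShghI
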