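import Pool.Agent.ShghC.MainX
import Pool.Agent.ShghI.MainT

/-!
# ShghI, CloseX: closing along a long curve, abstract form and relative form

The points of `S` are split in `A + B`; the points of `B` are placed on the double curve `y = x ^ a`.
-/

namespace ShghI

open MvPolynomial ShghJ ShghC

universe u

/-- CLOSING ALONG A LONG CURVE, abstract form. `u`, `v`: windows of `K + A` in the degrees between
`d - (τ + 1) a` and `d`; `U`, `V`: windows of the strips of thickness `τ - 1` and `τ`. -/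
theorem close_long (F : Type u) [Field F] [CharZero F] (d a τ δ c t0 U V u v : ℕ)
    (K S : Multiset ℕ) (ha : 1 ≤ a) (hτ1 : 1 ≤ τ) (hτd : (τ + 1) * a ≤ d)
    (hδ : 2 * (δ + 1) + a * a = a * (2 * d + 3)) (hc : δ = a * a * τ + c)
    (hT0 : ∀ x ∈ S, T x ≤ t0) (hcap : u + v + U + V + t0 ≤ c + 1)
    (hX : U + v + TT K ≤ T (d - τ * a + 1))
    (hP1 : ∀ B : Multiset ℕ, (∀ x ∈ B, x ∈ S) → 1 ≤ hN F (Sf (a * a) (τ - 1) δ) B →
      TT B ≤ ∑ k ∈ Finset.range τ, (δ + 1 - a * a * k) + U)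
    (hP2 : ∀ B : Multiset ℕ, (∀ x ∈ B, x ∈ S) →
      TT B + V ≤ ∑ k ∈ Finset.range (τ + 1), (δ + 1 - a * a * k) →
      hN F (Sf (a * a) τ δ) B + TT B = ∑ k ∈ Finset.range (τ + 1), (δ + 1 - a * a * k))
    (hW1 : ∀ (e : ℕ) (A : Multiset ℕ), (∀ x ∈ A, x ∈ S) → d ≤ e + (τ + 1) * a → e ≤ d →
      1 ≤ hF F e (K + A) → hF F e (K + A) + TT (K + A) ≤ T (e + 1) + u)
    (hW2 : ∀ (e : ℕ) (A : Multiset ℕ), (∀ x ∈ A, x ∈ S) → d ≤ e + (τ + 1) * a → e ≤ d →
      TT (K + A) + v ≤ T (e + 1) → hF F e (K + A) + TT (K + A) = T (e + 1)) :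
    hF F d (K + S) = T (d + 1) - TT (K + S) := by
  have hchar : ∀ d' : ℕ, ∀ n : ℕ, 1 ≤ n → n ≤ d' → (n : F) ≠ 0 :=
    fun _ n hn _ => Nat.cast_ne_zero.2 (by omega)
  have HC : ∀ d', HFunD d' (hF F d') := fun d' => hfunD_hF F d' (hchar d')
  have hlow := (HC d).toHFun.chi_le (K + S)
  by_cases hc1 : TT (K + S) + v ≤ T (d + 1)
  · have h8 := hW2 d S (fun x hx => hx) (by omega) le_rfl hc1
    omega
  by_cases hc2 : hF F d (K + S) = 0
  · omega
  have hc3 := hW1 d S (fun x hx => hx) (by omega) le_rfl (Nat.one_le_iff_ne_zero.2 hc2)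
  have hτa' : (τ + 1) * a = τ * a + a := by ring
  have had : a ≤ d := by omega
  have hrow : ∀ k, k ≤ τ → T (d - k * a + 1) =
      T (d - (k + 1) * a + 1) + (δ + 1 - a * a * k) ∧ a * a * k ≤ δ + 1 := by
    intro k hk
    have e1 : (k + 1) * a ≤ (τ + 1) * a := Nat.mul_le_mul_right _ (by omega)
    have e2 : (k + 1) * a = k * a + a := by ring
    obtain ⟨j, hj⟩ : ∃ j, d = k * a + j := ⟨d - k * a, by omega⟩
    have h8 := long2_row d a δ j (by omega) (by omega) hδ k hj
    rw [show d - k * a + 1 = j + 1 by omega, show d - (k + 1) * a + 1 = j + 1 - a by omega]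
    exact h8
  have hsum : ∀ t, t ≤ τ + 1 → T (d + 1) = T (d - t * a + 1) +
      ∑ k ∈ Finset.range t, (δ + 1 - a * a * k) := by
    intro t
    induction t with
    | zero => simp
    | succ t ih =>
      intro ht
      rw [Finset.sum_range_succ, ih (by omega), (hrow t (by omega)).1]
      omega
  have hsum1 := hsum τ (by omega)
  have hrowτ := (hrow τ le_rfl).1
  rw [hc, show a * a * τ + c + 1 - a * a * τ = c + 1 by omega] at hrowτ
  have hRR : ∑ k ∈ Finset.range (τ + 1), (δ + 1 - a * a * k) =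
      ∑ k ∈ Finset.range τ, (δ + 1 - a * a * k) + (c + 1) := by
    rw [Finset.sum_range_succ]
    congr 1
    omega
  have hTTKS := TT_add K S
  rw [hRR] at hP2
  generalize hRdef : ∑ k ∈ Finset.range τ, (δ + 1 - a * a * k) = R at *
  obtain ⟨X, hX'⟩ : ∃ X, T (d - τ * a + 1) = X + TT K := ⟨T (d - τ * a + 1) - TT K, by omega⟩
  obtain ⟨B, A, hAB, hA1, hA2⟩ := ShghL.exists_part t0 (X - (U + v)) S hT0 (by omega)
  have hSA : ∀ m ∈ A, m ∈ S := fun m hm => by rw [hAB]; exact Multiset.mem_add.2 (Or.inr hm)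
  have hSB : ∀ m ∈ B, m ∈ S := fun m hm => by rw [hAB]; exact Multiset.mem_add.2 (Or.inl hm)
  have hTTS : TT S = TT B + TT A := by rw [hAB, TT_add]
  have hTTKA := TT_add K A
  obtain ⟨x, hx⟩ : ∃ x, X = TT A + x := ⟨X - TT A, by omega⟩
  have hKS : K + S = (K + A) + B := by rw [hAB]; abel
  have hreg : ∀ k, k ≤ τ → hF F (d - k * a) (K + A) + TT (K + A) = T (d - k * a + 1) := by
    intro k hk
    have e1 : k * a ≤ τ * a := Nat.mul_le_mul_right _ hk
    have e2 : T (d - τ * a + 1) ≤ T (d - k * a + 1) := ShghL.T_mono (by omega)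
    exact hW2 _ A hSA (by omega) (by omega) (by omega)
  have hii : hF F (d - τ * a) (K + A) = x := by
    have := hreg τ le_rfl
    omega
  have hi : hF F (d - (τ + 1) * a) (K + A) = 0 := by
    by_contra hne
    have h8 := hW1 (d - (τ + 1) * a) A hSA (by omega) (by omega) (Nat.one_le_iff_ne_zero.2 hne)
    omega
  have hglue := mGlueRL F d a τ (a * a) δ (K + A) B ha hτd hi (by
    intro k hk
    have e1 := hreg k hk.le
    have e2 := (HC (d - (k + 1) * a)).toHFun.chi_le (K + A)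
    have e3 := (hrow k hk.le).1
    omega)
  rw [hii, ← hKS] at hglue
  have hz : hN F (Sf (a * a) (τ - 1) δ) B = 0 := by
    by_contra hne
    have h8 := hP1 B hSB (Nat.one_le_iff_ne_zero.2 hne)
    omega
  have hy : hN F (Sf (a * a) τ δ) B + TT B = R + (c + 1) := hP2 B hSB (by omega)
  rcases mRaise F (a * a) τ δ x B (by omega) (by omega) with h8 | h8
  · rw [long_St_zero _ _ _ (by omega), hz] at h8
    omega
  · rw [show δ - a * a * τ + 1 = c + 1 by omega] at h8
    omega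

end ShghI
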