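import Pool.Agent.ShghL.Close1
import Mathlib.Data.Multiset.Powerset

/-!
# Counting multiplicity vectors: volume bounds
-/

namespace ShghI

open ShghJ

/-- The multisets of positive integers with `TT S ≤ N`, as a finite set. -/
def AF (N : ℕ) : Finset (Multiset ℕ) :=
  (Multiset.powerset (N • Multiset.range (N + 1))).toFinset.filter
    (fun S => (∀ x ∈ S, 1 ≤ x) ∧ TT S ≤ N)

theorem le_T (x : ℕ) : x ≤ T x := by
  have := two_T x
  nlinarith [Nat.zero_le x, mul_self_nonneg ((x : ℤ) - 1), Nat.le_mul_self x]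

theorem T_pos' {x : ℕ} (hx : 1 ≤ x) : 1 ≤ T x := hx.trans (le_T x)

theorem le_TT {S : Multiset ℕ} {x : ℕ} (hx : x ∈ S) : T x ≤ TT S := by
  obtain ⟨S', rfl⟩ := Multiset.exists_cons_of_mem hx
  rw [TT_cons]
  omega

theorem card_le_TT {S : Multiset ℕ} (h : ∀ x ∈ S, 1 ≤ x) : Multiset.card S ≤ TT S := by
  induction S using Multiset.induction_on with
  | empty => simp
  | cons a S ih =>
    rw [Multiset.card_cons, TT_cons]
    have h1 := ih fun x hx => h x (Multiset.mem_cons_of_mem hx)
    have h2 := T_pos' (h a (Multiset.mem_cons_self a S))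
    omega

theorem mem_AF {N : ℕ} {S : Multiset ℕ} : S ∈ AF N ↔ (∀ x ∈ S, 1 ≤ x) ∧ TT S ≤ N := by
  unfold AF
  rw [Finset.mem_filter, Multiset.mem_toFinset, Multiset.mem_powerset]
  refine ⟨fun h => h.2, fun h => ⟨?_, h⟩⟩
  rw [Multiset.le_iff_count]
  intro a
  by_cases ha : a ∈ S
  · have h1 : a ≤ N := ((le_T a).trans (le_TT ha)).trans h.2
    rw [Multiset.count_nsmul, Multiset.count_eq_one_of_mem (Multiset.nodup_range _)
      (Multiset.mem_range.2 (by omega)), mul_one]
    exact (Multiset.count_le_card a S).trans ((card_le_TT h.1).trans h.2)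
  · rw [Multiset.count_eq_zero_of_notMem ha]
    exact Nat.zero_le _

/-- The number of multisets with parts in `1, .., k` and `TT ≤ R`. -/
def vk (k R : ℕ) : ℕ := ((AF R).filter (fun S => ∀ x ∈ S, x ≤ k)).card

theorem vk_zero (R : ℕ) : vk 0 R = 1 := by
  unfold vk
  rw [Finset.card_eq_one]
  refine ⟨0, ?_⟩
  ext S
  rw [Finset.mem_filter, mem_AF, Finset.mem_singleton]
  constructor
  · rintro ⟨⟨h1, -⟩, h2⟩
    refine Multiset.eq_zero_of_forall_notMem fun x hx => ?_
    have := h1 x hx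
    have := h2 x hx
    omega
  · rintro rfl
    simp [TT_zero]

theorem vk_succ (k R : ℕ) : vk (k + 1) R =
    vk k R + (if T (k + 1) ≤ R then vk (k + 1) (R - T (k + 1)) else 0) := by
  classical
  unfold vk
  have h1 : ((AF R).filter (fun S => ∀ x ∈ S, x ≤ k + 1)) =
      ((AF R).filter (fun S => ∀ x ∈ S, x ≤ k)) ∪
        ((AF R).filter (fun S => (∀ x ∈ S, x ≤ k + 1) ∧ k + 1 ∈ S)) := by
    ext S
    simp only [Finset.mem_union, Finset.mem_filter]
    constructor
    · rintro ⟨h1, h2⟩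
      by_cases h3 : k + 1 ∈ S
      · exact Or.inr ⟨h1, h2, h3⟩
      · refine Or.inl ⟨h1, fun x hx => ?_⟩
        have := h2 x hx
        have : x ≠ k + 1 := fun h => h3 (h ▸ hx)
        omega
    · rintro (⟨h1, h2⟩ | ⟨h1, h2, -⟩)
      · exact ⟨h1, fun x hx => (h2 x hx).trans (Nat.le_succ k)⟩
      · exact ⟨h1, h2⟩
  have h2 : Disjoint ((AF R).filter (fun S => ∀ x ∈ S, x ≤ k))
      ((AF R).filter (fun S => (∀ x ∈ S, x ≤ k + 1) ∧ k + 1 ∈ S)) := by
    rw [Finset.disjoint_left]
    intro S h3 h4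
    rw [Finset.mem_filter] at h3 h4
    have := h3.2 _ h4.2.2
    omega
  rw [h1, Finset.card_union_of_disjoint h2]
  congr 1
  split_ifs with h3
  · refine Finset.card_bij' (fun S _ => S.erase (k + 1)) (fun S _ => (k + 1) ::ₘ S) ?_ ?_ ?_ ?_
    · intro S hS
      rw [Finset.mem_filter, mem_AF] at hS ⊢
      obtain ⟨⟨h4, h5⟩, h6, h7⟩ := hS
      have h8 : TT S = T (k + 1) + TT (S.erase (k + 1)) := by
        conv_lhs => rw [← Multiset.cons_erase h7, TT_cons]
      refine ⟨⟨fun x hx => h4 x (Multiset.mem_of_mem_erase hx), by omega⟩,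
        fun x hx => h6 x (Multiset.mem_of_mem_erase hx)⟩
    · intro S hS
      rw [Finset.mem_filter, mem_AF] at hS ⊢
      obtain ⟨⟨h4, h5⟩, h6⟩ := hS
      refine ⟨⟨?_, by rw [TT_cons]; omega⟩, ?_, Multiset.mem_cons_self _ _⟩
      · intro x hx
        rcases Multiset.mem_cons.1 hx with rfl | hx
        · omega
        · exact h4 x hx
      · intro x hx
        rcases Multiset.mem_cons.1 hx with rfl | hx
        · exact le_rfl
        · exact h6 x hx
    · intro S hS
      exact Multiset.cons_erase (Finset.mem_filter.1 hS).2.2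
    · intro S hS
      exact Multiset.erase_cons_head _ _
  · rw [Finset.card_eq_zero]
    refine Finset.filter_eq_empty_iff.2 fun S hS => ?_
    rintro ⟨-, h4⟩
    have h5 := (mem_AF.1 hS).2
    have h6 := le_TT h4
    omega

/-- `D_k = k! T(1) ... T(k)`. -/
def Dk : ℕ → ℕ
  | 0 => 1
  | k + 1 => Dk k * ((k + 1) * T (k + 1))

/-- `A_k = T(1) + ... + T(k)`. -/
def Ak : ℕ → ℕ
  | 0 => 0
  | k + 1 => Ak k + T (k + 1)

theorem Dk_pos (k : ℕ) : 1 ≤ Dk k := by
  induction k with
  | zero => exact le_rfl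
  | succ k ih =>
    have := T_pos' (show 1 ≤ k + 1 by omega)
    exact Nat.mul_pos ih (Nat.mul_pos (by omega) this)

theorem pow_lower (x t n : ℕ) : (x + t) ^ (n + 1) ≤ x ^ (n + 1) + (n + 1) * t * (x + t) ^ n := by
  induction n with
  | zero => simp
  | succ n ih =>
    calc (x + t) ^ (n + 1 + 1) = (x + t) ^ (n + 1) * x + t * (x + t) ^ (n + 1) := by ring
      _ ≤ (x ^ (n + 1) + (n + 1) * t * (x + t) ^ n) * x + t * (x + t) ^ (n + 1) :=
        Nat.add_le_add_right (Nat.mul_le_mul_right _ ih) _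
      _ = x ^ (n + 1 + 1) + (n + 1) * t * ((x + t) ^ n * x) + t * (x + t) ^ (n + 1) := by ring
      _ ≤ x ^ (n + 1 + 1) + (n + 1) * t * ((x + t) ^ n * (x + t)) + t * (x + t) ^ (n + 1) := by
        have : (x + t) ^ n * x ≤ (x + t) ^ n * (x + t) := Nat.mul_le_mul_left _ (by omega)
        have := Nat.mul_le_mul_left ((n + 1) * t) this
        omega
      _ = x ^ (n + 1 + 1) + (n + 1 + 1) * t * (x + t) ^ (n + 1) := by ring

theorem pow_upper (y t n : ℕ) : y ^ (n + 1) + (n + 1) * t * y ^ n ≤ (y + t) ^ (n + 1) := by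
  induction n with
  | zero => simp
  | succ n ih =>
    calc y ^ (n + 1 + 1) + (n + 1 + 1) * t * y ^ (n + 1)
        = (y ^ (n + 1) + (n + 1) * t * y ^ n) * y + t * y ^ (n + 1) := by ring
      _ ≤ (y + t) ^ (n + 1) * y + t * (y + t) ^ (n + 1) := by
        have h1 := Nat.mul_le_mul_right y ih
        have h2 := Nat.mul_le_mul_left t (Nat.pow_le_pow_left (show y ≤ y + t by omega) (n + 1))
        omega
      _ = (y + t) ^ (n + 1 + 1) := by ring

theorem vk_bounds (k : ℕ) : ∀ R : ℕ, R ^ k ≤ Dk k * vk k R ∧ Dk k * vk k R ≤ (R + Ak k) ^ k := by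
  induction k with
  | zero => intro R; simp [Dk, vk_zero]
  | succ k ih =>
    intro R
    induction R using Nat.strong_induction_on with
    | _ R ihR =>
      obtain ⟨h1, h2⟩ := ih R
      have hT := T_pos' (show 1 ≤ k + 1 by omega)
      have e : Dk (k + 1) = (k + 1) * T (k + 1) * Dk k := by
        show Dk k * ((k + 1) * T (k + 1)) = _
        ring
      have eA : Ak (k + 1) = Ak k + T (k + 1) := rfl
      rw [vk_succ, eA]
      have e2 : Dk (k + 1) * vk k R = (k + 1) * T (k + 1) * (Dk k * vk k R) := by rw [e]; ring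
      have h3 : (k + 1) * T (k + 1) * R ^ k ≤ Dk (k + 1) * vk k R := by
        rw [e2]
        exact Nat.mul_le_mul_left _ h1
      have h4 : Dk (k + 1) * vk k R ≤ (k + 1) * T (k + 1) * (R + Ak k) ^ k := by
        rw [e2]
        exact Nat.mul_le_mul_left _ h2
      split_ifs with h5
      · obtain ⟨h6, h7⟩ := ihR (R - T (k + 1)) (by omega)
        rw [eA] at h7
        constructor
        · have h8 := pow_lower (R - T (k + 1)) (T (k + 1)) k
          rw [show R - T (k + 1) + T (k + 1) = R by omega] at h8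
          rw [mul_add]
          omega
        · have h8 := pow_upper (R + Ak k) (T (k + 1)) k
          rw [show R - T (k + 1) + (Ak k + T (k + 1)) = R + Ak k by omega] at h7
          rw [show R + (Ak k + T (k + 1)) = R + Ak k + T (k + 1) by omega, mul_add]
          omega
      · rw [add_zero]
        constructor
        · refine le_trans ?_ h3
          rw [pow_succ, mul_comm]
          refine Nat.mul_le_mul_right _ ?_
          have : R ≤ T (k + 1) := by omega
          nlinarith
        · have h8 := pow_upper (R + Ak k) (T (k + 1)) k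
          rw [show R + (Ak k + T (k + 1)) = R + Ak k + T (k + 1) by omega]
          omega

/-- The ratio inequality. -/
theorem vk_ratio {k W t R : ℕ} (ht : Ak k ≤ t) (hR : R ≤ W) :
    vk k R * (W + t) ^ k ≤ vk k (R + t) * (W + Ak k) ^ k := by
  have h1 := (vk_bounds k R).2
  have h2 := (vk_bounds k (R + t)).1
  have h3 : (R + Ak k) * (W + t) ≤ (R + t) * (W + Ak k) := by
    obtain ⟨a, rfl⟩ := Nat.exists_eq_add_of_le ht
    obtain ⟨b, rfl⟩ := Nat.exists_eq_add_of_le hR
    nlinarith [Nat.zero_le (a * b)]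
  refine Nat.le_of_mul_le_mul_left ?_ (Dk_pos k)
  calc Dk k * (vk k R * (W + t) ^ k) = (Dk k * vk k R) * (W + t) ^ k := by ring
    _ ≤ (R + Ak k) ^ k * (W + t) ^ k := Nat.mul_le_mul_right _ h1
    _ = ((R + Ak k) * (W + t)) ^ k := by rw [mul_pow]
    _ ≤ ((R + t) * (W + Ak k)) ^ k := Nat.pow_le_pow_left h3 k
    _ = (R + t) ^ k * (W + Ak k) ^ k := by rw [mul_pow]
    _ ≤ (Dk k * vk k (R + t)) * (W + Ak k) ^ k := Nat.mul_le_mul_right _ h2
    _ = Dk k * (vk k (R + t) * (W + Ak k) ^ k) := by ring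

end ShghI
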