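import Pool.Agent.ShghI.Dens1

/-!
# Counting multiplicity vectors: one step
-/

namespace ShghI

open ShghJ

theorem TT_split (S : Multiset ℕ) (p : ℕ → Prop) [DecidablePred p] :
    TT S = TT (S.filter p) + TT (S.filter (fun x => ¬ p x)) := by
  rw [← TT_add, Multiset.filter_add_not]

theorem TT_erase {S : Multiset ℕ} {m : ℕ} (h : m ∈ S) : TT S = T m + TT (S.erase m) := by
  conv_lhs => rw [← Multiset.cons_erase h, TT_cons]

/-- The vectors which contain `m` and have small mass below `m` are rare. -/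
theorem bad_card (N m k W : ℕ) (hk : k < m) (hA : Ak k ≤ T m) :
    ((AF N).filter (fun S => m ∈ S ∧ TT (S.filter (fun x => x < m)) < W)).card * (W + T m) ^ k ≤
      (AF N).card * (W + Ak k) ^ k := by
  classical
  set Bad := (AF N).filter (fun S => m ∈ S ∧ TT (S.filter (fun x => x < m)) < W) with hBad
  set π : Multiset ℕ → Multiset ℕ := fun S => S.filter (fun x => k < x) with hπ
  set I := Bad.image π with hI
  have hmI : ∀ B ∈ I, m ∈ B ∧ TT B ≤ N ∧ (∀ x ∈ B, 1 ≤ x) ∧ (∀ x ∈ B, k < x) := by
    intro B hB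
    obtain ⟨S, hS, rfl⟩ := Finset.mem_image.1 hB
    rw [hBad, Finset.mem_filter, mem_AF] at hS
    obtain ⟨⟨h1, h2⟩, h3, h4⟩ := hS
    have h5 := TT_split S (fun x => k < x)
    exact ⟨Multiset.mem_filter.2 ⟨h3, hk⟩, by show TT (S.filter (fun x => k < x)) ≤ N; omega,
      fun x hx => h1 x (Multiset.mem_filter.1 hx).1, fun x hx => (Multiset.mem_filter.1 hx).2⟩
  have h1 : Bad.card = ∑ B ∈ I, (Bad.filter (fun S => π S = B)).card :=
    Finset.card_eq_sum_card_fiberwise fun S hS => Finset.mem_image_of_mem π hS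
  have h2 : ∑ B ∈ I, ((AF N).filter (fun S => π S = B.erase m)).card ≤ (AF N).card := by
    rw [← Finset.card_biUnion]
    · refine Finset.card_le_card fun S hS => ?_
      obtain ⟨B, -, hS⟩ := Finset.mem_biUnion.1 hS
      exact (Finset.mem_filter.1 hS).1
    · intro B hB B' hB' hne
      rw [Function.onFun, Finset.disjoint_left]
      intro S hS hS'
      rw [Finset.mem_filter] at hS hS'
      have h3 := hS.2.symm.trans hS'.2
      refine hne ?_
      rw [← Multiset.cons_erase (hmI B hB).1, ← Multiset.cons_erase (hmI B' hB').1, h3]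
  have h3 : ∀ B ∈ I, (Bad.filter (fun S => π S = B)).card * (W + T m) ^ k ≤
      ((AF N).filter (fun S => π S = B.erase m)).card * (W + Ak k) ^ k := by
    intro B hB
    obtain ⟨hm, hN, hB1, hBk⟩ := hmI B hB
    set R := min (N - TT B) W with hR
    have h4 : (Bad.filter (fun S => π S = B)).card ≤ vk k R := by
      unfold vk
      refine Finset.card_le_card_of_injOn (fun S => S.filter (fun x => ¬ k < x)) ?_ ?_
      · intro S hS
        rw [Finset.mem_coe, Finset.mem_filter] at hS
        obtain ⟨hS, hSB⟩ := hS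
        rw [hBad, Finset.mem_filter, mem_AF] at hS
        obtain ⟨⟨h5, h6⟩, h7, h8⟩ := hS
        have h9 := TT_split S (fun x => k < x)
        have h10 : TT (S.filter (fun x => k < x)) = TT B := by rw [← hSB]
        have h11 : TT (S.filter (fun x => ¬ k < x)) ≤ TT (S.filter (fun x => x < m)) := by
          refine TT_le_of_le ?_
          rw [Multiset.le_filter]
          exact ⟨Multiset.filter_le _ _, fun x hx => by
            have := (Multiset.mem_filter.1 hx).2
            omega⟩
        have h12 : TT (S.filter (fun x => ¬ k < x)) ≤ R := by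
          rw [hR, le_min_iff]
          constructor <;> omega
        rw [Finset.mem_coe, Finset.mem_filter, mem_AF]
        exact ⟨⟨fun x hx => h5 x (Multiset.mem_filter.1 hx).1, h12⟩, fun x hx => by
          have := (Multiset.mem_filter.1 hx).2
          omega⟩
      · intro S hS S' hS' he
        rw [Finset.mem_coe, Finset.mem_filter] at hS hS'
        have e1 : S.filter (fun x => k < x) = S'.filter (fun x => k < x) := hS.2.trans hS'.2.symm
        have e2 : S.filter (fun x => ¬ k < x) = S'.filter (fun x => ¬ k < x) := he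
        rw [← Multiset.filter_add_not (fun x => k < x) S,
          ← Multiset.filter_add_not (fun x => k < x) S', e1, e2]
    have h5 : vk k (R + T m) ≤ ((AF N).filter (fun S => π S = B.erase m)).card := by
      unfold vk
      refine Finset.card_le_card_of_injOn (fun u => u + B.erase m) ?_ ?_
      · intro u hu
        rw [Finset.mem_coe, Finset.mem_filter, mem_AF] at hu
        obtain ⟨⟨h6, h7⟩, h8⟩ := hu
        have h9 := TT_erase hm
        have h10 : R ≤ N - TT B := min_le_left _ _
        rw [Finset.mem_coe, Finset.mem_filter, mem_AF]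
        refine ⟨⟨fun x hx => ?_, by rw [TT_add]; omega⟩, ?_⟩
        · rcases Multiset.mem_add.1 hx with hx | hx
          · exact h6 x hx
          · exact hB1 x (Multiset.mem_of_mem_erase hx)
        · show (u + B.erase m).filter (fun x => k < x) = B.erase m
          rw [Multiset.filter_add, Multiset.filter_eq_nil.2 (fun x hx => by
            have := h8 x hx
            omega), Multiset.filter_eq_self.2 (fun x hx => hBk x (Multiset.mem_of_mem_erase hx)),
            zero_add]
      · intro u _ u' _ he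
        exact add_right_cancel he
    calc (Bad.filter (fun S => π S = B)).card * (W + T m) ^ k ≤ vk k R * (W + T m) ^ k :=
        Nat.mul_le_mul_right _ h4
      _ ≤ vk k (R + T m) * (W + Ak k) ^ k := vk_ratio hA (min_le_right _ _)
      _ ≤ _ := Nat.mul_le_mul_right _ h5
  calc Bad.card * (W + T m) ^ k
      = ∑ B ∈ I, (Bad.filter (fun S => π S = B)).card * (W + T m) ^ k := by
        rw [h1, Finset.sum_mul]
    _ ≤ ∑ B ∈ I, ((AF N).filter (fun S => π S = B.erase m)).card * (W + Ak k) ^ k :=
        Finset.sum_le_sum h3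
    _ = (∑ B ∈ I, ((AF N).filter (fun S => π S = B.erase m)).card) * (W + Ak k) ^ k := by
        rw [Finset.sum_mul]
    _ ≤ (AF N).card * (W + Ak k) ^ k := Nat.mul_le_mul_right _ h2

theorem Ak_le (k : ℕ) : Ak k ≤ k ^ 3 := by
  induction k with
  | zero => exact le_rfl
  | succ k ih =>
    have h := two_T (k + 1)
    show Ak k + T (k + 1) ≤ _
    have e : (k + 1) ^ 3 = k ^ 3 + 3 * k ^ 2 + 3 * k + 1 := by ring
    have e2 : (k + 1) * (k + 1 + 1) = k ^ 2 + 3 * k + 2 := by ring
    rw [e2] at h
    omega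

/-- With `k = sqrt m` and `W = 255 m ^ 2`, `m ≥ 64`: the fraction is at most `(1 - 1/1100) ^ k`. -/
theorem bad_card' (N m : ℕ) (hm : 64 ≤ m) :
    ((AF N).filter (fun S => m ∈ S ∧ TT (S.filter (fun x => x < m)) < 255 * m ^ 2)).card *
      1023 ^ (Nat.sqrt m) ≤ (AF N).card * 1022 ^ (Nat.sqrt m) := by
  have hk1 : Nat.sqrt m * Nat.sqrt m ≤ m := Nat.sqrt_le m
  have hk2 : m < (Nat.sqrt m + 1) * (Nat.sqrt m + 1) := Nat.lt_succ_sqrt m
  set k := Nat.sqrt m with hk
  have hk8 : 8 ≤ k := by
    by_contra h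
    have : k + 1 ≤ 8 := by omega
    nlinarith
  have hkm : k < m := by nlinarith
  have hT := two_T m
  have hA : 8 * Ak k ≤ m ^ 2 := by
    have h1 := Ak_le k
    have h2 : k ^ 3 * 8 ≤ k ^ 4 := by
      calc k ^ 3 * 8 ≤ k ^ 3 * k := Nat.mul_le_mul_left _ hk8
        _ = k ^ 4 := by ring
    have h3 : k ^ 4 ≤ m ^ 2 := by
      calc k ^ 4 = (k * k) ^ 2 := by ring
        _ ≤ m ^ 2 := Nat.pow_le_pow_left hk1 2
    omega
  have hTm : m ^ 2 ≤ 2 * T m := by rw [hT]; nlinarith
  have h := bad_card N m k (255 * m ^ 2) hkm (by omega)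
  -- `(W + A) * 1023 ≤ (W + T) * 1022`
  have h2 : (255 * m ^ 2 + Ak k) * 1023 ≤ (255 * m ^ 2 + T m) * 1022 := by omega
  have hpos : 0 < (255 * m ^ 2 + T m) ^ k := by
    have : 0 < m ^ 2 := by positivity
    positivity
  refine Nat.le_of_mul_le_mul_right ?_ hpos
  calc _ = (((AF N).filter (fun S => m ∈ S ∧ TT (S.filter (fun x => x < m)) < 255 * m ^ 2)).card *
        (255 * m ^ 2 + T m) ^ k) * 1023 ^ k := by ring
    _ ≤ ((AF N).card * (255 * m ^ 2 + Ak k) ^ k) * 1023 ^ k := Nat.mul_le_mul_right _ h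
    _ = (AF N).card * ((255 * m ^ 2 + Ak k) * 1023) ^ k := by rw [mul_pow]; ring
    _ ≤ (AF N).card * ((255 * m ^ 2 + T m) * 1022) ^ k :=
        Nat.mul_le_mul_left _ (Nat.pow_le_pow_left h2 k)
    _ = (AF N).card * 1022 ^ k * (255 * m ^ 2 + T m) ^ k := by rw [mul_pow]; ring

end ShghI
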