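import Pool.Agent.ShghI.Dens2

/-!
# Counting multiplicity vectors: vectors with few ones are rare
-/

namespace ShghI

open ShghJ

theorem T_inj {i j : ℕ} (h : T i = T j) : i = j := by
  have h1 := two_T i
  have h2 := two_T j
  rcases Nat.lt_trichotomy i j with h3 | h3 | h3
  · nlinarith
  · exact h3
  · nlinarith

/-- Vectors with at most `w` different multiplicities. -/
theorem few_card (N w : ℕ) :
    ((AF N).filter (fun S => S.toFinset.card ≤ w)).card ≤ ((N + 1) ^ 2) ^ w := by
  classical
  induction w with
  | zero =>
    rw [pow_zero, Finset.card_le_one]
    intro S hS S' hS'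
    rw [Finset.mem_filter] at hS hS'
    have h1 : S = 0 := by
      have := Finset.card_eq_zero.1 (Nat.le_zero.1 hS.2)
      rwa [Multiset.toFinset_eq_empty] at this
    have h2 : S' = 0 := by
      have := Finset.card_eq_zero.1 (Nat.le_zero.1 hS'.2)
      rwa [Multiset.toFinset_eq_empty] at this
    rw [h1, h2]
  | succ w ih =>
    set el : Multiset ℕ → ℕ := fun S => if h : ∃ x, x ∈ S then h.choose else 0 with hel
    set g : Multiset ℕ → Multiset ℕ × ℕ × ℕ :=
      fun S => (S.filter (fun x => x ≠ el S), el S, S.count (el S)) with hg
    have hrec : ∀ S, (g S).1 + Multiset.replicate (g S).2.2 (g S).2.1 = S := by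
      intro S
      show S.filter (fun x => x ≠ el S) + Multiset.replicate (S.count (el S)) (el S) = S
      rw [← Multiset.filter_eq' S (el S), add_comm]
      exact Multiset.filter_add_not (fun x => x = el S) S
    have h1 : ((AF N).filter (fun S => S.toFinset.card ≤ w + 1)).card ≤
        (((AF N).filter (fun S => S.toFinset.card ≤ w)) ×ˢ
          (Finset.range (N + 1) ×ˢ Finset.range (N + 1))).card := by
      refine Finset.card_le_card_of_injOn g ?_ ?_
      · intro S hS
        rw [Finset.mem_coe, Finset.mem_filter, mem_AF] at hS
        obtain ⟨⟨h1, h2⟩, h3⟩ := hS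
        rw [Finset.mem_coe, Finset.mem_product, Finset.mem_product, Finset.mem_filter, mem_AF,
          Finset.mem_range, Finset.mem_range]
        have hle : TT (S.filter (fun x => x ≠ el S)) ≤ TT S :=
          TT_le_of_le (Multiset.filter_le _ _)
        refine ⟨⟨⟨fun x hx => h1 x (Multiset.mem_filter.1 hx).1, hle.trans h2⟩, ?_⟩, ?_, ?_⟩
        · show (S.filter (fun x => x ≠ el S)).toFinset.card ≤ w
          by_cases h : ∃ x, x ∈ S
          · have h4 : el S ∈ S := by
              rw [hel]
              simp only [h, dif_pos]
              exact h.choose_spec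
            have h5 : (S.filter (fun x => x ≠ el S)).toFinset = S.toFinset.erase (el S) := by
              ext x
              simp only [Multiset.mem_toFinset, Multiset.mem_filter, Finset.mem_erase]
              tauto
            rw [h5, Finset.card_erase_of_mem (Multiset.mem_toFinset.2 h4)]
            omega
          · have h4 : S = 0 := Multiset.eq_zero_of_forall_notMem fun x hx => h ⟨x, hx⟩
            rw [h4]
            simp
        · show el S < N + 1
          by_cases h : ∃ x, x ∈ S
          · have h4 : el S ∈ S := by
              rw [hel]
              simp only [h, dif_pos]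
              exact h.choose_spec
            have := (le_T (el S)).trans (le_TT h4)
            omega
          · rw [hel]
            simp [h]
        · show S.count (el S) < N + 1
          have := (Multiset.count_le_card (el S) S).trans (card_le_TT h1)
          omega
      · intro S _ S' _ he
        rw [← hrec S, ← hrec S', he]
    refine h1.trans ?_
    rw [Finset.card_product, Finset.card_product, Finset.card_range, pow_succ]
    refine Nat.mul_le_mul ih ?_
    rw [sq]

/-- Vectors with a given `TT`. -/
theorem level_card (N n w : ℕ) :
    ((AF N).filter (fun S => TT S = n)).card * w ≤ (AF N).card + ((N + 1) ^ 2) ^ w * w := by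
  classical
  set E := (AF N).filter (fun S => TT S = n) with hE
  have h1 : E.card ≤ (E.filter (fun S => w < S.toFinset.card)).card +
      ((AF N).filter (fun S => S.toFinset.card ≤ w)).card := by
    rw [← Finset.card_filter_add_card_filter_not (s := E) (fun S => w < S.toFinset.card)]
    refine Nat.add_le_add_left (Finset.card_le_card fun S hS => ?_) _
    rw [Finset.mem_filter] at hS ⊢
    exact ⟨(Finset.mem_filter.1 hS.1).1, by have := hS.2; omega⟩
  have h2 : (E.filter (fun S => w < S.toFinset.card)).card * w ≤ (AF N).card := by
    calc (E.filter (fun S => w < S.toFinset.card)).card * w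
        ≤ ∑ S ∈ E.filter (fun S => w < S.toFinset.card), S.toFinset.card := by
          rw [← smul_eq_mul]
          exact Finset.card_nsmul_le_sum _ _ _ fun S hS => ((Finset.mem_filter.1 hS).2).le
      _ = ((E.filter (fun S => w < S.toFinset.card)).sigma (fun S => S.toFinset)).card := by
          rw [Finset.card_sigma]
      _ ≤ (AF N).card := by
          refine Finset.card_le_card_of_injOn (fun q => q.1.erase q.2) ?_ ?_
          · rintro ⟨S, j⟩ hq
            rw [Finset.mem_coe, Finset.mem_sigma, Finset.mem_filter, hE, Finset.mem_filter,
              mem_AF] at hq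
            obtain ⟨⟨⟨⟨h3, h4⟩, h5⟩, h6⟩, h7⟩ := hq
            rw [Finset.mem_coe, mem_AF]
            refine ⟨fun x hx => h3 x (Multiset.mem_of_mem_erase hx), ?_⟩
            exact (TT_le_of_le (Multiset.erase_le _ _)).trans h4
          · rintro ⟨S, j⟩ hq ⟨S', j'⟩ hq' he
            rw [Finset.mem_coe, Finset.mem_sigma, Finset.mem_filter, hE, Finset.mem_filter] at hq hq'
            have hj : j ∈ S := Multiset.mem_toFinset.1 hq.2
            have hj' : j' ∈ S' := Multiset.mem_toFinset.1 hq'.2
            have he' : S.erase j = S'.erase j' := he
            have e1 := TT_erase hj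
            have e2 := TT_erase hj'
            have e3 : TT S = n := hq.1.1.2
            have e4 : TT S' = n := hq'.1.1.2
            rw [he'] at e1
            have e5 : j = j' := T_inj (by omega)
            have e6 : S = S' := by
              rw [← Multiset.cons_erase hj, ← Multiset.cons_erase hj', he', e5]
            rw [e5, e6]
  have h3 := few_card N w
  calc E.card * w ≤ ((E.filter (fun S => w < S.toFinset.card)).card +
        ((AF N).filter (fun S => S.toFinset.card ≤ w)).card) * w := Nat.mul_le_mul_right _ h1
    _ = (E.filter (fun S => w < S.toFinset.card)).card * w +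
        ((AF N).filter (fun S => S.toFinset.card ≤ w)).card * w := by ring
    _ ≤ _ := Nat.add_le_add h2 (Nat.mul_le_mul_right _ h3)

/-- Vectors with few ones. -/
theorem ones_card (N Y L w : ℕ) (hY : 1 ≤ Y) :
    ∃ a b : ℕ, ((AF N).filter (fun S => S.count 1 < Y)).card ≤ a + b ∧
      a * (L + 1) ≤ (AF N).card ∧
      b * w ≤ (Y * L) * ((AF N).card + ((N + 1) ^ 2) ^ w * w) := by
  classical
  set X := (AF N).filter (fun S => S.count 1 < Y) with hX
  refine ⟨(X.filter (fun S => TT S + Y * L ≤ N)).card,
    (X.filter (fun S => ¬ TT S + Y * L ≤ N)).card, ?_, ?_, ?_⟩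
  · exact (Finset.card_filter_add_card_filter_not (s := X) _).ge
  · calc (X.filter (fun S => TT S + Y * L ≤ N)).card * (L + 1)
        = ((X.filter (fun S => TT S + Y * L ≤ N)) ×ˢ Finset.range (L + 1)).card := by
          rw [Finset.card_product, Finset.card_range]
      _ ≤ (AF N).card := by
          refine Finset.card_le_card_of_injOn (fun q => q.1 + Multiset.replicate (q.2 * Y) 1) ?_ ?_
          · rintro ⟨S, i⟩ hq
            rw [Finset.mem_coe, Finset.mem_product, Finset.mem_filter, hX, Finset.mem_filter,
              mem_AF, Finset.mem_range] at hq
            obtain ⟨⟨⟨⟨h3, h4⟩, h5⟩, h6⟩, h7⟩ := hq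
            have h8 : i * Y ≤ L * Y := Nat.mul_le_mul_right _ (by
              have : i < L + 1 := h7
              omega)
            have h9 : TT (Multiset.replicate (i * Y) 1) = i * Y := by
              rw [TT, Multiset.map_replicate, Multiset.sum_replicate]
              simp [T]
            rw [Finset.mem_coe, mem_AF]
            refine ⟨fun x hx => ?_, ?_⟩
            · rcases Multiset.mem_add.1 hx with hx | hx
              · exact h3 x hx
              · rw [Multiset.eq_of_mem_replicate hx]
            · show TT (S + Multiset.replicate (i * Y) 1) ≤ N
              rw [TT_add, h9]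
              have h10 : TT S + Y * L ≤ N := h6
              have h11 : L * Y = Y * L := mul_comm _ _
              omega
          · rintro ⟨S, i⟩ hq ⟨S', i'⟩ hq' he
            rw [Finset.mem_coe, Finset.mem_product, Finset.mem_filter, hX, Finset.mem_filter]
              at hq hq'
            have h1 : S.count 1 < Y := hq.1.1.2
            have h2 : S'.count 1 < Y := hq'.1.1.2
            have he' : S + Multiset.replicate (i * Y) 1 = S' + Multiset.replicate (i' * Y) 1 := he
            have h3 := congrArg (Multiset.count 1) he'
            rw [Multiset.count_add, Multiset.count_add, Multiset.count_replicate_self,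
              Multiset.count_replicate_self] at h3
            have h4 : i = i' := by
              rcases Nat.lt_trichotomy i i' with h | h | h
              · have : (i + 1) * Y ≤ i' * Y := Nat.mul_le_mul_right _ h
                have e : (i + 1) * Y = i * Y + Y := by ring
                omega
              · exact h
              · have : (i' + 1) * Y ≤ i * Y := Nat.mul_le_mul_right _ h
                have e : (i' + 1) * Y = i' * Y + Y := by ring
                omega
            rw [h4] at he' ⊢
            rw [add_right_cancel he']
  · have h1 : (X.filter (fun S => ¬ TT S + Y * L ≤ N)) ⊆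
        (Finset.range (Y * L)).biUnion (fun i => (AF N).filter (fun S => TT S = N - i)) := by
      intro S hS
      rw [Finset.mem_filter, hX, Finset.mem_filter] at hS
      obtain ⟨⟨h2, h3⟩, h4⟩ := hS
      have h5 := (mem_AF.1 h2).2
      rw [Finset.mem_biUnion]
      refine ⟨N - TT S, Finset.mem_range.2 (by omega), Finset.mem_filter.2 ⟨h2, by omega⟩⟩
    have h2 := (Finset.card_le_card h1).trans Finset.card_biUnion_le
    calc (X.filter (fun S => ¬ TT S + Y * L ≤ N)).card * w
        ≤ (∑ i ∈ Finset.range (Y * L), ((AF N).filter (fun S => TT S = N - i)).card) * w :=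
          Nat.mul_le_mul_right _ h2
      _ = ∑ i ∈ Finset.range (Y * L), ((AF N).filter (fun S => TT S = N - i)).card * w := by
          rw [Finset.sum_mul]
      _ ≤ ∑ _i ∈ Finset.range (Y * L), ((AF N).card + ((N + 1) ^ 2) ^ w * w) :=
          Finset.sum_le_sum fun i _ => level_card N (N - i) w
      _ = _ := by rw [Finset.sum_const, Finset.card_range, smul_eq_mul]

/-- The number of vectors grows faster than every power. -/
theorem card_lower (N k : ℕ) : N ^ k ≤ Dk k * (AF N).card :=
  (vk_bounds k N).1.trans (Nat.mul_le_mul_left _ (Finset.card_le_card (Finset.filter_subset _ _)))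

end ShghI
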