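import Pool.Agent.ShghI.Dens3
import Mathlib.Analysis.PSeries
import Mathlib.Analysis.SpecificLimits.Normed

/-!
# Counting multiplicity vectors: almost all vectors have large mass below every multiplicity
-/

namespace ShghI

open ShghJ

theorem count_one_le {S : Multiset ℕ} {m : ℕ} (hm : 2 ≤ m) :
    S.count 1 ≤ TT (S.filter (fun x => x < m)) := by
  have h1 : Multiset.replicate (S.count 1) 1 ≤ S.filter (fun x => x < m) := by
    rw [← Multiset.le_count_iff_replicate_le, Multiset.count_filter, if_pos (by omega)]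
  have h2 := TT_le_of_le h1
  have h3 : TT (Multiset.replicate (S.count 1) 1) = S.count 1 := by
    rw [TT, Multiset.map_replicate, Multiset.sum_replicate]
    simp [T]
  omega

open scoped Classical in
theorem dens (ε : ℝ) (hε : 0 < ε) : ∃ N₀ : ℕ, ∀ N, N₀ ≤ N →
    (((AF N).filter (fun S => ∃ m ∈ S, 2 ≤ m ∧ TT (S.filter (fun x => x < m)) < 255 * m ^ 2)).card
      : ℝ) ≤ ε * (AF N).card := by
  classical
  set r : ℝ := 1022 / 1023 with hr
  have hr0 : (0 : ℝ) < r := by rw [hr]; norm_num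
  have hr1 : |r| < 1 := by rw [hr, abs_of_pos (by norm_num)]; norm_num
  -- the choice of `j₀`
  obtain ⟨j0, hj0⟩ : ∃ j0 : ℕ, ∀ j, j0 ≤ j → 16 * ((j : ℝ) ^ 4 * r ^ j) ≤ ε / 2 := by
    have h1 := (tendsto_pow_const_mul_const_pow_of_abs_lt_one 4 hr1)
    have h2 : ∀ᶠ n : ℕ in Filter.atTop, (n : ℝ) ^ 4 * r ^ n < ε / 32 :=
      h1.eventually (gt_mem_nhds (by positivity))
    obtain ⟨j0, hj0⟩ := Filter.eventually_atTop.1 h2
    refine ⟨j0, fun j hj => ?_⟩
    have := hj0 j hj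
    linarith
  set M0 := max 64 (j0 ^ 2) with hM0
  have hM64 : 64 ≤ M0 := le_max_left _ _
  set Y := 255 * M0 ^ 2 with hY
  have hY1 : 1 ≤ Y := by
    have : 1 ≤ M0 ^ 2 := Nat.one_le_pow _ _ (by omega)
    omega
  obtain ⟨L, hL⟩ := exists_nat_ge (8 / ε)
  obtain ⟨w, hw⟩ := exists_nat_gt (8 * (Y * L) / ε)
  have hw0 : (0 : ℝ) < w := lt_of_le_of_lt (by positivity) hw
  obtain ⟨N0, hN0⟩ := exists_nat_ge (8 * (Y * L) * 4 ^ w * Dk (2 * w + 1) / ε)
  refine ⟨max N0 1, fun N hN => ?_⟩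
  have hN1 : 1 ≤ N := (le_max_right _ _).trans hN
  have hNN : N0 ≤ N := (le_max_left _ _).trans hN
  set P : ℝ := ((AF N).card : ℝ) with hP
  have hP0 : 0 ≤ P := Nat.cast_nonneg _
  set bad : ℕ → Finset (Multiset ℕ) := fun m =>
    (AF N).filter (fun S => m ∈ S ∧ TT (S.filter (fun x => x < m)) < 255 * m ^ 2) with hbad
  set X := (AF N).filter (fun S => S.count 1 < Y) with hX
  have hsub : ((AF N).filter (fun S => ∃ m ∈ S, 2 ≤ m ∧
      TT (S.filter (fun x => x < m)) < 255 * m ^ 2)) ⊆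
      ((Finset.Ioc M0 N).biUnion bad) ∪ X := by
    intro S hS
    rw [Finset.mem_filter] at hS
    obtain ⟨h1, m, h2, h3, h4⟩ := hS
    rw [Finset.mem_union]
    rcases Nat.lt_or_ge M0 m with h5 | h5
    · left
      have h6 := ((le_T m).trans (le_TT h2)).trans (mem_AF.1 h1).2
      exact Finset.mem_biUnion.2 ⟨m, Finset.mem_Ioc.2 ⟨h5, h6⟩, Finset.mem_filter.2 ⟨h1, h2, h4⟩⟩
    · right
      have h6 := count_one_le (S := S) h3
      have h7 : m ^ 2 ≤ M0 ^ 2 := Nat.pow_le_pow_left h5 2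
      exact Finset.mem_filter.2 ⟨h1, by omega⟩
  -- the large multiplicities
  have hb1 : ∀ m ∈ Finset.Ioc M0 N, ((bad m).card : ℝ) ≤ ε / 2 * P * ((m : ℝ) ^ 2)⁻¹ := by
    intro m hm
    rw [Finset.mem_Ioc] at hm
    have h64 : 64 ≤ m := by omega
    have h1 := bad_card' N m h64
    set j := Nat.sqrt m with hj
    have hj1 : m < (j + 1) * (j + 1) := Nat.lt_succ_sqrt m
    have hj2 : j0 ≤ j := by
      rw [hj, Nat.le_sqrt']
      exact (le_max_right _ _).trans hm.1.le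
    have hj8 : 1 ≤ j := by
      rw [hj, Nat.le_sqrt]
      omega
    have h2 : ((bad m).card : ℝ) * 1023 ^ j ≤ P * 1022 ^ j := by
      rw [hP]
      exact_mod_cast h1
    have h3 : ((bad m).card : ℝ) ≤ P * r ^ j := by
      rw [hr, div_pow, ← mul_div_assoc, le_div_iff₀ (by positivity)]
      exact h2
    have h4 : (m : ℝ) ^ 2 ≤ 16 * (j : ℝ) ^ 4 := by
      have h5 : (m : ℝ) ≤ 4 * (j : ℝ) ^ 2 := by
        have : m ≤ 4 * j ^ 2 := by nlinarith
        exact_mod_cast this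
      have h6 : (0 : ℝ) ≤ m := Nat.cast_nonneg _
      calc (m : ℝ) ^ 2 ≤ (4 * (j : ℝ) ^ 2) ^ 2 := pow_le_pow_left₀ h6 h5 2
        _ = 16 * (j : ℝ) ^ 4 := by ring
    have hm0 : (0 : ℝ) < (m : ℝ) ^ 2 := by
      have : (0 : ℝ) < m := by exact_mod_cast (show 0 < m by omega)
      positivity
    rw [← div_eq_mul_inv, le_div_iff₀ hm0]
    calc ((bad m).card : ℝ) * (m : ℝ) ^ 2 ≤ (P * r ^ j) * (16 * (j : ℝ) ^ 4) :=
          mul_le_mul h3 h4 hm0.le (by positivity)
      _ = P * (16 * ((j : ℝ) ^ 4 * r ^ j)) := by ring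
      _ ≤ P * (ε / 2) := mul_le_mul_of_nonneg_left (hj0 j hj2) hP0
      _ = ε / 2 * P := by ring
  have hb2 : (((Finset.Ioc M0 N).biUnion bad).card : ℝ) ≤ ε / 2 * P := by
    have h1 : (((Finset.Ioc M0 N).biUnion bad).card : ℝ) ≤
        ∑ m ∈ Finset.Ioc M0 N, ((bad m).card : ℝ) := by
      exact_mod_cast Finset.card_biUnion_le
    refine h1.trans ((Finset.sum_le_sum hb1).trans ?_)
    rw [← Finset.mul_sum]
    have h2 : ∑ m ∈ Finset.Ioc M0 N, ((m : ℝ) ^ 2)⁻¹ ≤ 1 := by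
      rcases Nat.lt_or_ge N M0 with h | h
      · rw [Finset.Ioc_eq_empty (by omega), Finset.sum_empty]
        norm_num
      · refine (sum_Ioc_inv_sq_le_sub (by omega) h).trans ?_
        have h3 : (1 : ℝ) ≤ M0 := by exact_mod_cast (show 1 ≤ M0 by omega)
        have h4 : ((M0 : ℝ))⁻¹ ≤ 1 := inv_le_one_of_one_le₀ h3
        have h5 : (0 : ℝ) ≤ ((N : ℝ))⁻¹ := by positivity
        linarith
    calc ε / 2 * P * ∑ m ∈ Finset.Ioc M0 N, ((m : ℝ) ^ 2)⁻¹ ≤ ε / 2 * P * 1 :=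
          mul_le_mul_of_nonneg_left h2 (by positivity)
      _ = ε / 2 * P := mul_one _
  -- the small multiplicities
  have hx : (X.card : ℝ) ≤ 3 * (ε / 8) * P := by
    obtain ⟨a, b, h1, h2, h3⟩ := ones_card N Y L w hY1
    set Q : ℝ := ((((N + 1) ^ 2) ^ w : ℕ) : ℝ) with hQ
    have hab : (X.card : ℝ) ≤ a + b := by exact_mod_cast h1
    have ha : (a : ℝ) * (L + 1) ≤ P := by rw [hP]; exact_mod_cast h2
    have hb : (b : ℝ) * w ≤ (Y * L) * (P + Q * w) := by
      rw [hP, hQ]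
      exact_mod_cast h3
    have ha' : (a : ℝ) ≤ ε / 8 * P := by
      have h4 : 8 ≤ ε * (L + 1) := by
        rw [div_le_iff₀ hε] at hL
        nlinarith
      have h5 : (0 : ℝ) ≤ a := Nat.cast_nonneg _
      nlinarith
    have hYL : 8 * ((Y : ℝ) * L) ≤ ε * w := by
      rw [div_lt_iff₀ hε] at hw
      linarith
    have hQP : 8 * ((Y : ℝ) * L) * Q ≤ ε * P := by
      have h4 : ((N : ℝ)) ^ (2 * w + 1) ≤ Dk (2 * w + 1) * P := by
        rw [hP]
        exact_mod_cast card_lower N (2 * w + 1)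
      have h5 : Q ≤ 4 ^ w * (N : ℝ) ^ (2 * w) := by
        have h6 : ((N + 1) ^ 2) ^ w ≤ 4 ^ w * N ^ (2 * w) := by
          calc ((N + 1) ^ 2) ^ w ≤ (4 * N ^ 2) ^ w := Nat.pow_le_pow_left (by nlinarith) w
            _ = 4 ^ w * N ^ (2 * w) := by rw [mul_pow, ← pow_mul]
        rw [hQ]
        exact_mod_cast h6
      have hD : (0 : ℝ) < Dk (2 * w + 1) := by exact_mod_cast Dk_pos _
      have hNr : 8 * ((Y : ℝ) * L) * 4 ^ w * Dk (2 * w + 1) ≤ ε * N := by
        have : (N0 : ℝ) ≤ N := by exact_mod_cast hNN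
        have h7 := hN0.trans this
        rw [div_le_iff₀ hε] at h7
        linarith
      have hYL0 : (0 : ℝ) ≤ 8 * ((Y : ℝ) * L) := by positivity
      refine le_of_mul_le_mul_right ?_ hD
      calc 8 * ((Y : ℝ) * L) * Q * Dk (2 * w + 1)
          ≤ 8 * ((Y : ℝ) * L) * (4 ^ w * (N : ℝ) ^ (2 * w)) * Dk (2 * w + 1) := by gcongr
        _ = (8 * ((Y : ℝ) * L) * 4 ^ w * Dk (2 * w + 1)) * (N : ℝ) ^ (2 * w) := by ring
        _ ≤ (ε * N) * (N : ℝ) ^ (2 * w) := by gcongr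
        _ = ε * (N : ℝ) ^ (2 * w + 1) := by ring
        _ ≤ ε * (Dk (2 * w + 1) * P) := by gcongr
        _ = ε * P * Dk (2 * w + 1) := by ring
    have hb' : (b : ℝ) ≤ 2 * (ε / 8) * P := by
      have h4 : (b : ℝ) * w ≤ (2 * (ε / 8) * P) * w := by
        have h5 : (Y * L : ℝ) * P ≤ ε / 8 * w * P := by
          have := mul_le_mul_of_nonneg_right hYL hP0
          linarith
        have h6 : (Y * L : ℝ) * (Q * w) ≤ ε / 8 * P * w := by
          have := mul_le_mul_of_nonneg_right hQP hw0.le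
          linarith
        calc (b : ℝ) * w ≤ (Y * L) * (P + Q * w) := hb
          _ = (Y * L : ℝ) * P + (Y * L : ℝ) * (Q * w) := by ring
          _ ≤ ε / 8 * w * P + ε / 8 * P * w := add_le_add h5 h6
          _ = _ := by ring
      exact le_of_mul_le_mul_right h4 hw0
    linarith
  have h1 : (((AF N).filter (fun S => ∃ m ∈ S, 2 ≤ m ∧
      TT (S.filter (fun x => x < m)) < 255 * m ^ 2)).card : ℝ) ≤
      ((Finset.Ioc M0 N).biUnion bad).card + X.card := by
    exact_mod_cast (Finset.card_le_card hsub).trans (Finset.card_union_le _ _)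
  have h2 : 0 ≤ ε * P := by positivity
  linarith

end ShghI
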