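import Pool.Agent.ShghI.SpecU
import Pool.Agent.ShghC.MainX

/-!
# ShghI, FibMul: multiplication by the fibre through a new generic point
-/

namespace ShghI

open MvPolynomial ShghJ ShghC ShghL

universe u

theorem tFibMul : S_FibMul.{u} := by
  classical
  intro F _ n τ e m B
  rw [(mNCons F (Sf n τ e) B).1, (mNCons F (Sf n τ (e + m)) B).2 m]
  set μ : Fin B.toList.length → ℕ := fun i => B.toList.get i with hμ
  set P : Fin B.toList.length → Fin 2 → UF F := fun i => up F (i + 1) with hP
  have hp : ∀ i : Fin B.toList.length, P i 0 ≠ up F 0 0 := fun i =>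
    geo_up_ne F (Nat.succ_ne_zero _)
  set g : MvPolynomial (Fin 2) (UF F) := X 0 - C (up F 0 0) with hg
  have hg0 : g ≠ 0 := by
    intro h
    have h1 := congrArg (MvPolynomial.eval ![up F 0 0 + 1, (0 : UF F)]) h
    rw [hg, map_sub, eval_X, eval_C, map_zero, Matrix.cons_val_zero] at h1
    exact one_ne_zero (α := UF F) (by linear_combination h1)
  have hmem : ∀ k (f : MvPolynomial (Fin 2) (UF F)), f ∈ LN (Sf n τ e) μ P →
      g ^ k * f ∈ LN (Sf n τ (e + k)) μ P := by
    intro k f hf
    induction k with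
    | zero =>
      rw [pow_zero, one_mul]
      exact hf
    | succ k ih =>
      have h1 := (mFibDiv (UF F) n τ _ μ P (up F 0 0) hp).2.2 (e + k) _ ih (up F 0 0)
      rw [pow_succ', mul_assoc]
      exact h1
  have hinj : Function.Injective (LinearMap.mulLeft (UF F) (g ^ m)) := by
    intro f f' h
    exact mul_left_cancel₀ (pow_ne_zero m hg0) h
  have hle : (LN (Sf n τ e) μ P).map (LinearMap.mulLeft (UF F) (g ^ m)) ≤
      fil (LN (Sf n τ (e + m)) μ P) (up F 0) m := by
    rintro _ ⟨f, hf, rfl⟩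
    refine ⟨hmem m f hf, ?_⟩
    refine Ideal.mul_mem_right _ _ (Ideal.pow_mem_pow ?_ m)
    exact Ideal.subset_span (Or.inl rfl)
  have hfin : Module.Finite (UF F) (LN (Sf n τ (e + m)) μ P) :=
    tNClo.1 (UF F) (Sf n τ (e + m)) _ μ P
  have hfin' : Module.Finite (UF F) (fil (LN (Sf n τ (e + m)) μ P) (up F 0) m) :=
    geo_finite_of_le (fun f hf => hf.1) hfin
  rw [(Submodule.equivMapOfInjective _ hinj (LN (Sf n τ e) μ P)).finrank_eq]
  exact Submodule.finrank_mono hle

end ShghI
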