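import Pool.Agent.ShghJ.Spec

/-!
# ShghI, Line: lines through two points, orders, and division by a line
-/

namespace ShghI

open MvPolynomial ShghJ

universe u v

section

variable {K : Type u} [Field K]

/-- The line through `p` and `q`. -/
noncomputable def lam (p q : Fin 2 → K) : MvPolynomial (Fin 2) K :=
  C (q 0 - p 0) * (X 1 - C (p 1)) - C (q 1 - p 1) * (X 0 - C (p 0))

theorem X0_mem (a b : K) : (X 0 - C a : MvPolynomial (Fin 2) K) ∈ ShghT.pt a b :=
  Ideal.subset_span (Or.inl rfl)

theorem X1_mem (a b : K) : (X 1 - C b : MvPolynomial (Fin 2) K) ∈ ShghT.pt a b :=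
  Ideal.subset_span (Or.inr rfl)

theorem lam_mem_left (p q : Fin 2 → K) : lam p q ∈ ShghT.pt (p 0) (p 1) :=
  Ideal.sub_mem _ (Ideal.mul_mem_left _ _ (X1_mem _ _)) (Ideal.mul_mem_left _ _ (X0_mem _ _))

theorem lam_swap (p q : Fin 2 → K) : lam p q = - lam q p := by
  unfold lam
  simp only [C_sub]
  ring

theorem lam_mem_right (p q : Fin 2 → K) : lam p q ∈ ShghT.pt (q 0) (q 1) := by
  rw [lam_swap]
  exact (Ideal.neg_mem_iff _).2 (lam_mem_left q p)

theorem eval_lam (p q r : Fin 2 → K) : eval ![r 0, r 1] (lam p q) =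
    (q 0 - p 0) * (r 1 - p 1) - (q 1 - p 1) * (r 0 - p 0) := by
  simp [lam]

theorem lam_degree (p q : Fin 2 → K) : (lam p q).totalDegree ≤ 1 := by
  have h : ∀ (i : Fin 2) (c e : K), (C e * (X i - C c) : MvPolynomial (Fin 2) K).totalDegree ≤ 1 := by
    intro i c e
    refine (totalDegree_mul _ _).trans ?_
    rw [totalDegree_C, zero_add]
    refine (totalDegree_sub _ _).trans (max_le ?_ ?_)
    · rw [totalDegree_X]
    · rw [totalDegree_C]
      exact Nat.zero_le _
  exact (totalDegree_sub _ _).trans (max_le (h _ _ _) (h _ _ _))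

theorem lam_ne_zero {p q : Fin 2 → K} (h : q 0 ≠ p 0) : lam p q ≠ 0 := by
  intro h0
  have h1 := eval_lam p q ![p 0, p 1 + 1]
  rw [h0, map_zero] at h1
  simp only [Matrix.cons_val_zero, Matrix.cons_val_one, sub_self, mul_zero, sub_zero] at h1
  apply h
  rw [← sub_eq_zero, h1]
  ring

theorem shift_lam (p q : Fin 2 → K) : ShghE.tfShift (p 0) (p 1) (lam p q) =
    C (q 0 - p 0) * X 1 - C (q 1 - p 1) * X 0 := by
  unfold lam
  simp only [map_sub, map_mul, ShghE.tfShift_C, ShghE.tfShift_X0, ShghE.tfShift_X1,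
    add_sub_cancel_right]

/-- If `ℓ` is a nonzero linear form and `ℓ F` has order `≥ a + 1` then `F` has order `≥ a`. -/
theorem hom_cancel {ℓ : MvPolynomial (Fin 2) K} (hℓ : ℓ.IsHomogeneous 1) (hℓ0 : ℓ ≠ 0)
    (F : MvPolynomial (Fin 2) K) (a : ℕ)
    (h : ∀ x : Fin 2 →₀ ℕ, x.degree < a + 1 → (ℓ * F).coeff x = 0) :
    ∀ x : Fin 2 →₀ ℕ, x.degree < a → F.coeff x = 0 := by
  intro x hx
  have h1 : homogeneousComponent (x.degree + 1) (ℓ * F) = ℓ * homogeneousComponent x.degree F := by
    conv_lhs => rw [← sum_homogeneousComponent F, Finset.mul_sum, map_sum]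
    by_cases hxF : x.degree ∈ Finset.range (F.totalDegree + 1)
    · rw [Finset.sum_eq_single_of_mem _ hxF]
      · rw [homogeneousComponent_of_mem (n := 1 + x.degree)
          (hℓ.mul (homogeneousComponent_isHomogeneous _ _)), if_pos (by ring)]
      · intro j _ hj
        rw [homogeneousComponent_of_mem (n := 1 + j)
          (hℓ.mul (homogeneousComponent_isHomogeneous _ _)), if_neg (by omega)]
    · have h2 : homogeneousComponent x.degree F = 0 :=
        homogeneousComponent_eq_zero _ _ (by
          rw [Finset.mem_range] at hxF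
          omega)
      rw [h2, mul_zero]
      refine Finset.sum_eq_zero fun j hj => ?_
      have hj' : j ≠ x.degree := by
        rintro rfl
        exact hxF hj
      rw [homogeneousComponent_of_mem (n := 1 + j)
        (hℓ.mul (homogeneousComponent_isHomogeneous _ _)), if_neg (by omega)]
  have h2 : homogeneousComponent (x.degree + 1) (ℓ * F) = 0 := by
    ext y
    rw [coeff_homogeneousComponent, coeff_zero]
    split_ifs with hy
    · exact h y (by omega)
    · rfl
  rw [h2] at h1
  have h3 : homogeneousComponent x.degree F = 0 := by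
    rcases mul_eq_zero.1 h1.symm with h4 | h4
    · exact absurd h4 hℓ0
    · exact h4
  have h4 := congrArg (coeff x) h3
  rwa [coeff_homogeneousComponent, if_pos rfl, coeff_zero] at h4

theorem lam_cancel_left {p q : Fin 2 → K} (h : q 0 ≠ p 0) (f : MvPolynomial (Fin 2) K) (a : ℕ)
    (hf : lam p q * f ∈ ShghT.pt (p 0) (p 1) ^ (a + 1)) : f ∈ ShghT.pt (p 0) (p 1) ^ a := by
  refine (ShghE.tf_mem_iff (p 0) (p 1) a f).2 ?_
  have h1 := (ShghE.tf_mem_iff (p 0) (p 1) (a + 1) _).1 hf
  rw [map_mul, shift_lam] at h1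
  refine hom_cancel ?_ ?_ _ a h1
  · refine IsHomogeneous.sub ?_ ?_
    · simpa using (isHomogeneous_C (Fin 2) (q 0 - p 0)).mul (isHomogeneous_X K (1 : Fin 2))
    · simpa using (isHomogeneous_C (Fin 2) (q 1 - p 1)).mul (isHomogeneous_X K (0 : Fin 2))
  · rw [← shift_lam]
    intro h0
    apply lam_ne_zero h
    rw [← ShghE.tfShift_neg (p 0) (p 1) (lam p q), h0, map_zero]

theorem lam_cancel_right {p q : Fin 2 → K} (h : q 0 ≠ p 0) (f : MvPolynomial (Fin 2) K) (a : ℕ)
    (hf : lam p q * f ∈ ShghT.pt (q 0) (q 1) ^ (a + 1)) : f ∈ ShghT.pt (q 0) (q 1) ^ a := by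
  refine lam_cancel_left (p := q) (q := p) h.symm f a ?_
  rw [lam_swap, neg_mul, Ideal.neg_mem_iff] at hf
  exact hf

theorem coeff_zero_shift (a b : K) (f : MvPolynomial (Fin 2) K) :
    (ShghE.tfShift a b f).coeff 0 = eval ![a, b] f := by
  have h1 : (constantCoeff (σ := Fin 2) (R := K)).comp (ShghE.tfShift a b).toRingHom =
      eval ![a, b] := by
    apply MvPolynomial.ringHom_ext
    · intro r
      simp [ShghE.tfShift]
    · intro i
      fin_cases i <;> simp [ShghE.tfShift]
  exact RingHom.congr_fun h1 f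

/-- A factor which does not vanish at the point may be cancelled. -/
theorem unit_cancel (a b : K) (m : ℕ) (G g : MvPolynomial (Fin 2) K) (hG : eval ![a, b] G ≠ 0)
    (h : G * g ∈ ShghT.pt a b ^ m) : g ∈ ShghT.pt a b ^ m := by
  classical
  have h1 := (ShghE.tf_mem_iff a b m (G * g)).1 h
  rw [map_mul] at h1
  refine (ShghE.tf_mem_iff a b m g).2 ?_
  have h2 : ∀ n, ∀ x : Fin 2 →₀ ℕ, x.degree = n → n < m →
      (ShghE.tfShift a b g).coeff x = 0 := by
    intro n
    induction n using Nat.strong_induction_on with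
    | _ n ih =>
      intro x hx hn
      have h3 := h1 x (by omega)
      rw [coeff_mul, Finset.sum_eq_single (0, x)] at h3
      · rcases mul_eq_zero.1 h3 with h4 | h4
        · exact absurd (by rw [← coeff_zero_shift]; exact h4) hG
        · exact h4
      · rintro ⟨y, z⟩ hyz hne
        rw [Finset.HasAntidiagonal.mem_antidiagonal] at hyz
        have h4 : y.degree + z.degree = n := by
          rw [← hx, ← hyz]
          exact (map_add Finsupp.degree y z).symm
        have h5 : y ≠ 0 := by
          rintro rfl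
          rw [zero_add] at hyz
          exact hne (Prod.ext rfl hyz)
        have h6 : y.degree ≠ 0 := fun h => h5 ((Finsupp.degree_eq_zero_iff y).1 h)
        have h7 := ih z.degree (by omega) z rfl (by omega)
        change (ShghE.tfShift a b G).coeff y * (ShghE.tfShift a b g).coeff z = 0
        rw [h7, mul_zero]
      · intro h4
        exact absurd (Finset.HasAntidiagonal.mem_antidiagonal.2 (zero_add x)) h4
  intro x hx
  exact h2 _ x rfl hx

/-- The restriction to the line through `p` and `q`. -/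
noncomputable def rst (p q : Fin 2 → K) : MvPolynomial (Fin 2) K →ₐ[K] Polynomial K :=
  aeval (fun i => Polynomial.C (p i) + Polynomial.X * Polynomial.C (q i - p i))

theorem rst_X (p q : Fin 2 → K) (i : Fin 2) :
    rst p q (X i) = Polynomial.C (p i) + Polynomial.X * Polynomial.C (q i - p i) := by
  simp [rst]

theorem rst_C (p q : Fin 2 → K) (c : K) : rst p q (C c) = Polynomial.C c := by
  rw [rst]
  simp

theorem rst_left (p q : Fin 2 → K) (a : ℕ) (f : MvPolynomial (Fin 2) K)
    (h : f ∈ ShghT.pt (p 0) (p 1) ^ a) : Polynomial.X ^ a ∣ rst p q f := by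
  have h1 := Ideal.mem_map_of_mem (rst p q) h
  rw [Ideal.map_pow] at h1
  have h2 : Ideal.map (rst p q) (ShghT.pt (p 0) (p 1)) ≤ Ideal.span {Polynomial.X} := by
    rw [ShghT.pt, Ideal.map_span, Ideal.span_le]
    rintro _ ⟨g, hg, rfl⟩
    rcases hg with rfl | rfl
    · rw [map_sub, rst_X, rst_C, add_sub_cancel_left]
      exact Ideal.mul_mem_right _ _ (Ideal.subset_span rfl)
    · rw [map_sub, rst_X, rst_C, add_sub_cancel_left]
      exact Ideal.mul_mem_right _ _ (Ideal.subset_span rfl)
  have h3 := Ideal.pow_right_mono h2 a h1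
  rw [Ideal.span_singleton_pow, Ideal.mem_span_singleton] at h3
  exact h3

theorem rst_right (p q : Fin 2 → K) (a : ℕ) (f : MvPolynomial (Fin 2) K)
    (h : f ∈ ShghT.pt (q 0) (q 1) ^ a) : (Polynomial.X - 1) ^ a ∣ rst p q f := by
  have h1 := Ideal.mem_map_of_mem (rst p q) h
  rw [Ideal.map_pow] at h1
  have h2 : Ideal.map (rst p q) (ShghT.pt (q 0) (q 1)) ≤ Ideal.span {Polynomial.X - 1} := by
    have key : ∀ i : Fin 2, rst p q (X i - C (q i)) ∈ Ideal.span {(Polynomial.X - 1 : Polynomial K)} := by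
      intro i
      have e : rst p q (X i - C (q i)) = (Polynomial.X - 1) * Polynomial.C (q i - p i) := by
        rw [map_sub, rst_X, rst_C, Polynomial.C_sub]
        ring
      rw [e]
      exact Ideal.mul_mem_right _ _ (Ideal.subset_span rfl)
    rw [ShghT.pt, Ideal.map_span, Ideal.span_le]
    rintro _ ⟨g, hg, rfl⟩
    rcases hg with rfl | rfl
    · exact key 0
    · exact key 1
  have h3 := Ideal.pow_right_mono h2 a h1
  rw [Ideal.span_singleton_pow, Ideal.mem_span_singleton] at h3
  exact h3

/-- If the sum of two orders is larger than the degree, then the line is a component. -/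
theorem lam_dvd {p q : Fin 2 → K} (hpq : q 0 ≠ p 0) (n a c : ℕ) (f : MvPolynomial (Fin 2) K)
    (hf : f.totalDegree ≤ n) (ha : f ∈ ShghT.pt (p 0) (p 1) ^ a)
    (hc : f ∈ ShghT.pt (q 0) (q 1) ^ c) (hn : n + 1 ≤ a + c) : lam p q ∣ f := by
  have hdeg : (rst p q f).natDegree ≤ n := by
    have := MvPolynomial.aeval_natDegree_le f hf
      (fun i => Polynomial.C (p i) + Polynomial.X * Polynomial.C (q i - p i)) (n := 1) (by
        intro i
        refine (Polynomial.natDegree_add_le _ _).trans (max_le ?_ ?_)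
        · rw [Polynomial.natDegree_C]
          exact Nat.zero_le _
        · refine (Polynomial.natDegree_mul_le).trans ?_
          rw [Polynomial.natDegree_C]
          exact Polynomial.natDegree_X_le)
    rwa [mul_one] at this
  have hcop : IsCoprime ((Polynomial.X : Polynomial K) ^ a) ((Polynomial.X - 1) ^ c) := by
    apply IsCoprime.pow
    exact ⟨1, -1, by ring⟩
  have hdvd := hcop.mul_dvd (rst_left p q a f ha) (rst_right p q c f hc)
  have h0 : rst p q f = 0 := by
    by_contra hne
    have h1 := Polynomial.natDegree_le_of_dvd hdvd hne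
    have h2 : ((Polynomial.X : Polynomial K) ^ a * (Polynomial.X - 1) ^ c).natDegree = a + c := by
      have : (Polynomial.X - 1 : Polynomial K) = Polynomial.X - Polynomial.C 1 := by
        rw [Polynomial.C_1]
      rw [this, Polynomial.Monic.natDegree_mul (Polynomial.monic_X_pow a)
        ((Polynomial.monic_X_sub_C (1 : K)).pow c), Polynomial.natDegree_X_pow,
        Polynomial.natDegree_pow, Polynomial.natDegree_X_sub_C, mul_one]
    omega
  have hu : q 0 - p 0 ≠ 0 := sub_ne_zero.2 hpq
  set ψ : Polynomial K →ₐ[K] MvPolynomial (Fin 2) K :=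
    Polynomial.aeval (C ((q 0 - p 0)⁻¹) * (X 0 - C (p 0))) with hψ
  have key : ∀ g : MvPolynomial (Fin 2) K, lam p q ∣ g - ψ (rst p q g) := by
    intro g
    rw [← Ideal.mem_span_singleton, ← Ideal.Quotient.eq]
    have h1 : (Ideal.Quotient.mk (Ideal.span {lam p q})) =
        (Ideal.Quotient.mk (Ideal.span {lam p q})).comp
          ((ψ : Polynomial K →+* MvPolynomial (Fin 2) K).comp
            (rst p q : MvPolynomial (Fin 2) K →+* Polynomial K)) := by
      apply MvPolynomial.ringHom_ext
      · intro c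
        simp only [RingHom.comp_apply, RingHom.coe_coe]
        rw [rst_C, hψ, Polynomial.aeval_C]
        rfl
      · intro i
        simp only [RingHom.comp_apply, RingHom.coe_coe]
        rw [rst_X, Ideal.Quotient.eq, Ideal.mem_span_singleton]
        have hC : ∀ c : K, ψ (Polynomial.C c) = C c := by
          intro c
          rw [hψ, Polynomial.aeval_C]
          rfl
        have hX : ψ Polynomial.X = C ((q 0 - p 0)⁻¹) * (X 0 - C (p 0)) := by
          rw [hψ, Polynomial.aeval_X]
        rw [map_add, map_mul, hC, hC, hX]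
        have h2 : (C ((q 0 - p 0)⁻¹) * C (q 0 - p 0) : MvPolynomial (Fin 2) K) = 1 := by
          rw [← C_mul, inv_mul_cancel₀ hu, C_1]
        fin_cases i
        · have : (X 0 - (C (p 0) + C ((q 0 - p 0)⁻¹) * (X 0 - C (p 0)) * C (q 0 - p 0)) :
              MvPolynomial (Fin 2) K) = 0 := by
            linear_combination (-(X 0 - C (p 0))) * h2
          change lam p q ∣ (X 0 - (C (p 0) + C ((q 0 - p 0)⁻¹) * (X 0 - C (p 0)) * C (q 0 - p 0)) :
              MvPolynomial (Fin 2) K)
          rw [this]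
          exact dvd_zero _
        · refine ⟨C ((q 0 - p 0)⁻¹), ?_⟩
          change (X 1 - (C (p 1) + C ((q 0 - p 0)⁻¹) * (X 0 - C (p 0)) * C (q 1 - p 1)) :
              MvPolynomial (Fin 2) K) = lam p q * C ((q 0 - p 0)⁻¹)
          unfold lam
          linear_combination (-(X 1 - C (p 1))) * h2
    have h2 := RingHom.congr_fun h1 g
    exact h2
  have := key f
  rwa [h0, map_zero, sub_zero] at this

/-- Division by a line. -/
theorem lam_div {p q : Fin 2 → K} (hpq : q 0 ≠ p 0) (n a c : ℕ) (f : MvPolynomial (Fin 2) K)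
    (hf0 : f ≠ 0) (hf : f.totalDegree ≤ n + 1) (ha : f ∈ ShghT.pt (p 0) (p 1) ^ (a + 1))
    (hc : f ∈ ShghT.pt (q 0) (q 1) ^ (c + 1)) (hn : n + 1 ≤ a + c + 1) :
    ∃ g, f = lam p q * g ∧ g ≠ 0 ∧ g.totalDegree ≤ n ∧ g ∈ ShghT.pt (p 0) (p 1) ^ a ∧
      g ∈ ShghT.pt (q 0) (q 1) ^ c := by
  obtain ⟨g, rfl⟩ := lam_dvd hpq (n + 1) (a + 1) (c + 1) f hf ha hc (by omega)
  have hg0 : g ≠ 0 := right_ne_zero_of_mul hf0
  refine ⟨g, rfl, hg0, ?_, lam_cancel_left hpq g a ha, lam_cancel_right hpq g c hc⟩
  rw [totalDegree_mul_of_isDomain (lam_ne_zero hpq) hg0] at hf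
  have h1 : (lam p q).totalDegree ≠ 0 := by
    intro h
    rw [totalDegree_eq_zero_iff_eq_C] at h
    have h2 := eval_lam p q ![p 0, p 1 + 1]
    have h3 := eval_lam p q ![p 0, p 1]
    rw [h] at h2 h3
    simp only [eval_C, Matrix.cons_val_zero, Matrix.cons_val_one, sub_self, mul_zero,
      add_sub_cancel_left, mul_one, sub_zero] at h2 h3
    apply sub_ne_zero.2 hpq
    rw [← h2, h3]
  omega

end

end ShghI
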