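import Pool.Agent.ShghI.CloseX
import Pool.Agent.ShghC.Line

/-!
# ShghI, RelX: the relative theorem with exponent `3 / 2`

`K` is arbitrary and non-special, with room, in degree `d - (20 M + 1) a`. Then `K + S` has the
expected dimension in degree `d` for all `S` with multiplicities `≤ M`, if `60 M a ≤ d` and
`295 M² ≤ a d`.
-/

namespace ShghI

open MvPolynomial ShghJ ShghC

universe u

/-- Restriction to a general line. -/
theorem line_up (F : Type u) [Field F] (j : ℕ) (hj : 1 ≤ j) (hd : ∀ n : ℕ, 1 ≤ n → n ≤ j → (n : F) ≠ 0)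
    (R : Multiset ℕ) : hF F j R ≤ hF F (j - 1) R + (j + 1) := by
  have H := hfun_hF F j hd
  have H' := hfun_hF F (j - 1) fun n h1 h2 => hd n h1 (by omega)
  have h1 := tLine tUnit F j 1 1 R hj le_rfl le_rfl
  have h2 := H.mac1 R 0
  have h3 := H.mac1 (1 ::ₘ R) 0
  rw [H.zero] at h2 h3
  rw [Nat.sub_self, H'.zero, H'.zero] at h1
  have e : (0 + 1) ::ₘ R = 1 ::ₘ R := rfl
  have e' : (0 + 1) ::ₘ 1 ::ₘ R = 1 ::ₘ 1 ::ₘ R := rfl
  rw [e] at h2
  rw [e'] at h3
  omega

/-- Independent conditions are independent in higher degrees. -/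
theorem indep_up (F : Type u) [Field F] (d' e : ℕ) (hde : d' ≤ e)
    (hd : ∀ n : ℕ, 1 ≤ n → n ≤ e → (n : F) ≠ 0) (K : Multiset ℕ)
    (hK : hF F d' K + TT K = T (d' + 1)) : hF F e K + TT K = T (e + 1) := by
  induction e, hde using Nat.le_induction with
  | base => exact hK
  | succ e hde ih =>
    have h1 := ih fun n h1 h2 => hd n h1 (by omega)
    have h2 := line_up F (e + 1) (by omega) hd K
    rw [Nat.add_sub_cancel] at h2
    have h3 := (hfun_hF F (e + 1) hd).chi_le K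
    have h4 := T_succ (e + 1)
    omega

theorem room_up {d' e k t : ℕ} (hde : d' ≤ e) (h : 2 * t + 3 * k * (d' + 1) ≤ 2 * T (d' + 1)) :
    2 * t + 3 * k * (e + 1) ≤ 2 * T (e + 1) := by
  induction e, hde using Nat.le_induction with
  | base => exact h
  | succ e hde ih =>
    have h1 := two_T (e + 1)
    have h2 := T_succ (e + 1)
    have h3 : 3 * k ≤ e + 2 := by
      by_contra hc
      push Not at hc
      have h4 : (e + 3) * (e + 1) ≤ 3 * k * (e + 1) := Nat.mul_le_mul_right _ hc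
      nlinarith
    nlinarith

/-- THEOREM X from the windows of `K + A`. -/
theorem core_X (F : Type u) [Field F] [CharZero F] (d a M : ℕ) (K S : Multiset ℕ) (hM : 1 ≤ M)
    (hS : ∀ x ∈ S, x ≤ M) (ha : 2 ≤ a) (h1 : 60 * M * a ≤ d) (h2 : 295 * M ^ 2 ≤ a * d)
    (hX : 158 * M ^ 2 + TT K ≤ T (d - 20 * M * a + 1))
    (hW : ∀ (e : ℕ) (A : Multiset ℕ), (∀ x ∈ A, x ≤ M) → d ≤ e + (20 * M + 1) * a → e ≤ d →
      (1 ≤ hF F e (K + A) →
        20 * (hF F e (K + A) + TT (K + A)) ≤ 41 * M ^ 2 + 20 * T (e + 1)) ∧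
      (18 * (M : ℤ) ^ 2 ≤ 5 * ((T (e + 1) : ℤ) - TT (K + A)) →
        hF F e (K + A) + TT (K + A) = T (e + 1))) :
    hF F d (K + S) = T (d + 1) - TT (K + S) := by
  have hSF : ∀ n τ, StripFun n τ (fun e B => hN F (Sf n τ e) B) := fun n τ =>
    { empty := (mStA F n τ).1
      low := (mStA F n τ).2.1
      anti := (mStA F n τ).2.2
      mono := (mStB F n τ).1
      rle := (mStB F n τ).2.1
      conv0 := (mStB F n τ).2.2.1
      conv := (mStB F n τ).2.2.2
      fib := fun e m B => mStC F n τ e m B }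
  obtain ⟨w, hw⟩ : ∃ w, w = M ^ 2 := ⟨_, rfl⟩
  have hwM : (w : ℤ) = (M : ℤ) ^ 2 := by rw [hw]; push_cast; rfl
  have hM2 : M ≤ M ^ 2 := by nlinarith
  rw [← hw] at hM2
  have haM : 60 * (a * a * M) ≤ a * d := by
    have e1 : a * ((60 * M) * a) ≤ a * d := Nat.mul_le_mul_left _ (by omega)
    calc 60 * (a * a * M) = a * ((60 * M) * a) := by ring
      _ ≤ a * d := e1
  have haa : a * a ≤ a * a * M := Nat.le_mul_of_pos_right _ hM
  have haa4 : 4 * M ≤ a * a * M := Nat.mul_le_mul_right _ (by nlinarith)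
  obtain ⟨τ, hτ⟩ : ∃ τ, τ = 20 * M := ⟨_, rfl⟩
  have hτa : (τ + 1) * a ≤ d := by
    have e1 : (τ + 1) * a ≤ (60 * M) * a := Nat.mul_le_mul_right _ (by omega)
    omega
  have had : a ≤ d := by nlinarith
  obtain ⟨δ, hδ⟩ : ∃ δ, 2 * (δ + 1) + a * a = a * (2 * d + 3) := by
    have h8 := two_T (d + 1)
    have h9 := two_T (d + 1 - a)
    have h10 : T (d + 1 - a) + 1 ≤ T (d + 1) := by
      have e1 : T (d + 1 - a) ≤ T d := ShghL.T_mono (by omega)
      have e2 := T_succ d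
      omega
    obtain ⟨i, hi⟩ := Nat.exists_eq_add_of_le (show a ≤ d + 1 by omega)
    refine ⟨T (d + 1) - T (d + 1 - a) - 1, ?_⟩
    rw [show T (d + 1) - T (d + 1 - a) - 1 + 1 = T (d + 1) - T (d + 1 - a) by omega]
    rw [hi, Nat.add_sub_cancel_left] at h9
    rw [show d + 1 - a = i by omega] at h10 ⊢
    have hd : d = a + i - 1 := by omega
    zify [show T i ≤ T (d + 1) by omega] at *
    have hd' : (d : ℤ) = a + i - 1 := by omega
    rw [hd'] at h8 ⊢
    linarith
  have hδ2 : 2 * (a * d) ≤ 2 * δ + a * a := by nlinarith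
  have hnτ : a * a * τ = 20 * (a * a * M) := by rw [hτ]; ring
  have hnτδ : a * a * τ ≤ δ := by omega
  obtain ⟨c, hc⟩ : ∃ c, δ = a * a * τ + c := Nat.exists_eq_add_of_le hnτδ
  rw [← hw] at h2 hX
  have hcw : 194 * w ≤ c + 1 := by nlinarith
  have hstr3 : 2 * (a * a * τ) + 14 * (a * a + 1) * M ≤ δ := by
    have e1 : 14 * (a * a + 1) * M = 14 * (a * a * M) + 14 * M := by ring
    omega
  have hstr4 : 2 * (a * a * (τ - 1)) + 14 * (a * a + 1) * M ≤ δ := by
    have : a * a * (τ - 1) ≤ a * a * τ := Nat.mul_le_mul_left _ (Nat.sub_le _ _)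
    omega
  have hm1 : M * (τ + 12 * M + 2) = 32 * w + 2 * M := by
    rw [hτ, hw]; ring
  have hm2 : 5 * M * (τ - 1 + 2) + 48 * M ^ 2 = 148 * w + 5 * M := by
    rw [show τ - 1 + 2 = 20 * M + 1 by omega, hw]
    ring
  have hTM := two_T M
  have hTM' : M * (M + 1) = w + M := by rw [hw]; ring
  rw [← hw] at hW
  rw [← hwM] at hW
  refine close_long F d a τ δ c (T M) (148 * w + 5 * M) (32 * w + 2 * M) (41 * w / 20)
    ((18 * w + 4) / 5) K S (by omega) (by omega) hτa hδ hc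
    (fun x hx => ShghL.T_mono (hS x hx)) (by omega) (by rw [hτ]; omega) ?_ ?_ ?_ ?_
  · intro B hB h0
    have h8 := (tStripWin _ (τ - 1) _ (hSF (a * a) (τ - 1)) M δ B hM (by omega)
      (fun x hx => hS x (hB x hx)) hstr4).1 h0
    rw [hm2, show τ - 1 + 1 = τ by omega] at h8
    exact h8
  · intro B hB h0
    have h8 := (tStripWin _ τ _ (hSF (a * a) τ) M δ B hM (by omega)
      (fun x hx => hS x (hB x hx)) hstr3).2
    rw [hm1] at h8
    exact h8 h0
  · intro e A hA he1 he2 h0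
    have h8 := (hW e A (fun x hx => hS x (hA x hx)) (by rw [← hτ]; exact he1) he2).1 h0
    omega
  · intro e A hA he1 he2 h0
    refine (hW e A (fun x hx => hS x (hA x hx)) (by rw [← hτ]; exact he1) he2).2 ?_
    omega

/-- THE RELATIVE THEOREM WITH EXPONENT `3 / 2`. -/
theorem hF_rel_X (F : Type u) [Field F] [CharZero F] (d a M k : ℕ) (K S : Multiset ℕ)
    (hM : 1 ≤ M) (hS : ∀ x ∈ S, x ≤ M) (ha : 2 ≤ a) (h1 : 60 * M * a ≤ d)
    (h2 : 295 * M ^ 2 ≤ a * d) (hk : 3 * M * d ≤ k ^ 2)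
    (hK : hF F (d - (20 * M + 1) * a) K + TT K = T (d - (20 * M + 1) * a + 1))
    (hroom : 2 * TT K + 3 * k * (d - (20 * M + 1) * a + 1) ≤
      2 * T (d - (20 * M + 1) * a + 1)) :
    hF F d (K + S) = T (d + 1) - TT (K + S) := by
  have hchar : ∀ d' : ℕ, ∀ n : ℕ, 1 ≤ n → n ≤ d' → (n : F) ≠ 0 :=
    fun _ n hn _ => Nat.cast_ne_zero.2 (by omega)
  have hd120 : 120 * M ≤ d := by nlinarith
  have hk18 : 18 * M ≤ k := by
    by_contra hc
    push Not at hc
    have e1 : k * k ≤ (18 * M) * (18 * M) := Nat.mul_le_mul hc.le hc.le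
    have e2 : 3 * M * (120 * M) ≤ 3 * M * d := Nat.mul_le_mul_left _ hd120
    nlinarith
  refine core_X F d a M K S hM hS ha h1 h2 ?_ ?_
  · have e0 : d - (20 * M + 1) * a ≤ d - 20 * M * a := by
      have : (20 * M + 1) * a = 20 * M * a + a := by ring
      omega
    have e1 := room_up e0 hroom
    have e2 : 80 * M ≤ d - 20 * M * a + 1 := by
      have : 60 * M * a = 3 * (20 * M * a) := by ring
      omega
    have e3 : 3 * (18 * M) * (80 * M) ≤ 3 * k * (d - 20 * M * a + 1) :=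
      Nat.mul_le_mul (by omega) e2
    nlinarith
  · intro e A hA he1 he2
    have e0 : d - (20 * M + 1) * a ≤ e := by omega
    refine hF_rel_window F e (hchar e) M k K A (indep_up F _ e e0 (hchar e) K hK)
      (room_up e0 hroom) ?_ hA
    have : 3 * M * e ≤ 3 * M * d := Nat.mul_le_mul_left _ he2
    nlinarith

end ShghI
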