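import Pool.Agent.ShghI.RelB
import Pool.Agent.ShghI.RelX

/-!
# ShghI, WinB: the relative theorems with the size condition `3 M d ≤ k²`, or `25 M (d - b) ≤ k²`
for a member `b` of `K`
-/

namespace ShghI

open ShghJ ShghL ShghC

/-- The size condition. -/
def SizeCond (d k M : ℕ) (K : Multiset ℕ) : Prop :=
  3 * M * d ≤ k ^ 2 ∨ ∃ b ∈ K, b + k ≤ d ∧ 25 * M * (d - b) ≤ k ^ 2

section

variable {h : ℕ → Multiset ℕ → ℕ} {d k M N : ℕ} {K S : Multiset ℕ}

theorem SizeCond.cons (hc : SizeCond d k M K) (n : ℕ) : SizeCond d k M (n ::ₘ K) := by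
  rcases hc with hc | ⟨b, hb, h1, h2⟩
  · exact Or.inl hc
  · exact Or.inr ⟨b, Multiset.mem_cons_of_mem hb, h1, h2⟩

theorem SizeCond.mono {M' : ℕ} (hc : SizeCond d k M K) (hM : M' ≤ M) : SizeCond d k M' K := by
  rcases hc with hc | ⟨b, hb, h1, h2⟩
  · refine Or.inl (le_trans ?_ hc)
    exact Nat.mul_le_mul_right _ (by omega)
  · refine Or.inr ⟨b, hb, h1, le_trans ?_ h2⟩
    exact Nat.mul_le_mul_right _ (by omega)

/-- WINDOW. -/
theorem win_cond (H : ∀ d' ≤ d, HFunD d' (h d')) (Mu : MulFun h d) (HB : HFunB d (h d))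
    (hK : h d K + TT K = T (d + 1)) (hroom : 2 * TT K + 3 * k * (d + 1) ≤ 2 * T (d + 1))
    (hk1 : 1 ≤ k) (hM : 1 ≤ M) (hc : SizeCond d k M K) (hS : ∀ x ∈ S, x ≤ M) :
    (1 ≤ h d (K + S) →
      20 * (h d (K + S) + TT (K + S)) ≤ 41 * M ^ 2 + 20 * T (d + 1)) ∧
    (18 * (M : ℤ) ^ 2 ≤ 5 * ((T (d + 1) : ℤ) - TT (K + S)) →
      h d (K + S) + TT (K + S) = T (d + 1)) := by
  rcases hc with hk | ⟨b, hb, h1, h2⟩
  · exact win_rel H Mu hK hroom (by nlinarith) hS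
  · obtain ⟨K', rfl⟩ := Multiset.exists_cons_of_mem hb
    have HB' := baseD_relB (fun d' hd' => (H d' hd').toHFun) Mu HB h1 hk1 hK hroom
    obtain ⟨g1, g2⟩ := win_of_base (H d le_rfl) HB' (κ := 4 / 3) (R := 41 / 10) (by norm_num) hS
      (fun m _ hm => hce0_relB_incr hM hm h1 hk1 h2)
      (fun m hs hm => hce_relB_incr hM hm h1 hk1 h2 hs)
    constructor
    · intro h0
      have h3 := g1 h0
      have h4 : 20 * ((h d ((b ::ₘ K') + S) : ℝ) + TT ((b ::ₘ K') + S)) ≤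
          41 * (M : ℝ) ^ 2 + 20 * T (d + 1) := by
        linarith
      exact_mod_cast h4
    · intro h0
      refine g2 ?_
      have h3 : 18 * (M : ℝ) ^ 2 ≤ 5 * ((T (d + 1) : ℝ) - TT ((b ::ₘ K') + S)) := by
        exact_mod_cast h0
      linarith

/-- MASS CONDITION. -/
theorem mass_cond (H : ∀ d' ≤ d, HFunD d' (h d')) (Mu : MulFun h d) (HB : HFunB d (h d))
    (hK : h d K + TT K = T (d + 1)) (hroom : 2 * TT K + 3 * k * (d + 1) ≤ 2 * T (d + 1))
    (hk1 : 1 ≤ k) (hM : 1 ≤ M) (hc : SizeCond d k M K) (hSM : ∀ x ∈ S, x ≤ M) {x : ℝ}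
    (hx0 : 0 ≤ x)
    (hS : ∀ m ∈ S, 2 ≤ m → 62 * (m : ℝ) ^ 2 ≤ x + TT (S.filter (fun j => j < m)))
    (hx : x ≤ 8 * |(T (d + 1) : ℝ) - TT (K + S)|) :
    h d (K + S) = T (d + 1) - TT (K + S) := by
  rcases hc with hk | ⟨b, hb, h1, h2⟩
  · exact mass_rel H Mu hK hroom (by nlinarith) hSM hx0 hS hx
  · obtain ⟨K', rfl⟩ := Multiset.exists_cons_of_mem hb
    have HB' := baseD_relB (fun d' hd' => (H d' hd').toHFun) Mu HB h1 hk1 hK hroom
    exact mass_of_base (H d le_rfl) HB' (κ := 7 / 5) (by norm_num : (0 : ℝ) ≤ 62) hSM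
      (fun _ _ hm hMD => hce0_relB_decr hM hm h1 hk1 h2 hMD)
      (fun _ hs hm hMD => hce_relB_decr hx0 hM hm h1 hk1 h2 hs hMD) hS hx

/-- RELATIVE THEOREM, bounded multiplicities. -/
theorem full_cond (H : ∀ d' ≤ d, HFunD d' (h d')) (Mu : MulFun h d) (HB : HFunB d (h d))
    (C : CMFun h d) (hM : 1 ≤ M) (hk1 : 1 ≤ k) (hK : h d K + TT K = T (d + 1))
    (hc : SizeCond d k M K)
    (hroom : 2 * TT K + (20 * M ^ 2 + 3 * k) * (d + 1) ≤ 2 * T (d + 1))
    (hS : ∀ x ∈ S, x ≤ M) : h d (K + S) = T (d + 1) - TT (K + S) := by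
  refine full_core H Mu C hM hK hk1 hroom (fun K1 hK1 h1 h2 S hS => ?_) hS
  refine win_cond H Mu HB h1 h2 hk1 hM ?_ hS
  rcases hK1 with rfl | ⟨n, rfl⟩
  · exact hc
  · exact hc.cons n

/-- RELATIVE THEOREM, mass condition. -/
theorem mixed_cond (H : ∀ d' ≤ d, HFunD d' (h d')) (Mu : MulFun h d) (HB : HFunB d (h d))
    (C : CMFun h d) (hM : 1 ≤ M) (hk1 : 1 ≤ k) (hK : h d K + TT K = T (d + 1))
    (hc : SizeCond d k M K)
    (hroom : 2 * TT K + (2 * N + 3 * k) * (d + 1) ≤ 2 * T (d + 1))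
    (hSM : ∀ x ∈ S, x ≤ M)
    (hS : ∀ m ∈ S, 2 ≤ m → 255 * (m : ℝ) ^ 2 ≤
      max (8 * |(T (d + 1) : ℝ) - TT (K + S)|) (4 * (N : ℝ) / 5) +
        TT (S.filter (fun j => j < m))) :
    h d (K + S) = T (d + 1) - TT (K + S) := by
  refine mixed_core H Mu C hK hk1 hroom hSM (fun K1 hK1 h1 h2 S hS x hx0 hm hx => ?_) hS
  refine mass_cond H Mu HB h1 h2 hk1 hM ?_ hS hx0 hm hx
  rcases hK1 with rfl | ⟨n, rfl⟩
  · exact hc
  · exact hc.cons n

end

universe u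

section

variable (F : Type u) [Field F] (d : ℕ) (hd : ∀ n : ℕ, 1 ≤ n → n ≤ d → (n : F) ≠ 0)

include hd

/-- RELATIVE THEOREM in the same degree. -/
theorem hF_rel_cond (M N k : ℕ) (K S : Multiset ℕ) (hK : hF F d K + TT K = T (d + 1))
    (hM : 1 ≤ M) (hk1 : 1 ≤ k) (hc : SizeCond d k M K) (hSM : ∀ x ∈ S, x ≤ M)
    (hroom : 2 * TT K + (N + 3 * k + 1) * (d + 1) ≤ 2 * T (d + 1))
    (hS : (∀ m ∈ S, 20 * m ^ 2 ≤ N) ∨ ∀ m ∈ S, 2 ≤ m → 1275 * (m : ℤ) ^ 2 ≤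
      max (40 * |(T (d + 1) : ℤ) - TT (K + S)|) (2 * (N : ℤ)) +
        5 * TT (S.filter (fun j => j < m))) :
    hF F d (K + S) = T (d + 1) - TT (K + S) := by
  have hmix : (∀ m ∈ S, 2 ≤ m → 1275 * (m : ℤ) ^ 2 ≤
      max (40 * |(T (d + 1) : ℤ) - TT (K + S)|) (2 * (N : ℤ)) +
        5 * TT (S.filter (fun j => j < m))) → hF F d (K + S) = T (d + 1) - TT (K + S) := by
    intro h
    obtain ⟨P, hP⟩ : ∃ P, P = (N + 1) / 2 := ⟨_, rfl⟩
    refine mixed_cond (h := hF F) (N := P) (hFD F d hd) (mulFun_hF F d hd)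
      (hFB F d hd d le_rfl) (cmFun_hF' F d hd) hM hk1 hK hc ?_ hSM fun m hm h2 => ?_
    · have : (2 * P + 3 * k) * (d + 1) ≤ (N + 3 * k + 1) * (d + 1) :=
        Nat.mul_le_mul_right _ (by omega)
      omega
    · have h3 := h m hm h2
      have h3' : max (40 * |(T (d + 1) : ℤ) - TT (K + S)|) (2 * (N : ℤ)) ≤
          max (40 * |(T (d + 1) : ℤ) - TT (K + S)|) (4 * (P : ℤ)) :=
        max_le_max le_rfl (by omega)
      have h4' : 1275 * (m : ℤ) ^ 2 ≤
          max (40 * |(T (d + 1) : ℤ) - TT (K + S)|) (4 * (P : ℤ)) +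
          5 * TT (S.filter (fun j => j < m)) := by linarith
      have h4 : (1275 : ℝ) * (m : ℝ) ^ 2 ≤
          max (40 * |(T (d + 1) : ℝ) - TT (K + S)|) (4 * (P : ℝ)) +
            5 * TT (S.filter (fun j => j < m)) := by exact_mod_cast h4'
      have h5 : max (40 * |(T (d + 1) : ℝ) - TT (K + S)|) (4 * (P : ℝ)) =
          5 * max (8 * |(T (d + 1) : ℝ) - TT (K + S)|) (4 * (P : ℝ) / 5) := by
        rw [mul_max_of_nonneg _ _ (by norm_num : (0 : ℝ) ≤ 5)]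
        congr 1
        · ring
        · ring
      rw [h5] at h4
      linarith
  rcases hS with hS | hS
  · obtain ⟨M0, h1, h2⟩ := exists_top S
    rcases Nat.eq_zero_or_pos M0 with h0 | h0
    · refine hmix fun m hm h3 => ?_
      have := h1 m hm
      omega
    · have h3 : M0 ∈ S := by
        rcases h2 with h2 | h2
        · omega
        · exact h2
      have h4 := hS M0 h3
      have h5 := hSM M0 h3
      refine full_cond (h := hF F) (hFD F d hd) (mulFun_hF F d hd) (hFB F d hd d le_rfl)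
        (cmFun_hF' F d hd) h0 hk1 hK (hc.mono h5) ?_ h1
      have : (20 * M0 ^ 2 + 3 * k) * (d + 1) ≤ (N + 3 * k + 1) * (d + 1) :=
        Nat.mul_le_mul_right _ (by omega)
      omega
  · exact hmix hS

end

/-- THE RELATIVE THEOREM WITH EXPONENT `3 / 2`, with the size condition in degree
`d' = d - (20 M + 1) a`: `3 M d ≤ k²`, or `b + k ≤ d'`, `25 M (d - b) ≤ k²` for a member `b`. -/
theorem hF_rel_XB (F : Type u) [Field F] [CharZero F] (d a M k : ℕ) (K S : Multiset ℕ)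
    (hM : 1 ≤ M) (hS : ∀ x ∈ S, x ≤ M) (ha : 2 ≤ a) (h1 : 60 * M * a ≤ d)
    (h2 : 295 * M ^ 2 ≤ a * d)
    (hk : 3 * M * d ≤ k ^ 2 ∨
      ∃ b ∈ K, b + k ≤ d - (20 * M + 1) * a ∧ 25 * M * (d - b) ≤ k ^ 2)
    (hK : hF F (d - (20 * M + 1) * a) K + TT K = T (d - (20 * M + 1) * a + 1))
    (hroom : 2 * TT K + 3 * k * (d - (20 * M + 1) * a + 1) ≤
      2 * T (d - (20 * M + 1) * a + 1)) :
    hF F d (K + S) = T (d + 1) - TT (K + S) := by
  have hchar : ∀ d' : ℕ, ∀ n : ℕ, 1 ≤ n → n ≤ d' → (n : F) ≠ 0 :=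
    fun _ n hn _ => Nat.cast_ne_zero.2 (by omega)
  have hd120 : 120 * M ≤ d := by nlinarith
  have hsplit : (20 * M + 1) * a = 20 * M * a + a := by ring
  have h60 : 60 * M * a = 3 * (20 * M * a) := by ring
  have hMa : M * 2 ≤ M * a := Nat.mul_le_mul_left _ ha
  have h20 : 20 * M * a = 20 * (M * a) := by ring
  have hk18 : 18 * M ≤ k := by
    rcases hk with hk | ⟨b, hb, hb1, hb2⟩
    · by_contra hc
      push Not at hc
      have e1 : k * k ≤ (18 * M) * (18 * M) := Nat.mul_le_mul hc.le hc.le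
      have e2 : 3 * M * (120 * M) ≤ 3 * M * d := Nat.mul_le_mul_left _ hd120
      nlinarith
    · by_contra hc
      push Not at hc
      have e1 : k * k ≤ (18 * M) * (18 * M) := Nat.mul_le_mul hc.le hc.le
      have e2 : 25 * M * (20 * (M * 2)) ≤ 25 * M * (d - b) :=
        Nat.mul_le_mul_left _ (by omega)
      nlinarith
  refine core_X F d a M K S hM hS ha h1 h2 ?_ ?_
  · have e0 : d - (20 * M + 1) * a ≤ d - 20 * M * a := by omega
    have e1 := room_up e0 hroom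
    have e2 : 80 * M ≤ d - 20 * M * a + 1 := by omega
    have e3 : 3 * (18 * M) * (80 * M) ≤ 3 * k * (d - 20 * M * a + 1) :=
      Nat.mul_le_mul (by omega) e2
    nlinarith
  · intro e A hA he1 he2
    have e0 : d - (20 * M + 1) * a ≤ e := by omega
    refine win_cond (h := hF F) (k := k) (hFD F e (hchar e)) (mulFun_hF F e (hchar e))
      (hFB F e (hchar e) e le_rfl) (indep_up F _ e e0 (hchar e) K hK) (room_up e0 hroom)
      (by omega) hM ?_ hA
    rcases hk with hk | ⟨b, hb, hb1, hb2⟩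
    · refine Or.inl (le_trans ?_ hk)
      exact Nat.mul_le_mul_left _ he2
    · refine Or.inr ⟨b, hb, by omega, le_trans ?_ hb2⟩
      exact Nat.mul_le_mul_left _ (by omega)

end ShghI
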