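import Pool.Agent.ShghI.RedG
import Pool.Agent.ShghI.WinB

/-!
# ShghI, RelG: the relative theorems with exponent `3 / 2` and small constants

Strips of thickness `3 M + 1` on the double curve `y = x ^ a`.
-/

namespace ShghI

open MvPolynomial ShghJ ShghC

universe u

/-- The closing with `τ = 3 M + 1`, from windows `u`, `v ≤ p` of `K + A`. -/
theorem core_G (F : Type u) [Field F] [CharZero F] (d a M κ p u v : ℕ) (K S : Multiset ℕ)
    (hM : 1 ≤ M) (hS : ∀ x ∈ S, x ≤ M) (ha : 1 ≤ a) (h1 : (6 * M + 3) * a ≤ d) (hκ : 11 ≤ κ)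
    (h2 : 2 * κ * M ^ 2 ≤ a * d) (hvp : v ≤ p) (hp : 7 * M ^ 2 ≤ 2 * p)
    (hq1 : p + T M + u ≤ κ * M ^ 2)
    (hq2 : 2 * (p + T M) + 13 * M ^ 2 ≤ 2 * (κ * M ^ 2) + 5 * M + 6)
    (hX : p + TT K ≤ T (d - (3 * M + 1) * a + 1))
    (hW1 : ∀ (e : ℕ) (A : Multiset ℕ), (∀ x ∈ A, x ≤ M) → d ≤ e + (3 * M + 2) * a → e ≤ d →
      1 ≤ hF F e (K + A) → hF F e (K + A) + TT (K + A) ≤ T (e + 1) + u)
    (hW2 : ∀ (e : ℕ) (A : Multiset ℕ), (∀ x ∈ A, x ≤ M) → d ≤ e + (3 * M + 2) * a → e ≤ d →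
      TT (K + A) + v ≤ T (e + 1) → hF F e (K + A) + TT (K + A) = T (e + 1)) :
    hF F d (K + S) = T (d + 1) - TT (K + S) := by
  obtain ⟨w, hw⟩ : ∃ w, w = M ^ 2 := ⟨_, rfl⟩
  have hMw : M ≤ w := by rw [hw]; nlinarith
  have hsplit : (3 * M + 2) * a = (3 * M + 1) * a + a := by ring
  have hsplit2 : (6 * M + 3) * a = 2 * ((3 * M + 1) * a) + a := by ring
  have had : a ≤ d := by omega
  obtain ⟨n, hn⟩ : ∃ n, n = a * a := ⟨_, rfl⟩
  obtain ⟨nM, hnM⟩ : ∃ nM, nM = a * a * M := ⟨_, rfl⟩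
  obtain ⟨ad, had'⟩ : ∃ ad, ad = a * d := ⟨_, rfl⟩
  have hA : 6 * nM + 3 * n ≤ ad := by
    have e1 : a * ((6 * M + 3) * a) ≤ a * d := Nat.mul_le_mul_left _ h1
    have e2 : a * ((6 * M + 3) * a) = 6 * nM + 3 * n := by rw [hnM, hn]; ring
    omega
  obtain ⟨δ, hδ⟩ : ∃ δ, 2 * (δ + 1) + a * a = a * (2 * d + 3) := by
    have h8 := two_T (d + 1)
    have h9 := two_T (d + 1 - a)
    have h10 : T (d + 1 - a) + 1 ≤ T (d + 1) := by
      have e1 : T (d + 1 - a) ≤ T d := ShghL.T_mono (by omega)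
      have e2 := T_succ d
      omega
    obtain ⟨i, hi⟩ := Nat.exists_eq_add_of_le (show a ≤ d + 1 by omega)
    refine ⟨T (d + 1) - T (d + 1 - a) - 1, ?_⟩
    rw [show T (d + 1) - T (d + 1 - a) - 1 + 1 = T (d + 1) - T (d + 1 - a) by omega]
    rw [hi, Nat.add_sub_cancel_left] at h9
    rw [show d + 1 - a = i by omega] at h10 ⊢
    have hd : d = a + i - 1 := by omega
    zify [show T i ≤ T (d + 1) by omega] at *
    have hd' : (d : ℤ) = a + i - 1 := by omega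
    rw [hd'] at h8 ⊢
    linarith
  have hδ2 : 2 * (δ + 1) + n = 2 * ad + 3 * a := by
    rw [hn, hδ, had']; ring
  have hnτ : a * a * (3 * M + 1) = 3 * nM + n := by rw [hnM, hn]; ring
  obtain ⟨c, hc⟩ : ∃ c, δ = a * a * (3 * M + 1) + c := Nat.exists_eq_add_of_le (by omega)
  have hc2 : ad + 3 * a ≤ 2 * (c + 1) := by omega
  have h2' : 2 * (κ * w) ≤ ad := by rw [hw, had', ← mul_assoc]; exact h2
  have hcκ : κ * w ≤ c + 1 := by omega
  have h11 : 11 * w ≤ κ * w := Nat.mul_le_mul_right _ hκ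
  have hstr : a * a * (3 * M + 1) + 2 * M * (a * a + 1) ≤ δ := by
    have e1 : 2 * M * (a * a + 1) = 2 * nM + 2 * M := by rw [hnM]; ring
    omega
  have hstr' : a * a * (3 * M) + 2 * M * (a * a + 1) ≤ δ := by
    have : a * a * (3 * M) ≤ a * a * (3 * M + 1) := Nat.mul_le_mul_left _ (Nat.le_succ _)
    omega
  rw [← hw] at hp hq1 hq2
  have hn1 : 1 ≤ a * a := Nat.mul_pos ha ha
  have HC : HFun d (hF F d) := hfun_hF F d fun n hn _ => Nat.cast_ne_zero.2 (by omega)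
  have hTK : TT K ≤ T (d + 1) := by
    have : T (d - (3 * M + 1) * a + 1) ≤ T (d + 1) := ShghL.T_mono (by omega)
    omega
  refine red_rel HC hTK hM (fun S hS hχ1 hχ2 => ?_) S hS
  have hm1 : M * (3 * M + 4 * M) = 7 * w := by rw [hw]; ring
  have hm2 : (M - 1) * (2 * (3 * M + 1) + 7 * M + 4) + 7 * M + 6 = 13 * w := by
    obtain ⟨k, rfl⟩ : ∃ k, M = k + 1 := ⟨M - 1, by omega⟩
    rw [Nat.add_sub_cancel, hw]
    ring
  obtain ⟨V, hV⟩ : ∃ V, V = (M - 1) * (2 * (3 * M + 1) + 7 * M + 4) / 2 + 1 := ⟨_, rfl⟩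
  have hτd : (3 * M + 1 + 1) * a ≤ d := by
    have : (3 * M + 1 + 1) * a = (3 * M + 2) * a := by ring
    omega
  refine close_red F d a (3 * M + 1) δ c (T M) M p ((7 * w - 2) / 2) V u v K S ha (by omega)
    hτd hδ hc hS le_rfl hvp (by omega) (by omega) (by omega) hX hχ1 hχ2 ?_ ?_ ?_ ?_
  · intro B hB h0
    have h8 := (tWinG (a * a) (3 * M) _ (mStripG F (a * a) (3 * M) hn1) M δ B hM le_rfl hB
      hstr').1 h0
    rw [hm1] at h8
    omega
  · intro B hB h0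
    refine (tWinG (a * a) (3 * M + 1) _ (mStripG F (a * a) (3 * M + 1) hn1) M δ B hM (by omega)
      hB hstr).2 ?_
    omega
  · intro e A hA he1 he2 h0
    exact hW1 e A hA he1 he2 h0
  · intro e A hA he1 he2 h0
    exact hW2 e A hA he1 he2 h0

/-- SHGH for all multiplicities `≤ M` outside of an arbitrary part `K` with
`d (d - 2 ΣK) ≥ 700 M³`. -/
theorem hF_G1 (F : Type u) [Field F] [CharZero F] (d M : ℕ) (K S : Multiset ℕ) (hM : 1 ≤ M)
    (hS : ∀ x ∈ S, x ≤ M) (h1 : 2 * K.sum + 9 * M ≤ d)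
    (h2 : 700 * M ^ 3 ≤ d * (d - 2 * K.sum)) :
    hF F d (K + S) = T (d + 1) - TT (K + S) := by
  have HC : ∀ d', HFunD d' (hF F d') := fun d' =>
    hfunD_hF F d' fun n hn _ => Nat.cast_ne_zero.2 (by omega)
  obtain ⟨w, hw⟩ : ∃ w, w = M ^ 2 := ⟨_, rfl⟩
  have hwM : (w : ℤ) = (M : ℤ) ^ 2 := by rw [hw]; push_cast; rfl
  have hMw : M ≤ w := by rw [hw]; nlinarith
  obtain ⟨σ, hσ⟩ : ∃ σ, σ = K.sum := ⟨_, rfl⟩
  rw [← hσ] at h1 h2
  obtain ⟨Δ, hΔ⟩ : ∃ Δ, d = 2 * σ + Δ := ⟨d - 2 * σ, by omega⟩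
  rw [show d - 2 * σ = Δ by omega] at h2
  obtain ⟨a, ha⟩ : ∃ a, a = Δ / (6 * M + 3) := ⟨_, rfl⟩
  have ha1 : (6 * M + 3) * a ≤ Δ := by rw [ha]; exact Nat.mul_div_le _ _
  have ha2 : Δ < (6 * M + 3) * (a + 1) := by
    rw [ha, mul_comm (6 * M + 3)]
    exact Nat.lt_mul_of_div_lt (Nat.lt_succ_self _) (by omega)
  have ha3 : 1 ≤ a := by
    rw [ha]
    exact (Nat.le_div_iff_mul_le (by omega)).2 (by omega)
  have ha4 : Δ ≤ (18 * M) * a := by
    have e1 : (6 * M + 3) * (a + 1) ≤ (9 * M) * (2 * a) := Nat.mul_le_mul (by omega) (by omega)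
    have e2 : (9 * M) * (2 * a) = (18 * M) * a := by ring
    omega
  have hadw : 38 * w ≤ a * d := by
    have e1 : d * Δ ≤ d * ((18 * M) * a) := Nat.mul_le_mul_left _ ha4
    have e2 : M * (700 * M ^ 2) ≤ M * (18 * (a * d)) := by
      calc M * (700 * M ^ 2) = 700 * M ^ 3 := by ring
        _ ≤ d * Δ := h2
        _ ≤ d * ((18 * M) * a) := e1
        _ = M * (18 * (a * d)) := by ring
    have e3 := Nat.le_of_mul_le_mul_left e2 hM
    rw [hw]
    omega
  have hd2 : 700 * w ≤ d * d := by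
    have e1 : d * Δ ≤ d * d := Nat.mul_le_mul_left _ (by omega)
    have e2 : M ^ 2 ≤ M ^ 3 := by
      rw [pow_succ M 2]
      exact Nat.le_mul_of_pos_right _ hM
    omega
  have hs1 : (6 * M + 3) * a = 2 * ((3 * M + 1) * a) + a := by ring
  have hs2 : (6 * M + 3) * a = (3 * M + 2) * a + (3 * M + 1) * a := by ring
  have hTK := ShghL.TT_le_T_sum K
  rw [← hσ] at hTK
  have hTM := two_T M
  have hTM' : M * (M + 1) = w + M := by rw [hw]; ring
  refine core_G F d a M 19 ((23 * w + 1) / 2) (6 * w) ((23 * w + 1) / 2) K S hM hS ha3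
    (by omega) (by norm_num) (by rw [← hw]; omega) le_rfl (by rw [← hw]; omega)
    (by rw [← hw]; omega) (by rw [← hw]; omega) ?_ ?_ ?_
  · obtain ⟨j, hj⟩ : ∃ j, d - (3 * M + 1) * a + 1 = σ + j :=
      ⟨d - (3 * M + 1) * a + 1 - σ, by omega⟩
    have e1 := ShghL.T_add_le σ j
    have e2 := two_T j
    have e3 : d ≤ 2 * j := by omega
    have e4 : d * d ≤ (2 * j) * (2 * j) := Nat.mul_le_mul e3 e3
    have e5 : (2 * j) * (2 * j) = 4 * (j * j) := by ring
    have e6 : j * (j + 1) = j * j + j := by ring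
    rw [hj]
    omega
  · intro e A hA he1 he2 h0
    have h8 := (winBaseD e (hF F e) (HC e) M K A (by omega) hA).1 h0
    rw [← hw] at h8
    omega
  · intro e A hA he1 he2 h0
    refine (winBaseD e (hF F e) (HC e) M K A (by omega) hA).2 ?_
    rw [← hwM]
    omega

/-- THE RELATIVE THEOREM WITH EXPONENT `3 / 2`: `K` non-special with room in degree
`d - (3 M + 2) a`. -/
theorem hF_G_rel (F : Type u) [Field F] [CharZero F] (d a M k : ℕ) (K S : Multiset ℕ)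
    (hM : 1 ≤ M) (hS : ∀ x ∈ S, x ≤ M) (ha : 1 ≤ a) (h1 : (6 * M + 3) * a ≤ d)
    (h2 : 22 * M ^ 2 ≤ a * d)
    (hk : 3 * M * d ≤ k ^ 2 ∨
      ∃ b ∈ K, b + k ≤ d - (3 * M + 2) * a ∧ 25 * M * (d - b) ≤ k ^ 2)
    (hK : hF F (d - (3 * M + 2) * a) K + TT K = T (d - (3 * M + 2) * a + 1))
    (hroom : 2 * TT K + 3 * k * (d - (3 * M + 2) * a + 1) ≤
      2 * T (d - (3 * M + 2) * a + 1)) :
    hF F d (K + S) = T (d + 1) - TT (K + S) := by
  have hchar : ∀ d' : ℕ, ∀ n : ℕ, 1 ≤ n → n ≤ d' → (n : F) ≠ 0 :=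
    fun _ n hn _ => Nat.cast_ne_zero.2 (by omega)
  obtain ⟨w, hw⟩ : ∃ w, w = M ^ 2 := ⟨_, rfl⟩
  have hwM : (w : ℤ) = (M : ℤ) ^ 2 := by rw [hw]; push_cast; rfl
  have hMw : M ≤ w := by rw [hw]; nlinarith
  have hs1 : (6 * M + 3) * a = 2 * ((3 * M + 1) * a) + a := by ring
  have hs2 : (3 * M + 2) * a = (3 * M + 1) * a + a := by ring
  have hMa : M ≤ M * a := Nat.le_mul_of_pos_right _ ha
  have hs3 : (3 * M + 1) * a = 3 * (M * a) + a := by ring
  have hd9 : 9 * M ≤ d ∨ M = 1 := by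
    rcases Nat.lt_or_ge M 2 with h | h
    · right; omega
    · left
      nlinarith
  have hd9' : 6 * M ≤ d := by omega
  have hTM := two_T M
  have hTM' : M * (M + 1) = w + M := by rw [hw]; ring
  have hk4 : 4 * M ≤ k := by
    rcases hk with hk | ⟨b, hb, hb1, hb2⟩
    · by_contra hc
      push Not at hc
      have e1 : k * k < (4 * M) * (4 * M) := Nat.mul_self_lt_mul_self hc
      have e2 : 3 * M * (6 * M) ≤ 3 * M * d := Nat.mul_le_mul_left _ hd9'
      nlinarith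
    · by_contra hc
      push Not at hc
      have e1 : k * k < (4 * M) * (4 * M) := Nat.mul_self_lt_mul_self hc
      have e2 : 25 * M * (3 * M) ≤ 25 * M * (d - b) :=
        Nat.mul_le_mul_left _ (by omega)
      nlinarith
  refine core_G F d a M 11 ((18 * w + 4) / 5) (41 * w / 20) ((18 * w + 4) / 5) K S hM hS ha
    h1 le_rfl (by rw [← hw] at h2 ⊢; omega) le_rfl (by rw [← hw]; omega) (by rw [← hw]; omega)
    (by rw [← hw]; omega) ?_ ?_ ?_
  · have e0 : d - (3 * M + 2) * a ≤ d - (3 * M + 1) * a := by omega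
    have e1 := room_up e0 hroom
    have e2 : 3 * M ≤ d - (3 * M + 1) * a + 1 := by omega
    have e3 : 3 * (4 * M) * (3 * M) ≤ 3 * k * (d - (3 * M + 1) * a + 1) :=
      Nat.mul_le_mul (by omega) e2
    have e4 : 3 * (4 * M) * (3 * M) = 36 * w := by rw [hw]; ring
    omega
  · intro e A hA he1 he2 h0
    have e0 : d - (3 * M + 2) * a ≤ e := by omega
    have h8 := (win_cond (h := hF F) (k := k) (hFD F e (hchar e)) (mulFun_hF F e (hchar e))
      (hFB F e (hchar e) e le_rfl) (indep_up F _ e e0 (hchar e) K hK) (room_up e0 hroom)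
      (by omega) hM (by
        rcases hk with hk | ⟨b, hb, hb1, hb2⟩
        · refine Or.inl (le_trans ?_ hk)
          exact Nat.mul_le_mul_left _ he2
        · refine Or.inr ⟨b, hb, by omega, le_trans ?_ hb2⟩
          exact Nat.mul_le_mul_left _ (by omega)) hA).1 h0
    rw [← hw] at h8
    omega
  · intro e A hA he1 he2 h0
    have e0 : d - (3 * M + 2) * a ≤ e := by omega
    refine (win_cond (h := hF F) (k := k) (hFD F e (hchar e)) (mulFun_hF F e (hchar e))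
      (hFB F e (hchar e) e le_rfl) (indep_up F _ e e0 (hchar e) K hK) (room_up e0 hroom)
      (by omega) hM (by
        rcases hk with hk | ⟨b, hb, hb1, hb2⟩
        · refine Or.inl (le_trans ?_ hk)
          exact Nat.mul_le_mul_left _ he2
        · refine Or.inr ⟨b, hb, by omega, le_trans ?_ hb2⟩
          exact Nat.mul_le_mul_left _ (by omega)) hA).2 ?_
    rw [← hwM]
    omega

end ShghI
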