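import Pool.Agent.ShghI.SpecU
import Pool.Agent.ShghC.StripWin

/-!
# ShghI, STRIPBASE: few conditions on a long strip are independent
-/

namespace ShghI

open ShghJ ShghC

namespace StripB

variable {n τ : ℕ} {h : ℕ → Multiset ℕ → ℕ}

theorem T_zero : T 0 = 0 := rfl

theorem TT_cons (m : ℕ) (B : Multiset ℕ) : TT (m ::ₘ B) = T m + TT B := by
  unfold TT
  rw [Multiset.map_cons, Multiset.sum_cons]

theorem T_sum (w : ℕ) : ∑ i ∈ Finset.range w, (w - i) = T w := by
  have h1 : ∀ w : ℕ, 2 * ∑ i ∈ Finset.range w, (w - i) = w * (w + 1) := by
    intro w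
    induction w with
    | zero => simp
    | succ w ih =>
      rw [Finset.sum_range_succ', mul_add]
      have h2 : ∑ i ∈ Finset.range w, (w + 1 - (i + 1)) = ∑ i ∈ Finset.range w, (w - i) :=
        Finset.sum_congr rfl fun i _ => Nat.add_sub_add_right _ _ _
      rw [h2, ih]
      ring_nf
      omega
  unfold T
  have := h1 w
  omega

/-- the increment of the number of monomials -/
theorem step (H : StripFun n τ h) {j : ℕ} (hj : n * τ ≤ j + 1) :
    h (j + 1) 0 = h j 0 + (τ + 1) := by
  rw [H.empty, H.empty]
  have h1 : ∀ k ∈ Finset.range (τ + 1), j + 1 + 1 - n * k = (j + 1 - n * k) + 1 := by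
    intro k hk
    have h2 : n * k ≤ n * τ := Nat.mul_le_mul_left _ (by
      have := Finset.mem_range.1 hk
      omega)
    omega
  rw [Finset.sum_congr rfl h1, Finset.sum_add_distrib, Finset.sum_const, Finset.card_range,
    smul_eq_mul, mul_one]

theorem base (H : StripFun n τ h) (h0 : n * τ = 0) : h 0 0 = τ + 1 := by
  rw [H.empty]
  have h1 : ∀ k ∈ Finset.range (τ + 1), 0 + 1 - n * k = 1 := by
    intro k hk
    have h2 : n * k ≤ n * τ := Nat.mul_le_mul_left _ (by
      have := Finset.mem_range.1 hk
      omega)
    omega
  rw [Finset.sum_congr rfl h1, Finset.sum_const, Finset.card_range, smul_eq_mul, mul_one]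

theorem zeros (H : StripFun n τ h) (B : Multiset ℕ) (hB : B.sum = 0) (e : ℕ) :
    h e B = h e 0 := by
  induction B using Multiset.induction_on with
  | empty => rfl
  | cons m B ih =>
    rw [Multiset.sum_cons] at hB
    have hm : m = 0 := by omega
    subst hm
    have h1 := H.low e 0 B
    have h2 := H.anti e 0 B
    have h3 := ih (by omega)
    rw [T_zero] at h1
    omega

end StripB

open StripB

theorem tStripBase : S_StripBase := by
  intro n τ h H e W
  induction W using Multiset.induction_on generalizing e with
  | empty =>
    intro _ _ _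
    simp [TT]
  | cons w B ih =>
    intro he hW hs
    have hw : w ≤ τ + 1 := hW w (Multiset.mem_cons_self w B)
    have hB : ∀ x ∈ B, x ≤ τ + 1 := fun x hx => hW x (Multiset.mem_cons_of_mem hx)
    rw [Multiset.sum_cons] at hs
    have h1 : h e B + TT B = h e 0 := ih e he hB (by omega)
    -- the increments
    have h2 : ∀ j, n * τ + B.sum ≤ j → StripWin.sr h B j = τ + 1 := by
      intro j hj
      rcases Nat.eq_zero_or_pos B.sum with h0 | hpos
      · rcases j with _ | j
        · rw [StripWin.sr_zero, zeros H B h0, base H (by omega)]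
        · rw [StripWin.sr_succ, zeros H B h0, zeros H B h0, step H (by omega)]
          omega
      · obtain ⟨i, rfl⟩ : ∃ i, j = i + 1 := ⟨j - 1, by omega⟩
        have h3 := ih (i + 1) (by omega) hB (by omega)
        have h4 := ih i (by omega) hB (by omega)
        have h5 := step H (j := i) (by omega)
        rw [StripWin.sr_succ]
        omega
    have h3 := StripWin.drop H B e w
    have h4 : T w ≤ ∑ i ∈ Finset.range (e + 1), min (StripWin.sr h B (e - i)) (w - i) := by
      calc T w = ∑ i ∈ Finset.range w, (w - i) := (T_sum w).symm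
        _ = ∑ i ∈ Finset.range w, min (StripWin.sr h B (e - i)) (w - i) := by
            refine Finset.sum_congr rfl fun i hi => ?_
            have hi' := Finset.mem_range.1 hi
            rw [h2 (e - i) (by omega)]
            omega
        _ ≤ ∑ i ∈ Finset.range (e + 1), min (StripWin.sr h B (e - i)) (w - i) := by
            refine Finset.sum_le_sum_of_subset ?_
            intro i hi
            have hi' := Finset.mem_range.1 hi
            exact Finset.mem_range.2 (by omega)
    have h5 := H.low e w B
    rw [StripB.TT_cons]
    omega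

end ShghI
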