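import Pool.Agent.ShghI.CloseU
import Pool.Agent.ShghI.RelG
import Pool.Agent.ShghI.StripBase
import Pool.Agent.ShghI.FibMul

/-!
# ShghI, MainU: long curves, final statement for generic points
-/

namespace ShghI

open MvPolynomial ShghJ ShghC ShghL

universe u

theorem mStripU (F : Type u) [Field F] [CharZero F] (n τ : ℕ) (hn : 1 ≤ n) :
    StripU n τ (fun e B => hN F (Sf n τ e) B) where
  hg := (mStripG F n τ hn).hg
  base := fun e W he hW hs => tStripBase n τ (fun e B => hN F (Sf n τ e) B)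
    { empty := (mStA F n τ).1
      low := (mStA F n τ).2.1
      anti := (mStA F n τ).2.2
      mono := (mStB F n τ).1
      rle := (mStB F n τ).2.1
      conv0 := (mStB F n τ).2.2.1
      conv := (mStB F n τ).2.2.2
      fib := fun e m B => mStC F n τ e m B } e W he hW hs
  fib := (mStripG F n τ hn).fib
  fib0 := (mStripG F n τ hn).fib0
  mul := fun e m B => tFibMul F n τ e m B

/-- The condition on `K` in degree `d'`, `d` the final degree. -/
def RoomK (F : Type u) [Field F] (d d' M : ℕ) (K : Multiset ℕ) : Prop :=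
  2 * K.sum ≤ d' ∨ ∃ k : ℕ, 1 ≤ k ∧ hF F d' K + TT K = T (d' + 1) ∧
    2 * TT K + 3 * k * (d' + 1) ≤ 2 * T (d' + 1) ∧
    (3 * M * d ≤ k ^ 2 ∨ ∃ b ∈ K, b + k ≤ d' ∧ 25 * M * (d - b) ≤ k ^ 2)

/-- LONG CURVES, bounded multiplicities. -/
theorem hF_long_G (F : Type u) [Field F] [CharZero F] (d a M d' : ℕ) (K S : Multiset ℕ)
    (hM : 1 ≤ M) (hS : ∀ x ∈ S, x ≤ M) (ha : 1 ≤ a) (h1 : (6 * M + 3) * a ≤ d)
    (h2 : 38 * M ^ 2 ≤ a * d) (hd' : d' + (3 * M + 2) * a = d) (hK : RoomK F d d' M K) :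
    hF F d (K + S) = T (d + 1) - TT (K + S) := by
  have hd'' : d - (3 * M + 2) * a = d' := by omega
  rcases hK with hσ | ⟨k, hk1, hK, hroom, hk⟩
  · have HC : ∀ d', HFunD d' (hF F d') := fun d' =>
      hfunD_hF F d' fun n hn _ => Nat.cast_ne_zero.2 (by omega)
    obtain ⟨w, hw⟩ : ∃ w, w = M ^ 2 := ⟨_, rfl⟩
    have hwM : (w : ℤ) = (M : ℤ) ^ 2 := by rw [hw]; push_cast; rfl
    have hMw : M ≤ w := by rw [hw]; nlinarith
    rw [← hw] at h2
    obtain ⟨σ, hσ'⟩ : ∃ σ, σ = K.sum := ⟨_, rfl⟩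
    rw [← hσ'] at hσ
    have hs1 : (6 * M + 3) * a = 2 * ((3 * M + 1) * a) + a := by ring
    have hs2 : (3 * M + 2) * a = (3 * M + 1) * a + a := by ring
    have hTK := ShghL.TT_le_T_sum K
    rw [← hσ'] at hTK
    have hTM := two_T M
    have hTM' : M * (M + 1) = w + M := by rw [hw]; ring
    have hdd : (6 * M + 3) * (38 * w) ≤ d * d := by
      calc (6 * M + 3) * (38 * w) ≤ (6 * M + 3) * (a * d) := Nat.mul_le_mul_left _ h2
        _ = ((6 * M + 3) * a) * d := by ring
        _ ≤ d * d := Nat.mul_le_mul_right _ h1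
    refine core_G F d a M 19 ((23 * w + 1) / 2) (6 * w) ((23 * w + 1) / 2) K S hM hS ha
      h1 (by norm_num) (by rw [← hw]; omega) le_rfl (by rw [← hw]; omega)
      (by rw [← hw]; omega) (by rw [← hw]; omega) ?_ ?_ ?_
    · obtain ⟨j, hj⟩ : ∃ j, d - (3 * M + 1) * a + 1 = σ + j :=
        ⟨d - (3 * M + 1) * a + 1 - σ, by omega⟩
      have e1 := ShghL.T_add_le σ j
      have e2 := two_T j
      have e3 : d + 4 ≤ 4 * j := by omega
      have e4 : (d + 4) * (d + 4) ≤ (4 * j) * (4 * j) := Nat.mul_le_mul e3 e3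
      have e5 : (4 * j) * (4 * j) = 16 * (j * j) := by ring
      have e6 : j * (j + 1) = j * j + j := by ring
      have e7 : (d + 4) * (d + 4) = d * d + 8 * d + 16 := by ring
      have e8 : 368 * w + 16 ≤ d * d + 12 * d + 32 := by
        rcases Nat.lt_or_ge M 2 with h | h
        · have hM1 : M = 1 := by omega
          have hw1 : w = 1 := by rw [hw, hM1]; norm_num
          rw [hM1, hw1] at hdd
          have : 19 ≤ d := by nlinarith
          rw [hw1]
          omega
        · have e9 : 15 * (38 * w) ≤ (6 * M + 3) * (38 * w) := Nat.mul_le_mul_right _ (by omega)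
          omega
      rw [hj]
      omega
    · intro e A hA he1 he2 h0
      have h8 := (winBaseD e (hF F e) (HC e) M K A (by omega) hA).1 h0
      rw [← hw] at h8
      omega
    · intro e A hA he1 he2 h0
      refine (winBaseD e (hF F e) (HC e) M K A (by omega) hA).2 ?_
      rw [← hwM]
      omega
  · refine hF_G_rel F d a M k K S hM hS ha h1 (by omega) ?_ ?_ ?_
    · rw [hd'']
      exact hk
    · rw [hd'']
      exact hK
    · rw [hd'']
      exact hroom

/-- LONG CURVES, mass condition (THEOREM U). -/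
theorem hF_long_U (F : Type u) [Field F] [CharZero F] (d a M d' : ℕ) (K S : Multiset ℕ)
    (hM : 1 ≤ M) (hSM : ∀ x ∈ S, x ≤ M) (ha : 1 ≤ a) (h1 : 650 * M * a ≤ d)
    (hd' : d' + 50 * M * a = d) (hK : RoomK F d d' M K)
    (hS : ∀ m ∈ S, 2 ≤ m → 1275 * (m : ℤ) ^ 2 ≤
      max (40 * |(T (d + 1) : ℤ) - TT (K + S)|) (3 * ((a : ℤ) * d)) +
        5 * TT (S.filter (fun j => j < m))) :
    hF F d (K + S) = T (d + 1) - TT (K + S) := by
  have hchar : ∀ d' : ℕ, ∀ n : ℕ, 1 ≤ n → n ≤ d' → (n : F) ≠ 0 :=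
    fun _ n hn _ => Nat.cast_ne_zero.2 (by omega)
  have e650 : 650 * M * a = 650 * (M * a) := by ring
  have e50 : 50 * M * a = 50 * (M * a) := by ring
  rw [e650] at h1
  rw [e50] at hd'
  have hd'' : d - 50 * (M * a) = d' := by omega
  refine core_U F (mStripU F) d a M K S hM hSM ha h1 ?_ ?_ ?_
  · rw [hd'']
    rcases hK with hσ | ⟨k, hk1, hK, hroom, hk⟩
    · exact (ShghL.TT_le_T_sum K).trans (ShghL.T_mono (by omega))
    · omega
  · intro e A x hA he1 he2 hx0 hm hx
    have e0 : d' ≤ e := by omega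
    rcases hK with hσ | ⟨k, hk1, hK, hroom, hk⟩
    · exact yBaseD e (hF F e) (hfunD_hF F e (hchar e)) K A x (by omega) hx0 hm hx
    · refine mass_cond (h := hF F) (k := k) (hFD F e (hchar e)) (mulFun_hF F e (hchar e))
        (hFB F e (hchar e) e le_rfl) (indep_up F _ e e0 (hchar e) K hK) (room_up e0 hroom)
        hk1 hM ?_ hA hx0 (fun m hm' h2 => ?_) hx
      · rcases hk with hk | ⟨b, hb, hb1, hb2⟩
        · refine Or.inl (le_trans ?_ hk)
          exact Nat.mul_le_mul_left _ he2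
        · refine Or.inr ⟨b, hb, by omega, le_trans ?_ hb2⟩
          exact Nat.mul_le_mul_left _ (by omega)
      · have e1 := hm m hm' h2
        change _ ≤ _ + (rr A m : ℝ)
        nlinarith [sq_nonneg (m : ℝ)]
  · intro m hm h2
    have h3 := hS m hm h2
    have h4 : (1275 : ℝ) * (m : ℝ) ^ 2 ≤
        max (40 * |(T (d + 1) : ℝ) - TT (K + S)|) (3 * ((a : ℝ) * d)) +
          5 * TT (S.filter (fun j => j < m)) := by exact_mod_cast h3
    have h5 : max (40 * |(T (d + 1) : ℝ) - TT (K + S)|) (3 * ((a : ℝ) * d)) =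
        5 * max (8 * |(T (d + 1) : ℝ) - TT (K + S)|) (3 / 5 * ((a : ℝ) * d)) := by
      rw [mul_max_of_nonneg _ _ (by norm_num : (0 : ℝ) ≤ 5)]
      congr 1
      · ring
      · ring
    rw [h5] at h4
    change _ ≤ _ + (rr S m : ℝ)
    have h6 : (rr S m : ℝ) = TT (S.filter (fun j => j < m)) := rfl
    rw [h6]
    linarith

end ShghI
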