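import Pool.Agent.ShghI.Dens1
import Mathlib.Algebra.BigOperators.Fin
import Mathlib.Data.Nat.Find

/-!
# Counting ordered multiplicity vectors: growth
-/

namespace ShghI

open ShghJ

/-- `Σ T(m_i)`. -/
def sT {n : ℕ} (m : Fin n → ℕ) : ℕ := ∑ i, T (m i)

/-- The ordered vectors with `Σ T(m_i) ≤ R`. -/
def BB (n R : ℕ) : Finset (Fin n → ℕ) :=
  (Fintype.piFinset fun _ : Fin n => Finset.range (R + 1)).filter (fun m => sT m ≤ R)

theorem T_le_sT {n : ℕ} (m : Fin n → ℕ) (i : Fin n) : T (m i) ≤ sT m :=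
  Finset.single_le_sum (f := fun i => T (m i)) (fun _ _ => Nat.zero_le _) (Finset.mem_univ i)

theorem mem_BB {n R : ℕ} {m : Fin n → ℕ} : m ∈ BB n R ↔ sT m ≤ R := by
  unfold BB
  rw [Finset.mem_filter, Fintype.mem_piFinset]
  refine ⟨fun h => h.2, fun h => ⟨fun i => ?_, h⟩⟩
  rw [Finset.mem_range]
  have := (le_T (m i)).trans (T_le_sT m i)
  omega

theorem BB_mono {n R R' : ℕ} (h : R ≤ R') : BB n R ⊆ BB n R' := fun m hm =>
  mem_BB.2 ((mem_BB.1 hm).trans h)

/-- The number of `j` with `T j ≤ x`. -/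
def JJ (x : ℕ) : ℕ := Nat.findGreatest (fun j => T j ≤ x) x + 1

theorem lt_JJ {x j : ℕ} : j < JJ x ↔ T j ≤ x := by
  unfold JJ
  rw [Nat.lt_succ_iff]
  constructor
  · intro h
    have h1 : T (Nat.findGreatest (fun j => T j ≤ x) x) ≤ x :=
      Nat.findGreatest_spec (P := fun j => T j ≤ x) (Nat.zero_le x) (by simp [T])
    exact (ShghL.T_mono h).trans h1
  · intro h
    exact Nat.le_findGreatest ((le_T j).trans h) h

/-- Sums over the first coordinate. -/
theorem sum_BB_succ (n R : ℕ) (g : ℕ → ℕ) :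
    ∑ m ∈ BB (n + 1) R, g (m 0) = ∑ m ∈ BB n R, ∑ j ∈ Finset.range (JJ (R - sT m)), g j := by
  rw [Finset.sum_sigma']
  refine Finset.sum_bij' (fun m _ => ⟨fun i => m i.succ, m 0⟩)
    (fun q _ => (Fin.cons q.2 q.1 : Fin (n + 1) → ℕ)) ?_ ?_ ?_ ?_ ?_
  · intro m hm
    rw [mem_BB, sT, Fin.sum_univ_succ] at hm
    rw [Finset.mem_sigma, mem_BB, Finset.mem_range, lt_JJ]
    have h1 : sT (fun i => m i.succ) = ∑ i : Fin n, T (m i.succ) := rfl
    show sT (fun i => m i.succ) ≤ R ∧ T (m 0) ≤ R - sT (fun i => m i.succ)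
    omega
  · rintro ⟨m, j⟩ hq
    rw [Finset.mem_sigma, mem_BB, Finset.mem_range, lt_JJ] at hq
    rw [mem_BB, sT, Fin.sum_univ_succ]
    have h1 : sT m = ∑ i : Fin n, T (m i) := rfl
    obtain ⟨h2, h3⟩ := hq
    have h2' : sT m ≤ R := h2
    have h3' : T j ≤ R - sT m := h3
    simp only [Fin.cons_zero, Fin.cons_succ]
    omega
  · intro m hm
    ext i
    refine Fin.cases ?_ (fun i => ?_) i <;> simp
  · rintro ⟨m, j⟩ hq
    simp
  · intro m hm
    rfl

theorem card_BB_succ (n R : ℕ) : (BB (n + 1) R).card = ∑ m ∈ BB n R, JJ (R - sT m) := by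
  have h := sum_BB_succ n R (fun _ => 1)
  simpa using h

/-- The mean of `T(m_0)`. -/
theorem mean_BB (n R : ℕ) : (n + 1) * ∑ m ∈ BB (n + 1) R, T (m 0) ≤ R * (BB (n + 1) R).card := by
  have h1 : ∀ i : Fin (n + 1), ∑ m ∈ BB (n + 1) R, T (m i) = ∑ m ∈ BB (n + 1) R, T (m 0) := by
    intro i
    refine Finset.sum_bij' (fun m _ => m ∘ Equiv.swap 0 i) (fun m _ => m ∘ Equiv.swap 0 i)
      ?_ ?_ ?_ ?_ ?_
    · intro m hm
      rw [mem_BB] at hm ⊢
      refine le_trans (le_of_eq ?_) hm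
      exact Equiv.sum_comp (Equiv.swap 0 i) (fun i => T (m i))
    · intro m hm
      rw [mem_BB] at hm ⊢
      refine le_trans (le_of_eq ?_) hm
      exact Equiv.sum_comp (Equiv.swap 0 i) (fun i => T (m i))
    · intro m _
      ext x
      simp
    · intro m _
      ext x
      simp
    · intro m _
      simp
  calc (n + 1) * ∑ m ∈ BB (n + 1) R, T (m 0)
      = ∑ i : Fin (n + 1), ∑ m ∈ BB (n + 1) R, T (m i) := by
        rw [Finset.sum_congr rfl fun i _ => h1 i, Finset.sum_const, Finset.card_univ,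
          Fintype.card_fin, smul_eq_mul]
    _ = ∑ m ∈ BB (n + 1) R, sT m := by
        rw [Finset.sum_comm]
        rfl
    _ ≤ ∑ _m ∈ BB (n + 1) R, R := Finset.sum_le_sum fun m hm => mem_BB.1 hm
    _ = R * (BB (n + 1) R).card := by rw [Finset.sum_const, smul_eq_mul, mul_comm]

theorem sum_T_range (J : ℕ) : 6 * ∑ j ∈ Finset.range J, T j + J = J ^ 3 := by
  induction J with
  | zero => simp
  | succ J ih =>
    rw [Finset.sum_range_succ]
    have h := two_T J
    have e : (J + 1) ^ 3 = J ^ 3 + 3 * (J * (J + 1)) + 1 := by ring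
    rw [e, ← h]
    omega

theorem JJ_mono {x y : ℕ} (h : x ≤ y) : JJ x ≤ JJ y := by
  by_contra h1
  have h2 : JJ y < JJ x := by omega
  have h3 := (lt_JJ.1 h2).trans h
  have h4 := lt_JJ.2 h3
  omega

theorem JJ_pos (x : ℕ) : 1 ≤ JJ x := by unfold JJ; omega

theorem JJ_double {x q : ℕ} (hq : 1 ≤ q) (h : JJ x ^ 2 ≤ 12 * q + 1) :
    2 * JJ x ≤ JJ (x + 26 * q) := by
  have h0 := JJ_pos x
  obtain ⟨j, hj⟩ : ∃ j, JJ x = j + 1 := ⟨JJ x - 1, by omega⟩
  have h1 : T (2 * j + 1) ≤ x + 26 * q := by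
    have h2 := two_T (2 * j + 1)
    rw [hj] at h
    nlinarith
  have h2 := lt_JJ.2 h1
  omega

/-- GROWTH. -/
theorem growth (n R q : ℕ) (hq : 1 ≤ q) (hR : R ≤ (n + 1) * q) :
    3 * (BB (n + 1) R).card ≤ 2 * (BB (n + 1) (R + 26 * q)).card := by
  set S1 := ∑ m ∈ BB n R, JJ (R - sT m) with hS1
  have e1 : (BB (n + 1) R).card = S1 := card_BB_succ n R
  have e2 : ∑ m ∈ BB n R, JJ (R - sT m + 26 * q) ≤ (BB (n + 1) (R + 26 * q)).card := by
    rw [card_BB_succ]
    calc ∑ m ∈ BB n R, JJ (R - sT m + 26 * q) ≤ ∑ m ∈ BB n R, JJ (R + 26 * q - sT m) := by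
          refine Finset.sum_le_sum fun m hm => JJ_mono ?_
          have := mem_BB.1 hm
          omega
      _ ≤ ∑ m ∈ BB n (R + 26 * q), JJ (R + 26 * q - sT m) :=
          Finset.sum_le_sum_of_subset (BB_mono (by omega))
  -- the mean
  have h1 := mean_BB n R
  rw [sum_BB_succ, e1] at h1
  set S3 := ∑ m ∈ BB n R, JJ (R - sT m) ^ 3 with hS3
  have h2 : 6 * ∑ m ∈ BB n R, ∑ j ∈ Finset.range (JJ (R - sT m)), T j + S1 = S3 := by
    rw [hS1, hS3, Finset.mul_sum, ← Finset.sum_add_distrib]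
    exact Finset.sum_congr rfl fun m _ => sum_T_range _
  have h3 : S3 ≤ 6 * q * S1 + S1 := by
    set X := ∑ m ∈ BB n R, ∑ j ∈ Finset.range (JJ (R - sT m)), T j with hX
    have h4 : (n + 1) * X ≤ (n + 1) * (q * S1) := by
      calc (n + 1) * X ≤ R * S1 := h1
        _ ≤ ((n + 1) * q) * S1 := Nat.mul_le_mul_right _ hR
        _ = (n + 1) * (q * S1) := by ring
    have h5 : X ≤ q * S1 := Nat.le_of_mul_le_mul_left h4 (by omega)
    have e : 6 * q * S1 = 6 * (q * S1) := by ring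
    omega
  -- pointwise
  have h4 : ∀ m ∈ BB n R, 48 * q * JJ (R - sT m) + 2 * JJ (R - sT m) ≤
      24 * q * JJ (R - sT m + 26 * q) + 2 * JJ (R - sT m) ^ 3 := by
    intro m _
    set J := JJ (R - sT m) with hJ
    rcases Nat.lt_or_ge (12 * q + 1) (J ^ 2) with h | h
    · have h5 : J ≤ JJ (R - sT m + 26 * q) := JJ_mono (by omega)
      have h6 : 24 * q * J ≤ 24 * q * JJ (R - sT m + 26 * q) := Nat.mul_le_mul_left _ h5
      have h7 : (12 * q + 1) * J ≤ J ^ 2 * J := Nat.mul_le_mul_right _ h.le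
      have e : J ^ 2 * J = J ^ 3 := by ring
      have e' : (12 * q + 1) * J = 12 * q * J + J := by ring
      have e3 : 48 * q * J = 4 * (12 * q * J) := by ring
      have e4 : 24 * q * J = 2 * (12 * q * J) := by ring
      omega
    · have h5 := JJ_double hq h
      have h6 : 24 * q * (2 * J) ≤ 24 * q * JJ (R - sT m + 26 * q) := Nat.mul_le_mul_left _ h5
      have h7 : J ≤ J ^ 3 := by
        rcases Nat.eq_zero_or_pos J with h | h
        · rw [h]; simp
        · exact Nat.le_self_pow (by norm_num) J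
      have e : 24 * q * (2 * J) = 48 * q * J := by ring
      omega
  have h5 := Finset.sum_le_sum h4
  rw [Finset.sum_add_distrib, Finset.sum_add_distrib, ← Finset.mul_sum, ← Finset.mul_sum,
    ← Finset.mul_sum, ← Finset.mul_sum] at h5
  -- `48 q S1 + 2 S1 ≤ 24 q S2 + 2 S3`
  have h6 : 12 * q * (3 * S1) ≤ 12 * q * (2 * ∑ m ∈ BB n R, JJ (R - sT m + 26 * q)) := by
    set S2 := ∑ m ∈ BB n R, JJ (R - sT m + 26 * q) with hS2
    have e3 : 12 * q * (3 * S1) = 36 * (q * S1) := by ring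
    have e4 : 12 * q * (2 * S2) = 24 * (q * S2) := by ring
    have e5 : 48 * q * S1 = 48 * (q * S1) := by ring
    have e6 : 24 * q * S2 = 24 * (q * S2) := by ring
    have e7 : 6 * q * S1 = 6 * (q * S1) := by ring
    rw [e3, e4]
    rw [e5, e6] at h5
    rw [e7] at h3
    omega
  have h7 := Nat.le_of_mul_le_mul_left h6 (by omega)
  rw [e1]
  omega

/-- The iterated growth. -/
theorem growth_iter (n N q : ℕ) (hq : 1 ≤ q) (hN : N ≤ (n + 1) * q) (i : ℕ) :
    ∀ R, R + 26 * q * i ≤ N → 3 ^ i * (BB (n + 1) R).card ≤ 2 ^ i * (BB (n + 1) N).card := by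
  induction i with
  | zero =>
    intro R hR
    have := Finset.card_le_card (BB_mono (n := n + 1) (show R ≤ N by omega))
    simpa using this
  | succ i ih =>
    intro R hR
    have e : 26 * q * (i + 1) = 26 * q * i + 26 * q := by ring
    have h1 := growth n R q hq (by omega)
    have h2 := ih (R + 26 * q) (by omega)
    calc 3 ^ (i + 1) * (BB (n + 1) R).card = 3 ^ i * (3 * (BB (n + 1) R).card) := by ring
      _ ≤ 3 ^ i * (2 * (BB (n + 1) (R + 26 * q)).card) := Nat.mul_le_mul_left _ h1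
      _ = 2 * (3 ^ i * (BB (n + 1) (R + 26 * q)).card) := by ring
      _ ≤ 2 * (2 ^ i * (BB (n + 1) N).card) := Nat.mul_le_mul_left _ h2
      _ = 2 ^ (i + 1) * (BB (n + 1) N).card := by ring

end ShghI
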