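import Pool.Agent.ShghI.Ord1

/-!
# Counting ordered multiplicity vectors: large multiplicities are rare
-/

namespace ShghI

open ShghJ

theorem card_zero_le (n R : ℕ) : (BB n R).card ≤ (BB (n + 1) R).card := by
  refine Finset.card_le_card_of_injOn (fun m => (Fin.cons 0 m : Fin (n + 1) → ℕ)) ?_ ?_
  · intro m hm
    rw [Finset.mem_coe, mem_BB] at hm ⊢
    show sT (Fin.cons 0 m : Fin (n + 1) → ℕ) ≤ R
    rw [sT, Fin.sum_univ_succ]
    simp only [Fin.cons_zero, Fin.cons_succ]
    have h1 : sT m = ∑ i : Fin n, T (m i) := rfl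
    have h2 : T 0 = 0 := rfl
    omega
  · intro m _ m' _ h
    exact Fin.cons_right_injective (α := fun _ => ℕ) 0 h

theorem card_first (n N j : ℕ) (hj : T j ≤ N) :
    ((BB (n + 1) N).filter (fun m => m 0 = j)).card ≤ (BB n (N - T j)).card := by
  refine Finset.card_le_card_of_injOn (fun m i => m i.succ) ?_ ?_
  · intro m hm
    rw [Finset.mem_coe, Finset.mem_filter, mem_BB, sT, Fin.sum_univ_succ] at hm
    rw [Finset.mem_coe, mem_BB]
    obtain ⟨h1, h2⟩ := hm
    rw [h2] at h1
    show ∑ i : Fin n, T (m i.succ) ≤ N - T j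
    omega
  · intro m hm m' hm' h
    rw [Finset.mem_coe, Finset.mem_filter] at hm hm'
    ext i
    refine Fin.cases ?_ (fun i => ?_) i
    · rw [hm.2, hm'.2]
    · exact congrFun h i

theorem card_coord (n N a : ℕ) (l : Fin (n + 1)) :
    ((BB (n + 1) N).filter (fun m => a < m l)).card =
      ((BB (n + 1) N).filter (fun m => a < m 0)).card := by
  refine Finset.card_bij' (fun m _ => m ∘ Equiv.swap 0 l) (fun m _ => m ∘ Equiv.swap 0 l)
    ?_ ?_ ?_ ?_
  · intro m hm
    rw [Finset.mem_filter, mem_BB] at hm ⊢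
    refine ⟨le_trans (le_of_eq ?_) hm.1, ?_⟩
    · exact Equiv.sum_comp (Equiv.swap 0 l) (fun i => T (m i))
    · simpa using hm.2
  · intro m hm
    rw [Finset.mem_filter, mem_BB] at hm ⊢
    refine ⟨le_trans (le_of_eq ?_) hm.1, ?_⟩
    · exact Equiv.sum_comp (Equiv.swap 0 l) (fun i => T (m i))
    · simpa using hm.2
  · intro m _
    ext x
    simp
  · intro m _
    ext x
    simp

/-- TAIL. -/
theorem tail_card (n N q a i : ℕ) (hq : 1 ≤ q) (hN : N ≤ (n + 1) * q) (ha : 26 * q * i ≤ T (a + 1)) :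
    3 ^ i * ((BB (n + 2) N).filter (fun m => ∃ l, a < m l)).card ≤
      (n + 2) * N * (2 ^ i * (BB (n + 2) N).card) := by
  classical
  have h1 : ((BB (n + 2) N).filter (fun m => ∃ l, a < m l)).card ≤
      (n + 2) * ((BB (n + 2) N).filter (fun m => a < m 0)).card := by
    calc ((BB (n + 2) N).filter (fun m => ∃ l, a < m l)).card
        ≤ (Finset.univ.biUnion fun l => (BB (n + 2) N).filter (fun m => a < m l)).card := by
          refine Finset.card_le_card fun m hm => ?_
          rw [Finset.mem_filter] at hm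
          obtain ⟨h1, l, h2⟩ := hm
          exact Finset.mem_biUnion.2 ⟨l, Finset.mem_univ l, Finset.mem_filter.2 ⟨h1, h2⟩⟩
      _ ≤ ∑ l : Fin (n + 2), ((BB (n + 2) N).filter (fun m => a < m l)).card :=
          Finset.card_biUnion_le
      _ = (n + 2) * ((BB (n + 2) N).filter (fun m => a < m 0)).card := by
          rw [Finset.sum_congr rfl fun l _ => card_coord (n + 1) N a l, Finset.sum_const,
            Finset.card_univ, Fintype.card_fin, smul_eq_mul]
  have h2 : 3 ^ i * ((BB (n + 2) N).filter (fun m => a < m 0)).card ≤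
      N * (2 ^ i * (BB (n + 2) N).card) := by
    set J := (Finset.Ioc a N).filter (fun j => T j ≤ N) with hJ
    have h3 : ((BB (n + 2) N).filter (fun m => a < m 0)).card ≤
        ∑ j ∈ J, ((BB (n + 2) N).filter (fun m => m 0 = j)).card := by
      refine le_trans (Finset.card_le_card fun m hm => ?_) Finset.card_biUnion_le
      rw [Finset.mem_filter, mem_BB] at hm
      obtain ⟨h4, h5⟩ := hm
      have h6 : T (m 0) ≤ N := (T_le_sT m 0).trans h4
      have h7 := (le_T (m 0)).trans h6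
      exact Finset.mem_biUnion.2 ⟨m 0, Finset.mem_filter.2 ⟨Finset.mem_Ioc.2 ⟨h5, h7⟩, h6⟩,
        Finset.mem_filter.2 ⟨mem_BB.2 h4, rfl⟩⟩
    have h4 : ∀ j ∈ J, 3 ^ i * ((BB (n + 2) N).filter (fun m => m 0 = j)).card ≤
        2 ^ i * (BB (n + 2) N).card := by
      intro j hj
      rw [hJ, Finset.mem_filter, Finset.mem_Ioc] at hj
      obtain ⟨⟨h5, h6⟩, h7⟩ := hj
      have h8 : T (a + 1) ≤ T j := ShghL.T_mono h5
      calc 3 ^ i * ((BB (n + 2) N).filter (fun m => m 0 = j)).card
          ≤ 3 ^ i * (BB (n + 1) (N - T j)).card := Nat.mul_le_mul_left _ (card_first _ _ _ h7)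
        _ ≤ 2 ^ i * (BB (n + 1) N).card := growth_iter n N q hq hN i _ (by omega)
        _ ≤ 2 ^ i * (BB (n + 2) N).card := Nat.mul_le_mul_left _ (card_zero_le _ _)
    calc 3 ^ i * ((BB (n + 2) N).filter (fun m => a < m 0)).card
        ≤ 3 ^ i * ∑ j ∈ J, ((BB (n + 2) N).filter (fun m => m 0 = j)).card :=
          Nat.mul_le_mul_left _ h3
      _ = ∑ j ∈ J, 3 ^ i * ((BB (n + 2) N).filter (fun m => m 0 = j)).card := by
          rw [Finset.mul_sum]
      _ ≤ ∑ _j ∈ J, 2 ^ i * (BB (n + 2) N).card := Finset.sum_le_sum h4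
      _ = J.card * (2 ^ i * (BB (n + 2) N).card) := by rw [Finset.sum_const, smul_eq_mul]
      _ ≤ N * (2 ^ i * (BB (n + 2) N).card) := by
          refine Nat.mul_le_mul_right _ ?_
          calc J.card ≤ (Finset.Ioc a N).card := Finset.card_le_card (Finset.filter_subset _ _)
            _ = N - a := Nat.card_Ioc a N
            _ ≤ N := Nat.sub_le _ _
  calc 3 ^ i * ((BB (n + 2) N).filter (fun m => ∃ l, a < m l)).card
      ≤ 3 ^ i * ((n + 2) * ((BB (n + 2) N).filter (fun m => a < m 0)).card) :=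
        Nat.mul_le_mul_left _ h1
    _ = (n + 2) * (3 ^ i * ((BB (n + 2) N).filter (fun m => a < m 0)).card) := by ring
    _ ≤ (n + 2) * (N * (2 ^ i * (BB (n + 2) N).card)) := Nat.mul_le_mul_left _ h2
    _ = _ := by ring

/-- SMALL SUM. -/
theorem small_card (n N q i : ℕ) (hq : 1 ≤ q) (hN : N ≤ (n + 1) * q) (hi : 52 * q * i ≤ N) :
    3 ^ i * ((BB (n + 1) N).filter (fun m => 2 * sT m ≤ N)).card ≤ 2 ^ i * (BB (n + 1) N).card := by
  have h1 : (BB (n + 1) N).filter (fun m => 2 * sT m ≤ N) ⊆ BB (n + 1) (N / 2) := by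
    intro m hm
    rw [Finset.mem_filter] at hm
    rw [mem_BB]
    omega
  have e : 52 * q * i = 2 * (26 * q * i) := by ring
  exact (Nat.mul_le_mul_left _ (Finset.card_le_card h1)).trans
    (growth_iter n N q hq hN i _ (by omega))

end ShghI
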