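import Pool.Agent.ShghI.Ord2
import Mathlib.Analysis.SpecialFunctions.Log.Basic
import Mathlib.Analysis.SpecialFunctions.Pow.Real
import Mathlib.Analysis.Complex.ExponentialBounds

/-!
# Counting ordered multiplicity vectors: the numerical part
-/

namespace ShghI

open ShghJ

/-- The choice of the bound `a` of the multiplicities. -/
theorem choose_a (N : ℕ) (hN : 288 ≤ N) :
    ∃ a : ℕ, 1 ≤ a ∧ 288 * a ^ 3 ≤ N ∧ N < 288 * (a + 1) ^ 3 := by
  have h0 : 288 * 1 ^ 3 ≤ N := by simpa using hN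
  have h0' : 1 ≤ N := by omega
  have ha1 : 1 ≤ Nat.findGreatest (fun a => 288 * a ^ 3 ≤ N) N := Nat.le_findGreatest h0' h0
  have ha2 : 288 * (Nat.findGreatest (fun a => 288 * a ^ 3 ≤ N) N) ^ 3 ≤ N :=
    Nat.findGreatest_spec (P := fun a => 288 * a ^ 3 ≤ N) (m := 1) h0' h0
  generalize hg : Nat.findGreatest (fun a => 288 * a ^ 3 ≤ N) N = a at ha1 ha2
  refine ⟨a, ha1, ha2, ?_⟩
  by_contra h
  have h3 : 288 * (a + 1) ^ 3 ≤ N := by omega
  have h4 : a + 1 ≤ N := by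
    have : a + 1 ≤ (a + 1) ^ 3 := Nat.le_self_pow (by norm_num) _
    omega
  have h5 : a + 1 ≤ Nat.findGreatest (fun a => 288 * a ^ 3 ≤ N) N := Nat.le_findGreatest h4 h3
  omega

/-- The choice of `q`. -/
theorem choose_q (n N : ℕ) : ∃ q : ℕ, 1 ≤ q ∧ N ≤ (n + 1) * q ∧
    (q : ℝ) ≤ 2 * N / ((n + 2 : ℕ) : ℝ) + 1 := by
  refine ⟨N / (n + 1) + 1, Nat.le_add_left 1 _, ?_, ?_⟩
  · have h3 := Nat.div_add_mod N (n + 1)
    have h4 := Nat.mod_lt N (show 0 < n + 1 by omega)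
    have e : (n + 1) * (N / (n + 1) + 1) = (n + 1) * (N / (n + 1)) + (n + 1) := by ring
    omega
  · have h3 : ((N / (n + 1) : ℕ) : ℝ) ≤ (N : ℝ) / ((n + 1 : ℕ) : ℝ) := Nat.cast_div_le
    have h4 : (N : ℝ) / ((n + 1 : ℕ) : ℝ) ≤ 2 * N / ((n + 2 : ℕ) : ℝ) := by
      rw [div_le_div_iff₀ (by positivity) (by positivity)]
      have h5 : (0 : ℝ) ≤ N := Nat.cast_nonneg _
      have h6 : (0 : ℝ) ≤ n := Nat.cast_nonneg _
      push_cast
      nlinarith [mul_nonneg h5 h6]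
    rw [Nat.cast_add, Nat.cast_one]
    linarith

/-- Powers of `3 / 2`. -/
theorem pow_bound (s : ℝ) (hs : 2 ≤ s) (i : ℕ) (hi : 15 * Real.log s ≤ i) :
    2 * s ^ 5 ≤ (3 / 2 : ℝ) ^ i := by
  have hlog : (2 : ℝ) / 5 ≤ Real.log (3 / 2) := by
    rw [Real.le_log_iff_exp_le (by norm_num)]
    have h3 := Real.exp_bound' (show (0 : ℝ) ≤ 2 / 5 by norm_num) (by norm_num) (n := 4)
      (by norm_num)
    refine h3.trans ?_
    norm_num [Finset.sum_range_succ, Nat.factorial]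
  have hl : 0 ≤ Real.log s := Real.log_nonneg (by linarith)
  have h3 : s = Real.exp (Real.log s) := (Real.exp_log (by linarith)).symm
  have h4 : (3 / 2 : ℝ) ^ i = Real.exp (i * Real.log (3 / 2)) := by
    rw [Real.exp_nat_mul, Real.exp_log (by norm_num)]
  have h5 : 2 * s ^ 5 ≤ s ^ 6 := by
    have h6 : (0 : ℝ) ≤ s ^ 5 := by positivity
    have h7 : s ^ 6 = s * s ^ 5 := by ring
    rw [h7]
    exact mul_le_mul_of_nonneg_right hs h6
  refine h5.trans ?_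
  rw [h4]
  conv_lhs => rw [h3]
  rw [← Real.exp_nat_mul]
  refine Real.exp_le_exp.2 ?_
  have h6 : (i : ℝ) * (2 / 5) ≤ i * Real.log (3 / 2) :=
    mul_le_mul_of_nonneg_left hlog (Nat.cast_nonneg _)
  have h7 : (((6 : ℕ) : ℝ)) * Real.log s ≤ (i : ℝ) * (2 / 5) := by
    push_cast
    linarith
  exact h7.trans h6

/-- The real numbers. -/
theorem real_part (s N t b q i ℓ : ℝ) (hs : 2 ≤ s) (hℓ : 0.69 ≤ ℓ) (ht0 : 0 ≤ t) (ht3 : t ^ 3 = N)
    (h1 : (200000 * ℓ) ^ 2 ≤ N) (h2 : N ≤ (s / (200000 * ℓ)) ^ 3)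
    (hb0 : 0 ≤ b) (hb : N < 288 * b ^ 3) (hi0 : 0 ≤ i) (hi2 : i ≤ 17 * ℓ)
    (hq : q ≤ 2 * N / s + 1) :
    52 * (q * i) ≤ b ^ 2 ∧ 52 * (q * i) ≤ N ∧ N ≤ s ^ 3 := by
  obtain ⟨c, hc⟩ : ∃ c, c = 200000 * ℓ := ⟨_, rfl⟩
  rw [← hc] at h1 h2
  have hc5 : (138000 : ℝ) ≤ c := by rw [hc]; linarith
  have hc0 : 0 < c := by linarith
  have hs0 : 0 < s := by linarith
  have hts : c * t ≤ s := by
    have h3 : t ^ 3 ≤ (s / c) ^ 3 := by rw [ht3]; exact h2
    have h4 : t ≤ s / c := by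
      by_contra h
      have := pow_lt_pow_left₀ (not_le.1 h) (by positivity) (show (3 : ℕ) ≠ 0 by norm_num)
      linarith
    rw [le_div_iff₀ hc0] at h4
    linarith
  have ht2n : 0 ≤ t ^ 2 := by positivity
  have hNs : N * c ≤ s * t ^ 2 := by
    rw [← ht3]
    have e : t ^ 3 * c = (c * t) * t ^ 2 := by ring
    rw [e]
    exact mul_le_mul_of_nonneg_right hts ht2n
  have htc : c ^ 2 ≤ t ^ 3 := by rw [ht3]; exact h1
  have ht51 : 50 ≤ t := by
    by_contra h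
    have h3 : t < 50 := not_le.1 h
    have h4 : t ^ 3 ≤ 50 ^ 3 := pow_le_pow_left₀ ht0 h3.le 3
    have h5 : (138000 : ℝ) ^ 2 ≤ c ^ 2 := pow_le_pow_left₀ (by norm_num) hc5 2
    norm_num at h4 h5
    linarith
  have ht2 : 50 * c ≤ t ^ 2 := by
    by_contra h
    have h3 : t ^ 2 < 50 * c := not_le.1 h
    have h6 : t ^ 3 ≤ 50 * c * t := by
      have e : t ^ 3 = t ^ 2 * t := by ring
      rw [e]
      exact mul_le_mul_of_nonneg_right h3.le ht0
    have h7 : c * c ≤ 50 * t * c := by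
      have e : c * c = c ^ 2 := by ring
      have e' : 50 * t * c = 50 * c * t := by ring
      rw [e, e']
      exact htc.trans h6
    have h8 : c ≤ 50 * t := le_of_mul_le_mul_right h7 hc0
    have h9 : t * t < 2500 * t := by nlinarith
    have h10 : t < 2500 := lt_of_mul_lt_mul_right h9 ht0
    linarith
  have hb1 : t ≤ 6.61 * b := by
    by_contra h
    have h3 : 6.61 * b < t := not_le.1 h
    have h4 := pow_lt_pow_left₀ h3 (by positivity) (show (3 : ℕ) ≠ 0 by norm_num)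
    have h6 : (6.61 * b) ^ 3 = 288.804781 * b ^ 3 := by ring
    have h7 : (0 : ℝ) ≤ b ^ 3 := by positivity
    rw [ht3, h6] at h4
    linarith
  have hb2 : t ^ 2 ≤ 43.7 * b ^ 2 := by
    have h3 : t ^ 2 ≤ (6.61 * b) ^ 2 := pow_le_pow_left₀ ht0 hb1 2
    have h4 : (6.61 * b) ^ 2 = 43.6921 * b ^ 2 := by ring
    have h5 : 0 ≤ b ^ 2 := by positivity
    rw [h4] at h3
    linarith
  have hN0 : 0 ≤ N := by rw [← ht3]; positivity
  have hqi : q * i ≤ 17 * ℓ * (2 * N / s + 1) := by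
    have h4 : (0 : ℝ) ≤ 2 * N / s + 1 := by positivity
    calc q * i ≤ (2 * N / s + 1) * (17 * ℓ) := mul_le_mul hq hi2 hi0 h4
      _ = _ := by ring
  have hqi2 : q * i ≤ t ^ 2 / 2400 := by
    refine hqi.trans ?_
    have h3 : ℓ * (2 * N / s) ≤ 2 * t ^ 2 / 200000 := by
      rw [mul_div_assoc', div_le_div_iff₀ hs0 (by norm_num)]
      have e : ℓ * (2 * N) * 200000 = 2 * (N * c) := by rw [hc]; ring
      have e' : 2 * t ^ 2 * s = 2 * (s * t ^ 2) := by ring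
      rw [e, e']
      linarith
    have h4 : ℓ ≤ t ^ 2 / 10000000 := by
      rw [hc] at ht2
      linarith
    have h6 : 17 * ℓ * (2 * N / s + 1) = 17 * (ℓ * (2 * N / s)) + 17 * ℓ := by ring
    rw [h6]
    linarith
  have h52 : 52 * (q * i) ≤ 52 * (t ^ 2 / 2400) := by linarith
  refine ⟨?_, ?_, ?_⟩
  · have h5 : 0 ≤ b ^ 2 := by positivity
    linarith
  · have h6 : t ^ 2 ≤ t ^ 3 := by
      have e : t ^ 3 = t * t ^ 2 := by ring
      rw [e]
      exact le_mul_of_one_le_left ht2n (by linarith)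
    rw [← ht3]
    linarith
  · rw [← ht3]
    refine pow_le_pow_left₀ ht0 ?_ 3
    have : 1 * t ≤ c * t := mul_le_mul_of_nonneg_right (by linarith) ht0
    linarith

/-- From the estimates to the proportions. -/
theorem prop_part (s N P X1 X2 : ℝ) (i : ℕ) (hs : 2 ≤ s) (hP : 0 ≤ P) (h1 : 0 ≤ X1) (h2 : 0 ≤ X2)
    (hN : N ≤ s ^ 3) (hpow : 2 * s ^ 5 ≤ (3 / 2 : ℝ) ^ i)
    (e1 : (3 : ℝ) ^ i * X1 ≤ s * N * (2 ^ i * P)) (e2 : (3 : ℝ) ^ i * X2 ≤ 2 ^ i * P) :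
    s * (X1 + X2) ≤ P := by
  have hs0 : 0 < s := by linarith
  have p2 : (0 : ℝ) < 2 ^ i := by positivity
  have hdiv : ∀ X Y : ℝ, (3 : ℝ) ^ i * X ≤ Y * (2 ^ i * P) → (3 / 2 : ℝ) ^ i * X ≤ Y * P := by
    intro X Y h
    rw [div_pow, div_mul_eq_mul_div, div_le_iff₀ p2]
    calc (3 : ℝ) ^ i * X ≤ Y * (2 ^ i * P) := h
      _ = Y * P * 2 ^ i := by ring
  have f1 : 2 * s * X1 ≤ P := by
    have h4 := hdiv X1 (s * N) e1
    have h5 : 2 * s ^ 5 * X1 ≤ s * N * P := (mul_le_mul_of_nonneg_right hpow h1).trans h4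
    have h7 : s * N ≤ s ^ 4 := by
      have e : s ^ 4 = s * s ^ 3 := by ring
      rw [e]
      exact mul_le_mul_of_nonneg_left hN hs0.le
    have h6 : s * N * P ≤ s ^ 4 * P := mul_le_mul_of_nonneg_right h7 hP
    have h8 : s ^ 4 * (2 * s * X1) ≤ s ^ 4 * P := by
      calc s ^ 4 * (2 * s * X1) = 2 * s ^ 5 * X1 := by ring
        _ ≤ _ := h5.trans h6
    exact le_of_mul_le_mul_left h8 (by positivity)
  have f2 : 2 * s * X2 ≤ P := by
    have h4 := hdiv X2 1 (by rw [one_mul]; exact e2)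
    have h5 : s ≤ s ^ 5 := le_self_pow₀ (by linarith) (by norm_num)
    have h6 : 2 * s * X2 ≤ (3 / 2 : ℝ) ^ i * X2 := mul_le_mul_of_nonneg_right (by linarith) h2
    linarith
  have e : s * (X1 + X2) = (2 * s * X1 + 2 * s * X2) / 2 := by ring
  rw [e]
  linarith

/-- The combined estimate: all but a proportion `1 / s` of the vectors have `Σ T > N / 2` and
multiplicities at most `a`, where `288 a ^ 3 ≤ N`. -/
theorem ord_dens (s N : ℕ) (hs : 2 ≤ s) (h1 : (200000 * Real.log s) ^ 2 ≤ N)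
    (h2 : (N : ℝ) ≤ (s / (200000 * Real.log s)) ^ 3) :
    ∃ a : ℕ, 1 ≤ a ∧ 288 * a ^ 3 ≤ N ∧
      s * ((BB s N).filter (fun m => (∃ l, a < m l) ∨ 2 * sT m ≤ N)).card ≤ (BB s N).card := by
  classical
  have hs2 : (2 : ℝ) ≤ s := by exact_mod_cast hs
  have hℓ : 0.69 ≤ Real.log s := by
    have h3 : Real.log 2 ≤ Real.log s := Real.log_le_log (by norm_num) hs2
    have h4 := Real.log_two_gt_d9
    linarith
  have hN0 : (288 : ℝ) ≤ N := by nlinarith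
  obtain ⟨a, ha1, ha2, ha3⟩ := choose_a N (by exact_mod_cast hN0)
  refine ⟨a, ha1, ha2, ?_⟩
  obtain ⟨n, rfl⟩ : ∃ n, s = n + 2 := ⟨s - 2, by omega⟩
  obtain ⟨q, hq1, hqN, hqr⟩ := choose_q n N
  obtain ⟨i, hi1, hi2⟩ : ∃ i : ℕ, 15 * Real.log ((n + 2 : ℕ) : ℝ) ≤ i ∧
      (i : ℝ) ≤ 17 * Real.log ((n + 2 : ℕ) : ℝ) := by
    refine ⟨⌈15 * Real.log ((n + 2 : ℕ) : ℝ)⌉₊, Nat.le_ceil _, ?_⟩
    have := Nat.ceil_lt_add_one (show 0 ≤ 15 * Real.log ((n + 2 : ℕ) : ℝ) by linarith)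
    linarith
  have hpow := pow_bound _ hs2 i hi1
  obtain ⟨t, ht0, ht3⟩ : ∃ t : ℝ, 0 ≤ t ∧ t ^ 3 = N := by
    refine ⟨(N : ℝ) ^ ((1 : ℝ) / 3), by positivity, ?_⟩
    rw [← Real.rpow_natCast, ← Real.rpow_mul (by positivity)]
    norm_num
  have hb : (N : ℝ) < 288 * ((a + 1 : ℕ) : ℝ) ^ 3 := by exact_mod_cast ha3
  obtain ⟨g1, g2, g3⟩ := real_part _ _ t ((a + 1 : ℕ) : ℝ) q i _ hs2 hℓ ht0 ht3 h1 h2
    (Nat.cast_nonneg _) hb (Nat.cast_nonneg _) hi2 hqr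
  have g1' : 52 * (q * i) ≤ (a + 1) ^ 2 := by exact_mod_cast g1
  have g2' : 52 * (q * i) ≤ N := by exact_mod_cast g2
  have hA : 26 * q * i ≤ T (a + 1) := by
    have h3 := two_T (a + 1)
    have e : 26 * q * i * 2 = 52 * (q * i) := by ring
    nlinarith
  have hB : 52 * q * i ≤ N := by
    have e : 52 * q * i = 52 * (q * i) := by ring
    rw [e]
    exact g2'
  have hX1 := tail_card n N q a i hq1 hqN hA
  have hX2 := small_card (n + 1) N q i hq1 (by nlinarith) hB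
  have hX : ((BB (n + 2) N).filter (fun m => (∃ l, a < m l) ∨ 2 * sT m ≤ N)).card ≤
      ((BB (n + 2) N).filter (fun m => ∃ l, a < m l)).card +
      ((BB (n + 2) N).filter (fun m => 2 * sT m ≤ N)).card := by
    rw [Finset.filter_or]
    exact Finset.card_union_le _ _
  generalize (BB (n + 2) N).card = P at hX1 hX2 hX ⊢
  generalize ((BB (n + 2) N).filter (fun m => ∃ l, a < m l)).card = X1 at hX1 hX
  generalize ((BB (n + 2) N).filter (fun m => 2 * sT m ≤ N)).card = X2 at hX2 hX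
  have h3 := prop_part ((n + 2 : ℕ) : ℝ) N P X1 X2 i hs2 (Nat.cast_nonneg _) (Nat.cast_nonneg _)
    (Nat.cast_nonneg _) g3 hpow (by exact_mod_cast hX1) (by exact_mod_cast hX2)
  have h4 : (n + 2) * (X1 + X2) ≤ P := by exact_mod_cast h3
  exact (Nat.mul_le_mul_left _ hX).trans h4

end ShghI
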