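import Pool.Agent.ShghI.Ord3
import Mathlib.Combinatorics.Enumerative.DoubleCounting

/-!
# Counting ordered multiplicity vectors: few conditions
-/

namespace ShghI

open ShghJ

theorem card_supp_le {s R : ℕ} {m : Fin s → ℕ} (h : sT m ≤ R) :
    (Finset.univ.filter fun i => m i ≠ 0).card ≤ R := by
  refine le_trans ?_ h
  rw [Finset.card_eq_sum_ones]
  refine le_trans (Finset.sum_le_sum (f := fun _ => 1) (g := fun i => T (m i)) fun i hi => ?_)
    (Finset.sum_le_sum_of_subset (Finset.filter_subset _ _))
  have h1 := (Finset.mem_filter.1 hi).2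
  exact (Nat.one_le_iff_ne_zero.2 h1).trans (le_T (m i))

theorem card_zero_ge {s R : ℕ} {m : Fin s → ℕ} (h : sT m ≤ R) :
    s - R ≤ (Finset.univ.filter fun i => m i = 0).card := by
  have h1 := Finset.card_filter_add_card_filter_not (s := (Finset.univ : Finset (Fin s)))
    (fun i => m i = 0)
  rw [Finset.card_univ, Fintype.card_fin] at h1
  have h2 := card_supp_le h
  have h3 : (Finset.univ.filter fun i => ¬ m i = 0).card ≤ R := h2
  omega

theorem sT_update {s : ℕ} (m : Fin s → ℕ) (i : Fin s) (v : ℕ) :
    sT (Function.update m i v) + T (m i) = sT m + T v := by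
  classical
  unfold sT
  rw [← Finset.add_sum_erase _ _ (Finset.mem_univ i),
    ← Finset.add_sum_erase (a := i) Finset.univ (fun i => T (m i)) (Finset.mem_univ i)]
  rw [Function.update_self]
  have h1 : ∑ x ∈ Finset.univ.erase i, T (Function.update m i v x) =
      ∑ x ∈ Finset.univ.erase i, T (m x) := by
    refine Finset.sum_congr rfl fun x hx => ?_
    rw [Function.update_of_ne (Finset.mem_erase.1 hx).1]
  rw [h1]
  ring

/-- One more point of multiplicity one. -/
theorem low_step1 (s R : ℕ) : (BB s R).card * (s - R) ≤ (BB s (R + 1)).card * (R + 1) := by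
  classical
  refine Finset.card_mul_le_card_mul
    (fun m m' : Fin s → ℕ => ∃ z, m z = 0 ∧ m' = Function.update m z 1) ?_ ?_
  · intro m hm
    rw [mem_BB] at hm
    refine (card_zero_ge hm).trans ?_
    refine Finset.card_le_card_of_injOn (fun z => Function.update m z 1) ?_ ?_
    · intro z hz
      have hz' : m z = 0 := (Finset.mem_filter.1 hz).2
      rw [Finset.mem_coe, Finset.mem_bipartiteAbove, mem_BB]
      refine ⟨?_, z, hz', rfl⟩
      show sT (Function.update m z 1) ≤ R + 1
      have h1 := sT_update m z 1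
      have h2 : T 1 = 1 := rfl
      omega
    · intro z hz z' hz' h
      by_contra hne
      have hz1 : m z = 0 := (Finset.mem_filter.1 hz).2
      have h1 := congrFun h z
      simp only [Function.update_self, Function.update_of_ne hne] at h1
      omega
  · intro m' hm'
    rw [mem_BB] at hm'
    refine le_trans ?_ (card_supp_le hm')
    refine le_trans (Finset.card_le_card (t := (Finset.univ.filter fun i => m' i ≠ 0).image
      fun z => Function.update m' z 0) ?_) Finset.card_image_le
    intro m hm
    rw [Finset.mem_bipartiteBelow] at hm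
    obtain ⟨-, z, h1, h2⟩ := hm
    refine Finset.mem_image.2 ⟨z, Finset.mem_filter.2 ⟨Finset.mem_univ _, ?_⟩, ?_⟩
    · rw [h2, Function.update_self]
      exact one_ne_zero
    · rw [h2, Function.update_idem]
      exact Function.update_eq_self_iff.2 h1.symm

/-- From a multiplicity at least two to one more point of multiplicity one. -/
theorem low_step2 (s R : ℕ) :
    ((BB s (R + 1)).filter (fun m => ∃ l, 2 ≤ m l)).card * (s - (R + 1)) ≤
      (BB s R).card * (R * R) := by
  classical
  refine Finset.card_mul_le_card_mul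
    (fun m m' : Fin s → ℕ => ∃ l z, 2 ≤ m l ∧ m z = 0 ∧
      m' = Function.update (Function.update m l (m l - 1)) z 1) ?_ ?_
  · intro m hm
    rw [Finset.mem_filter, mem_BB] at hm
    obtain ⟨hm, l, hl⟩ := hm
    refine (card_zero_ge hm).trans ?_
    refine Finset.card_le_card_of_injOn
      (fun z => Function.update (Function.update m l (m l - 1)) z 1) ?_ ?_
    · intro z hz
      have hz' : m z = 0 := (Finset.mem_filter.1 hz).2
      have hne : z ≠ l := by rintro rfl; omega
      rw [Finset.mem_coe, Finset.mem_bipartiteAbove, mem_BB]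
      refine ⟨?_, l, z, hl, hz', rfl⟩
      show sT (Function.update (Function.update m l (m l - 1)) z 1) ≤ R
      have h1 := sT_update (Function.update m l (m l - 1)) z 1
      have h2 := sT_update m l (m l - 1)
      rw [Function.update_of_ne hne, hz'] at h1
      have h3 : T 1 = 1 := rfl
      have h4 : T 0 = 0 := rfl
      have h5 : T (m l) = T (m l - 1) + m l := by
        obtain ⟨x, hx⟩ := Nat.exists_eq_add_of_le hl
        rw [hx]
        have e : 2 + x - 1 = x + 1 := by omega
        rw [e]
        have h6 := two_T (2 + x)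
        have h7 := two_T (x + 1)
        nlinarith
      omega
    · intro z hz z' hz' h
      by_contra hne
      have hz1 : m z = 0 := (Finset.mem_filter.1 hz).2
      have hzl : z ≠ l := by rintro rfl; omega
      have h1 := congrFun h z
      simp only [Function.update_self, Function.update_of_ne hne, Function.update_of_ne hzl] at h1
      omega
  · intro m' hm'
    rw [mem_BB] at hm'
    have hc := card_supp_le hm'
    set U := (Finset.univ.filter fun i => m' i ≠ 0) with hU
    calc _ ≤ ((U ×ˢ U).image fun lz : Fin s × Fin s =>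
          Function.update (Function.update m' lz.2 0) lz.1 (m' lz.1 + 1)).card := by
          refine Finset.card_le_card ?_
          intro m hm
          rw [Finset.mem_bipartiteBelow] at hm
          obtain ⟨-, l, z, h0, h1, h2⟩ := hm
          have hne : z ≠ l := by rintro rfl; omega
          have h3 : m' z = 1 := by rw [h2, Function.update_self]
          have h4 : m' l = m l - 1 := by
            rw [h2, Function.update_of_ne hne.symm, Function.update_self]
          refine Finset.mem_image.2 ⟨(l, z), Finset.mem_product.2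
            ⟨Finset.mem_filter.2 ⟨Finset.mem_univ _, ?_⟩,
              Finset.mem_filter.2 ⟨Finset.mem_univ _, ?_⟩⟩, ?_⟩
          · show m' l ≠ 0
            omega
          · show m' z ≠ 0
            omega
          · show Function.update (Function.update m' z 0) l (m' l + 1) = m
            ext x
            by_cases hx : x = l
            · rw [hx, Function.update_self, h4]
              omega
            · rw [Function.update_of_ne hx]
              by_cases hx' : x = z
              · rw [hx', Function.update_self, h1]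
              · rw [Function.update_of_ne hx', h2, Function.update_of_ne hx',
                  Function.update_of_ne hx]
      _ ≤ (U ×ˢ U).card := Finset.card_image_le
      _ = U.card * U.card := Finset.card_product _ _
      _ ≤ R * R := Nat.mul_le_mul hc hc

/-- Few conditions: almost all vectors have only multiplicities at most one. -/
theorem low_card (s R : ℕ) :
    ((BB s (R + 1)).filter (fun m => ∃ l, 2 ≤ m l)).card * (s - (R + 1)) * (s - (R + 1)) ≤
      (BB s (R + 1)).card * (R + 1) ^ 3 := by
  have h1 := low_step2 s R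
  have h2 := low_step1 s R
  calc ((BB s (R + 1)).filter (fun m => ∃ l, 2 ≤ m l)).card * (s - (R + 1)) * (s - (R + 1))
      ≤ (BB s R).card * (R * R) * (s - (R + 1)) := Nat.mul_le_mul_right _ h1
    _ ≤ (BB s R).card * (R * R) * (s - R) := Nat.mul_le_mul_left _ (by omega)
    _ = (BB s R).card * (s - R) * (R * R) := by ring
    _ ≤ (BB s (R + 1)).card * (R + 1) * (R * R) := Nat.mul_le_mul_right _ h2
    _ ≤ (BB s (R + 1)).card * (R + 1) * ((R + 1) * (R + 1)) :=
        Nat.mul_le_mul_left _ (Nat.mul_le_mul (by omega) (by omega))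
    _ = _ := by ring

/-- `(200000 log s) ^ 6 ≤ s / 4` for `s ≥ 10 ^ 60`. -/
theorem log_bound (s : ℝ) (hs : 10 ^ 60 ≤ s) : 4 * (200000 * Real.log s) ^ 6 ≤ s := by
  have hs0 : (0 : ℝ) < s := lt_of_lt_of_le (by positivity) hs
  set y : ℝ := s ^ ((1 : ℝ) / 18) with hy
  have hy0 : 0 ≤ y := by positivity
  have hy18 : y ^ 18 = s := by
    rw [hy, ← Real.rpow_natCast, ← Real.rpow_mul hs0.le]
    norm_num
  have h1 : Real.log s ≤ 18 * y := by
    rw [← hy18, Real.log_pow]
    have hy1 : 0 < y := by
      rcases hy0.lt_or_eq with h | h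
      · exact h
      · rw [← h] at hy18
        norm_num at hy18
        linarith
    have h2 := Real.log_le_sub_one_of_pos hy1
    push_cast
    linarith
  have h0 : 0 ≤ Real.log s := Real.log_nonneg (le_trans (by norm_num) hs)
  have h2 : (200000 * Real.log s) ^ 6 ≤ (3600000 * y) ^ 6 :=
    pow_le_pow_left₀ (by linarith) (by linarith) 6
  have h3 : (10 : ℝ) ^ 40 ≤ y ^ 12 := by
    by_contra h
    have h4 : y ^ 12 < 10 ^ 40 := not_le.1 h
    have h5 : (y ^ 12) ^ 3 < ((10 : ℝ) ^ 40) ^ 3 :=
      pow_lt_pow_left₀ h4 (by positivity) (by norm_num)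
    have h6 : ((10 : ℝ) ^ 60) ^ 2 ≤ s ^ 2 := pow_le_pow_left₀ (by positivity) hs 2
    have h7 : (y ^ 12) ^ 3 = s ^ 2 := by rw [← hy18]; ring
    rw [h7] at h5
    norm_num at h5 h6
    linarith
  have h4 : 4 * (3600000 * y) ^ 6 = (4 * 3600000 ^ 6) * y ^ 6 := by ring
  have h5 : (4 * 3600000 ^ 6 : ℝ) ≤ 10 ^ 40 := by norm_num
  calc 4 * (200000 * Real.log s) ^ 6 ≤ 4 * (3600000 * y) ^ 6 := by linarith
    _ = (4 * 3600000 ^ 6) * y ^ 6 := h4
    _ ≤ y ^ 12 * y ^ 6 := mul_le_mul_of_nonneg_right (h5.trans h3) (by positivity)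
    _ = s := by rw [← hy18]; ring

theorem low_dens (s N : ℕ) (hs : 10 ^ 60 ≤ s) (h1 : (N : ℝ) ≤ (200000 * Real.log s) ^ 2) :
    s * ((BB s N).filter (fun m => ∃ l, 2 ≤ m l)).card ≤ (BB s N).card := by
  rcases Nat.eq_zero_or_pos N with rfl | hN
  · have h2 : ((BB s 0).filter (fun m => ∃ l, 2 ≤ m l)) = ∅ := by
      rw [Finset.filter_eq_empty_iff]
      rintro m hm ⟨l, hl⟩
      rw [mem_BB] at hm
      have h3 := T_le_sT m l
      have h4 := le_T (m l)
      omega
    rw [h2]
    simp
  obtain ⟨R, rfl⟩ : ∃ R, N = R + 1 := ⟨N - 1, by omega⟩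
  have h2 := low_card s R
  have hsr : (10 : ℝ) ^ 60 ≤ s := by exact_mod_cast hs
  have h3 := log_bound s hsr
  have h4 : 4 * (((R + 1 : ℕ) : ℝ)) ^ 3 ≤ s := by
    have h5 : (((R + 1 : ℕ) : ℝ)) ^ 3 ≤ ((200000 * Real.log s) ^ 2) ^ 3 :=
      pow_le_pow_left₀ (Nat.cast_nonneg _) h1 3
    have h6 : ((200000 * Real.log s) ^ 2) ^ 3 = (200000 * Real.log s) ^ 6 := by ring
    rw [h6] at h5
    linarith
  have h5 : 4 * (R + 1) ^ 3 ≤ s := by exact_mod_cast h4
  have h6 : R + 1 ≤ (R + 1) ^ 3 := Nat.le_self_pow (by norm_num) _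
  obtain ⟨t, ht⟩ : ∃ t, s = (R + 1) + t := ⟨s - (R + 1), by omega⟩
  have h7 : s - (R + 1) = t := by omega
  rw [h7] at h2
  generalize ((BB s (R + 1)).filter (fun m => ∃ l, 2 ≤ m l)).card = X at h2 ⊢
  generalize (BB s (R + 1)).card = P at h2 ⊢
  have ht0 : 0 < t := by omega
  have h8 : s ≤ 2 * t := by omega
  have h9 : s * (R + 1) ^ 3 ≤ t * t := by nlinarith
  have h10 : (s * X) * (t * t) ≤ P * (t * t) := by
    calc (s * X) * (t * t) = s * (X * t * t) := by ring
      _ ≤ s * (P * (R + 1) ^ 3) := Nat.mul_le_mul_left _ h2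
      _ = P * (s * (R + 1) ^ 3) := by ring
      _ ≤ P * (t * t) := Nat.mul_le_mul_left _ h9
  exact Nat.le_of_mul_le_mul_right h10 (Nat.mul_pos ht0 ht0)

end ShghI
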