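import Pool.Agent.ShghI.CloseX
import Pool.Agent.ShghC.CollN
import Pool.Agent.ShghC.MacN
import Pool.Agent.ShghC.Fib1
import Pool.Agent.ShghC.StripG
import Pool.Agent.ShghC.WinG

/-!
# ShghI, RedG: reduction to `-M < χ ≤ 0` relative to `K`, and the closing along a long curve
-/

namespace ShghI

open MvPolynomial ShghJ ShghC

universe u

section

variable {d M : ℕ} {h : Multiset ℕ → ℕ}

theorem add_ones_rel (H : HFun d h) (S : Multiset ℕ) : ∀ c : ℕ,
    h S ≤ h (S + Multiset.replicate c 1) + c ∧ TT (S + Multiset.replicate c 1) = TT S + c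
  | 0 => by simp
  | c + 1 => by
    obtain ⟨h1, h2⟩ := add_ones_rel H S c
    have h3 : S + Multiset.replicate (c + 1) 1 = 1 ::ₘ (S + Multiset.replicate c 1) := by
      rw [Multiset.replicate_succ, Multiset.add_cons]
    have h4 := H.mac1 (S + Multiset.replicate c 1) 0
    rw [H.zero] at h4
    have hT : T 1 = 1 := rfl
    rw [h3]
    constructor
    · have h5 : h (1 ::ₘ (S + Multiset.replicate c 1)) =
          h ((0 + 1) ::ₘ (S + Multiset.replicate c 1)) := rfl
      omega
    · rw [TT_cons, h2, hT]; omega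

theorem neg_rel (H : HFun d h) {K : Multiset ℕ} (hK : TT K ≤ T (d + 1)) (hM : 1 ≤ M)
    (hz : ∀ S : Multiset ℕ, (∀ x ∈ S, x ≤ M) → T (d + 1) ≤ TT (K + S) →
      TT (K + S) < T (d + 1) + M → h (K + S) = 0) (S : Multiset ℕ) :
    (∀ x ∈ S, x ≤ M) → T (d + 1) < TT (K + S) → h (K + S) = 0 := by
  induction S using Multiset.induction with
  | empty =>
    intro _ h1
    rw [add_zero] at h1
    omega
  | cons a S ih =>
    intro hb h1
    have hbS : ∀ x ∈ S, x ≤ M := fun x hx => hb x (Multiset.mem_cons_of_mem hx)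
    rw [Multiset.add_cons] at h1 ⊢
    by_cases h2 : T (d + 1) < TT (K + S)
    · have h3 := ih hbS h2
      have h4 := H.cons_le (K + S) a
      omega
    · push Not at h2
      rw [TT_cons] at h1
      have hex : ∃ j, T (d + 1) ≤ T j + TT (K + S) := ⟨a, h1.le⟩
      classical
      have hj := Nat.find_spec hex
      have hja : Nat.find hex ≤ a := Nat.find_min' hex h1.le
      have haM : a ≤ M := hb a (Multiset.mem_cons_self a S)
      have hlt : T (Nat.find hex) + TT (K + S) < T (d + 1) + M := by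
        rcases Nat.eq_zero_or_pos (Nat.find hex) with h0 | h0
        · rw [h0]
          have hT : T 0 = 0 := rfl
          omega
        · obtain ⟨i, hi⟩ := Nat.exists_eq_succ_of_ne_zero h0.ne'
          have hmin : ¬ T (d + 1) ≤ T i + TT (K + S) := Nat.find_min hex (by omega)
          have hTs := T_succ i
          rw [hi, Nat.succ_eq_add_one, hTs]
          omega
      have h6 := hz (Nat.find hex ::ₘ S) (by
        intro x hx
        rcases Multiset.mem_cons.1 hx with rfl | hx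
        · exact hja.trans haM
        · exact hbS x hx) (by rw [Multiset.add_cons, TT_cons]; exact hj)
        (by rw [Multiset.add_cons, TT_cons]; exact hlt)
      rw [Multiset.add_cons] at h6
      have h7 := H.anti_le (K + S) hja
      omega

/-- REDUCTION to `-M < χ ≤ 0`, relative to `K`. -/
theorem red_rel (H : HFun d h) {K : Multiset ℕ} (hK : TT K ≤ T (d + 1)) (hM : 1 ≤ M)
    (hz : ∀ S : Multiset ℕ, (∀ x ∈ S, x ≤ M) → T (d + 1) ≤ TT (K + S) →
      TT (K + S) < T (d + 1) + M → h (K + S) = 0) (S : Multiset ℕ) (hb : ∀ x ∈ S, x ≤ M) :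
    h (K + S) = T (d + 1) - TT (K + S) := by
  rcases Nat.lt_or_ge (T (d + 1)) (TT (K + S)) with h1 | h1
  · rw [neg_rel H hK hM hz S hb h1]
    omega
  · obtain ⟨h2, h3⟩ := add_ones_rel H (K + S) (T (d + 1) - TT (K + S))
    have e : K + S + Multiset.replicate (T (d + 1) - TT (K + S)) 1 =
        K + (S + Multiset.replicate (T (d + 1) - TT (K + S)) 1) := add_assoc _ _ _
    rw [e] at h2 h3
    have h4 := hz (S + Multiset.replicate (T (d + 1) - TT (K + S)) 1) (by
      intro x hx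
      rcases Multiset.mem_add.1 hx with hx | hx
      · exact hb x hx
      · rw [Multiset.eq_of_mem_replicate hx]; exact hM) (by rw [h3]; omega) (by rw [h3]; omega)
    have h5 := H.chi_le (K + S)
    omega

end

/-- CLOSING ALONG A LONG CURVE from exact statements. -/
theorem close_exact (F : Type u) [Field F] [CharZero F] (d a τ δ c : ℕ) (A B : Multiset ℕ)
    (ha : 1 ≤ a) (hτ1 : 1 ≤ τ) (hτd : (τ + 1) * a ≤ d)
    (hδ : 2 * (δ + 1) + a * a = a * (2 * d + 3)) (hc : δ = a * a * τ + c)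
    (hreg : ∀ k, k ≤ τ → hF F (d - k * a) A + TT A = T (d - k * a + 1))
    (hi : hF F (d - (τ + 1) * a) A = 0)
    (hz : hN F (Sf (a * a) (τ - 1) δ) B = 0)
    (hy : hN F (Sf (a * a) τ δ) B + TT B = ∑ k ∈ Finset.range (τ + 1), (δ + 1 - a * a * k)) :
    hF F d (A + B) = T (d + 1) - TT (A + B) := by
  have hchar : ∀ d' : ℕ, ∀ n : ℕ, 1 ≤ n → n ≤ d' → (n : F) ≠ 0 :=
    fun _ n hn _ => Nat.cast_ne_zero.2 (by omega)
  have HC : ∀ d', HFun d' (hF F d') := fun d' => hfun_hF F d' (hchar d')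
  have hlow := (HC d).chi_le (A + B)
  have hτa' : (τ + 1) * a = τ * a + a := by ring
  have hrow : ∀ k, k ≤ τ → T (d - k * a + 1) =
      T (d - (k + 1) * a + 1) + (δ + 1 - a * a * k) ∧ a * a * k ≤ δ + 1 := by
    intro k hk
    have e1 : (k + 1) * a ≤ (τ + 1) * a := Nat.mul_le_mul_right _ (by omega)
    have e2 : (k + 1) * a = k * a + a := by ring
    obtain ⟨j, hj⟩ : ∃ j, d = k * a + j := ⟨d - k * a, by omega⟩
    have h8 := long2_row d a δ j (by omega) (by omega) hδ k hj
    rw [show d - k * a + 1 = j + 1 by omega, show d - (k + 1) * a + 1 = j + 1 - a by omega]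
    exact h8
  have hsum : ∀ t, t ≤ τ + 1 → T (d + 1) = T (d - t * a + 1) +
      ∑ k ∈ Finset.range t, (δ + 1 - a * a * k) := by
    intro t
    induction t with
    | zero => simp
    | succ t ih =>
      intro ht
      rw [Finset.sum_range_succ, ih (by omega), (hrow t (by omega)).1]
      omega
  have hsum1 := hsum τ (by omega)
  have hrowτ := (hrow τ le_rfl).1
  rw [hc, show a * a * τ + c + 1 - a * a * τ = c + 1 by omega] at hrowτ
  have hRR : ∑ k ∈ Finset.range (τ + 1), (δ + 1 - a * a * k) =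
      ∑ k ∈ Finset.range τ, (δ + 1 - a * a * k) + (c + 1) := by
    rw [Finset.sum_range_succ]
    congr 1
    omega
  have hTT := TT_add A B
  rw [hRR] at hy
  generalize hRdef : ∑ k ∈ Finset.range τ, (δ + 1 - a * a * k) = R at *
  have hregτ := hreg τ le_rfl
  have hi' := (HC (d - (τ + 1) * a)).chi_le A
  have hglue := mGlueRL F d a τ (a * a) δ A B ha hτd hi (by
    intro k hk
    have e1 := hreg k hk.le
    have e2 := (HC (d - (k + 1) * a)).chi_le A
    have e3 := (hrow k hk.le).1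
    omega)
  rcases mRaise F (a * a) τ δ (hF F (d - τ * a) A) B (by omega) (by omega) with h8 | h8
  · rw [long_St_zero _ _ _ (by omega), hz] at h8
    omega
  · rw [show δ - a * a * τ + 1 = c + 1 by omega] at h8
    omega

/-- The sum of the row lengths. -/
theorem row_sum (d a δ : ℕ) (hδ : 2 * (δ + 1) + a * a = a * (2 * d + 3)) (t : ℕ)
    (ht : t * a ≤ d) : T (d + 1) = T (d - t * a + 1) +
      ∑ k ∈ Finset.range t, (δ + 1 - a * a * k) := by
  induction t with
  | zero => simp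
  | succ t ih =>
    have e2 : (t + 1) * a = t * a + a := by ring
    obtain ⟨j, hj⟩ : ∃ j, d = t * a + j := ⟨d - t * a, by omega⟩
    have h8 := (long2_row d a δ j (by omega) (by omega) hδ t hj).1
    rw [Finset.sum_range_succ, ih (by omega), show d - t * a + 1 = j + 1 by omega, h8,
      show d - (t + 1) * a + 1 = j + 1 - a by omega]
    omega

/-- CLOSING ALONG A LONG CURVE for `-M < χ ≤ 0`, abstract form. `u`, `v`: windows of `K + A`; `U`,
`V`: windows of the strips of thickness `τ - 1` and `τ`. -/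
theorem close_red (F : Type u) [Field F] [CharZero F] (d a τ δ c t0 M p U V u v : ℕ)
    (K S : Multiset ℕ) (ha : 1 ≤ a) (hτ1 : 1 ≤ τ) (hτd : (τ + 1) * a ≤ d)
    (hδ : 2 * (δ + 1) + a * a = a * (2 * d + 3)) (hc : δ = a * a * τ + c)
    (hS : ∀ x ∈ S, x ≤ M) (hT0 : T M ≤ t0) (hpv : v ≤ p) (hpU : U + 1 ≤ p)
    (hq1 : p + t0 + u ≤ c + 1) (hq2 : p + t0 + M + V ≤ c + 2)
    (hX : p + TT K ≤ T (d - τ * a + 1))
    (hχ1 : T (d + 1) ≤ TT (K + S)) (hχ2 : TT (K + S) < T (d + 1) + M)
    (hP1 : ∀ B : Multiset ℕ, (∀ x ∈ B, x ≤ M) → 1 ≤ hN F (Sf (a * a) (τ - 1) δ) B →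
      TT B ≤ ∑ k ∈ Finset.range τ, (δ + 1 - a * a * k) + U)
    (hP2 : ∀ B : Multiset ℕ, (∀ x ∈ B, x ≤ M) →
      TT B + V ≤ ∑ k ∈ Finset.range (τ + 1), (δ + 1 - a * a * k) →
      hN F (Sf (a * a) τ δ) B + TT B = ∑ k ∈ Finset.range (τ + 1), (δ + 1 - a * a * k))
    (hW1 : ∀ (e : ℕ) (A : Multiset ℕ), (∀ x ∈ A, x ≤ M) → d ≤ e + (τ + 1) * a → e ≤ d →
      1 ≤ hF F e (K + A) → hF F e (K + A) + TT (K + A) ≤ T (e + 1) + u)
    (hW2 : ∀ (e : ℕ) (A : Multiset ℕ), (∀ x ∈ A, x ≤ M) → d ≤ e + (τ + 1) * a → e ≤ d →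
      TT (K + A) + v ≤ T (e + 1) → hF F e (K + A) + TT (K + A) = T (e + 1)) :
    hF F d (K + S) = 0 := by
  have hτa' : (τ + 1) * a = τ * a + a := by ring
  have hsum1 := row_sum d a δ hδ τ (by omega)
  have hsum2 := row_sum d a δ hδ (τ + 1) hτd
  have hlast : δ + 1 - a * a * τ = c + 1 := by omega
  rw [Finset.sum_range_succ, hlast] at hsum2
  have hTTKS := TT_add K S
  obtain ⟨B, A, hAB, hA1, hA2⟩ := ShghL.exists_part t0 (T (d - τ * a + 1) - (p + TT K)) S
    (fun m hm => (ShghL.T_mono (hS m hm)).trans hT0) (by omega)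
  have hSA : ∀ m ∈ A, m ≤ M := fun m hm => hS m (by rw [hAB]; exact Multiset.mem_add.2 (Or.inr hm))
  have hSB : ∀ m ∈ B, m ≤ M := fun m hm => hS m (by rw [hAB]; exact Multiset.mem_add.2 (Or.inl hm))
  have hTTS : TT S = TT B + TT A := by rw [hAB, TT_add]
  have hTTKA := TT_add K A
  have hKS : K + S = (K + A) + B := by rw [hAB]; abel
  have hTTKAB := TT_add (K + A) B
  have hRR : ∑ k ∈ Finset.range (τ + 1), (δ + 1 - a * a * k) =
      ∑ k ∈ Finset.range τ, (δ + 1 - a * a * k) + (c + 1) := by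
    rw [Finset.sum_range_succ, hlast]
  have hz : hN F (Sf (a * a) (τ - 1) δ) B = 0 := by
    by_contra hne
    have h8 := hP1 B hSB (Nat.one_le_iff_ne_zero.2 hne)
    omega
  have hy := hP2 B hSB (by rw [hRR]; omega)
  have h9 := close_exact F d a τ δ c (K + A) B ha hτ1 hτd hδ hc (by
    intro k hk
    have e1 : k * a ≤ τ * a := Nat.mul_le_mul_right _ hk
    have e2 : T (d - τ * a + 1) ≤ T (d - k * a + 1) := ShghL.T_mono (by omega)
    exact hW2 _ A hSA (by omega) (by omega) (by omega)) (by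
    by_contra hne
    have h8 := hW1 (d - (τ + 1) * a) A hSA (by omega) (by omega) (Nat.one_le_iff_ne_zero.2 hne)
    omega) hz hy
  rw [hKS, h9]
  rw [← hKS]
  omega

theorem mStripG : S_StripG.{u} :=
  tStripG (tCollN tNSemi mNInv mNCons tNClo) (tMacN mNCons tNClo) mStA mStB
    (tFib1 mNCons tNClo mFibDiv) mNCons

end ShghI
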