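import Pool.Agent.ShghI.Super

/-!
# ShghI, Redis: redistribution of a multiple line through a point of very large multiplicity
-/

namespace ShghI

open MvPolynomial ShghJ

universe u v

section

variable (F : Type u) [Field F] (d : ℕ)

theorem hF_list (l : List ℕ) : hF F d (l : Multiset ℕ) =
    Module.finrank (UF F) (ShghT.LS d (fun i : Fin l.length => l.get i) (fun i => up F i)) := by
  have h := tInv F (UF F) l.length d (fun i => l.get i) (fun i => up F i)
    (geo_algInd F (fun i : Fin l.length => (i : ℕ)) Fin.val_injective)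
  rw [Fin.univ_val_map, List.ofFn_get] at h
  exact h.symm

theorem hF_pos_iff (l : List ℕ) : 1 ≤ hF F d (l : Multiset ℕ) ↔
    ∃ f : MvPolynomial (Fin 2) (UF F), f ≠ 0 ∧ f.totalDegree ≤ d ∧
      ∀ i : ℕ, f ∈ ShghT.pt (up F i 0) (up F i 1) ^ (l.getD i 0) := by
  rw [hF_list]
  constructor
  · intro h
    have h1 : Nontrivial (ShghT.LS d (fun i : Fin l.length => l.get i) (fun i => up F i)) :=
      Module.nontrivial_of_finrank_pos (R := UF F) (by omega)
    obtain ⟨⟨f, hf⟩, hf0⟩ := exists_ne (0 : ShghT.LS d (fun i : Fin l.length => l.get i)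
      (fun i => up F i))
    refine ⟨f, fun h0 => hf0 (Subtype.ext h0), (ShghT.mem_LS.1 hf).1, fun i => ?_⟩
    by_cases hi : i < l.length
    · have := (ShghT.mem_LS.1 hf).2 ⟨i, hi⟩
      rw [List.getD_eq_getElem _ _ hi]
      exact this
    · rw [List.getD_eq_default _ _ (by omega), pow_zero, Ideal.one_eq_top]
      exact Submodule.mem_top
  · rintro ⟨f, hf0, hfd, hf⟩
    have hmem : f ∈ ShghT.LS d (fun i : Fin l.length => l.get i) (fun i => up F i) := by
      refine ShghT.mem_LS.2 ⟨hfd, fun i => ?_⟩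
      have := hf i
      rw [List.getD_eq_getElem _ _ i.2] at this
      exact this
    have : Nontrivial (ShghT.LS d (fun i : Fin l.length => l.get i) (fun i => up F i)) :=
      ⟨⟨f, hmem⟩, 0, fun h => hf0 (congrArg Subtype.val h)⟩
    exact Module.finrank_pos

end

section

variable {K : Type u} [Field K]

theorem lam_div_pow {p q : Fin 2 → K} (hpq : q 0 ≠ p 0) (d b w : ℕ) (hb : b ≤ d)
    (f : MvPolynomial (Fin 2) K) (hf0 : f ≠ 0) (hf : f.totalDegree ≤ d)
    (ha : f ∈ ShghT.pt (p 0) (p 1) ^ b) (hc : f ∈ ShghT.pt (q 0) (q 1) ^ w) :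
    ∀ t : ℕ, t ≤ b → t ≤ w → d + t ≤ b + w →
    ∃ g, f = lam p q ^ t * g ∧ g ≠ 0 ∧ g.totalDegree + t ≤ d ∧
      g ∈ ShghT.pt (p 0) (p 1) ^ (b - t) ∧ g ∈ ShghT.pt (q 0) (q 1) ^ (w - t) := by
  intro t
  induction t with
  | zero =>
    intro _ _ _
    exact ⟨f, by rw [pow_zero, one_mul], hf0, by rwa [add_zero], by rwa [Nat.sub_zero],
      by rwa [Nat.sub_zero]⟩
  | succ t ih =>
    intro h1 h2 h3
    obtain ⟨g, hg, hg0, hgd, hga, hgc⟩ := ih (by omega) (by omega) (by omega)
    obtain ⟨g', hg', hg'0, hg'd, hg'a, hg'c⟩ := lam_div hpq (d - t - 1) (b - t - 1) (w - t - 1) g hg0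
      (by omega) (by rwa [show b - t - 1 + 1 = b - t by omega])
      (by rwa [show w - t - 1 + 1 = w - t by omega]) (by omega)
    refine ⟨g', ?_, hg'0, by omega, ?_, ?_⟩
    · rw [hg, hg', pow_succ]
      ring
    · rwa [show b - (t + 1) = b - t - 1 by omega]
    · rwa [show w - (t + 1) = w - t - 1 by omega]

end

section

variable (F : Type u) [Field F]

private theorem getD_append_right' (l l' : List ℕ) (i : ℕ) :
    (l ++ l').getD i 0 = if i < l.length then l.getD i 0 else l'.getD (i - l.length) 0 := by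
  split_ifs with h
  · rw [List.getD_append _ _ _ _ h]
  · rw [List.getD_append_right _ _ _ _ (by omega)]

/-- REDISTRIBUTION. -/
theorem hF_redis (d b w t : ℕ) (S W : Multiset ℕ) (hb : b ≤ d) (htb : t ≤ b) (htw : t ≤ w)
    (hbw : d + t ≤ b + w) (hW : W.sum ≤ t) (h : 1 ≤ hF F d (b ::ₘ w ::ₘ S)) :
    1 ≤ hF F d (W + (b ::ₘ (w - t) ::ₘ S)) := by
  classical
  have e0 : b ::ₘ w ::ₘ S = ((b :: w :: S.toList : List ℕ) : Multiset ℕ) := by
    rw [← Multiset.cons_coe, ← Multiset.cons_coe, Multiset.coe_toList]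
  have e1 : W + (b ::ₘ (w - t) ::ₘ S) =
      ((b :: (w - t) :: (S.toList ++ W.toList) : List ℕ) : Multiset ℕ) := by
    rw [← Multiset.cons_coe, ← Multiset.cons_coe, ← Multiset.coe_add, Multiset.coe_toList,
      Multiset.coe_toList, Multiset.add_cons, Multiset.add_cons, add_comm W S]
  rw [e0, hF_pos_iff] at h
  rw [e1, hF_pos_iff]
  obtain ⟨f, hf0, hfd, hf⟩ := h
  set s := S.toList with hs
  set l := W.toList with hl
  have hlsum : ∑ i ∈ Finset.range l.length, l.getD i 0 = W.sum := by
    have h1 : W.sum = l.sum := by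
      rw [hl, ← Multiset.sum_coe, Multiset.coe_toList]
    rw [h1]
    clear_value l
    clear h1 e1 hl
    induction l with
    | nil => simp
    | cons a l ih =>
      rw [List.length_cons, Finset.sum_range_succ', List.sum_cons]
      simp only [List.getD_cons_succ, List.getD_cons_zero]
      rw [ih, add_comm]
  have hne : up F 1 0 ≠ up F 0 0 := geo_up_ne F (by omega)
  have hfa := hf 0
  have hfc := hf 1
  rw [List.getD_cons_zero] at hfa
  rw [List.getD_cons_succ, List.getD_cons_zero] at hfc
  obtain ⟨g, hg, hg0, hgd, hga, hgc⟩ := lam_div_pow (p := up F 0) (q := up F 1) hne d b w hb f hf0 hfd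
    hfa hfc t htb htw hbw
  have hgr : ∀ i, g ∈ ShghT.pt (up F (i + 2) 0) (up F (i + 2) 1) ^ (s.getD i 0) := by
    intro i
    have h1 := hf (i + 2)
    rw [List.getD_cons_succ, List.getD_cons_succ, hg] at h1
    refine unit_cancel _ _ _ (lam (up F 0) (up F 1) ^ t) g ?_ h1
    rw [map_pow]
    refine pow_ne_zero _ ?_
    rw [eval_lam]
    exact up_det F (by omega) (by omega) (by omega)
  set Q : MvPolynomial (Fin 2) (UF F) := ∏ i ∈ Finset.range l.length,
    lam (up F 0) (up F (i + s.length + 2)) ^ (l.getD i 0) with hQ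
  have hQ0 : Q ≠ 0 := by
    refine Finset.prod_ne_zero_iff.2 fun i _ => pow_ne_zero _ (lam_ne_zero ?_)
    exact geo_up_ne F (by omega)
  have hQd : Q.totalDegree ≤ W.sum := by
    rw [← hlsum]
    refine (totalDegree_finsetProd _ _).trans (Finset.sum_le_sum fun i _ => ?_)
    refine (totalDegree_pow _ _).trans ?_
    calc l.getD i 0 * (lam (up F 0) (up F (i + s.length + 2))).totalDegree
        ≤ l.getD i 0 * 1 := Nat.mul_le_mul_left _ (lam_degree _ _)
      _ = l.getD i 0 := mul_one _
  have hQa : Q ∈ ShghT.pt (up F 0 0) (up F 0 1) ^ W.sum := by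
    rw [← hlsum, hQ]
    have key : ∀ T : Finset ℕ, ∏ i ∈ T, lam (up F 0) (up F (i + s.length + 2)) ^ (l.getD i 0) ∈
        ShghT.pt (up F 0 0) (up F 0 1) ^ (∑ i ∈ T, l.getD i 0) := by
      intro T
      induction T using Finset.induction_on with
      | empty =>
        rw [Finset.prod_empty, Finset.sum_empty, pow_zero, Ideal.one_eq_top]
        exact Submodule.mem_top
      | insert a T ha ih =>
        rw [Finset.prod_insert ha, Finset.sum_insert ha, pow_add]
        exact Ideal.mul_mem_mul (Ideal.pow_mem_pow (lam_mem_left _ _) _) ih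
    exact key _
  refine ⟨lam (up F 0) (up F 1) ^ (t - W.sum) * Q * g,
    mul_ne_zero (mul_ne_zero (pow_ne_zero _ (lam_ne_zero hne)) hQ0) hg0, ?_, fun i => ?_⟩
  · refine (totalDegree_mul _ _).trans ?_
    have h1 := totalDegree_mul (lam (up F 0) (up F 1) ^ (t - W.sum)) Q
    have h2 : (lam (up F 0) (up F 1) ^ (t - W.sum)).totalDegree ≤ t - W.sum := by
      refine (totalDegree_pow _ _).trans ?_
      calc (t - W.sum) * (lam (up F 0) (up F 1)).totalDegree
          ≤ (t - W.sum) * 1 := Nat.mul_le_mul_left _ (lam_degree _ _)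
        _ = t - W.sum := mul_one _
    omega
  · rcases i with _ | _ | i
    · rw [List.getD_cons_zero]
      have h1 : t - W.sum + W.sum + (b - t) = b := by omega
      rw [← h1, pow_add, pow_add]
      exact Ideal.mul_mem_mul (Ideal.mul_mem_mul (Ideal.pow_mem_pow (lam_mem_left _ _) _) hQa) hga
    · rw [List.getD_cons_succ, List.getD_cons_zero]
      exact Ideal.mul_mem_left _ _ hgc
    · rw [List.getD_cons_succ, List.getD_cons_succ, getD_append_right']
      split_ifs with hi
      · exact Ideal.mul_mem_left _ _ (hgr i)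
      · refine Ideal.mul_mem_right _ _ (Ideal.mul_mem_left _ _ ?_)
        by_cases hi2 : i - s.length < l.length
        · rw [hQ, ← Finset.mul_prod_erase _ _ (Finset.mem_range.2 hi2)]
          refine Ideal.mul_mem_right _ _ (Ideal.pow_mem_pow ?_ _)
          have h2 : i - s.length + s.length + 2 = i + 2 := by omega
          rw [h2]
          exact lam_mem_right _ _
        · rw [List.getD_eq_default _ _ (by omega), pow_zero, Ideal.one_eq_top]
          exact Submodule.mem_top

end

end ShghI
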