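import Pool.Agent.ShghI.SupD
import Pool.Agent.ShghI.CloseM

/-!
# ShghI, RelB: the relative theorem, the case of a base multiset with a large multiplicity `b`

The condition `3 M d ≤ k²` is replaced by `25 M (d - b) ≤ k²`.
-/

namespace ShghI

open ShghJ ShghL

/-- What a member of multiplicity `w` gives. -/
def reachB (d b k w : ℕ) : ℕ := if w ≤ k then w else if w ≤ 2 * (d - b) then k else w - (d - b) + k

theorem reachB_le {d b k : ℕ} (hb : b + k ≤ d) (w : ℕ) : reachB d b k w ≤ w := by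
  unfold reachB
  split_ifs <;> omega

variable {h : ℕ → Multiset ℕ → ℕ} {d k M b : ℕ} {K S : Multiset ℕ}

theorem baseD_relB (H : ∀ d' ≤ d, HFun d' (h d')) (Mu : MulFun h d) (HB : HFunB d (h d))
    (hb : b + k ≤ d) (hk1 : 1 ≤ k) (hK : h d (b ::ₘ K) + TT (b ::ₘ K) = T (d + 1))
    (hroom : 2 * TT (b ::ₘ K) + 3 * k * (d + 1) ≤ 2 * T (d + 1)) :
    BaseD d (h d) (b ::ₘ K) k (d + 1) (reachB d b k) (GS k) where
  reach_le := reachB_le hb
  base := base_of_room H Mu hK hroom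
  amp := by
    intro S w τ h1 h2 h4
    rcases Nat.lt_or_ge τ (k + 1) with h5 | h5
    · refine ⟨{τ}, fun x hx => ?_, by simp, ?_, ?_⟩
      · rw [Multiset.mem_singleton.1 hx]
        omega
      · rw [GS_le hk1 (by omega)]
        simp [TT]
      · rw [Multiset.singleton_add]
        exact h4.trans (HB.anti_le _ (h1.trans (reachB_le hb w)))
    · have h6 : ¬ w ≤ k ∧ ¬ w ≤ 2 * (d - b) ∧ τ ≤ w - (d - b) + k := by
        unfold reachB at h1
        split_ifs at h1 <;> omega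
      obtain ⟨q, hq⟩ : ∃ q, τ / k = q + 1 := by
        have : 1 ≤ τ / k := (Nat.one_le_div_iff hk1).2 (by omega)
        exact ⟨τ / k - 1, by omega⟩
      have h7 : τ = (q + 1) * k + τ % k := by
        rw [← hq]
        exact (Nat.div_add_mod' τ k).symm
      have h8 : τ % k < k := Nat.mod_lt _ hk1
      have h9 : (q + 1) * k = q * k + k := by ring
      refine ⟨Multiset.replicate (q + 1) k + {τ % k}, ?_, ?_, ?_, ?_⟩
      · intro x hx
        rcases Multiset.mem_add.1 hx with h8 | h8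
        · exact (Multiset.eq_of_mem_replicate h8).le
        · rw [Multiset.mem_singleton.1 h8]
          omega
      · rw [Multiset.sum_add, Multiset.sum_replicate, Multiset.sum_singleton, smul_eq_mul]
        exact h7.symm
      · rw [TT_add]
        unfold GS
        rw [hq]
        have e2 : (q + 1) * T k = T k + q * T k := by ring
        rw [e2]
        simp [TT]
      · have hS : w ::ₘ (S + (b ::ₘ K)) = b ::ₘ w ::ₘ (S + K) := by
          rw [Multiset.add_cons, Multiset.cons_swap]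
        rw [hS] at h4
        have h10 := HB.redis b w (w - (d - b)) (S + K) (Multiset.replicate q k + {τ % k})
          (by omega) (by omega) (by omega) (by omega) (by
            rw [Multiset.sum_add, Multiset.sum_replicate, Multiset.sum_singleton, smul_eq_mul]
            omega) h4
        rw [show w - (w - (d - b)) = d - b by omega] at h10
        have e : Multiset.replicate (q + 1) k + {τ % k} + (S + (b ::ₘ K)) =
            k ::ₘ (Multiset.replicate q k + {τ % k} + (b ::ₘ (S + K))) := by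
          rw [Multiset.add_cons b S K, Multiset.replicate_succ, Multiset.cons_add,
            Multiset.cons_add]
        have e' : Multiset.replicate q k + {τ % k} + (b ::ₘ (d - b) ::ₘ (S + K)) =
            (d - b) ::ₘ (Multiset.replicate q k + {τ % k} + (b ::ₘ (S + K))) := by
          rw [Multiset.cons_swap b, Multiset.add_cons]
        rw [e'] at h10
        rw [e]
        exact h10.trans (HB.anti_le _ (by omega))

/-- the value of `reachB`, three cases -/
theorem reachB_cases (d b k w : ℕ) :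
    (w ≤ k ∧ reachB d b k w = w) ∨ (k < w ∧ w ≤ 2 * (d - b) ∧ reachB d b k w = k) ∨
      (k < w ∧ 2 * (d - b) < w ∧ reachB d b k w = w - (d - b) + k) := by
  unfold reachB
  split_ifs with h1 h2
  · exact Or.inl ⟨h1, rfl⟩
  · exact Or.inr (Or.inl ⟨by omega, h2, rfl⟩)
  · exact Or.inr (Or.inr ⟨by omega, by omega, rfl⟩)

/-- The numerical contradiction if `w' = reach w` is not `w`, or `w'` is large. `R` bounds
`w₁ ≤ R w`, `w' ≥ c d` in the second case. -/
theorem numRB {M w w1 w' k D : ℝ} (hM : 1 ≤ M) (hk : 25 * M * D ≤ k ^ 2)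
    (hk25 : 25 * M ≤ k) (hw1 : w1 ≤ 3 * w)
    (hT : w' * (w' + 1) + 2 ≤ 2 * M * w + M * w1) (hc : w' = k) (hw : w ≤ 2 * D) : False := by
  have h1 : M * w1 ≤ M * (3 * w) := mul_le_mul_of_nonneg_left hw1 (by linarith)
  have h2 : M * w ≤ M * (2 * D) := mul_le_mul_of_nonneg_left hw (by linarith)
  subst hc
  nlinarith

/-- The conditions, from those without cap, in the increasing order. -/
theorem hce_relB_incr {m : List ℕ} (hM : 1 ≤ M) (hm : ∀ x ∈ m, x ≤ M) (hb : b + k ≤ d)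
    (hk1 : 1 ≤ k) (hk : 25 * M * (d - b) ≤ k ^ 2) (hs : m.Pairwise (· ≤ ·)) :
    HCE d (d + 1) (reachB d b k) (GS k) (4 / 3) m (FiD (41 / 10) m) := by
  intro l1 l h1 h2 hb1 ha w s w' w1 hwd hw1d hw'w hsd hc hF hmw hm1 hy hB
  have hk25 : 25 * M ≤ k := by
    have h3 : 25 * M * k ≤ 25 * M * (d - b) := Nat.mul_le_mul_left _ (by omega)
    have h4 : (25 * M) * k ≤ k * k := by nlinarith
    exact Nat.le_of_mul_le_mul_right h4 hk1
  have hk25r : 25 * (M : ℝ) ≤ k := by exact_mod_cast hk25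
  have hMr : (1 : ℝ) ≤ M := by exact_mod_cast hM
  have hkr : 25 * (M : ℝ) * ((d - b : ℕ) : ℝ) ≤ (k : ℝ) ^ 2 := by exact_mod_cast hk
  have hlM : ((m[l] : ℕ) : ℝ) ≤ M := by exact_mod_cast hm _ (List.getElem_mem h2)
  have hmw' : ((m[l] : ℕ) : ℝ) ≤ w := by exact_mod_cast hmw
  have hsimp := bad_simple hmw'
  have hw0 : (0 : ℝ) ≤ w := Nat.cast_nonneg _
  have hab : m[l1]'(h1.trans h2) ≤ m[l] := incr_le hs h1.le h2
  have hab' : ((m[l1]'(h1.trans h2) : ℕ) : ℝ) ≤ (m[l] : ℕ) := by exact_mod_cast hab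
  have hF' := hF
  have hy' := hy
  rw [FiD_eq _ m h2] at hF' hy'
  rw [FiD_eq _ m (h1.trans h2)] at hy'
  have hw'r : (w' : ℝ) ≤ w := by exact_mod_cast hw'w
  have hw1w : (w1 : ℝ) ≤ 7 / 3 * w := by linarith
  have hTM : 2 * (GS k w' : ℝ) + 2 ≤ 2 * M * w + M * w1 := by
    have h3 := (hB M (by
      intro z hz
      exact hm z (List.mem_of_mem_take (List.mem_of_mem_drop hz)))).2
    have h4 : 2 * ((m[l] : ℕ) : ℝ) * w ≤ 2 * M * w :=
      mul_le_mul_of_nonneg_right (by linarith) hw0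
    linarith
  by_cases hcase : w' ≤ k
  · have hGT : (GS k w' : ℝ) = (w' : ℝ) * (w' + 1) / 2 := by
      rw [GS_le hk1 hcase, T_real]
    have key : (w' = w ∨ w' + s = d + 1) → False := fun hc' => by
      refine HCD_incr hs l1 l h1 h2 hb1 ha w s w' w1 hwd hw1d hw'w hsd hc' hF hmw hm1 hy ?_
      intro B hB'
      obtain ⟨h3, h4⟩ := hB B hB'
      refine ⟨h3, ?_⟩
      rw [hGT] at h4
      linarith
    rcases hc with hc | hc
    · rcases reachB_cases d b k w with ⟨h3, h4⟩ | ⟨h3, h4, h5⟩ | ⟨h3, h4, h5⟩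
      · exact key (Or.inl (hc.trans h4))
      · refine numRB (M := M) (w := w) (w1 := w1) (w' := w') (k := k)
          (D := ((d - b : ℕ) : ℝ)) hMr hkr hk25r
          (by linarith) ?_ (by exact_mod_cast hc.trans h5) (by exact_mod_cast h4)
        rw [hGT] at hTM
        linarith
      · omega
    · exact key (Or.inr hc)
  · have h3 := GS_ge hk1 (show k ≤ w' by omega)
    have hw'0 : (0 : ℝ) ≤ w' := Nat.cast_nonneg _
    have h6 : 25 * M * w' ≤ (w' : ℝ) * (k + 1) := by nlinarith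
    rcases hc with hc | hc
    · rcases reachB_cases d b k w with ⟨h7, h4⟩ | ⟨h7, h4, h5⟩ | ⟨h7, h4, h5⟩
      · omega
      · omega
      · have h8 : w ≤ 2 * w' := by omega
        have h8' : (w : ℝ) ≤ 2 * w' := by exact_mod_cast h8
        have h9 : (M : ℝ) * w ≤ M * (2 * w') := mul_le_mul_of_nonneg_left h8' (by linarith)
        have h10 : (M : ℝ) * w1 ≤ M * (7 / 3 * w) := mul_le_mul_of_nonneg_left hw1w (by linarith)
        nlinarith
    · have hc'' : (w' : ℝ) + s = d + 1 := by exact_mod_cast hc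
      have hwd' : (w : ℝ) ≤ d := by exact_mod_cast hwd
      have hw1d' : (w1 : ℝ) ≤ d := by exact_mod_cast hw1d
      have ha' : (2 : ℝ) ≤ (m[l] : ℕ) := by exact_mod_cast ha
      have h7 : 1 / 4 * (d : ℝ) ≤ w' := by linarith
      have h8 : (M : ℝ) * w1 ≤ M * d := mul_le_mul_of_nonneg_left hw1d' (by linarith)
      have h9 : (M : ℝ) * w ≤ M * d := mul_le_mul_of_nonneg_left hwd' (by linarith)
      have h10 : (M : ℝ) * (1 / 4 * d) ≤ M * w' := mul_le_mul_of_nonneg_left h7 (by linarith)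
      nlinarith

theorem hce0_relB_incr {m : List ℕ} (hM : 1 ≤ M) (hm : ∀ x ∈ m, x ≤ M) (hb : b + k ≤ d)
    (hk1 : 1 ≤ k) (hk : 25 * M * (d - b) ≤ k ^ 2) :
    HCE0 d (d + 1) (reachB d b k) (GS k) (4 / 3) m (FiD (41 / 10) m) := by
  intro l h2 ha w s w' hwd hw'w hsd hc hF hmw hT
  have hk25 : 25 * M ≤ k := by
    have h3 : 25 * M * k ≤ 25 * M * (d - b) := Nat.mul_le_mul_left _ (by omega)
    have h4 : (25 * M) * k ≤ k * k := by nlinarith
    exact Nat.le_of_mul_le_mul_right h4 hk1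
  have hk25r : 25 * (M : ℝ) ≤ k := by exact_mod_cast hk25
  have hMr : (1 : ℝ) ≤ M := by exact_mod_cast hM
  have hkr : 25 * (M : ℝ) * ((d - b : ℕ) : ℝ) ≤ (k : ℝ) ^ 2 := by exact_mod_cast hk
  have hlM : ((m[l] : ℕ) : ℝ) ≤ M := by exact_mod_cast hm _ (List.getElem_mem h2)
  have hmw' : ((m[l] : ℕ) : ℝ) ≤ w := by exact_mod_cast hmw
  have hsimp := bad_simple hmw'
  have hw0 : (0 : ℝ) ≤ w := Nat.cast_nonneg _
  have hF' := hF
  rw [FiD_eq _ m h2] at hF'
  have hTM : 2 * (GS k w' : ℝ) + 2 ≤ 2 * M * w := by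
    have h4 : 2 * ((m[l] : ℕ) : ℝ) * w ≤ 2 * M * w :=
      mul_le_mul_of_nonneg_right (by linarith) hw0
    linarith
  by_cases hcase : w' ≤ k
  · have hGT : (GS k w' : ℝ) = (w' : ℝ) * (w' + 1) / 2 := by
      rw [GS_le hk1 hcase, T_real]
    have key : (w' = w ∨ w' + s = d + 1) → False := fun hc' => by
      refine HCD0_incr l h2 ha w s w' hwd hw'w hsd hc' hF hmw ?_
      rw [hGT] at hT
      linarith
    rcases hc with hc | hc
    · rcases reachB_cases d b k w with ⟨h3, h4⟩ | ⟨h3, h4, h5⟩ | ⟨h3, h4, h5⟩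
      · exact key (Or.inl (hc.trans h4))
      · refine numRB (M := M) (w := w) (w1 := 0) (w' := w') (k := k)
          (D := ((d - b : ℕ) : ℝ)) hMr hkr hk25r
          (by linarith) ?_ (by exact_mod_cast hc.trans h5) (by exact_mod_cast h4)
        rw [hGT] at hTM
        linarith
      · omega
    · exact key (Or.inr hc)
  · have h3 := GS_ge hk1 (show k ≤ w' by omega)
    have hw'0 : (0 : ℝ) ≤ w' := Nat.cast_nonneg _
    have h6 : 25 * M * w' ≤ (w' : ℝ) * (k + 1) := by nlinarith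
    rcases hc with hc | hc
    · rcases reachB_cases d b k w with ⟨h7, h4⟩ | ⟨h7, h4, h5⟩ | ⟨h7, h4, h5⟩
      · omega
      · omega
      · have h8 : w ≤ 2 * w' := by omega
        have h8' : (w : ℝ) ≤ 2 * w' := by exact_mod_cast h8
        have h9 : (M : ℝ) * w ≤ M * (2 * w') := mul_le_mul_of_nonneg_left h8' (by linarith)
        nlinarith
    · have hc'' : (w' : ℝ) + s = d + 1 := by exact_mod_cast hc
      have hwd' : (w : ℝ) ≤ d := by exact_mod_cast hwd
      have ha' : (2 : ℝ) ≤ (m[l] : ℕ) := by exact_mod_cast ha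
      have h7 : 1 / 4 * (d : ℝ) ≤ w' := by linarith
      have h9 : (M : ℝ) * w ≤ M * d := mul_le_mul_of_nonneg_left hwd' (by linarith)
      have h10 : (M : ℝ) * (1 / 4 * d) ≤ M * w' := mul_le_mul_of_nonneg_left h7 (by linarith)
      nlinarith

/-- The conditions in the decreasing order. -/
theorem hce_relB_decr {x : ℝ} (hx : 0 ≤ x) {m : List ℕ} (hM : 1 ≤ M) (hm : ∀ x ∈ m, x ≤ M)
    (hb : b + k ≤ d) (hk1 : 1 ≤ k) (hk : 25 * M * (d - b) ≤ k ^ 2) (hs : m.Pairwise (· ≥ ·))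
    (hMD : MassD 62 x m) :
    HCE d (d + 1) (reachB d b k) (GS k) (7 / 5) m (FdC x m) := by
  intro l1 l h1 h2 hb1 ha w s w' w1 hwd hw1d hw'w hsd hc hF hmw hm1 hy hB
  have hk25 : 25 * M ≤ k := by
    have h3 : 25 * M * k ≤ 25 * M * (d - b) := Nat.mul_le_mul_left _ (by omega)
    have h4 : (25 * M) * k ≤ k * k := by nlinarith
    exact Nat.le_of_mul_le_mul_right h4 hk1
  have hk25r : 25 * (M : ℝ) ≤ k := by exact_mod_cast hk25
  have hMr : (1 : ℝ) ≤ M := by exact_mod_cast hM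
  have hkr : 25 * (M : ℝ) * ((d - b : ℕ) : ℝ) ≤ (k : ℝ) ^ 2 := by exact_mod_cast hk
  have h1m := h1.trans h2
  have hlM : ((m[l1]'h1m : ℕ) : ℝ) ≤ M := by exact_mod_cast hm _ (List.getElem_mem h1m)
  have hmw' : ((m[l] : ℕ) : ℝ) ≤ w := by exact_mod_cast hmw
  have hsimp := bad_simple hmw'
  have hw0 : (0 : ℝ) ≤ w := Nat.cast_nonneg _
  have hw10 : (0 : ℝ) ≤ w1 := Nat.cast_nonneg _
  have hab : m[l] ≤ m[l1]'h1m := decr_le hs h1.le h2
  have hab' : ((m[l] : ℕ) : ℝ) ≤ (m[l1]'h1m : ℕ) := by exact_mod_cast hab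
  have hFge1 := FdD_ge hMD h1m hb1
  have hF0 := FdC_nonneg hx m l
  obtain ⟨hmass, hT⟩ := hB (m[l1]'h1m) (by
    intro z hz
    obtain ⟨i, hi, hli, _, rfl⟩ := mem_seg hz
    exact decr_le hs hli hi)
  have e1 := FdC_eq x m h2 ha
  have e2 := FdC_eq x m h1m hb1
  have e3 : (TT (m.drop l1 : List ℕ) : ℝ) =
      TT (((m.take l).drop l1 : List ℕ) : Multiset ℕ) + TT (m.drop l : List ℕ) := by
    rw [drop_split m h1.le h2.le, ← Multiset.coe_add, TT_add]
    push_cast
    ring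
  have hmass' : 2 * (TT (((m.take l).drop l1 : List ℕ) : Multiset ℕ) : ℝ) + 4 ≤
      2 * ((m[l1]'h1m : ℕ) * w1) + (m[l1]'h1m : ℕ) * w1 := by exact_mod_cast hmass
  have ha' : (2 : ℝ) ≤ (m[l] : ℕ) := by exact_mod_cast ha
  have hda : FdC x m l1 - FdC x m l ≤ 3 / 16 * w1 := by
    have h3 : 8 * ((m[l1]'h1m : ℕ) : ℝ) * (FdC x m l1 - FdC x m l) ≤
        8 * ((m[l1]'h1m : ℕ) : ℝ) * (3 / 16 * w1) := by nlinarith
    exact le_of_mul_le_mul_left h3 (by linarith)
  have hw'r : (w' : ℝ) ≤ w := by exact_mod_cast hw'w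
  have hw1w : (w1 : ℝ) ≤ 3 * w := by linarith
  have hTM : 2 * (GS k w' : ℝ) + 2 ≤ 2 * M * w + M * w1 := by
    have h4 : 2 * ((m[l] : ℕ) : ℝ) * w ≤ 2 * M * w :=
      mul_le_mul_of_nonneg_right (by linarith) hw0
    have h5 : ((m[l1]'h1m : ℕ) : ℝ) * w1 ≤ M * w1 := mul_le_mul_of_nonneg_right hlM hw10
    linarith
  by_cases hcase : w' ≤ k
  · have hGT : (GS k w' : ℝ) = (w' : ℝ) * (w' + 1) / 2 := by
      rw [GS_le hk1 hcase, T_real]
    have key : (w' = w ∨ w' + s = d + 1) → False := fun hc' => by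
      refine HCD_decr hx hs hMD l1 l h1 h2 hb1 ha w s w' w1 hwd hw1d hw'w hsd hc' hF hmw hm1 hy ?_
      intro B hB'
      obtain ⟨h3, h4⟩ := hB B hB'
      refine ⟨h3, ?_⟩
      rw [hGT] at h4
      linarith
    rcases hc with hc | hc
    · rcases reachB_cases d b k w with ⟨h3, h4⟩ | ⟨h3, h4, h5⟩ | ⟨h3, h4, h5⟩
      · exact key (Or.inl (hc.trans h4))
      · refine numRB (M := M) (w := w) (w1 := w1) (w' := w') (k := k)
          (D := ((d - b : ℕ) : ℝ)) hMr hkr hk25r
          (by linarith) ?_ (by exact_mod_cast hc.trans h5) (by exact_mod_cast h4)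
        rw [hGT] at hTM
        linarith
      · omega
    · exact key (Or.inr hc)
  · have h3 := GS_ge hk1 (show k ≤ w' by omega)
    have hw'0 : (0 : ℝ) ≤ w' := Nat.cast_nonneg _
    have h6 : 25 * M * w' ≤ (w' : ℝ) * (k + 1) := by nlinarith
    rcases hc with hc | hc
    · rcases reachB_cases d b k w with ⟨h7, h4⟩ | ⟨h7, h4, h5⟩ | ⟨h7, h4, h5⟩
      · omega
      · omega
      · have h8 : w ≤ 2 * w' := by omega
        have h8' : (w : ℝ) ≤ 2 * w' := by exact_mod_cast h8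
        have h9 : (M : ℝ) * w ≤ M * (2 * w') := mul_le_mul_of_nonneg_left h8' (by linarith)
        have h10 : (M : ℝ) * w1 ≤ M * (3 * w) := mul_le_mul_of_nonneg_left hw1w (by linarith)
        nlinarith
    · have hc'' : (w' : ℝ) + s = d + 1 := by exact_mod_cast hc
      have hwd' : (w : ℝ) ≤ d := by exact_mod_cast hwd
      have hw1d' : (w1 : ℝ) ≤ d := by exact_mod_cast hw1d
      have h7 : 17 / 112 * (d : ℝ) ≤ w' := by linarith
      have h8 : (M : ℝ) * w1 ≤ M * d := mul_le_mul_of_nonneg_left hw1d' (by linarith)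
      have h9 : (M : ℝ) * w ≤ M * d := mul_le_mul_of_nonneg_left hwd' (by linarith)
      have h10 : (M : ℝ) * (17 / 112 * d) ≤ M * w' := mul_le_mul_of_nonneg_left h7 (by linarith)
      nlinarith

theorem hce0_relB_decr {x : ℝ} {m : List ℕ} (hM : 1 ≤ M) (hm : ∀ x ∈ m, x ≤ M)
    (hb : b + k ≤ d) (hk1 : 1 ≤ k) (hk : 25 * M * (d - b) ≤ k ^ 2)
    (hMD : MassD 62 x m) :
    HCE0 d (d + 1) (reachB d b k) (GS k) (7 / 5) m (FdC x m) := by
  intro l h2 ha w s w' hwd hw'w hsd hc hF hmw hT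
  have hk25 : 25 * M ≤ k := by
    have h3 : 25 * M * k ≤ 25 * M * (d - b) := Nat.mul_le_mul_left _ (by omega)
    have h4 : (25 * M) * k ≤ k * k := by nlinarith
    exact Nat.le_of_mul_le_mul_right h4 hk1
  have hk25r : 25 * (M : ℝ) ≤ k := by exact_mod_cast hk25
  have hMr : (1 : ℝ) ≤ M := by exact_mod_cast hM
  have hkr : 25 * (M : ℝ) * ((d - b : ℕ) : ℝ) ≤ (k : ℝ) ^ 2 := by exact_mod_cast hk
  have hlM : ((m[l] : ℕ) : ℝ) ≤ M := by exact_mod_cast hm _ (List.getElem_mem h2)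
  have hmw' : ((m[l] : ℕ) : ℝ) ≤ w := by exact_mod_cast hmw
  have hsimp := bad_simple hmw'
  have hw0 : (0 : ℝ) ≤ w := Nat.cast_nonneg _
  have hFge := FdD_ge hMD h2 ha
  have ha' : (2 : ℝ) ≤ (m[l] : ℕ) := by exact_mod_cast ha
  have hTM : 2 * (GS k w' : ℝ) + 2 ≤ 2 * M * w := by
    have h4 : 2 * ((m[l] : ℕ) : ℝ) * w ≤ 2 * M * w :=
      mul_le_mul_of_nonneg_right (by linarith) hw0
    linarith
  by_cases hcase : w' ≤ k
  · have hGT : (GS k w' : ℝ) = (w' : ℝ) * (w' + 1) / 2 := by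
      rw [GS_le hk1 hcase, T_real]
    have key : (w' = w ∨ w' + s = d + 1) → False := fun hc' => by
      refine HCD0_decr hMD l h2 ha w s w' hwd hw'w hsd hc' hF hmw ?_
      rw [hGT] at hT
      linarith
    rcases hc with hc | hc
    · rcases reachB_cases d b k w with ⟨h3, h4⟩ | ⟨h3, h4, h5⟩ | ⟨h3, h4, h5⟩
      · exact key (Or.inl (hc.trans h4))
      · refine numRB (M := M) (w := w) (w1 := 0) (w' := w') (k := k)
          (D := ((d - b : ℕ) : ℝ)) hMr hkr hk25r
          (by linarith) ?_ (by exact_mod_cast hc.trans h5) (by exact_mod_cast h4)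
        rw [hGT] at hTM
        linarith
      · omega
    · exact key (Or.inr hc)
  · have h3 := GS_ge hk1 (show k ≤ w' by omega)
    have hw'0 : (0 : ℝ) ≤ w' := Nat.cast_nonneg _
    have h6 : 25 * M * w' ≤ (w' : ℝ) * (k + 1) := by nlinarith
    rcases hc with hc | hc
    · rcases reachB_cases d b k w with ⟨h7, h4⟩ | ⟨h7, h4, h5⟩ | ⟨h7, h4, h5⟩
      · omega
      · omega
      · have h8 : w ≤ 2 * w' := by omega
        have h8' : (w : ℝ) ≤ 2 * w' := by exact_mod_cast h8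
        have h9 : (M : ℝ) * w ≤ M * (2 * w') := mul_le_mul_of_nonneg_left h8' (by linarith)
        nlinarith
    · have hc'' : (w' : ℝ) + s = d + 1 := by exact_mod_cast hc
      have hwd' : (w : ℝ) ≤ d := by exact_mod_cast hwd
      have h7 : 17 / 112 * (d : ℝ) ≤ w' := by linarith
      have h9 : (M : ℝ) * w ≤ M * d := mul_le_mul_of_nonneg_left hwd' (by linarith)
      have h10 : (M : ℝ) * (17 / 112 * d) ≤ M * w' := mul_le_mul_of_nonneg_left h7 (by linarith)
      nlinarith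

end ShghI
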