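import Pool.Agent.ShghC.Spec
import Pool.Agent.ShghL.CloseD2

/-!
# ShghI, SpecU: statements for Theorem U, with proofs in the docstrings

THEOREM U (multi-scale form of the theorem with exponent `3 / 2`). Characteristic `0`. If all
multiplicities are `≤ M`, `d ≥ C M a`, and `C m ^ 2 ≤ max (8 |χ|, c a d) + (mass of the
multiplicities < m)` for all multiplicities `m ≥ 2`, then `h = max (0, χ)`.
-/

namespace ShghI

open MvPolynomial ShghJ ShghC ShghL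

universe u

/-- FIBMUL: multiplication by the fibre through a new generic point. PROOF. `K = UF F`,
`V e = LN (Sf n τ e) ν up'` at the points `up (i + 1)` (`S_NCons`: `mNCons` in
`Pool.Agent.ShghC.MainX`, or take `(h : S_NCons.{u})` as a hypothesis), `x0 = up F 0 0`. The map
`f ↦ (X 0 - C x0) ^ m * f` is linear and injective, and maps `V e` into `V (e + m)`: this is the
third claim of `S_FibDiv` (`tFibDiv tUnit`) `m` times. The image has multiplicity `≥ m` at `up F 0`: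
`X 0 - C x0 ∈ pt (up F 0 0) (up F 0 1)`, `Ideal.pow_mem_pow`, `Ideal.mul_mem_right`. So the image
is in `fil (V (e + m)) (up F 0) m`, whose dimension is `hN F (Sf n τ (e + m)) (m ::ₘ B)`
(`S_NCons`). `LinearMap.finrank_le_finrank_of_injective`, finite-dimensional by `S_NClo.1`
(`tNClo`). Compare `mul_indep`, `mulFun_hF` in `Pool.Agent.ShghI.Mult`. -/
def S_FibMul : Prop := ∀ (F : Type u) [Field F] (n τ e m : ℕ) (B : Multiset ℕ),
  hN F (Sf n τ e) B ≤ hN F (Sf n τ (e + m)) (m ::ₘ B)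

/-- STRIPBASE: few conditions on a long strip are independent (pure arithmetic). PROOF.
`h e (0 ::ₘ B) = h e B` (`low`, `anti`, `T 0 = 0`). `≥`: `low` for all members of `W`. `≤`: induction
on `W` for all `e` (the empty multiset is clear). `W = w ::ₘ W'`. Let `G j = h j 0`
(`StripFun.empty`); `G j = G (j - 1) + (τ + 1)` for `j ≥ 1`, `j ≥ n τ` (compare `G_succ` in
`Pool.Agent.ShghC.WinG`). If `W'.sum = 0` all members of `W'` are `0` and `h j W' = G j` for all `j`;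
otherwise the induction hypothesis gives `h j W' = G j - TT W'` for all `j ≥ n τ + W'.sum - 1`. So in
both cases `h j W' - h (j - 1) W' = τ + 1` for all `j ≥ 1` with `j ≥ n τ + W'.sum` (and if
`j = 0 ≥ n τ + W'.sum` then `h 0 W' = G 0 = τ + 1`). `StripFun.fib`: the terms with `i < w` have
`e - i ≥ n τ + W'.sum`, they are `τ + 1 - (w - i)`, where `w - i ≤ τ + 1`; the terms with `i ≥ w` are
at most `h (e - i) W' - h (e - i - 1) W'`, their sum is `h (e - w) W'` (telescoping; `w ≤ e`, or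
`w = e + 1` and there are none). Sum: `w (τ + 1) - T w + h (e - w) W'`, and
`h (e - w) W' = G (e - w) - TT W'`, `G e = G (e - w) + w (τ + 1)`. -/
def S_StripBase : Prop := ∀ (n τ : ℕ) (h : ℕ → Multiset ℕ → ℕ), StripFun n τ h →
  ∀ (e : ℕ) (W : Multiset ℕ), n * τ ≤ e → (∀ w ∈ W, w ≤ τ + 1) → W.sum ≤ e - n * τ + 1 →
  h e W + TT W = h e 0

/-- PARTSU: the choice of the parts. `R t` = number of monomials in the first `t` rows, `ℓ t` = length
of row `t`. PROOF. A copy of `ShghL.choose_partsD` (`Pool.Agent.ShghL.CloseD2`) with `T n` replaced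
by `R n` and `n` replaced by `ℓ (n - 1)`. Put `Q = R Tm ≥ Tm N ≥ 50 Y`. `exists_prefix S (1.92 Q)`:
`S = S1 + S2`, `ml`; `T ml ≤ 0.006 Q` because `255 ml ^ 2 ≤ 2 Y + 1.92 Q` (`T_le_sq'`). `half_split S1`:
`A1, B0`, `0.957 Q ≤ TT B0 ≤ 0.966 Q`, `0.957 Q ≤ TT A1`, `A0 = A1 + S2`, conditions with `127.25` as
there. `t` = the least number with `TT B0 + 0.505 Y ≤ R t`; `t ≤ Tm` because `0.505 Y ≤ 0.034 Q`;
`t ≥ 1` because `R 0 = 0 < TT B0`. So `R t - TT B0 < 0.505 Y + ℓ (t - 1)`. If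
`R t - TT B0 ≤ ℓ (t - 1) - 0.505 Y`: `A0, B0`. Otherwise move the prefix `Z` of `A0` of mass
`1.01 Y` (up to `0.02 Y`) from `A0` to `B0`, exactly as in `choose_partsD`, with
`ℓ (t - 1) ≥ N ≥ 2.5 Y`. `0.957 Q ≤ TT B0 ≤ R t`. -/
def S_PartsU : Prop := ∀ (S : Multiset ℕ) (Y : ℝ) (N Tm : ℕ) (R ℓ : ℕ → ℕ), R 0 = 0 →
  (∀ t, R (t + 1) = R t + ℓ t) → (∀ t, t < Tm → N ≤ ℓ t) → 20 ≤ Tm → 256 ≤ Y → 2.5 * Y ≤ N →
  (1.92 : ℝ) * R Tm ≤ TT S → (∀ m ∈ S, 2 ≤ m → 255 * (m : ℝ) ^ 2 ≤ 2 * Y + rr S m) →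
  ∃ (A B : Multiset ℕ) (t : ℕ), S = A + B ∧ 1 ≤ t ∧ t ≤ Tm ∧ (0.957 : ℝ) * R Tm ≤ R t ∧
    0.505 * Y ≤ (R t : ℝ) - TT B ∧ (R t : ℝ) - TT B ≤ ℓ (t - 1) - 0.505 * Y ∧
    (∀ m ∈ A, 2 ≤ m → 127 * (m : ℝ) ^ 2 ≤ 2.04 * Y + rr A m) ∧
    (∀ m ∈ B, 2 ≤ m → 127 * (m : ℝ) ^ 2 ≤ Y + rr B m)

end ShghI
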