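import Pool.Agent.ShghI.Line
import Pool.Agent.ShghJ.Base
import Pool.Agent.ShghJ.Geo
import Pool.Agent.ShghJ.Inv

/-!
# ShghI, Super: independence of the conditions with one very large multiplicity `b`

If `μ_i + b ≤ d + 1` for all `i` and `Σ μ_i ≤ b + 1`, then the conditions are independent.
-/

namespace ShghI

open MvPolynomial ShghJ

universe u v

section

variable {K : Type u} [Field K]

private theorem mem_cons_LS {s d b : ℕ} {p : Fin 2 → K} {μ : Fin s → ℕ} {P : Fin s → Fin 2 → K}
    {f : MvPolynomial (Fin 2) K} :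
    f ∈ ShghT.LS d (Fin.cons b μ : Fin (s + 1) → ℕ) (Fin.cons p P : Fin (s + 1) → Fin 2 → K) ↔
      f.totalDegree ≤ d ∧ f ∈ ShghT.pt (p 0) (p 1) ^ b ∧
        ∀ i, f ∈ ShghT.pt (P i 0) (P i 1) ^ μ i := by
  rw [ShghT.mem_LS]
  constructor
  · rintro ⟨h1, h2⟩
    refine ⟨h1, ?_, fun i => ?_⟩
    · have := h2 0
      rwa [Fin.cons_zero, Fin.cons_zero] at this
    · have := h2 i.succ
      rwa [Fin.cons_succ, Fin.cons_succ] at this
  · rintro ⟨h1, h2, h3⟩
    refine ⟨h1, fun i => ?_⟩
    refine Fin.cases ?_ (fun i => ?_) i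
    · rw [Fin.cons_zero, Fin.cons_zero]
      exact h2
    · rw [Fin.cons_succ, Fin.cons_succ]
      exact h3 i

private theorem super_step (s d b : ℕ) (p : Fin 2 → K) (μ : Fin (s + 1) → ℕ)
    (P : Fin (s + 1) → Fin 2 → K) (hb : b ≤ d) (hp : ∀ i, P i 0 ≠ p 0)
    (hP : ∀ i j, i ≠ j → (P i 0 - p 0) * (P j 1 - p 1) - (P i 1 - p 1) * (P j 0 - p 0) ≠ 0)
    (h1 : ∀ i, μ i + b ≤ d + 1) (hμ : ∑ i, μ i ≤ b + 1) :
    Module.finrank K (ShghT.LS d (Fin.cons b μ : Fin (s + 2) → ℕ)
      (Fin.cons p P : Fin (s + 2) → Fin 2 → K)) + (μ 0 + 1).choose 2 ≤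
    Module.finrank K (ShghT.LS d (Fin.cons b (fun i : Fin s => μ i.succ) : Fin (s + 1) → ℕ)
      (Fin.cons p (fun i : Fin s => P i.succ) : Fin (s + 1) → Fin 2 → K)) := by
  classical
  set A := ShghT.LS d (Fin.cons b μ : Fin (s + 2) → ℕ)
    (Fin.cons p P : Fin (s + 2) → Fin 2 → K) with hA
  set B := ShghT.LS d (Fin.cons b (fun i : Fin s => μ i.succ) : Fin (s + 1) → ℕ)
    (Fin.cons p (fun i : Fin s => P i.succ) : Fin (s + 1) → Fin 2 → K) with hB
  have hAB : A ≤ B := by
    intro f hf
    have := mem_cons_LS.1 hf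
    exact mem_cons_LS.2 ⟨this.1, this.2.1, fun i => this.2.2 i.succ⟩
  rcases Nat.eq_zero_or_pos (μ 0) with h0 | h0
  · rw [h0]
    have := Submodule.finrank_mono hAB
    simpa using this
  rw [Fin.sum_univ_succ] at hμ
  set g := ∑ i : Fin s, μ i.succ with hg
  set G : MvPolynomial (Fin 2) K := ∏ i : Fin s, (lam p (P i.succ)) ^ μ i.succ with hG
  have hGdeg : G.totalDegree ≤ g := by
    refine (totalDegree_finsetProd _ _).trans (Finset.sum_le_sum fun i _ => ?_)
    refine (totalDegree_pow _ _).trans ?_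
    calc μ i.succ * (lam p (P i.succ)).totalDegree
        ≤ μ i.succ * 1 := Nat.mul_le_mul_left _ (lam_degree _ _)
      _ = μ i.succ := mul_one _
  have hGp : G ∈ ShghT.pt (p 0) (p 1) ^ g := by
    have key : ∀ t : Finset (Fin s), ∏ i ∈ t, (lam p (P i.succ)) ^ μ i.succ ∈
        ShghT.pt (p 0) (p 1) ^ (∑ i ∈ t, μ i.succ) := by
      intro t
      induction t using Finset.induction_on with
      | empty =>
        rw [Finset.prod_empty, Finset.sum_empty, pow_zero, Ideal.one_eq_top]
        exact Submodule.mem_top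
      | insert a t ha ih =>
        rw [Finset.prod_insert ha, Finset.sum_insert ha, pow_add]
        exact Ideal.mul_mem_mul (Ideal.pow_mem_pow (lam_mem_left _ _) _) ih
    exact key Finset.univ
  have hGev : eval ![P 0 0, P 0 1] G ≠ 0 := by
    rw [hG, map_prod]
    refine Finset.prod_ne_zero_iff.2 fun i _ => ?_
    rw [map_pow]
    refine pow_ne_zero _ ?_
    rw [eval_lam]
    exact hP i.succ 0 (Fin.succ_ne_zero i)
  have hG0 : G ≠ 0 := by
    rintro h
    rw [h, map_zero] at hGev
    exact hGev rfl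
  set E : Submodule K (MvPolynomial (Fin 2) K) :=
    ShghT.LS (d - g) (Fin.cons (b - g) (fun i : Fin 0 => i.elim0) : Fin 1 → ℕ)
      (Fin.cons p (fun i : Fin 0 => i.elim0) : Fin 1 → Fin 2 → K) with hE
  set E' : Submodule K (MvPolynomial (Fin 2) K) :=
    ShghT.LS (d - g) (Fin.cons (b - g) (fun _ : Fin 1 => μ 0) : Fin 2 → ℕ)
      (Fin.cons p (fun _ : Fin 1 => P 0) : Fin 2 → Fin 2 → K) with hE'
  have hEE : Module.finrank K E' + (μ 0 + 1).choose 2 = Module.finrank K E := by
    have h2 := tBase K 1 (d - g) (Fin.cons (b - g) (fun i : Fin 0 => i.elim0) : Fin 1 → ℕ)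
      (Fin.cons p (fun i : Fin 0 => i.elim0) : Fin 1 → Fin 2 → K)
      (fun i j hij => absurd (Subsingleton.elim i j) hij) (by
        rw [Fin.sum_univ_succ, Fin.cons_zero]
        simp only [Finset.univ_eq_empty, Finset.sum_empty, add_zero]
        omega)
    have h3 := tBase K 2 (d - g) (Fin.cons (b - g) (fun _ : Fin 1 => μ 0) : Fin 2 → ℕ)
      (Fin.cons p (fun _ : Fin 1 => P 0) : Fin 2 → Fin 2 → K) (by
        intro i j hij
        fin_cases i <;> fin_cases j
        · exact absurd rfl hij
        · exact (hp 0).symm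
        · exact hp 0
        · exact absurd rfl hij) (by
        rw [Fin.sum_univ_succ, Fin.cons_zero, Fin.sum_univ_one, Fin.cons_succ]
        have := h1 0
        omega)
    rw [Fin.sum_univ_succ, Fin.cons_zero] at h2 h3
    rw [Fin.sum_univ_one, Fin.cons_succ] at h3
    simp only [Finset.univ_eq_empty, Finset.sum_empty, add_zero] at h2
    rw [← hE] at h2
    rw [← hE'] at h3
    omega
  have hinj : Function.Injective (LinearMap.mulLeft K G) := by
    intro f g hfg
    exact mul_left_cancel₀ hG0 hfg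
  set U := E.map (LinearMap.mulLeft K G) with hU
  have hUfin : Module.finrank K U = Module.finrank K E :=
    (Submodule.equivMapOfInjective _ hinj E).finrank_eq.symm
  have hU'fin : Module.finrank K (E'.map (LinearMap.mulLeft K G)) = Module.finrank K E' :=
    (Submodule.equivMapOfInjective _ hinj E').finrank_eq.symm
  have hUB : U ≤ B := by
    rintro _ ⟨e, he, rfl⟩
    have he' := mem_cons_LS.1 he
    refine mem_cons_LS.2 ⟨?_, ?_, fun i => ?_⟩
    · refine (totalDegree_mul G e).trans ?_
      have := he'.1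
      omega
    · change G * e ∈ _
      have h4 : g + (b - g) = b := by omega
      have h5 := Ideal.mul_mem_mul hGp he'.2.1
      rw [← pow_add, h4] at h5
      exact h5
    · change G * e ∈ _
      refine Ideal.mul_mem_right _ _ ?_
      rw [hG, ← Finset.mul_prod_erase Finset.univ _ (Finset.mem_univ i)]
      exact Ideal.mul_mem_right _ _ (Ideal.pow_mem_pow (lam_mem_right _ _) _)
  have hUA : U ⊓ A ≤ E'.map (LinearMap.mulLeft K G) := by
    rintro f ⟨⟨e, he, rfl⟩, hfA⟩
    have he' := mem_cons_LS.1 he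
    have hfA' := mem_cons_LS.1 hfA
    refine ⟨e, mem_cons_LS.2 ⟨he'.1, he'.2.1, fun i => ?_⟩, rfl⟩
    exact unit_cancel (P 0 0) (P 0 1) (μ 0) G e hGev (hfA'.2.2 0)
  have : Module.Finite K E := by rw [hE]; infer_instance
  have : Module.Finite K E' := by rw [hE']; infer_instance
  have : Module.Finite K U := by rw [hU]; infer_instance
  have : Module.Finite K (E'.map (LinearMap.mulLeft K G)) := inferInstance
  have h4 := Submodule.finrank_sup_add_finrank_inf_eq U A
  have h5 := Submodule.finrank_mono (sup_le hUB hAB)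
  have h6 := Submodule.finrank_mono hUA
  omega

/-- Independence with one very large multiplicity. -/
theorem super_base (s d b : ℕ) (p : Fin 2 → K) (μ : Fin s → ℕ)
    (P : Fin s → Fin 2 → K) (hb : b ≤ d) (hp : ∀ i, P i 0 ≠ p 0)
    (hP : ∀ i j, i ≠ j → (P i 0 - p 0) * (P j 1 - p 1) - (P i 1 - p 1) * (P j 0 - p 0) ≠ 0)
    (h1 : ∀ i, μ i + b ≤ d + 1) (hμ : ∑ i, μ i ≤ b + 1) :
    Module.finrank K (ShghT.LS d (Fin.cons b μ : Fin (s + 1) → ℕ)
      (Fin.cons p P : Fin (s + 1) → Fin 2 → K)) + ((b + 1).choose 2 + ∑ i, (μ i + 1).choose 2) =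
      (d + 2).choose 2 := by
  refine le_antisymm ?_ ?_
  · induction s with
    | zero =>
      have h2 := tBase K 1 d (Fin.cons b μ : Fin 1 → ℕ) (Fin.cons p P : Fin 1 → Fin 2 → K)
        (fun i j hij => absurd (Subsingleton.elim i j) hij) (by
          rw [Fin.sum_univ_succ, Fin.cons_zero]
          simp only [Finset.univ_eq_empty, Finset.sum_empty, add_zero]
          omega)
      rw [Fin.sum_univ_succ, Fin.cons_zero] at h2
      simp only [Finset.univ_eq_empty, Finset.sum_empty, add_zero] at h2 ⊢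
      omega
    | succ s ih =>
      have h2 := super_step s d b p μ P hb hp hP h1 hμ
      have h3 := ih (fun i => μ i.succ) (fun i => P i.succ) (fun i => hp i.succ)
        (fun i j hij => hP _ _ (fun h => hij (Fin.succ_injective _ h))) (fun i => h1 i.succ) (by
          rw [Fin.sum_univ_succ] at hμ
          omega)
      rw [Fin.sum_univ_succ]
      omega
  · have h2 := ShghT.le_finrank_LS d (Fin.cons b μ : Fin (s + 1) → ℕ)
      (Fin.cons p P : Fin (s + 1) → Fin 2 → K)
    rw [Fin.sum_univ_succ, Fin.cons_zero] at h2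
    simp only [Fin.cons_succ] at h2
    exact h2

end

section

variable (F : Type u) [Field F]

/-- Generic points: the slopes are different. -/
theorem up_det {i j l : ℕ} (hij : i ≠ j) (hil : i ≠ l) (hjl : j ≠ l) :
    (up F i 0 - up F l 0) * (up F j 1 - up F l 1) -
      (up F i 1 - up F l 1) * (up F j 0 - up F l 0) ≠ 0 := by
  classical
  intro h
  have h1 : algebraMap (MvPolynomial (ℕ × Fin 2) F) (UF F)
      ((X (i, 0) - X (l, 0)) * (X (j, 1) - X (l, 1)) -
        (X (i, 1) - X (l, 1)) * (X (j, 0) - X (l, 0))) =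
      algebraMap (MvPolynomial (ℕ × Fin 2) F) (UF F) 0 := by
    rw [map_zero]
    simp only [map_sub, map_mul]
    exact h
  have h2 := IsFractionRing.injective (MvPolynomial (ℕ × Fin 2) F) (UF F) h1
  have h3 := congrArg (eval (fun x : ℕ × Fin 2 =>
    if x = (i, 0) then (1 : F) else if x = (j, 1) then 1 else 0)) h2
  simp only [map_sub, map_mul, eval_X, map_zero, Prod.mk.injEq] at h3
  have e1 : ¬ (l = i) := fun h => hil h.symm
  have e2 : ¬ (l = j) := fun h => hjl h.symm
  have e3 : ¬ (j = i) := fun h => hij h.symm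
  simp [e1, e2, e3] at h3

/-- The super base for generic points. -/
theorem hF_super (d b : ℕ) (hb : b ≤ d) (W : Multiset ℕ) (h1 : ∀ w ∈ W, w + b ≤ d + 1)
    (h2 : W.sum ≤ b + 1) : hF F d (b ::ₘ W) + TT (b ::ₘ W) = T (d + 1) := by
  classical
  have h := super_base (K := UF F) W.toList.length d b (up F 0) (fun i => W.toList.get i)
    (fun i => up F ((i : ℕ) + 1)) hb (fun i => geo_up_ne F (by omega))
    (fun i j hij => up_det F (fun h => hij (Fin.ext (by omega))) (by omega) (by omega))
    (fun i => h1 _ (Multiset.mem_toList.1 (List.get_mem _ _))) (by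
      have e : ∑ i : Fin W.toList.length, (W.toList.get i) = W.sum := by
        have : W.sum = (Finset.univ.val.map
          (fun i : Fin W.toList.length => W.toList.get i)).sum := by rw [geo_toList]
        rw [this]
        rfl
      rw [e]
      exact h2)
  have hinv := tInv F (UF F) (W.toList.length + 1) d
    (Fin.cons b (fun i => W.toList.get i) : Fin (W.toList.length + 1) → ℕ)
    (fun i => up F i) (geo_algInd F (fun i : Fin (W.toList.length + 1) => (i : ℕ))
      Fin.val_injective)
  have e : (Finset.univ.val.map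
      (Fin.cons b (fun i => W.toList.get i) : Fin (W.toList.length + 1) → ℕ)) = b ::ₘ W := by
    rw [Fin.univ_val_map, List.ofFn_succ]
    simp only [Fin.cons_zero, Fin.cons_succ]
    rw [List.ofFn_get, ← Multiset.cons_coe, Multiset.coe_toList]
  rw [e] at hinv
  have e2 : (Fin.cons (up F 0) (fun i : Fin W.toList.length => up F ((i : ℕ) + 1)) :
      Fin (W.toList.length + 1) → Fin 2 → UF F) =
      fun i : Fin (W.toList.length + 1) => up F (i : ℕ) := by
    funext i
    refine Fin.cases ?_ (fun i => ?_) i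
    · rw [Fin.cons_zero]
      rfl
    · rw [Fin.cons_succ]
      rfl
  rw [e2, hinv] at h
  have e4 : TT (b ::ₘ W) = T b + TT W := by simp [TT]
  rw [e4, geo_T, geo_T]
  have e3 : ∑ i : Fin W.toList.length, ((W.toList.get i) + 1).choose 2 = TT W := by
    have : TT W = ((Finset.univ.val.map (fun i : Fin W.toList.length => W.toList.get i)).map
      T).sum := by rw [geo_toList]; rfl
    rw [this, Multiset.map_map]
    refine Finset.sum_congr rfl fun i _ => ?_
    rw [Function.comp_apply, geo_T]
  rw [e3] at h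
  exact h

end

end ShghI
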