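import Pool.Agent.ShghI.Ord4

/-!
# Counting ordered multiplicity vectors: exchange arguments
-/

namespace ShghI

open ShghJ

theorem T_add_ge (x y : ℕ) : T x + T y ≤ T (x + y) := by
  have h1 := two_T x
  have h2 := two_T y
  have h3 := two_T (x + y)
  nlinarith [Nat.zero_le (x * y)]

/-- TAIL: large entries are rare. -/
theorem tail_card' (n N q a i : ℕ) (hq : 1 ≤ q) (hN : N ≤ (n + 1) * q)
    (ha : 26 * q * i ≤ T (a + 1)) :
    3 ^ i * ((BB (n + 1) N).filter (fun m => ∃ l, a < m l)).card ≤
      (n + 1) * (2 ^ i * (BB (n + 1) N).card) := by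
  classical
  have h0 : ∀ l : Fin (n + 1), 3 ^ i * ((BB (n + 1) N).filter (fun m => a < m l)).card ≤
      2 ^ i * (BB (n + 1) N).card := by
    intro l
    by_cases hT : T (a + 1) ≤ N
    · refine (Nat.mul_le_mul_left _ ?_).trans (growth_iter n N q hq hN i (N - T (a + 1)) (by omega))
      refine Finset.card_le_card_of_injOn (fun m => Function.update m l (m l - (a + 1))) ?_ ?_
      · intro m hm
        rw [Finset.mem_coe, Finset.mem_filter, mem_BB] at hm
        obtain ⟨h1, h2⟩ := hm
        rw [Finset.mem_coe, mem_BB]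
        show sT (Function.update m l (m l - (a + 1))) ≤ N - T (a + 1)
        have h3 := sT_update m l (m l - (a + 1))
        have h4 := T_add_ge (m l - (a + 1)) (a + 1)
        have e : m l - (a + 1) + (a + 1) = m l := by omega
        rw [e] at h4
        omega
      · intro m hm m' hm' h
        rw [Finset.mem_coe, Finset.mem_filter] at hm hm'
        have h1 : Function.update m l (m l - (a + 1)) = Function.update m' l (m' l - (a + 1)) := h
        ext x
        have h2 := congrFun h1 x
        by_cases hx : x = l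
        · rw [hx, Function.update_self, Function.update_self] at h2
          rw [hx]
          omega
        · rwa [Function.update_of_ne hx, Function.update_of_ne hx] at h2
    · have h1 : (BB (n + 1) N).filter (fun m => a < m l) = ∅ := by
        rw [Finset.filter_eq_empty_iff]
        intro m hm hl
        rw [mem_BB] at hm
        have h2 := T_le_sT m l
        have h3 : T (a + 1) ≤ T (m l) := ShghL.T_mono hl
        omega
      rw [h1]
      simp
  calc 3 ^ i * ((BB (n + 1) N).filter (fun m => ∃ l, a < m l)).card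
      ≤ 3 ^ i * (Finset.univ.biUnion fun l => (BB (n + 1) N).filter (fun m => a < m l)).card := by
        refine Nat.mul_le_mul_left _ (Finset.card_le_card fun m hm => ?_)
        rw [Finset.mem_filter] at hm
        obtain ⟨h1, l, h2⟩ := hm
        exact Finset.mem_biUnion.2 ⟨l, Finset.mem_univ l, Finset.mem_filter.2 ⟨h1, h2⟩⟩
    _ ≤ 3 ^ i * ∑ l : Fin (n + 1), ((BB (n + 1) N).filter (fun m => a < m l)).card :=
        Nat.mul_le_mul_left _ Finset.card_biUnion_le
    _ = ∑ l : Fin (n + 1), 3 ^ i * ((BB (n + 1) N).filter (fun m => a < m l)).card := by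
        rw [Finset.mul_sum]
    _ ≤ ∑ _l : Fin (n + 1), 2 ^ i * (BB (n + 1) N).card := Finset.sum_le_sum fun l _ => h0 l
    _ = (n + 1) * (2 ^ i * (BB (n + 1) N).card) := by
        rw [Finset.sum_const, Finset.card_univ, Fintype.card_fin, smul_eq_mul]

/-- The sum of `T (m_j)` over the entries `m_j < t`. -/
def mass {s : ℕ} (m : Fin s → ℕ) (t : ℕ) : ℕ := ∑ l with m l < t, T (m l)

theorem sT_split {s : ℕ} (m : Fin s → ℕ) (t a : ℕ) (ha : ∀ l, m l ≤ a) :
    sT m ≤ mass m t + (Finset.univ.filter fun l => t ≤ m l).card * T a := by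
  have h1 : sT m = mass m t + ∑ l with ¬ m l < t, T (m l) :=
    (Finset.sum_filter_add_sum_filter_not _ _ _).symm
  have h2 : ∑ l with ¬ m l < t, T (m l) ≤ (Finset.univ.filter fun l => ¬ m l < t).card • T a :=
    Finset.sum_le_card_nsmul _ _ _ fun l _ => ShghL.T_mono (ha l)
  have h3 : (Finset.univ.filter fun l => ¬ m l < t) = Finset.univ.filter fun l => t ≤ m l :=
    Finset.filter_congr fun l _ => not_lt
  rw [h3, smul_eq_mul] at h2
  rw [h1, h3]
  omega

theorem mass_le {s : ℕ} (m : Fin s → ℕ) (t : ℕ) : mass m t ≤ s * T t := by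
  have h2 : mass m t ≤ (Finset.univ.filter fun l => m l < t).card • T t :=
    Finset.sum_le_card_nsmul _ _ _ fun l hl => ShghL.T_mono (Finset.mem_filter.1 hl).2.le
  refine h2.trans ?_
  rw [smul_eq_mul]
  refine Nat.mul_le_mul_right _ ?_
  refine (Finset.card_le_univ _).trans ?_
  rw [Fintype.card_fin]

/-- Lowering an entry `≥ t` to a value below `t`: the number of the results. -/
theorem card_above {s : ℕ} (m : Fin s → ℕ) (t v₀ v₁ L R : ℕ) (hv : v₁ ≤ t)
    (hL : L ≤ (Finset.univ.filter fun l => t ≤ m l).card) (hm : sT m ≤ R)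
    (r : (Fin s → ℕ) → Prop) [DecidablePred r]
    (hr : ∀ l v, t ≤ m l → v₀ ≤ v → v < v₁ → r (Function.update m l v)) :
    L * (v₁ - v₀) ≤ ((BB s R).filter r).card := by
  classical
  calc L * (v₁ - v₀) ≤ (Finset.univ.filter fun l => t ≤ m l).card * (Finset.Ico v₀ v₁).card := by
        rw [Nat.card_Ico]
        exact Nat.mul_le_mul_right _ hL
    _ = ((Finset.univ.filter fun l => t ≤ m l) ×ˢ Finset.Ico v₀ v₁).card :=
        (Finset.card_product _ _).symm
    _ ≤ ((BB s R).filter r).card := by
        refine Finset.card_le_card_of_injOn (fun p => Function.update m p.1 p.2) ?_ ?_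
        · rintro ⟨l, v⟩ hp
          rw [Finset.mem_coe, Finset.mem_product, Finset.mem_filter, Finset.mem_Ico] at hp
          obtain ⟨⟨-, h1⟩, h2, h3⟩ := hp
          have h1' : t ≤ m l := h1
          have h2' : v₀ ≤ v := h2
          have h3' : v < v₁ := h3
          rw [Finset.mem_coe, Finset.mem_filter, mem_BB]
          refine ⟨?_, hr l v h1' h2' h3'⟩
          show sT (Function.update m l v) ≤ R
          have h4 := sT_update m l v
          have h5 : T v ≤ T (m l) := ShghL.T_mono (by omega)
          omega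
        · rintro ⟨l, v⟩ hp ⟨l', v'⟩ hp' h
          rw [Finset.mem_coe, Finset.mem_product, Finset.mem_filter, Finset.mem_Ico] at hp hp'
          obtain ⟨⟨-, h1⟩, h2, h3⟩ := hp
          have h1' : t ≤ m l := h1
          have h3' : v < v₁ := h3
          have h : Function.update m l v = Function.update m l' v' := h
          have hll : l = l' := by
            by_contra hne
            have h4 := congrFun h l
            rw [Function.update_self, Function.update_of_ne hne] at h4
            omega
          subst hll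
          have h4 := congrFun h l
          rw [Function.update_self, Function.update_self] at h4
          rw [h4]

/-- MIDDLE: vectors with little mass below `2 h` are rare. -/
theorem exch_mid (s R a h L K : ℕ) (hh : 1 ≤ h) (hL : 4 * L * T a ≤ R)
    (hK : 4 * K * h ^ 2 ≤ R) :
    ((BB s R).filter (fun m => (∀ l, m l ≤ a) ∧ R < 2 * sT m ∧ mass m (2 * h) < K * h ^ 2)).card *
      (L * h) ≤ (BB s R).card * (2 * K * (a + 1)) := by
  classical
  refine Finset.card_mul_le_card_mul
    (fun m m' : Fin s → ℕ => ∃ l v, 2 * h ≤ m l ∧ h ≤ v ∧ v < 2 * h ∧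
      m' = Function.update m l v) ?_ ?_
  · intro m hm
    rw [Finset.mem_filter, mem_BB] at hm
    obtain ⟨h1, h2, h3, h4⟩ := hm
    have h5 := sT_split m (2 * h) a h2
    have h6 : L ≤ (Finset.univ.filter fun l => 2 * h ≤ m l).card := by
      by_contra hc
      rw [not_le] at hc
      have h7 := Nat.mul_le_mul_right (T a) hc.le
      have h8 : 4 * L * T a = 4 * (L * T a) := by ring
      have h9 : 4 * K * h ^ 2 = 4 * (K * h ^ 2) := by ring
      omega
    have h7 := card_above m (2 * h) h (2 * h) L R le_rfl h6 h1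
      (fun m' => ∃ l v, 2 * h ≤ m l ∧ h ≤ v ∧ v < 2 * h ∧ m' = Function.update m l v)
      (fun l v g1 g2 g3 => ⟨l, v, g1, g2, g3, rfl⟩)
    have e : 2 * h - h = h := by omega
    rw [e] at h7
    exact h7
  · intro m' hm'
    rcases Finset.eq_empty_or_nonempty (Finset.bipartiteBelow
      (fun m m' : Fin s → ℕ => ∃ l v, 2 * h ≤ m l ∧ h ≤ v ∧ v < 2 * h ∧
        m' = Function.update m l v)
      ((BB s R).filter (fun m => (∀ l, m l ≤ a) ∧ R < 2 * sT m ∧ mass m (2 * h) < K * h ^ 2)) m')
      with h0 | ⟨m₀, hm₀⟩
    · rw [h0]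
      simp
    set Z := (Finset.univ.filter fun l => h ≤ m' l ∧ m' l < 2 * h) with hZ
    have hZc : Z.card ≤ 2 * K := by
      rw [Finset.mem_bipartiteBelow, Finset.mem_filter] at hm₀
      obtain ⟨⟨-, h1, h2, h3⟩, l, v, h4, h5, h6, h7⟩ := hm₀
      set Z₀ := (Finset.univ.filter fun l => h ≤ m₀ l ∧ m₀ l < 2 * h) with hZ₀
      have h8 : Z ⊆ insert l Z₀ := by
        intro x hx
        rw [hZ, Finset.mem_filter, h7] at hx
        rw [Finset.mem_insert]
        by_cases hxl : x = l
        · exact Or.inl hxl
        · right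
          rw [Function.update_of_ne hxl] at hx
          exact Finset.mem_filter.2 ⟨Finset.mem_univ _, hx.2⟩
      have h9 : Z.card ≤ Z₀.card + 1 :=
        (Finset.card_le_card h8).trans (Finset.card_insert_le _ _)
      have h10 : Z₀.card • T h ≤ mass m₀ (2 * h) := by
        refine (Finset.card_nsmul_le_sum Z₀ (fun l => T (m₀ l)) (T h) fun x hx => ?_).trans ?_
        · exact ShghL.T_mono (Finset.mem_filter.1 hx).2.1
        · refine Finset.sum_le_sum_of_subset fun x hx => ?_
          exact Finset.mem_filter.2 ⟨Finset.mem_univ _, (Finset.mem_filter.1 hx).2.2⟩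
      rw [smul_eq_mul] at h10
      have h11 := two_T h
      have h12 : Z₀.card * (h * h) < 2 * K * (h * h) := by
        have h13 : Z₀.card * (h * h) ≤ 2 * (Z₀.card * T h) := by
          calc Z₀.card * (h * h) ≤ Z₀.card * (2 * T h) := Nat.mul_le_mul_left _ (by nlinarith)
            _ = _ := by ring
        have h14 : K * h ^ 2 = K * (h * h) := by ring
        nlinarith
      have h13 : Z₀.card < 2 * K := lt_of_mul_lt_mul_right h12 (Nat.zero_le _)
      omega
    calc _ ≤ ((Z ×ˢ Finset.range (a + 1)).image fun p : Fin s × ℕ =>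
          Function.update m' p.1 p.2).card := by
          refine Finset.card_le_card ?_
          intro m hm
          rw [Finset.mem_bipartiteBelow, Finset.mem_filter] at hm
          obtain ⟨⟨-, h1, h2, h3⟩, l, v, h4, h5, h6, h7⟩ := hm
          refine Finset.mem_image.2 ⟨(l, m l), Finset.mem_product.2
            ⟨Finset.mem_filter.2 ⟨Finset.mem_univ _, ?_⟩, Finset.mem_range.2 ?_⟩, ?_⟩
          · show h ≤ m' l ∧ m' l < 2 * h
            rw [h7, Function.update_self]
            exact ⟨h5, h6⟩
          · exact Nat.lt_succ_of_le (h1 l)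
          · show Function.update m' l (m l) = m
            rw [h7, Function.update_idem]
            exact Function.update_eq_self _ _
      _ ≤ (Z ×ˢ Finset.range (a + 1)).card := Finset.card_image_le
      _ = Z.card * (a + 1) := by rw [Finset.card_product, Finset.card_range]
      _ ≤ 2 * K * (a + 1) := Nat.mul_le_mul_right _ hZc

/-- The number of `w ≥ b` with `T w` in a window of length `y`. -/
theorem window_card (b c y X A : ℕ) (hb : 1 ≤ b) :
    ((Finset.range A).filter (fun w => b ≤ w ∧ c ≤ X + T w ∧ X + T w < c + y)).card ≤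
      y / b + 1 := by
  classical
  set Z := ((Finset.range A).filter (fun w => b ≤ w ∧ c ≤ X + T w ∧ X + T w < c + y)) with hZ
  rcases Finset.eq_empty_or_nonempty Z with h0 | h0
  · rw [h0]
    simp
  set w₀ := Z.min' h0 with hw₀
  have h1 := Z.min'_mem h0
  rw [← hw₀, hZ, Finset.mem_filter] at h1
  obtain ⟨-, h2, h3, h4⟩ := h1
  have h5 : Z ⊆ Finset.Icc w₀ (w₀ + y / b) := by
    intro w hw
    have h6 : w₀ ≤ w := Z.min'_le w hw
    rw [hZ, Finset.mem_filter] at hw
    obtain ⟨-, h7, h8, h9⟩ := hw
    rw [Finset.mem_Icc]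
    refine ⟨h6, ?_⟩
    obtain ⟨j, rfl⟩ := Nat.exists_eq_add_of_le h6
    refine Nat.add_le_add_left ?_ _
    rw [Nat.le_div_iff_mul_le hb]
    have h10 := two_T w₀
    have h11 := two_T (w₀ + j)
    have h12 : j * b ≤ j * w₀ := Nat.mul_le_mul_left _ h2
    have h13 : T w₀ + j * w₀ ≤ T (w₀ + j) := by nlinarith
    omega
  refine (Finset.card_le_card h5).trans ?_
  rw [Nat.card_Icc]
  generalize y / b = z
  omega

/-- SHELL: vectors with `Σ T` in a short window are rare. -/
theorem exch_shell (s R a b L c y : ℕ) (hb : 1 ≤ b) (hL : 4 * L * T a ≤ R)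
    (hsb : 4 * (s * T b) ≤ R) :
    ((BB s R).filter (fun m => (∀ l, m l ≤ a) ∧ R < 2 * sT m ∧ c ≤ sT m ∧ sT m < c + y)).card *
      (L * b) ≤ (BB s R).card * (s * (y / b + 1)) := by
  classical
  refine Finset.card_mul_le_card_mul
    (fun m m' : Fin s → ℕ => ∃ l v, b ≤ m l ∧ 0 ≤ v ∧ v < b ∧ m' = Function.update m l v) ?_ ?_
  · intro m hm
    rw [Finset.mem_filter, mem_BB] at hm
    obtain ⟨h1, h2, h3, h4⟩ := hm
    have h5 := sT_split m b a h2
    have h5' := mass_le m b
    have h6 : L ≤ (Finset.univ.filter fun l => b ≤ m l).card := by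
      by_contra hc
      rw [not_le] at hc
      have h7 := Nat.mul_le_mul_right (T a) hc.le
      have h8 : 4 * L * T a = 4 * (L * T a) := by ring
      omega
    have h7 := card_above m b 0 b L R le_rfl h6 h1
      (fun m' => ∃ l v, b ≤ m l ∧ 0 ≤ v ∧ v < b ∧ m' = Function.update m l v)
      (fun l v g1 g2 g3 => ⟨l, v, g1, g2, g3, rfl⟩)
    exact h7
  · intro m' hm'
    calc _ ≤ (Finset.univ.biUnion fun l : Fin s =>
          (((Finset.range (a + 1)).filter (fun w => b ≤ w ∧ c + T (m' l) ≤ sT m' + T w ∧
            sT m' + T w < c + T (m' l) + y)).image fun w => Function.update m' l w)).card := by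
          refine Finset.card_le_card ?_
          intro m hm
          rw [Finset.mem_bipartiteBelow, Finset.mem_filter] at hm
          obtain ⟨⟨-, h1, h2, h3, h3'⟩, l, v, h4, h5, h6, h7⟩ := hm
          have e : Function.update m' l (m l) = m := by
            rw [h7, Function.update_idem]
            exact Function.update_eq_self _ _
          have h8 := sT_update m' l (m l)
          rw [e] at h8
          refine Finset.mem_biUnion.2 ⟨l, Finset.mem_univ _, Finset.mem_image.2 ⟨m l,
            Finset.mem_filter.2 ⟨Finset.mem_range.2 (Nat.lt_succ_of_le (h1 l)), h4, ?_, ?_⟩, e⟩⟩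
          · omega
          · omega
      _ ≤ ∑ l : Fin s, (((Finset.range (a + 1)).filter (fun w => b ≤ w ∧
            c + T (m' l) ≤ sT m' + T w ∧ sT m' + T w < c + T (m' l) + y)).image
            fun w => Function.update m' l w).card := Finset.card_biUnion_le
      _ ≤ ∑ _l : Fin s, (y / b + 1) := Finset.sum_le_sum fun l _ =>
          Finset.card_image_le.trans (window_card b (c + T (m' l)) y (sT m') (a + 1) hb)
      _ = s * (y / b + 1) := by
          rw [Finset.sum_const, Finset.card_univ, Fintype.card_fin, smul_eq_mul]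

end ShghI
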