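import Pool.Agent.ShghI.Uni1
import Pool.Agent.ShghJ.MassW
import Pool.Agent.ShghJ.Tr

/-!
# The exceptional vectors in a given degree
-/

namespace ShghI

open ShghJ

/-- The vectors for which the mass condition holds up to `x`. -/
def MassOK {s : ℕ} (x : ℕ) (m : Fin s → ℕ) : Prop :=
  ∀ l, 2 ≤ m l → 62 * m l ^ 2 ≤ x + mass m (m l)

theorem mass_eq_TT {s : ℕ} (m : Fin s → ℕ) (t : ℕ) :
    mass m t = TT ((Finset.univ.val.map m).filter (fun j => j < t)) := by
  have h1 : (Finset.univ.val.map m).filter (fun j => j < t) =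
      (Finset.univ.filter (fun j => m j < t)).val.map m := by
    rw [Multiset.filter_map]
    rfl
  rw [h1, TT, Multiset.map_map]
  rfl

theorem sT_eq_TT {s : ℕ} (m : Fin s → ℕ) : sT m = TT (Finset.univ.val.map m) := by
  rw [TT, Multiset.map_map]
  rfl

/-- With the mass condition the expected dimension holds outside of a window. -/
theorem exp_of_mass {d : ℕ} {h : Multiset ℕ → ℕ} (H : HFunD d h) {s : ℕ} (x : ℕ) (m : Fin s → ℕ)
    (hm : MassOK x m) (hw : x + 8 * sT m ≤ 8 * T (d + 1) ∨ x + 13 * T (d + 1) ≤ 13 * sT m) :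
    (h (Finset.univ.val.map m) : ℤ) = max 0 ((T (d + 1) : ℤ) - sT m) := by
  obtain ⟨h1, h2⟩ := H.massWin x (Finset.univ.val.map m) (by
    intro t ht h2
    obtain ⟨l, -, rfl⟩ := Multiset.mem_map.1 ht
    rw [← mass_eq_TT]
    exact hm l h2)
  rw [← sT_eq_TT] at h1 h2
  rcases hw with hw | hw
  · have h3 := h2 hw
    have h4 : ((h (Finset.univ.val.map m) : ℤ) + sT m) = T (d + 1) := by exact_mod_cast h3
    have h5 : (0 : ℤ) ≤ h (Finset.univ.val.map m) := Nat.cast_nonneg _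
    rw [max_eq_right (by linarith)]
    linarith
  · by_cases h3 : 1 ≤ h (Finset.univ.val.map m)
    · have h4 := h1 h3
      omega
    · have h4 : h (Finset.univ.val.map m) = 0 := by omega
      have h5 : (T (d + 1) : ℤ) ≤ sT m := by
        have : T (d + 1) ≤ sT m := by omega
        exact_mod_cast this
      rw [h4, max_eq_left (by linarith)]
      rfl

/-- The mass condition fails only for vectors with little mass below some `2 ^ (k + 1) h₀`. -/
theorem not_massOK {s : ℕ} (h₀ a : ℕ) (hh : 1 ≤ h₀) (x : ℕ)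
    (hx : ∀ t, 2 ≤ t → t < 2 * h₀ → 62 * t ^ 2 ≤ x) (m : Fin s → ℕ) (ha : ∀ l, m l ≤ a)
    (h : ¬ MassOK x m) : ∃ k, 2 ^ (k + 1) * h₀ ≤ a ∧
      mass m (2 * (2 ^ k * h₀)) < 992 * (2 ^ k * h₀) ^ 2 := by
  unfold MassOK at h
  push Not at h
  obtain ⟨l, h1, h2⟩ := h
  have h3 : 2 * h₀ ≤ m l := by
    by_contra hc
    have := hx (m l) h1 (by omega)
    omega
  -- the largest `k` with `2 ^ (k + 1) h₀ ≤ m l`
  have h4 : ∃ k, 2 ^ (k + 1) * h₀ ≤ m l ∧ m l < 2 ^ (k + 2) * h₀ := by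
    set k := Nat.findGreatest (fun k => 2 ^ (k + 1) * h₀ ≤ m l) (m l) with hk
    have h5 : 2 ^ (k + 1) * h₀ ≤ m l :=
      Nat.findGreatest_spec (P := fun k => 2 ^ (k + 1) * h₀ ≤ m l) (m := 0) (Nat.zero_le _)
        (by simpa using h3)
    refine ⟨k, h5, ?_⟩
    by_contra hc
    rw [not_lt] at hc
    have h6 : k + 1 ≤ m l := by
      have h7 : k + 1 < 2 ^ (k + 1) := Nat.lt_two_pow_self
      have h8 : 2 ^ (k + 1) * 1 ≤ 2 ^ (k + 1) * h₀ := Nat.mul_le_mul_left _ hh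
      omega
    have h9 : k + 1 ≤ Nat.findGreatest (fun k => 2 ^ (k + 1) * h₀ ≤ m l) (m l) :=
      Nat.le_findGreatest h6 hc
    omega
  obtain ⟨k, h5, h6⟩ := h4
  refine ⟨k, h5.trans (ha l), ?_⟩
  have e : 2 * (2 ^ k * h₀) = 2 ^ (k + 1) * h₀ := by rw [pow_succ]; ring
  have e' : 2 ^ (k + 2) * h₀ = 4 * (2 ^ k * h₀) := by rw [pow_add]; ring
  rw [e]
  rw [e'] at h6
  have h7 : mass m (2 ^ (k + 1) * h₀) ≤ mass m (m l) := by
    refine Finset.sum_le_sum_of_subset fun j hj => ?_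
    rw [Finset.mem_filter] at hj ⊢
    exact ⟨hj.1, by omega⟩
  have h8 : m l ^ 2 ≤ 16 * (2 ^ k * h₀) ^ 2 := by nlinarith
  have h9 : 62 * m l ^ 2 ≤ 992 * (2 ^ k * h₀) ^ 2 := by omega
  omega

end ShghI
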