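import Pool.Agent.ShghI.Uni2

/-!
# The exceptional vectors in a given degree are rare: the estimates
-/

namespace ShghI

open ShghJ

open Classical in
/-- MIDDLE, summed over the dyadic scales. -/
theorem mid_sum (s R a h₀ L : ℕ) (hh : 1 ≤ h₀) (hL1 : 1 ≤ L) (hL : 4 * L * T a ≤ R)
    (ha : 992 * a ^ 2 ≤ R) :
    (((BB s R).filter (fun m => (∀ l, m l ≤ a) ∧ R < 2 * sT m ∧ ∃ k, 2 ^ (k + 1) * h₀ ≤ a ∧
      mass m (2 * (2 ^ k * h₀)) < 992 * (2 ^ k * h₀) ^ 2)).card : ℝ) ≤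
      3968 * (a + 1) / (L * h₀) * (BB s R).card := by
  have hL0 : (0 : ℝ) < L := by exact_mod_cast hL1
  have hh0 : (0 : ℝ) < h₀ := by exact_mod_cast hh
  set P := (BB s R).card with hP
  have h1 : (BB s R).filter (fun m => (∀ l, m l ≤ a) ∧ R < 2 * sT m ∧ ∃ k, 2 ^ (k + 1) * h₀ ≤ a ∧
      mass m (2 * (2 ^ k * h₀)) < 992 * (2 ^ k * h₀) ^ 2) ⊆
      ((Finset.range a).filter fun k => 2 ^ (k + 1) * h₀ ≤ a).biUnion fun k =>
        (BB s R).filter (fun m => (∀ l, m l ≤ a) ∧ R < 2 * sT m ∧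
          mass m (2 * (2 ^ k * h₀)) < 992 * (2 ^ k * h₀) ^ 2) := by
    intro m hm
    rw [Finset.mem_filter] at hm
    obtain ⟨g1, g2, g3, k, g4, g5⟩ := hm
    refine Finset.mem_biUnion.2 ⟨k, Finset.mem_filter.2 ⟨Finset.mem_range.2 ?_, g4⟩,
      Finset.mem_filter.2 ⟨g1, g2, g3, g5⟩⟩
    have h7 : k + 1 < 2 ^ (k + 1) := Nat.lt_two_pow_self
    have h8 : 2 ^ (k + 1) * 1 ≤ 2 ^ (k + 1) * h₀ := Nat.mul_le_mul_left _ hh
    omega
  have h2 := (Finset.card_le_card h1).trans Finset.card_biUnion_le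
  have h3 : ∀ k ∈ (Finset.range a).filter (fun k => 2 ^ (k + 1) * h₀ ≤ a),
      (((BB s R).filter (fun m => (∀ l, m l ≤ a) ∧ R < 2 * sT m ∧
        mass m (2 * (2 ^ k * h₀)) < 992 * (2 ^ k * h₀) ^ 2)).card : ℝ) ≤
      1984 * (a + 1) / (L * h₀) * P * (1 / 2) ^ k := by
    intro k hk
    have hk' := (Finset.mem_filter.1 hk).2
    have g1 : 1 ≤ 2 ^ k * h₀ := Nat.mul_pos (by positivity) hh
    have g2 : 4 * 992 * (2 ^ k * h₀) ^ 2 ≤ R := by
      have e : 2 ^ (k + 1) * h₀ = 2 * (2 ^ k * h₀) := by rw [pow_succ]; ring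
      rw [e] at hk'
      have g3 := Nat.pow_le_pow_left hk' 2
      have g4 : (2 * (2 ^ k * h₀)) ^ 2 = 4 * (2 ^ k * h₀) ^ 2 := by ring
      rw [g4] at g3
      omega
    have g3 := exch_mid s R a (2 ^ k * h₀) L 992 g1 hL g2
    have g4 : (((BB s R).filter (fun m => (∀ l, m l ≤ a) ∧ R < 2 * sT m ∧
        mass m (2 * (2 ^ k * h₀)) < 992 * (2 ^ k * h₀) ^ 2)).card : ℝ) * (L * (2 ^ k * h₀)) ≤
        P * (2 * 992 * (a + 1)) := by exact_mod_cast g3
    have g5 : (0 : ℝ) < L * (2 ^ k * h₀) := by positivity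
    rw [← le_div_iff₀ g5] at g4
    refine g4.trans (le_of_eq ?_)
    rw [one_div, inv_pow]
    field_simp
    ring
  have h4 : (∑ k ∈ (Finset.range a).filter (fun k => 2 ^ (k + 1) * h₀ ≤ a),
      (((BB s R).filter (fun m => (∀ l, m l ≤ a) ∧ R < 2 * sT m ∧
        mass m (2 * (2 ^ k * h₀)) < 992 * (2 ^ k * h₀) ^ 2)).card : ℝ)) ≤
      1984 * (a + 1) / (L * h₀) * P * 2 := by
    refine (Finset.sum_le_sum h3).trans ?_
    rw [← Finset.mul_sum]
    refine mul_le_mul_of_nonneg_left ?_ (by positivity)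
    refine (Finset.sum_le_sum_of_subset_of_nonneg (Finset.filter_subset _ _)
      (fun _ _ _ => by positivity)).trans ?_
    exact sum_geometric_two_le a
  have h5 : (((BB s R).filter (fun m => (∀ l, m l ≤ a) ∧ R < 2 * sT m ∧
      ∃ k, 2 ^ (k + 1) * h₀ ≤ a ∧
      mass m (2 * (2 ^ k * h₀)) < 992 * (2 ^ k * h₀) ^ 2)).card : ℝ) ≤
      ∑ k ∈ (Finset.range a).filter (fun k => 2 ^ (k + 1) * h₀ ≤ a),
      (((BB s R).filter (fun m => (∀ l, m l ≤ a) ∧ R < 2 * sT m ∧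
        mass m (2 * (2 ^ k * h₀)) < 992 * (2 ^ k * h₀) ^ 2)).card : ℝ) := by exact_mod_cast h2
  refine (h5.trans h4).trans (le_of_eq ?_)
  ring

/-- The vectors which are possibly exceptional: the mass condition fails, or `Σ T` is in the window
around `N`. -/
def Exc {s : ℕ} (x N : ℕ) (m : Fin s → ℕ) : Prop :=
  ¬ (MassOK x m ∧ (x + 8 * sT m ≤ 8 * N ∨ x + 13 * N ≤ 13 * sT m))

open Classical in
/-- The union bound. -/
theorem exc_card_le (s R a h₀ : ℕ) (hh : 1 ≤ h₀) (N : ℕ) :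
    ((BB s R).filter (Exc (if h₀ = 1 then 0 else 248 * h₀ ^ 2) N)).card ≤
      ((BB s R).filter (fun m => ∃ l, a < m l)).card +
      ((BB s R).filter (fun m => 2 * sT m ≤ R)).card +
      ((BB s R).filter (fun m => (∀ l, m l ≤ a) ∧ R < 2 * sT m ∧ ∃ k, 2 ^ (k + 1) * h₀ ≤ a ∧
        mass m (2 * (2 ^ k * h₀)) < 992 * (2 ^ k * h₀) ^ 2)).card +
      (if h₀ = 1 then 0 else
        ((BB s R).filter (fun m => (∀ l, m l ≤ a) ∧ R < 2 * sT m ∧ N - 31 * h₀ ^ 2 ≤ sT m ∧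
          sT m < N - 31 * h₀ ^ 2 + 51 * h₀ ^ 2)).card) := by
  set x := (if h₀ = 1 then 0 else 248 * h₀ ^ 2) with hx
  have hx1 : ∀ t, 2 ≤ t → t < 2 * h₀ → 62 * t ^ 2 ≤ x := by
    intro t h1 h2
    rw [hx]
    split_ifs with h3
    · omega
    · nlinarith
  set A := (BB s R).filter (fun m => ∃ l, a < m l) with hA
  set B := (BB s R).filter (fun m => 2 * sT m ≤ R) with hB
  set F := (BB s R).filter (fun m => (∀ l, m l ≤ a) ∧ R < 2 * sT m ∧ ∃ k, 2 ^ (k + 1) * h₀ ≤ a ∧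
        mass m (2 * (2 ^ k * h₀)) < 992 * (2 ^ k * h₀) ^ 2) with hF
  set V := (BB s R).filter (fun m => (∀ l, m l ≤ a) ∧ R < 2 * sT m ∧ N - 31 * h₀ ^ 2 ≤ sT m ∧
          sT m < N - 31 * h₀ ^ 2 + 51 * h₀ ^ 2) with hV
  have h1 : (BB s R).filter (Exc x N) ⊆ ((A ∪ B) ∪ F) ∪ (if h₀ = 1 then ∅ else V) := by
    intro m hm
    rw [Finset.mem_filter] at hm
    obtain ⟨hm, hE⟩ := hm
    by_cases hmA : ∃ l, a < m l
    · exact Finset.mem_union_left _ (Finset.mem_union_left _ (Finset.mem_union_left _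
        (Finset.mem_filter.2 ⟨hm, hmA⟩)))
    by_cases hmB : 2 * sT m ≤ R
    · exact Finset.mem_union_left _ (Finset.mem_union_left _ (Finset.mem_union_right _
        (Finset.mem_filter.2 ⟨hm, hmB⟩)))
    have hmA' : ∀ l, m l ≤ a := fun l => not_lt.1 fun h => hmA ⟨l, h⟩
    have hmB' : R < 2 * sT m := not_le.1 hmB
    by_cases hmF : MassOK x m
    · have hw : ¬ (x + 8 * sT m ≤ 8 * N ∨ x + 13 * N ≤ 13 * sT m) := fun h => hE ⟨hmF, h⟩
      rw [not_or, not_le, not_le] at hw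
      obtain ⟨w1, w2⟩ := hw
      by_cases h3 : h₀ = 1
      · exfalso
        rw [if_pos h3] at hx
        omega
      · rw [if_neg h3] at hx
        refine Finset.mem_union_right _ ?_
        rw [if_neg h3]
        refine Finset.mem_filter.2 ⟨hm, hmA', hmB', ?_, ?_⟩
        · omega
        · omega
    · refine Finset.mem_union_left _ (Finset.mem_union_right _ (Finset.mem_filter.2
        ⟨hm, hmA', hmB', not_massOK h₀ a hh x hx1 m hmA' hmF⟩))
  refine (Finset.card_le_card h1).trans ?_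
  refine (Finset.card_union_le _ _).trans ?_
  refine Nat.add_le_add ((Finset.card_union_le _ _).trans
    (Nat.add_le_add_right (Finset.card_union_le _ _) _)) ?_
  split_ifs with h3
  · simp
  · exact le_rfl

/-- Few conditions. -/
theorem case_low (s R : ℕ) (hs : 100 ≤ s) (hR : R ^ 2 ≤ s) :
    (((BB s R).filter (fun m => ∃ l, 2 ≤ m l)).card : ℝ) ≤ 8 / √s * (BB s R).card := by
  have hs0 : (0 : ℝ) < s := by exact_mod_cast (show 0 < s by omega)
  have hσ0 : 0 < √(s : ℝ) := Real.sqrt_pos.2 hs0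
  rcases Nat.eq_zero_or_pos R with rfl | hR0
  · have h2 : ((BB s 0).filter (fun m => ∃ l, 2 ≤ m l)) = ∅ := by
      rw [Finset.filter_eq_empty_iff]
      rintro m hm ⟨l, hl⟩
      rw [mem_BB] at hm
      have h3 := T_le_sT m l
      have h4 := le_T (m l)
      omega
    rw [h2]
    have : (0 : ℝ) ≤ 8 / √s * (BB s 0).card := by positivity
    simpa using this
  obtain ⟨r, rfl⟩ : ∃ r, R = r + 1 := ⟨R - 1, by omega⟩
  have h2 := low_card s r
  have h3 : 2 * (r + 1) ≤ s := by nlinarith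
  obtain ⟨t, ht⟩ : ∃ t, s = (r + 1) + t := ⟨s - (r + 1), by omega⟩
  have h7 : s - (r + 1) = t := by omega
  rw [h7] at h2
  generalize ((BB s (r + 1)).filter (fun m => ∃ l, 2 ≤ m l)).card = X at h2 ⊢
  generalize (BB s (r + 1)).card = P at h2 ⊢
  have h8 : s ≤ 2 * t := by omega
  have h2' : (X : ℝ) * t * t ≤ P * ((r + 1 : ℕ) : ℝ) ^ 3 := by exact_mod_cast h2
  have h8' : (s : ℝ) ≤ 2 * t := by exact_mod_cast h8
  have hR' : ((r + 1 : ℕ) : ℝ) ^ 2 ≤ s := by exact_mod_cast hR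
  set ρ : ℝ := ((r + 1 : ℕ) : ℝ) with hρ
  have hρ0 : 0 ≤ ρ := Nat.cast_nonneg _
  set σ := √(s : ℝ) with hσ
  have hσ2 : σ ^ 2 = s := Real.sq_sqrt hs0.le
  have hρσ : ρ ≤ σ := Real.le_sqrt_of_sq_le hR'
  rw [div_mul_eq_mul_div, le_div_iff₀ hσ0]
  -- `X t² ≤ P ρ³ ≤ P σ³` and `σ⁴ = s² ≤ 4 t²`
  have h9 : ρ ^ 3 ≤ σ ^ 3 := pow_le_pow_left₀ hρ0 hρσ 3
  have h10 : (X : ℝ) * σ ^ 4 ≤ 4 * P * σ ^ 3 := by
    have e : σ ^ 4 = (s : ℝ) * s := by rw [← hσ2]; ring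
    have h11 : (s : ℝ) * s ≤ (2 * t) * (2 * t) := mul_self_le_mul_self hs0.le h8'
    calc (X : ℝ) * σ ^ 4 ≤ X * ((2 * t) * (2 * t)) := by
          rw [e]
          exact mul_le_mul_of_nonneg_left h11 (Nat.cast_nonneg _)
      _ = 4 * (X * t * t) := by ring
      _ ≤ 4 * (P * ρ ^ 3) := by linarith
      _ ≤ 4 * (P * σ ^ 3) := by
          have := mul_le_mul_of_nonneg_left h9 (Nat.cast_nonneg P : (0 : ℝ) ≤ P)
          linarith
      _ = _ := by ring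
  have h12 : ((X : ℝ) * σ) * σ ^ 3 ≤ (4 * P) * σ ^ 3 := by
    calc ((X : ℝ) * σ) * σ ^ 3 = X * σ ^ 4 := by ring
      _ ≤ _ := h10
  have h13 := le_of_mul_le_mul_right h12 (by positivity)
  have : (0 : ℝ) ≤ P := Nat.cast_nonneg _
  linarith

end ShghI
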