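import Pool.Agent.ShghI.Uni3

/-!
# The exceptional vectors in a given degree are rare: the numbers
-/

namespace ShghI

open ShghJ

theorem num_E3 (a L R h : ℝ) (ha : 1 ≤ a) (hL : 0 < L) (hR : 0 < R) (hh : 0 < h)
    (h1 : R ≤ 8 * a ^ 2 * L) : 3968 * (a + 1) / (L * h) ≤ 63488 * a ^ 3 / (R * h) := by
  rw [div_le_div_iff₀ (by positivity) (by positivity)]
  have h2 : (a + 1) * R ≤ (2 * a) * (8 * a ^ 2 * L) :=
    mul_le_mul (by linarith) h1 hR.le (by linarith)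
  calc 3968 * (a + 1) * (R * h) = 3968 * ((a + 1) * R) * h := by ring
    _ ≤ 3968 * ((2 * a) * (8 * a ^ 2 * L)) * h :=
        mul_le_mul_of_nonneg_right (by linarith) hh.le
    _ = 63488 * a ^ 3 * (L * h) := by ring

/-- Case B: `σ ≤ R ≤ s²`. -/
theorem num_B (a ℓ R s σ : ℝ) (hℓ : 0.69 ≤ ℓ) (hσ : 1 ≤ σ) (hs : σ ^ 2 = s)
    (hR1 : σ ≤ R) (hR2 : R ≤ s ^ 2) (h1 : a ^ 2 ≤ 3536 * ℓ * (2 * R / s + 1)) :
    63488 * a ^ 3 / R ≤ (1 / 2) * (10 ^ 12 * ℓ ^ 2 / σ) := by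
  have hR0 : 0 < R := by linarith
  have hs0 : 0 < s := by rw [← hs]; positivity
  have hs1 : 1 ≤ s := by rw [← hs]; exact one_le_pow₀ hσ
  have e : (1 / 2) * (10 ^ 12 * ℓ ^ 2 / σ) = ((1 / 2) * 10 ^ 12 * ℓ ^ 2) / σ := by ring
  rw [e, div_le_div_iff₀ hR0 (by linarith)]
  obtain ⟨ρ, hρ⟩ : ∃ ρ, ρ = 2 * R / s + 1 := ⟨_, rfl⟩
  rw [← hρ] at h1
  have hρ0 : 0 ≤ ρ := by rw [hρ]; positivity
  have hρs : ρ * s = 2 * R + s := by
    rw [hρ, add_mul, div_mul_cancel₀ _ hs0.ne', one_mul]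
  have key : ρ ^ 3 * s ≤ 27 * R ^ 2 := by
    rcases le_total s R with h2 | h2
    · -- `ρ s ≤ 3 R`
      have h3 : ρ * s ≤ 3 * R := by linarith
      have h4 : (ρ * s) ^ 3 ≤ (3 * R) ^ 3 := pow_le_pow_left₀ (by positivity) h3 3
      have h5 : (ρ ^ 3 * s) * s ^ 2 ≤ (27 * R ^ 2) * s ^ 2 := by
        calc (ρ ^ 3 * s) * s ^ 2 = (ρ * s) ^ 3 := by ring
          _ ≤ (3 * R) ^ 3 := h4
          _ = 27 * R ^ 2 * R := by ring
          _ ≤ 27 * R ^ 2 * s ^ 2 := mul_le_mul_of_nonneg_left hR2 (by positivity)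
      exact le_of_mul_le_mul_right h5 (by positivity)
    · have h3 : ρ ≤ 3 := by
        have h4 : ρ * s ≤ 3 * s := by linarith
        exact le_of_mul_le_mul_right h4 hs0
      have h4 : ρ ^ 3 ≤ 3 ^ 3 := pow_le_pow_left₀ hρ0 h3 3
      have h5 : σ ^ 2 ≤ R ^ 2 := pow_le_pow_left₀ (by linarith) hR1 2
      rw [hs] at h5
      calc ρ ^ 3 * s ≤ 3 ^ 3 * s := mul_le_mul_of_nonneg_right h4 hs0.le
        _ ≤ 27 * R ^ 2 := by linarith
  have hsq : (63488 * a ^ 3 * σ) ^ 2 ≤ ((1 / 2) * 10 ^ 12 * ℓ ^ 2 * R) ^ 2 := by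
    have h6 : (a ^ 2) ^ 3 ≤ (3536 * ℓ * ρ) ^ 3 := pow_le_pow_left₀ (by positivity) h1 3
    calc (63488 * a ^ 3 * σ) ^ 2 = 63488 ^ 2 * (a ^ 2) ^ 3 * s := by rw [← hs]; ring
      _ ≤ 63488 ^ 2 * (3536 * ℓ * ρ) ^ 3 * s := by
          refine mul_le_mul_of_nonneg_right ?_ hs0.le
          linarith
      _ = (63488 ^ 2 * 3536 ^ 3 * ℓ ^ 3) * (ρ ^ 3 * s) := by ring
      _ ≤ (63488 ^ 2 * 3536 ^ 3 * ℓ ^ 3) * (27 * R ^ 2) :=
          mul_le_mul_of_nonneg_left key (by positivity)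
      _ = (63488 ^ 2 * 3536 ^ 3 * 27) * (ℓ ^ 3 * R ^ 2) := by ring
      _ ≤ (10 ^ 22) * (ℓ ^ 3 * R ^ 2) := by
          refine mul_le_mul_of_nonneg_right ?_ (by positivity)
          norm_num
      _ ≤ ((1 / 4) * 10 ^ 24 * ℓ) * (ℓ ^ 3 * R ^ 2) := by
          refine mul_le_mul_of_nonneg_right ?_ (by positivity)
          linarith
      _ = ((1 / 2) * 10 ^ 12 * ℓ ^ 2 * R) ^ 2 := by ring
  exact le_of_sq_le_sq hsq (by positivity)

/-- Case A: `R ≥ s²`. -/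
theorem num_A1 (a ℓ R s σ h : ℝ) (hℓ : 0.69 ≤ ℓ) (hσ : 10 ≤ σ) (hs : σ ^ 2 = s)
    (hR : s ≤ R) (h1 : a ^ 2 ≤ 3536 * ℓ * (2 * R / s + 1)) (hh : 0 < h)
    (h2 : R ≤ 4 * h ^ 2 * (s * σ)) :
    63488 * a ^ 3 / (R * h) ≤ (1 / 5) * (10 ^ 12 * ℓ ^ 2 / σ) := by
  have hs0 : 0 < s := by rw [← hs]; positivity
  have hR0 : 0 < R := by linarith
  have hσ0 : 0 < σ := by linarith
  have e : (1 / 5) * (10 ^ 12 * ℓ ^ 2 / σ) = ((1 / 5) * 10 ^ 12 * ℓ ^ 2) / σ := by ring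
  rw [e, div_le_div_iff₀ (by positivity) hσ0]
  have h3 : a ^ 2 * s ≤ 10608 * ℓ * R := by
    have h4 : (2 * R / s + 1) * s = 2 * R + s := by
      rw [add_mul, div_mul_cancel₀ _ hs0.ne', one_mul]
    calc a ^ 2 * s ≤ 3536 * ℓ * (2 * R / s + 1) * s := mul_le_mul_of_nonneg_right h1 hs0.le
      _ = 3536 * ℓ * (2 * R + s) := by rw [mul_assoc, h4]
      _ ≤ 3536 * ℓ * (3 * R) := mul_le_mul_of_nonneg_left (by linarith) (by positivity)
      _ = _ := by ring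
  have hsq : (63488 * a ^ 3 * σ) ^ 2 ≤ ((1 / 5) * 10 ^ 12 * ℓ ^ 2 * (R * h)) ^ 2 := by
    have h6 : (a ^ 2 * s) ^ 3 ≤ (10608 * ℓ * R) ^ 3 := pow_le_pow_left₀ (by positivity) h3 3
    have h7 : (63488 * a ^ 3 * σ) ^ 2 * s ^ 2 ≤ 10 ^ 22 * (ℓ ^ 3 * R ^ 3) := by
      calc (63488 * a ^ 3 * σ) ^ 2 * s ^ 2 = 63488 ^ 2 * (a ^ 2 * s) ^ 3 := by
            rw [← hs]; ring
        _ ≤ 63488 ^ 2 * (10608 * ℓ * R) ^ 3 := by linarith
        _ = (63488 ^ 2 * 10608 ^ 3) * (ℓ ^ 3 * R ^ 3) := by ring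
        _ ≤ 10 ^ 22 * (ℓ ^ 3 * R ^ 3) := by
            refine mul_le_mul_of_nonneg_right ?_ (by positivity)
            norm_num
    have h8 : 10 ^ 22 * (ℓ ^ 3 * R ^ 3) ≤ ((1 / 5) * 10 ^ 12 * ℓ ^ 2 * (R * h)) ^ 2 * s ^ 2 := by
      have h9 : R ^ 3 ≤ R ^ 2 * (4 * h ^ 2 * (s * σ)) := by
        calc R ^ 3 = R ^ 2 * R := by ring
          _ ≤ _ := mul_le_mul_of_nonneg_left h2 (by positivity)
      have h10 : (1 : ℝ) ≤ ℓ * σ := by nlinarith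
      calc 10 ^ 22 * (ℓ ^ 3 * R ^ 3) ≤ 10 ^ 22 * (ℓ ^ 3 * (R ^ 2 * (4 * h ^ 2 * (s * σ)))) := by
            refine mul_le_mul_of_nonneg_left ?_ (by positivity)
            exact mul_le_mul_of_nonneg_left h9 (by positivity)
        _ = (4 * 10 ^ 22 * ℓ ^ 3 * R ^ 2 * h ^ 2 * s * σ) * 1 := by ring
        _ ≤ (4 * 10 ^ 22 * ℓ ^ 3 * R ^ 2 * h ^ 2 * s * σ) * (ℓ * σ) := by
            exact mul_le_mul_of_nonneg_left h10 (by positivity)
        _ = (1 / 25) * 10 ^ 24 * ℓ ^ 4 * R ^ 2 * h ^ 2 * s * σ ^ 2 := by ring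
        _ = ((1 / 5) * 10 ^ 12 * ℓ ^ 2 * (R * h)) ^ 2 * s ^ 2 := by rw [hs]; ring
    exact le_of_mul_le_mul_right (h7.trans h8) (by positivity)
  exact le_of_sq_le_sq hsq (by positivity)

theorem num_A2 (a ℓ R s σ h b L : ℝ) (hℓ : 0.69 ≤ ℓ) (hσ : 10 ≤ σ) (hs : σ ^ 2 = s)
    (hR : s ^ 2 ≤ R) (h1 : a ^ 2 ≤ 3536 * ℓ * (2 * R / s + 1)) (hh : h ^ 2 * (s * σ) ≤ R)
    (hb : 0 < b) (hb2 : R ≤ 16 * s * b ^ 2) (hL : 0 < L) (h2 : R ≤ 8 * a ^ 2 * L) :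
    s * (51 * h ^ 2 / b + 1) / (L * b) ≤ (1 / 10) * (10 ^ 12 * ℓ ^ 2 / σ) := by
  have hs0 : 0 < s := by rw [← hs]; positivity
  have hs1 : 1 ≤ s := by rw [← hs]; exact one_le_pow₀ (by linarith)
  have hR0 : 0 < R := by nlinarith
  have hσ0 : 0 < σ := by linarith
  have hsR : s ≤ R := by nlinarith
  have h3 : a ^ 2 * s ≤ 10608 * ℓ * R := by
    have h4 : (2 * R / s + 1) * s = 2 * R + s := by
      rw [add_mul, div_mul_cancel₀ _ hs0.ne', one_mul]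
    calc a ^ 2 * s ≤ 3536 * ℓ * (2 * R / s + 1) * s := mul_le_mul_of_nonneg_right h1 hs0.le
      _ = 3536 * ℓ * (2 * R + s) := by rw [mul_assoc, h4]
      _ ≤ 3536 * ℓ * (3 * R) := mul_le_mul_of_nonneg_left (by linarith) (by positivity)
      _ = _ := by ring
  have h4 : s / L ≤ 84864 * ℓ := by
    rw [div_le_iff₀ hL]
    have h5 : R * s ≤ (84864 * ℓ * L) * R := by
      calc R * s ≤ (8 * a ^ 2 * L) * s := mul_le_mul_of_nonneg_right h2 hs0.le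
        _ = 8 * L * (a ^ 2 * s) := by ring
        _ ≤ 8 * L * (10608 * ℓ * R) := mul_le_mul_of_nonneg_left h3 (by positivity)
        _ = _ := by ring
    have h6 : s * R ≤ (84864 * ℓ * L) * R := by linarith
    exact le_of_mul_le_mul_right h6 hR0
  have h5 : 51 * h ^ 2 / b / b ≤ 816 / σ := by
    rw [div_div, div_le_div_iff₀ (by positivity) hσ0]
    have h6 : (h ^ 2 * σ) * s ≤ (16 * b ^ 2) * s := by
      calc (h ^ 2 * σ) * s = h ^ 2 * (s * σ) := by ring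
        _ ≤ R := hh
        _ ≤ 16 * s * b ^ 2 := hb2
        _ = _ := by ring
    have h7 := le_of_mul_le_mul_right h6 hs0
    calc 51 * h ^ 2 * σ = 51 * (h ^ 2 * σ) := by ring
      _ ≤ 51 * (16 * b ^ 2) := by linarith
      _ = 816 * (b * b) := by ring
  have h6 : 1 / b ≤ 4 / σ := by
    rw [div_le_div_iff₀ hb hσ0]
    have h7 : σ ^ 2 ≤ (4 * b) ^ 2 := by
      have h8 : s * s ≤ (4 * b) ^ 2 * s := by
        calc s * s = s ^ 2 := by ring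
          _ ≤ R := hR
          _ ≤ 16 * s * b ^ 2 := hb2
          _ = _ := by ring
      rw [hs]
      exact le_of_mul_le_mul_right h8 hs0
    have := le_of_sq_le_sq h7 (by positivity)
    linarith
  have e : s * (51 * h ^ 2 / b + 1) / (L * b) = (s / L) * (51 * h ^ 2 / b / b + 1 / b) := by
    field_simp
  rw [e]
  have h7 : (0 : ℝ) ≤ 51 * h ^ 2 / b / b + 1 / b := by positivity
  have h8 : 51 * h ^ 2 / b / b + 1 / b ≤ 820 / σ := by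
    have e' : 820 / σ = 816 / σ + 4 / σ := by ring
    rw [e']
    linarith
  calc (s / L) * (51 * h ^ 2 / b / b + 1 / b) ≤ (84864 * ℓ) * (820 / σ) :=
        mul_le_mul h4 h8 h7 (by positivity)
    _ = (69588480 * ℓ) / σ := by ring
    _ ≤ ((1 / 10) * 10 ^ 12 * ℓ ^ 2) / σ := by
        refine div_le_div_of_nonneg_right ?_ hσ0.le
        nlinarith
    _ = _ := by ring

/-- The choice of `a` and `L`. -/
theorem choose_aL (q i R : ℕ) (hq : 1 ≤ q) (hi : 1 ≤ i) (hR : 992 * (208 * q * i) ≤ R) :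
    ∃ a L : ℕ, 1 ≤ a ∧ 1 ≤ L ∧ 26 * q * i ≤ T (a + 1) ∧ a ^ 2 ≤ 208 * q * i ∧
      4 * L * T a ≤ R ∧ 992 * a ^ 2 ≤ R ∧ R ≤ 8 * a ^ 2 * L := by
  set r := Nat.sqrt (52 * q * i) with hr
  have h1 : r * r ≤ 52 * q * i := Nat.sqrt_le _
  have h2 : 52 * q * i < (r + 1) * (r + 1) := Nat.lt_succ_sqrt _
  have hqi : 1 ≤ q * i := Nat.mul_pos hq hi
  have e52 : 52 * q * i = 52 * (q * i) := by ring
  have hr1 : 1 ≤ r := by
    by_contra hc
    have : r = 0 := by omega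
    rw [this] at h2
    omega
  have ha : (r + 1) ^ 2 ≤ 208 * q * i := by
    have h3 : r + 1 ≤ 2 * r := by omega
    calc (r + 1) ^ 2 ≤ (2 * r) ^ 2 := Nat.pow_le_pow_left h3 2
      _ = 4 * (r * r) := by ring
      _ ≤ 4 * (52 * q * i) := Nat.mul_le_mul_left _ h1
      _ = _ := by ring
  have hT : T (r + 1) ≤ (r + 1) ^ 2 := by
    have h3 := two_T (r + 1)
    nlinarith
  have hT1 : 1 ≤ T (r + 1) := (show 1 ≤ r + 1 by omega).trans (le_T _)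
  have h992 : 992 * (r + 1) ^ 2 ≤ R := (Nat.mul_le_mul_left _ ha).trans hR
  have hdiv := Nat.div_add_mod R (4 * T (r + 1))
  have hmod := Nat.mod_lt R (show 0 < 4 * T (r + 1) by omega)
  set L := R / (4 * T (r + 1)) with hL
  have h4 : 4 * T (r + 1) * L ≤ R := by omega
  have h5 : R < 4 * T (r + 1) * (L + 1) := by
    have e5 : 4 * T (r + 1) * (L + 1) = 4 * T (r + 1) * L + 4 * T (r + 1) := by ring
    rw [e5]
    omega
  have hL1 : 1 ≤ L := by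
    by_contra hc
    have h6 : L = 0 := Nat.lt_one_iff.1 (not_le.1 hc)
    rw [h6] at h5
    omega
  refine ⟨r + 1, L, by omega, hL1, ?_, ha, ?_, h992, ?_⟩
  · have h6 := two_T (r + 1 + 1)
    have e : 26 * q * i * 2 = 52 * q * i := by ring
    nlinarith
  · calc 4 * L * T (r + 1) = 4 * T (r + 1) * L := by ring
      _ ≤ R := h4
  · calc R ≤ 4 * T (r + 1) * (L + 1) := h5.le
      _ ≤ 4 * (r + 1) ^ 2 * (2 * L) := Nat.mul_le_mul (Nat.mul_le_mul_left _ hT) (by linarith)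
      _ = _ := by ring

end ShghI
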