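import Pool.Agent.ShghI.Uni4

/-!
# The exceptional vectors in a given degree are rare
-/

namespace ShghI

open ShghJ

theorem floor_sqrt (v : ℝ) (hv : 1 ≤ v) : ∃ h : ℕ, 1 ≤ h ∧ (h : ℝ) ^ 2 ≤ v ∧ v ≤ 4 * (h : ℝ) ^ 2 := by
  have h0 : 0 ≤ √v := Real.sqrt_nonneg v
  have h1 : √v ^ 2 = v := Real.sq_sqrt (by linarith)
  have h2 : 1 ≤ √v := Real.one_le_sqrt.2 hv
  have h3 : (⌊√v⌋₊ : ℝ) ≤ √v := Nat.floor_le h0
  have h4 : √v < ⌊√v⌋₊ + 1 := Nat.lt_floor_add_one _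
  have h5 : 1 ≤ ⌊√v⌋₊ := Nat.le_floor (by exact_mod_cast h2)
  have h6 : (1 : ℝ) ≤ ⌊√v⌋₊ := by exact_mod_cast h5
  refine ⟨⌊√v⌋₊, h5, ?_, ?_⟩
  · calc (⌊√v⌋₊ : ℝ) ^ 2 ≤ √v ^ 2 := pow_le_pow_left₀ (Nat.cast_nonneg _) h3 2
      _ = v := h1
  · have h7 : √v ≤ 2 * ⌊√v⌋₊ := by linarith
    have h8 := pow_le_pow_left₀ h0 h7 2
    rw [h1] at h8
    linarith

theorem exc_zero {s : ℕ} (N : ℕ) (m : Fin s → ℕ) (h : Exc 0 N m) : ∃ l, 2 ≤ m l := by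
  by_contra hc
  push Not at hc
  refine h ⟨fun l hl => ?_, ?_⟩
  · have := hc l
    omega
  · rcases le_total (sT m) N with h1 | h1
    · left
      omega
    · right
      omega

/-- The numbers `q`, `i`, `a`, `L`. -/
theorem choose_all (n R : ℕ) (σ : ℝ) (hσ0 : 0 ≤ σ) (hσ2 : σ ^ 2 = ((n + 2 : ℕ) : ℝ))
    (hℓ : 0.69 ≤ Real.log ((n + 2 : ℕ) : ℝ))
    (hΛ : 10 ^ 12 * Real.log ((n + 2 : ℕ) : ℝ) ^ 2 < σ) (hR : σ < R) :
    ∃ q i a L : ℕ, 1 ≤ q ∧ R ≤ (n + 1) * q ∧ 15 * Real.log ((n + 2 : ℕ) : ℝ) ≤ i ∧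
      1 ≤ a ∧ 1 ≤ L ∧ 26 * q * i ≤ T (a + 1) ∧ 52 * q * i ≤ R ∧
      4 * L * T a ≤ R ∧ 992 * a ^ 2 ≤ R ∧ R ≤ 8 * a ^ 2 * L ∧
      (a : ℝ) ^ 2 ≤ 3536 * Real.log ((n + 2 : ℕ) : ℝ) * (2 * R / ((n + 2 : ℕ) : ℝ) + 1) := by
  set ℓ := Real.log ((n + 2 : ℕ) : ℝ) with hℓd
  set s : ℝ := ((n + 2 : ℕ) : ℝ) with hsd
  have hs0 : 0 < s := by rw [hsd]; positivity
  obtain ⟨q, hq1, hqN, hqr⟩ := choose_q n R
  rw [← hsd] at hqr
  have hi1 : 15 * ℓ ≤ ⌈15 * ℓ⌉₊ := Nat.le_ceil _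
  have hi2 : (⌈15 * ℓ⌉₊ : ℝ) ≤ 17 * ℓ := by
    have := Nat.ceil_lt_add_one (show 0 ≤ 15 * ℓ by linarith)
    linarith
  generalize ⌈15 * ℓ⌉₊ = i at hi1 hi2
  have hi : 1 ≤ i := by
    have : (0 : ℝ) < i := by linarith
    exact_mod_cast this
  have hℓσ : 10 ^ 11 * ℓ ≤ σ := by nlinarith
  have hσ1 : 1 ≤ σ := by linarith
  have hσs : σ ≤ s := by rw [← hσ2]; nlinarith
  have hqi : (q : ℝ) * i ≤ 17 * ℓ * (2 * R / s + 1) := by
    have h4 : (0 : ℝ) ≤ 2 * R / s + 1 := by positivity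
    calc (q : ℝ) * i ≤ (2 * R / s + 1) * (17 * ℓ) :=
          mul_le_mul hqr hi2 (Nat.cast_nonneg _) h4
      _ = _ := by ring
  have hbig : 206336 * ((q : ℝ) * i) ≤ R := by
    have h1 : ℓ * (R / s) ≤ R / 10 ^ 11 := by
      rw [mul_div_assoc', div_le_div_iff₀ hs0 (by norm_num)]
      have h2 : (R : ℝ) * (10 ^ 11 * ℓ) ≤ R * s :=
        mul_le_mul_of_nonneg_left (hℓσ.trans hσs) (Nat.cast_nonneg _)
      linarith
    have h2 : 17 * ℓ * (2 * R / s + 1) = 34 * (ℓ * (R / s)) + 17 * ℓ := by ring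
    rw [h2] at hqi
    linarith
  have hbig' : 992 * (208 * q * i) ≤ R := by
    have : ((992 * (208 * q * i) : ℕ) : ℝ) ≤ R := by
      push_cast
      linarith
    exact_mod_cast this
  obtain ⟨a, L, ha1, hL1, h26, ha2, hLR, h992, h8⟩ := choose_aL q i R hq1 hi hbig'
  refine ⟨q, i, a, L, hq1, hqN, hi1, ha1, hL1, h26, ?_, hLR, h992, h8, ?_⟩
  · have e : 208 * q * i = 4 * (52 * q * i) := by ring
    omega
  · have h3 : (a : ℝ) ^ 2 ≤ 208 * q * i := by exact_mod_cast ha2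
    linarith

open Classical in
/-- The exceptional vectors in a given degree are rare. -/
theorem uni_dens (s R N : ℕ) (hs : 2 ≤ s) : ∃ x : ℕ, (x : ℝ) * (s * √s) ≤ 248 * R ∧
    ((R : ℝ) ≤ (s : ℝ) ^ 2 → x = 0) ∧ (((BB s R).filter (Exc x N)).card : ℝ) ≤
    10 ^ 12 * Real.log s ^ 2 / √s * (BB s R).card := by
  have hx0 : ((0 : ℕ) : ℝ) * (s * √s) ≤ 248 * R := by
    rw [Nat.cast_zero, zero_mul]
    positivity
  have hs2 : (2 : ℝ) ≤ s := by exact_mod_cast hs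
  have hs0 : (0 : ℝ) < s := by linarith
  have hℓ : 0.69 ≤ Real.log s := by
    have h3 : Real.log 2 ≤ Real.log s := Real.log_le_log (by norm_num) hs2
    have h4 := Real.log_two_gt_d9
    linarith
  have hσ0 : 0 < √(s : ℝ) := Real.sqrt_pos.2 hs0
  have hσ2 : √(s : ℝ) ^ 2 = s := Real.sq_sqrt hs0.le
  have hP0 : (0 : ℝ) ≤ (BB s R).card := Nat.cast_nonneg _
  by_cases htriv : √(s : ℝ) ≤ 10 ^ 12 * Real.log s ^ 2
  · refine ⟨0, hx0, fun _ => rfl, ?_⟩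
    have h1 : (1 : ℝ) ≤ 10 ^ 12 * Real.log s ^ 2 / √s := (one_le_div hσ0).2 htriv
    have h2 : (((BB s R).filter (Exc 0 N)).card : ℝ) ≤ (BB s R).card := by
      exact_mod_cast Finset.card_le_card (Finset.filter_subset _ _)
    nlinarith
  rw [not_le] at htriv
  have hℓσ : 10 ^ 11 * Real.log s ≤ √(s : ℝ) := by nlinarith
  have hσ1 : 10 ≤ √(s : ℝ) := by linarith
  have hσs : √(s : ℝ) ≤ s := by
    have : √(s : ℝ) * 1 ≤ √(s : ℝ) * √(s : ℝ) := mul_le_mul_of_nonneg_left (by linarith) hσ0.le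
    nlinarith
  have hs100 : 100 ≤ s := by
    have : (100 : ℝ) ≤ s := by nlinarith
    exact_mod_cast this
  by_cases hlow : R ^ 2 ≤ s
  · refine ⟨0, hx0, fun _ => rfl, ?_⟩
    have h1 := case_low s R hs100 hlow
    have h2 : (((BB s R).filter (Exc 0 N)).card : ℝ) ≤
        ((BB s R).filter (fun m => ∃ l, 2 ≤ m l)).card := by
      have h3 : (BB s R).filter (Exc 0 N) ⊆ (BB s R).filter (fun m => ∃ l, 2 ≤ m l) := by
        intro m hm
        rw [Finset.mem_filter] at hm ⊢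
        exact ⟨hm.1, exc_zero N m hm.2⟩
      exact_mod_cast Finset.card_le_card h3
    refine (h2.trans h1).trans (mul_le_mul_of_nonneg_right ?_ hP0)
    refine div_le_div_of_nonneg_right ?_ hσ0.le
    nlinarith
  rw [not_le] at hlow
  have hR : √(s : ℝ) < R := by
    have h1 : (s : ℝ) < (R : ℝ) ^ 2 := by exact_mod_cast hlow
    exact (Real.sqrt_lt' (by
      have : 0 < R := by
        by_contra hc
        have : R = 0 := by omega
        rw [this] at hlow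
        omega
      exact_mod_cast this)).2 h1
  have hR0 : (0 : ℝ) < R := by linarith
  obtain ⟨n, rfl⟩ : ∃ n, s = n + 2 := ⟨s - 2, by omega⟩
  obtain ⟨q, i, a, L, hq1, hqN, hi1, ha1, hL1, h26, h52, hLR, h992, h8, haR⟩ :=
    choose_all n R _ hσ0.le hσ2 hℓ htriv hR
  have hX1 := tail_card' (n + 1) R q a i hq1 (by nlinarith) h26
  have hX2 := small_card (n + 1) R q i hq1 (by nlinarith) h52
  have hpow := pow_bound _ hs2 i hi1
  have hX := prop_part ((n + 2 : ℕ) : ℝ) 1 (BB (n + 2) R).card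
    ((BB (n + 2) R).filter (fun m => ∃ l, a < m l)).card
    ((BB (n + 2) R).filter (fun m => 2 * sT m ≤ R)).card i hs2 (Nat.cast_nonneg _)
    (Nat.cast_nonneg _) (Nat.cast_nonneg _) (one_le_pow₀ (by linarith)) hpow
    (by rw [mul_one]; exact_mod_cast hX1) (by exact_mod_cast hX2)
  have h8' : (R : ℝ) ≤ 8 * (a : ℝ) ^ 2 * L := by exact_mod_cast h8
  have ha1' : (1 : ℝ) ≤ a := by exact_mod_cast ha1
  have hL0 : (0 : ℝ) < L := by exact_mod_cast hL1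
  set σ := √((n + 2 : ℕ) : ℝ) with hσd
  set ℓ := Real.log ((n + 2 : ℕ) : ℝ) with hℓd
  have hXs : (((BB (n + 2) R).filter (fun m => ∃ l, a < m l)).card : ℝ) +
      ((BB (n + 2) R).filter (fun m => 2 * sT m ≤ R)).card ≤
      (1 / 10) * (10 ^ 12 * ℓ ^ 2 / σ) * (BB (n + 2) R).card := by
    have h1 : ((n + 2 : ℕ) : ℝ) * ((((BB (n + 2) R).filter (fun m => ∃ l, a < m l)).card : ℝ) +
      ((BB (n + 2) R).filter (fun m => 2 * sT m ≤ R)).card) ≤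
      ((n + 2 : ℕ) : ℝ) * ((1 / 10) * (10 ^ 12 * ℓ ^ 2 / σ) * (BB (n + 2) R).card) := by
      refine hX.trans ?_
      have h2 : (1 : ℝ) ≤ ((n + 2 : ℕ) : ℝ) * ((1 / 10) * (10 ^ 12 * ℓ ^ 2 / σ)) := by
        have e : ((n + 2 : ℕ) : ℝ) * ((1 / 10) * (10 ^ 12 * ℓ ^ 2 / σ)) =
            (1 / 10) * (10 ^ 12 * ℓ ^ 2) * (((n + 2 : ℕ) : ℝ) / σ) := by ring
        rw [e]
        have h3 : (1 : ℝ) ≤ ((n + 2 : ℕ) : ℝ) / σ := (one_le_div hσ0).2 hσs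
        have h4 : (1 : ℝ) ≤ (1 / 10) * (10 ^ 12 * ℓ ^ 2) := by nlinarith
        nlinarith
      calc ((BB (n + 2) R).card : ℝ) = 1 * (BB (n + 2) R).card := (one_mul _).symm
        _ ≤ (((n + 2 : ℕ) : ℝ) * ((1 / 10) * (10 ^ 12 * ℓ ^ 2 / σ))) * (BB (n + 2) R).card :=
            mul_le_mul_of_nonneg_right h2 hP0
        _ = _ := by ring
    exact le_of_mul_le_mul_left h1 hs0
  by_cases hB : (R : ℝ) ≤ ((n + 2 : ℕ) : ℝ) ^ 2
  · -- `R ≤ s ^ 2`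
    refine ⟨0, hx0, fun _ => rfl, ?_⟩
    have h1 := exc_card_le (n + 2) R a 1 le_rfl N
    rw [if_pos rfl, if_pos rfl] at h1
    have h2 := mid_sum (n + 2) R a 1 L le_rfl hL1 hLR h992
    have h3 := num_E3 a L R 1 ha1' hL0 hR0 one_pos h8'
    have h4 := num_B a ℓ R _ σ hℓ (by linarith) hσ2 hR.le hB haR
    rw [mul_one, mul_one] at h3
    rw [Nat.cast_one, mul_one] at h2
    have h5 := h2.trans (mul_le_mul_of_nonneg_right (h3.trans h4) hP0)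
    have h6 : (((BB (n + 2) R).filter (Exc 0 N)).card : ℝ) ≤ _ := Nat.cast_le.2 h1
    push_cast at h6
    have e5 : (1 / 2) * (10 ^ 12 * ℓ ^ 2 / σ) * ((BB (n + 2) R).card : ℝ) =
        (1 / 2) * (10 ^ 12 * ℓ ^ 2 / σ * (BB (n + 2) R).card) := by ring
    have e6 : (1 / 10) * (10 ^ 12 * ℓ ^ 2 / σ) * ((BB (n + 2) R).card : ℝ) =
        (1 / 10) * (10 ^ 12 * ℓ ^ 2 / σ * (BB (n + 2) R).card) := by ring
    rw [e5] at h5
    rw [e6] at hXs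
    have h7 : 0 ≤ 10 ^ 12 * ℓ ^ 2 / σ * (BB (n + 2) R).card := by positivity
    refine h6.trans ?_
    generalize 10 ^ 12 * ℓ ^ 2 / σ * ((BB (n + 2) R).card : ℝ) = Z at h5 h7 hXs ⊢
    linarith
  · -- `R > s ^ 2`
    rw [not_le] at hB
    obtain ⟨S, hS⟩ : ∃ S : ℝ, S = ((n + 2 : ℕ) : ℝ) := ⟨_, rfl⟩
    rw [← hS] at hB haR hσ2 hs0 hσs hs2
    have hsσ : 0 < S * σ := mul_pos hs0 hσ0
    have hsσR : S * σ ≤ R := by
      calc S * σ ≤ S * S := mul_le_mul_of_nonneg_left hσs hs0.le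
        _ = S ^ 2 := by ring
        _ ≤ R := hB.le
    obtain ⟨h₀, hh1, hh2, hh3⟩ := floor_sqrt (R / (S * σ)) ((one_le_div hsσ).2 hsσR)
    rw [le_div_iff₀ hsσ] at hh2
    rw [div_le_iff₀ hsσ] at hh3
    have h4S : 0 < 4 * S := by linarith
    have h4SR : 4 * S ≤ R := by
      have : 4 * S ≤ S * S := mul_le_mul_of_nonneg_right (by linarith) hs0.le
      nlinarith
    obtain ⟨b, hb1, hb2, hb3⟩ := floor_sqrt (R / (4 * S)) ((one_le_div h4S).2 h4SR)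
    rw [le_div_iff₀ h4S] at hb2
    rw [div_le_iff₀ h4S] at hb3
    have hh0 : (0 : ℝ) < h₀ := by exact_mod_cast hh1
    have hb0 : (0 : ℝ) < b := by exact_mod_cast hb1
    have hTb : T b ≤ b ^ 2 := by
      have h3 := two_T b
      nlinarith
    have hsb : 4 * ((n + 2) * T b) ≤ R := by
      have h1 : 4 * ((n + 2) * T b) ≤ 4 * ((n + 2) * b ^ 2) :=
        Nat.mul_le_mul_left _ (Nat.mul_le_mul_left _ hTb)
      have h2 : ((4 * ((n + 2) * b ^ 2) : ℕ) : ℝ) ≤ R := by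
        have e : ((4 * ((n + 2) * b ^ 2) : ℕ) : ℝ) = (b : ℝ) ^ 2 * (4 * S) := by
          rw [hS]
          push_cast
          ring
        rw [e]
        exact hb2
      exact h1.trans (by exact_mod_cast h2)
    have hsh := exch_shell (n + 2) R a b L (N - 31 * h₀ ^ 2) (51 * h₀ ^ 2) hb1 hLR hsb
    have hsh' : (((BB (n + 2) R).filter (fun m => (∀ l, m l ≤ a) ∧ R < 2 * sT m ∧
        N - 31 * h₀ ^ 2 ≤ sT m ∧ sT m < N - 31 * h₀ ^ 2 + 51 * h₀ ^ 2)).card : ℝ) ≤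
        (S * (51 * (h₀ : ℝ) ^ 2 / b + 1) / (L * b)) * (BB (n + 2) R).card := by
      have h1 : (((BB (n + 2) R).filter (fun m => (∀ l, m l ≤ a) ∧ R < 2 * sT m ∧
        N - 31 * h₀ ^ 2 ≤ sT m ∧ sT m < N - 31 * h₀ ^ 2 + 51 * h₀ ^ 2)).card : ℝ) * (L * b) ≤
        (BB (n + 2) R).card * (S * (((51 * h₀ ^ 2 / b : ℕ) : ℝ) + 1)) := by
        rw [hS]
        exact_mod_cast hsh
      have h2 : ((51 * h₀ ^ 2 / b : ℕ) : ℝ) ≤ 51 * (h₀ : ℝ) ^ 2 / b := by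
        refine Nat.cast_div_le.trans (le_of_eq ?_)
        push_cast
        rfl
      have h3 : (0 : ℝ) < L * b := by positivity
      rw [div_mul_eq_mul_div, le_div_iff₀ h3]
      refine h1.trans ?_
      rw [mul_comm (S * _)]
      refine mul_le_mul_of_nonneg_left ?_ hP0
      exact mul_le_mul_of_nonneg_left (by linarith) hs0.le
    refine ⟨(if h₀ = 1 then 0 else 248 * h₀ ^ 2), ?_,
      fun hc => absurd hc (not_le.2 (by rw [← hS]; exact hB)), (Nat.cast_le.2 (exc_card_le (n + 2) R a h₀ hh1 N)).trans ?_⟩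
    · rw [← hS]
      split_ifs with hc
      · rw [Nat.cast_zero, zero_mul]
        positivity
      · push_cast
        calc 248 * (h₀ : ℝ) ^ 2 * (S * σ) = 248 * ((h₀ : ℝ) ^ 2 * (S * σ)) := by ring
          _ ≤ 248 * (R : ℝ) := by linarith
    have h2 := mid_sum (n + 2) R a h₀ L hh1 hL1 hLR h992
    have h3 := num_E3 a L R h₀ ha1' hL0 hR0 hh0 h8'
    have h4 := num_A1 a ℓ R S σ h₀ hℓ hσ1 hσ2 (by linarith) haR hh0 hh3
    have h5 := h2.trans (mul_le_mul_of_nonneg_right (h3.trans h4) hP0)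
    have h6 := num_A2 a ℓ R S σ h₀ b L hℓ hσ1 hσ2 hB.le haR hh2 hb0 (by linarith) hL0 h8'
    have h7 := hsh'.trans (mul_le_mul_of_nonneg_right h6 hP0)
    have h8 : (((if h₀ = 1 then 0 else
        ((BB (n + 2) R).filter (fun m => (∀ l, m l ≤ a) ∧ R < 2 * sT m ∧ N - 31 * h₀ ^ 2 ≤ sT m ∧
          sT m < N - 31 * h₀ ^ 2 + 51 * h₀ ^ 2)).card) : ℕ) : ℝ) ≤
        (1 / 10) * (10 ^ 12 * ℓ ^ 2 / σ) * (BB (n + 2) R).card := by
      split_ifs with hc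
      · rw [Nat.cast_zero]
        positivity
      · exact h7
    have e5 : (1 / 5) * (10 ^ 12 * ℓ ^ 2 / σ) * ((BB (n + 2) R).card : ℝ) =
        (1 / 5) * (10 ^ 12 * ℓ ^ 2 / σ * (BB (n + 2) R).card) := by ring
    have e6 : (1 / 10) * (10 ^ 12 * ℓ ^ 2 / σ) * ((BB (n + 2) R).card : ℝ) =
        (1 / 10) * (10 ^ 12 * ℓ ^ 2 / σ * (BB (n + 2) R).card) := by ring
    rw [e5] at h5
    rw [e6] at hXs h8
    have h9 : 0 ≤ 10 ^ 12 * ℓ ^ 2 / σ * (BB (n + 2) R).card := by positivity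
    rw [Nat.cast_add, Nat.cast_add, Nat.cast_add]
    linarith

open Classical in
/-- The vectors with few conditions: the bound for the vectors which are not balanced. -/
theorem uni_low (s R : ℕ) (hs : 2 ≤ s) (h1 : (R : ℝ) ≤ (s / (200000 * Real.log s)) ^ 3)
    (h2 : ¬ (10 ^ 12 * Real.log s ^ 2 / √s : ℝ) ≥ 1) (h3 : (s : ℝ) ^ 2 < R) :
    ∃ a : ℕ, 1 ≤ a ∧ 288 * a ^ 3 ≤ R ∧
      (((BB s R).filter (fun m => (∃ l, a < m l) ∨ 2 * sT m ≤ R)).card : ℝ) ≤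
      10 ^ 12 * Real.log s ^ 2 / √s * (BB s R).card := by
  have hs2 : (2 : ℝ) ≤ s := by exact_mod_cast hs
  have hs0 : (0 : ℝ) < s := by linarith
  have hℓ : 0.69 ≤ Real.log s := by
    have h3 : Real.log 2 ≤ Real.log s := Real.log_le_log (by norm_num) hs2
    have h4 := Real.log_two_gt_d9
    linarith
  have hσ0 : 0 < √(s : ℝ) := Real.sqrt_pos.2 hs0
  have hσ2 : √(s : ℝ) ^ 2 = s := Real.sq_sqrt hs0.le
  have hP0 : (0 : ℝ) ≤ (BB s R).card := Nat.cast_nonneg _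
  rw [ge_iff_le, one_le_div hσ0, not_le] at h2
  have hℓσ : 10 ^ 11 * Real.log s ≤ √(s : ℝ) := by nlinarith
  have hσ1 : 10 ≤ √(s : ℝ) := by linarith
  have hσs : √(s : ℝ) ≤ s := by
    have : √(s : ℝ) * 1 ≤ √(s : ℝ) * √(s : ℝ) := mul_le_mul_of_nonneg_left (by linarith) hσ0.le
    nlinarith
  have h4 : (200000 * Real.log s) ^ 2 ≤ (R : ℝ) := by
    have h5 : (200000 * Real.log s) ^ 2 ≤ (s : ℝ) ^ 2 :=
      pow_le_pow_left₀ (by linarith) (by linarith) 2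
    linarith
  obtain ⟨a, ha1, ha2, ha3⟩ := ord_dens s R hs h4 h1
  refine ⟨a, ha1, ha2, ?_⟩
  have h5 : (s : ℝ) * ((BB s R).filter (fun m => (∃ l, a < m l) ∨ 2 * sT m ≤ R)).card ≤
      (BB s R).card := by
    have h6 : s * ((BB s R).filter (fun m => (∃ l, a < m l) ∨ 2 * sT m ≤ R)).card ≤
        (BB s R).card := by convert ha3
    exact_mod_cast h6
  have h6 : (1 : ℝ) ≤ s * (10 ^ 12 * Real.log s ^ 2 / √s) := by
    have e : (s : ℝ) * (10 ^ 12 * Real.log s ^ 2 / √s) =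
        (10 ^ 12 * Real.log s ^ 2) * ((s : ℝ) / √s) := by ring
    rw [e]
    have h3 : (1 : ℝ) ≤ (s : ℝ) / √s := (one_le_div hσ0).2 hσs
    have h4 : (1 : ℝ) ≤ 10 ^ 12 * Real.log s ^ 2 := by nlinarith
    nlinarith
  have h7 : (s : ℝ) * ((BB s R).filter (fun m => (∃ l, a < m l) ∨ 2 * sT m ≤ R)).card ≤
      s * (10 ^ 12 * Real.log s ^ 2 / √s * (BB s R).card) := by
    refine h5.trans ?_
    calc ((BB s R).card : ℝ) = 1 * (BB s R).card := (one_mul _).symm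
      _ ≤ (s * (10 ^ 12 * Real.log s ^ 2 / √s)) * (BB s R).card :=
          mul_le_mul_of_nonneg_right h6 hP0
      _ = _ := by ring
  exact le_of_mul_le_mul_left h7 hs0

open Classical in
/-- The mass condition. -/
theorem uni_mass (s R : ℕ) (hs : 2 ≤ s) : ∃ x : ℕ, (x : ℝ) * (s * √s) ≤ 248 * R ∧
    ((R : ℝ) ≤ (s : ℝ) ^ 2 → x = 0) ∧ (((BB s R).filter (fun m => ¬ MassOK x m)).card : ℝ) ≤
    10 ^ 12 * Real.log s ^ 2 / √s * (BB s R).card := by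
  obtain ⟨x, h1, h2, h3⟩ := uni_dens s R 0 hs
  refine ⟨x, h1, h2, le_trans ?_ h3⟩
  have h4 : (BB s R).filter (fun m => ¬ MassOK x m) ⊆ (BB s R).filter (Exc x 0) := by
    intro m hm
    rw [Finset.mem_filter] at hm ⊢
    exact ⟨hm.1, fun h => hm.2 h.1⟩
  exact_mod_cast Finset.card_le_card h4

end ShghI
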