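import Pool.Agent.ShghI.Uni5

/-!
# Counting ordered multiplicity vectors: repeated exchanges and all windows
-/

namespace ShghI

open ShghJ

theorem mass_update_le {s : ℕ} (m : Fin s → ℕ) (l : Fin s) (v t : ℕ) :
    mass (Function.update m l v) t ≤ mass m t + T v := by
  classical
  unfold mass
  have h1 : (Finset.univ.filter fun x => Function.update m l v x < t) ⊆
      insert l ((Finset.univ.filter fun x => m x < t).erase l) := by
    intro x hx
    rw [Finset.mem_insert]
    by_cases hxl : x = l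
    · exact Or.inl hxl
    · right
      rw [Finset.mem_filter, Function.update_of_ne hxl] at hx
      exact Finset.mem_erase.2 ⟨hxl, Finset.mem_filter.2 hx⟩
  refine (Finset.sum_le_sum_of_subset h1).trans ?_
  rw [Finset.sum_insert (Finset.notMem_erase _ _), Function.update_self, add_comm]
  refine Nat.add_le_add_right ?_ _
  have h2 : ∑ x ∈ (Finset.univ.filter fun x => m x < t).erase l, T (Function.update m l v x) =
      ∑ x ∈ (Finset.univ.filter fun x => m x < t).erase l, T (m x) :=
    Finset.sum_congr rfl fun x hx => by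
      rw [Function.update_of_ne (Finset.mem_erase.1 hx).1]
  rw [h2]
  exact Finset.sum_le_sum_of_subset (Finset.erase_subset _ _)

/-- The vectors with little mass below `2 h`, after `j` exchanges. -/
def WJ (a h K R j : ℕ) {s : ℕ} (m : Fin s → ℕ) : Prop :=
  (∀ l, m l ≤ a) ∧ R < 2 * sT m + 2 * (j * T a) ∧ mass m (2 * h) < (K + 2 * j) * h ^ 2

open Classical in
/-- One exchange. -/
theorem exch_step (s R a h L K j : ℕ) (hh : 1 ≤ h) (hL : 4 * L * T a ≤ R)
    (hK : 4 * (j * T a) + 4 * ((K + 2 * j) * h ^ 2) ≤ R) :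
    ((BB s R).filter (WJ a h K R j)).card * (L * h) ≤
      ((BB s R).filter (WJ a h K R (j + 1))).card * (2 * (K + 2 * j) * (a + 1)) := by
  refine Finset.card_mul_le_card_mul
    (fun m m' : Fin s → ℕ => ∃ l v, 2 * h ≤ m l ∧ h ≤ v ∧ v < 2 * h ∧
      m' = Function.update m l v) ?_ ?_
  · intro m hm
    rw [Finset.mem_filter, mem_BB] at hm
    obtain ⟨h1, h2, h3, h4⟩ := hm
    have h5 := sT_split m (2 * h) a h2
    have h6 : L ≤ (Finset.univ.filter fun l => 2 * h ≤ m l).card := by
      by_contra hc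
      rw [not_le] at hc
      have h7 := Nat.mul_le_mul_right (T a) hc.le
      have h8 : 4 * L * T a = 4 * (L * T a) := by ring
      omega
    have h7 := card_above m (2 * h) h (2 * h) L R le_rfl h6 h1
      (fun m' => WJ a h K R (j + 1) m' ∧ ∃ l v, 2 * h ≤ m l ∧ h ≤ v ∧ v < 2 * h ∧
        m' = Function.update m l v)
      (fun l v g1 g2 g3 => ⟨⟨fun x => ?_, ?_, ?_⟩, l, v, g1, g2, g3, rfl⟩)
    · have e : 2 * h - h = h := by omega
      rw [e] at h7
      refine h7.trans (Finset.card_le_card fun m' hm' => ?_)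
      rw [Finset.mem_filter] at hm'
      rw [Finset.mem_bipartiteAbove, Finset.mem_filter]
      exact ⟨⟨hm'.1, hm'.2.1⟩, hm'.2.2⟩
    · by_cases hx : x = l
      · rw [hx, Function.update_self]
        have := h2 l
        omega
      · rw [Function.update_of_ne hx]
        exact h2 x
    · have h8 := sT_update m l v
      have h9 : T (m l) ≤ T a := ShghL.T_mono (h2 l)
      have e : (j + 1) * T a = j * T a + T a := by ring
      rw [e]
      omega
    · have h8 := mass_update_le m l v (2 * h)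
      have h9 : T v ≤ 2 * h ^ 2 := by
        have h10 := two_T v
        nlinarith
      have e : (K + 2 * (j + 1)) * h ^ 2 = (K + 2 * j) * h ^ 2 + 2 * h ^ 2 := by ring
      rw [e]
      omega
  · intro m' hm'
    rcases Finset.eq_empty_or_nonempty (Finset.bipartiteBelow
      (fun m m' : Fin s → ℕ => ∃ l v, 2 * h ≤ m l ∧ h ≤ v ∧ v < 2 * h ∧
        m' = Function.update m l v)
      ((BB s R).filter (WJ a h K R j)) m')
      with h0 | ⟨m₀, hm₀⟩
    · rw [h0]
      simp
    set Z := (Finset.univ.filter fun l => h ≤ m' l ∧ m' l < 2 * h) with hZ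
    have hZc : Z.card ≤ 2 * (K + 2 * j) := by
      rw [Finset.mem_bipartiteBelow, Finset.mem_filter] at hm₀
      obtain ⟨⟨-, h1, h2, h3⟩, l, v, h4, h5, h6, h7⟩ := hm₀
      set Z₀ := (Finset.univ.filter fun l => h ≤ m₀ l ∧ m₀ l < 2 * h) with hZ₀
      have h8 : Z ⊆ insert l Z₀ := by
        intro x hx
        rw [hZ, Finset.mem_filter, h7] at hx
        rw [Finset.mem_insert]
        by_cases hxl : x = l
        · exact Or.inl hxl
        · right
          rw [Function.update_of_ne hxl] at hx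
          exact Finset.mem_filter.2 ⟨Finset.mem_univ _, hx.2⟩
      have h9 : Z.card ≤ Z₀.card + 1 :=
        (Finset.card_le_card h8).trans (Finset.card_insert_le _ _)
      have h10 : Z₀.card • T h ≤ mass m₀ (2 * h) := by
        refine (Finset.card_nsmul_le_sum Z₀ (fun l => T (m₀ l)) (T h) fun x hx => ?_).trans ?_
        · exact ShghL.T_mono (Finset.mem_filter.1 hx).2.1
        · refine Finset.sum_le_sum_of_subset fun x hx => ?_
          exact Finset.mem_filter.2 ⟨Finset.mem_univ _, (Finset.mem_filter.1 hx).2.2⟩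
      rw [smul_eq_mul] at h10
      generalize K + 2 * j = K' at h3 ⊢
      have h11 := two_T h
      have h12 : Z₀.card * (h * h) < 2 * K' * (h * h) := by
        have h13 : Z₀.card * (h * h) ≤ 2 * (Z₀.card * T h) := by
          calc Z₀.card * (h * h) ≤ Z₀.card * (2 * T h) := Nat.mul_le_mul_left _ (by nlinarith)
            _ = _ := by ring
        have h14 : K' * h ^ 2 = K' * (h * h) := by ring
        nlinarith
      have h13 : Z₀.card < 2 * K' := lt_of_mul_lt_mul_right h12 (Nat.zero_le _)
      omega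
    calc _ ≤ ((Z ×ˢ Finset.range (a + 1)).image fun p : Fin s × ℕ =>
          Function.update m' p.1 p.2).card := by
          refine Finset.card_le_card ?_
          intro m hm
          rw [Finset.mem_bipartiteBelow, Finset.mem_filter] at hm
          obtain ⟨⟨-, h1, h2, h3⟩, l, v, h4, h5, h6, h7⟩ := hm
          refine Finset.mem_image.2 ⟨(l, m l), Finset.mem_product.2
            ⟨Finset.mem_filter.2 ⟨Finset.mem_univ _, ?_⟩, Finset.mem_range.2 ?_⟩, ?_⟩
          · show h ≤ m' l ∧ m' l < 2 * h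
            rw [h7, Function.update_self]
            exact ⟨h5, h6⟩
          · exact Nat.lt_succ_of_le (h1 l)
          · show Function.update m' l (m l) = m
            rw [h7, Function.update_idem]
            exact Function.update_eq_self _ _
      _ ≤ (Z ×ˢ Finset.range (a + 1)).card := Finset.card_image_le
      _ = Z.card * (a + 1) := by rw [Finset.card_product, Finset.card_range]
      _ ≤ 2 * (K + 2 * j) * (a + 1) := Nat.mul_le_mul_right _ hZc

open Classical in
/-- Eight exchanges. -/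
theorem exch_eight (s R a h L : ℕ) (hh : 1 ≤ h) (hL : 4 * L * T a ≤ R)
    (hK : 32 * T a + 4 * (1008 * h ^ 2) ≤ R) :
    ((BB s R).filter (WJ a h 992 R 0)).card * (L * h) ^ 8 ≤
      (BB s R).card * (2016 * (a + 1)) ^ 8 := by
  have key : ∀ j, j ≤ 8 → ((BB s R).filter (WJ a h 992 R 0)).card * (L * h) ^ j ≤
      ((BB s R).filter (WJ a h 992 R j)).card * (2016 * (a + 1)) ^ j := by
    intro j
    induction j with
    | zero =>
      intro _
      rw [pow_zero, pow_zero]
    | succ j ih =>
      intro hj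
      have h1 := ih (by omega)
      have h2 := exch_step s R a h L 992 j hh hL (by
        have h3 : j * T a ≤ 8 * T a := Nat.mul_le_mul_right _ (by omega)
        have h4 : (992 + 2 * j) * h ^ 2 ≤ 1008 * h ^ 2 := Nat.mul_le_mul_right _ (by omega)
        omega)
      have h3 : 2 * (992 + 2 * j) * (a + 1) ≤ 2016 * (a + 1) := Nat.mul_le_mul_right _ (by omega)
      calc ((BB s R).filter (WJ a h 992 R 0)).card * (L * h) ^ (j + 1)
          = (((BB s R).filter (WJ a h 992 R 0)).card * (L * h) ^ j) * (L * h) := by ring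
        _ ≤ (((BB s R).filter (WJ a h 992 R j)).card * (2016 * (a + 1)) ^ j) * (L * h) :=
            Nat.mul_le_mul_right _ h1
        _ = (((BB s R).filter (WJ a h 992 R j)).card * (L * h)) * (2016 * (a + 1)) ^ j := by ring
        _ ≤ (((BB s R).filter (WJ a h 992 R (j + 1))).card * (2016 * (a + 1))) *
            (2016 * (a + 1)) ^ j :=
            Nat.mul_le_mul_right _ (h2.trans (Nat.mul_le_mul_left _ h3))
        _ = _ := by ring
  exact (key 8 le_rfl).trans (Nat.mul_le_mul_right _ (Finset.card_le_card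
    (Finset.filter_subset _ _)))

open Classical in
/-- MIDDLE, summed over the dyadic scales, with eight exchanges. -/
theorem mid_sum8 (s R a h₀ L : ℕ) (hh : 1 ≤ h₀) (hL1 : 1 ≤ L) (hL : 4 * L * T a ≤ R)
    (ha : 2000 * a ^ 2 ≤ R) :
    (((BB s R).filter (fun m => (∀ l, m l ≤ a) ∧ R < 2 * sT m ∧ ∃ k, 2 ^ (k + 1) * h₀ ≤ a ∧
      mass m (2 * (2 ^ k * h₀)) < 992 * (2 ^ k * h₀) ^ 2)).card : ℝ) ≤
      2 * (2016 * (a + 1) / (L * h₀)) ^ 8 * (BB s R).card := by
  have hL0 : (0 : ℝ) < L := by exact_mod_cast hL1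
  have hh0 : (0 : ℝ) < h₀ := by exact_mod_cast hh
  set P := (BB s R).card with hP
  have h1 : (BB s R).filter (fun m => (∀ l, m l ≤ a) ∧ R < 2 * sT m ∧ ∃ k, 2 ^ (k + 1) * h₀ ≤ a ∧
      mass m (2 * (2 ^ k * h₀)) < 992 * (2 ^ k * h₀) ^ 2) ⊆
      ((Finset.range a).filter fun k => 2 ^ (k + 1) * h₀ ≤ a).biUnion fun k =>
        (BB s R).filter (WJ a (2 ^ k * h₀) 992 R 0) := by
    intro m hm
    rw [Finset.mem_filter] at hm
    obtain ⟨g1, g2, g3, k, g4, g5⟩ := hm
    refine Finset.mem_biUnion.2 ⟨k, Finset.mem_filter.2 ⟨Finset.mem_range.2 ?_, g4⟩,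
      Finset.mem_filter.2 ⟨g1, g2, ?_, g5⟩⟩
    · have h7 : k + 1 < 2 ^ (k + 1) := Nat.lt_two_pow_self
      have h8 : 2 ^ (k + 1) * 1 ≤ 2 ^ (k + 1) * h₀ := Nat.mul_le_mul_left _ hh
      omega
    · omega
  have h2 := (Finset.card_le_card h1).trans Finset.card_biUnion_le
  have h3 : ∀ k ∈ (Finset.range a).filter (fun k => 2 ^ (k + 1) * h₀ ≤ a),
      (((BB s R).filter (WJ a (2 ^ k * h₀) 992 R 0)).card : ℝ) ≤
      (2016 * (a + 1) / (L * h₀)) ^ 8 * P * (1 / 2) ^ k := by
    intro k hk
    have hk' := (Finset.mem_filter.1 hk).2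
    have g1 : 1 ≤ 2 ^ k * h₀ := Nat.mul_pos (by positivity) hh
    have g2 : 32 * T a + 4 * (1008 * (2 ^ k * h₀) ^ 2) ≤ R := by
      have e : 2 ^ (k + 1) * h₀ = 2 * (2 ^ k * h₀) := by rw [pow_succ]; ring
      rw [e] at hk'
      have g3 := Nat.pow_le_pow_left hk' 2
      have g4 : (2 * (2 ^ k * h₀)) ^ 2 = 4 * (2 ^ k * h₀) ^ 2 := by ring
      rw [g4] at g3
      have g5 : T a ≤ a ^ 2 := by
        have := two_T a
        nlinarith
      omega
    have g3 := exch_eight s R a (2 ^ k * h₀) L g1 hL g2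
    have g4 : (((BB s R).filter (WJ a (2 ^ k * h₀) 992 R 0)).card : ℝ) *
        (L * (2 ^ k * h₀)) ^ 8 ≤ P * (2016 * (a + 1)) ^ 8 := by exact_mod_cast g3
    have g5 : (0 : ℝ) < (L * (2 ^ k * h₀)) ^ 8 := by positivity
    rw [← le_div_iff₀ g5] at g4
    refine g4.trans ?_
    have e : (P : ℝ) * (2016 * (a + 1)) ^ 8 / (L * (2 ^ k * h₀)) ^ 8 =
        (2016 * (a + 1) / (L * h₀)) ^ 8 * P * ((1 / 2) ^ k) ^ 8 := by
      rw [one_div, inv_pow]
      field_simp
    rw [e]
    refine mul_le_mul_of_nonneg_left ?_ (by positivity)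
    refine pow_le_of_le_one (by positivity) ?_ (by norm_num)
    exact pow_le_one₀ (by norm_num) (by norm_num)
  have h4 : (∑ k ∈ (Finset.range a).filter (fun k => 2 ^ (k + 1) * h₀ ≤ a),
      (((BB s R).filter (WJ a (2 ^ k * h₀) 992 R 0)).card : ℝ)) ≤
      (2016 * (a + 1) / (L * h₀)) ^ 8 * P * 2 := by
    refine (Finset.sum_le_sum h3).trans ?_
    rw [← Finset.mul_sum]
    refine mul_le_mul_of_nonneg_left ?_ (by positivity)
    refine (Finset.sum_le_sum_of_subset_of_nonneg (Finset.filter_subset _ _)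
      (fun _ _ _ => by positivity)).trans ?_
    exact sum_geometric_two_le a
  have h5 : (((BB s R).filter (fun m => (∀ l, m l ≤ a) ∧ R < 2 * sT m ∧
      ∃ k, 2 ^ (k + 1) * h₀ ≤ a ∧
      mass m (2 * (2 ^ k * h₀)) < 992 * (2 ^ k * h₀) ^ 2)).card : ℝ) ≤
      ∑ k ∈ (Finset.range a).filter (fun k => 2 ^ (k + 1) * h₀ ≤ a),
      (((BB s R).filter (WJ a (2 ^ k * h₀) 992 R 0)).card : ℝ) := by exact_mod_cast h2
  refine (h5.trans h4).trans (le_of_eq ?_)
  ring

/-- The number of `w` with `T w` in one of the windows. -/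
theorem windows_card (a b g c X y z R : ℕ) (hb : 1 ≤ b) (hg : 1 ≤ g)
    (hgR : 2 * T g + 2 * z ≤ R) (W : Finset ℕ)
    (hW : ∀ w ∈ W, b ≤ w ∧ w ≤ a ∧ R + 2 * c < 2 * (X + T w) ∧
      ∃ d, T (d + 1) + c ≤ X + T w + y ∧ X + T w < T (d + 1) + c + z) :
    W.card ≤ ((T a + y + z) / g + 1) * ((y + z) / b + 1) := by
  classical
  set E := ((Finset.range (X + T a + y + 1)).filter (fun e => g ≤ e ∧ X + 1 ≤ (c + z) + T e ∧
    (c + z) + T e < X + 1 + (T a + y + z))) with hE
  have h1 : W ⊆ E.biUnion fun e => (Finset.range (a + 1)).filter (fun w => b ≤ w ∧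
      T e + c ≤ (X + y) + T w ∧ (X + y) + T w < T e + c + (y + z)) := by
    intro w hw
    obtain ⟨h2, h3, h4, d, h5, h6⟩ := hW w hw
    have h7 : T w ≤ T a := ShghL.T_mono h3
    have h8 : g ≤ d + 1 := by
      by_contra hc
      have h9 : T (d + 1) ≤ T g := ShghL.T_mono (by omega)
      omega
    have h9 := le_T (d + 1)
    refine Finset.mem_biUnion.2 ⟨d + 1, Finset.mem_filter.2 ⟨Finset.mem_range.2 (by omega), h8,
      by omega, by omega⟩, Finset.mem_filter.2 ⟨Finset.mem_range.2 (by omega), h2, by omega,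
      by omega⟩⟩
  calc W.card ≤ (E.biUnion fun e => (Finset.range (a + 1)).filter (fun w => b ≤ w ∧
      T e + c ≤ (X + y) + T w ∧ (X + y) + T w < T e + c + (y + z))).card :=
        Finset.card_le_card h1
    _ ≤ ∑ e ∈ E, ((Finset.range (a + 1)).filter (fun w => b ≤ w ∧
      T e + c ≤ (X + y) + T w ∧ (X + y) + T w < T e + c + (y + z))).card :=
        Finset.card_biUnion_le
    _ ≤ ∑ _e ∈ E, ((y + z) / b + 1) := Finset.sum_le_sum fun e _ =>
        window_card b (T e + c) (y + z) (X + y) (a + 1) hb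
    _ = E.card * ((y + z) / b + 1) := by rw [Finset.sum_const, smul_eq_mul]
    _ ≤ _ := Nat.mul_le_mul_right _ (window_card g (X + 1) (T a + y + z) (c + z) _ hg)

open Classical in
/-- SHELLS: vectors with `Σ T` in one of the windows around the numbers `T (d + 1)` are rare. -/
theorem exch_shells (s R a b L g y z : ℕ) (hb : 1 ≤ b) (hg : 1 ≤ g) (hL : 4 * L * T a ≤ R)
    (hsb : 4 * (s * T b) ≤ R) (hgR : 2 * T g + 2 * z ≤ R) :
    ((BB s R).filter (fun m => (∀ l, m l ≤ a) ∧ R < 2 * sT m ∧ ∃ d, T (d + 1) ≤ sT m + y ∧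
      sT m < T (d + 1) + z)).card * (L * b) ≤
      (BB s R).card * (s * (((T a + y + z) / g + 1) * ((y + z) / b + 1))) := by
  refine Finset.card_mul_le_card_mul
    (fun m m' : Fin s → ℕ => ∃ l v, b ≤ m l ∧ 0 ≤ v ∧ v < b ∧ m' = Function.update m l v) ?_ ?_
  · intro m hm
    rw [Finset.mem_filter, mem_BB] at hm
    obtain ⟨h1, h2, h3, h4⟩ := hm
    have h5 := sT_split m b a h2
    have h5' := mass_le m b
    have h6 : L ≤ (Finset.univ.filter fun l => b ≤ m l).card := by
      by_contra hc
      rw [not_le] at hc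
      have h7 := Nat.mul_le_mul_right (T a) hc.le
      have h8 : 4 * L * T a = 4 * (L * T a) := by ring
      omega
    have h7 := card_above m b 0 b L R le_rfl h6 h1
      (fun m' => ∃ l v, b ≤ m l ∧ 0 ≤ v ∧ v < b ∧ m' = Function.update m l v)
      (fun l v g1 g2 g3 => ⟨l, v, g1, g2, g3, rfl⟩)
    rw [Nat.sub_zero] at h7
    refine h7.trans (le_of_eq (congrArg Finset.card ?_))
    rfl
  · intro m' hm'
    calc _ ≤ (Finset.univ.biUnion fun l : Fin s =>
          (((Finset.range (a + 1)).filter (fun w => b ≤ w ∧ R + 2 * T (m' l) < 2 * (sT m' + T w) ∧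
            ∃ d, T (d + 1) + T (m' l) ≤ sT m' + T w + y ∧
            sT m' + T w < T (d + 1) + T (m' l) + z)).image
            fun w => Function.update m' l w)).card := by
          refine Finset.card_le_card ?_
          intro m hm
          rw [Finset.mem_bipartiteBelow, Finset.mem_filter] at hm
          obtain ⟨⟨-, h1, h2, d, h3, h3'⟩, l, v, h4, h5, h6, h7⟩ := hm
          have e : Function.update m' l (m l) = m := by
            rw [h7, Function.update_idem]
            exact Function.update_eq_self _ _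
          have h8 := sT_update m' l (m l)
          rw [e] at h8
          refine Finset.mem_biUnion.2 ⟨l, Finset.mem_univ _, Finset.mem_image.2 ⟨m l,
            Finset.mem_filter.2 ⟨Finset.mem_range.2 (Nat.lt_succ_of_le (h1 l)), h4, ?_, d, ?_, ?_⟩,
            e⟩⟩
          · omega
          · omega
          · omega
      _ ≤ ∑ l : Fin s, (((Finset.range (a + 1)).filter (fun w => b ≤ w ∧
            R + 2 * T (m' l) < 2 * (sT m' + T w) ∧
            ∃ d, T (d + 1) + T (m' l) ≤ sT m' + T w + y ∧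
            sT m' + T w < T (d + 1) + T (m' l) + z)).image
            fun w => Function.update m' l w).card := Finset.card_biUnion_le
      _ ≤ ∑ _l : Fin s, (((T a + y + z) / g + 1) * ((y + z) / b + 1)) :=
          Finset.sum_le_sum fun l _ => Finset.card_image_le.trans
            (windows_card a b g (T (m' l)) (sT m') y z R hb hg hgR _ (fun w hw => by
              rw [Finset.mem_filter, Finset.mem_range] at hw
              exact ⟨hw.2.1, by omega, hw.2.2.1, hw.2.2.2⟩))
      _ = s * (((T a + y + z) / g + 1) * ((y + z) / b + 1)) := by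
          rw [Finset.sum_const, Finset.card_univ, Fintype.card_fin, smul_eq_mul]

end ShghI
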