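import Pool.Agent.ShghI.Uni6

/-!
# The exceptional vectors for all degrees: union bounds and numbers
-/

namespace ShghI

open ShghJ

/-- The vectors which are possibly exceptional in some degree. -/
def ExcA {s : ℕ} (x : ℕ) (m : Fin s → ℕ) : Prop :=
  ¬ (MassOK x m ∧ ∀ d, x + 8 * sT m ≤ 8 * T (d + 1) ∨ x + 13 * T (d + 1) ≤ 13 * sT m)

theorem hx_of (h₀ : ℕ) : ∀ t, 2 ≤ t → t < 2 * h₀ →
    62 * t ^ 2 ≤ (if h₀ = 1 then 0 else 248 * h₀ ^ 2) := by
  intro t h1 h2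
  split_ifs with h3
  · omega
  · nlinarith

open Classical in
/-- The union bound for the mass condition. -/
theorem mass_card_le (s R a h₀ : ℕ) (hh : 1 ≤ h₀) :
    ((BB s R).filter (fun m => ¬ MassOK (if h₀ = 1 then 0 else 248 * h₀ ^ 2) m)).card ≤
      ((BB s R).filter (fun m => ∃ l, a < m l)).card +
      ((BB s R).filter (fun m => 2 * sT m ≤ R)).card +
      ((BB s R).filter (fun m => (∀ l, m l ≤ a) ∧ R < 2 * sT m ∧ ∃ k, 2 ^ (k + 1) * h₀ ≤ a ∧
        mass m (2 * (2 ^ k * h₀)) < 992 * (2 ^ k * h₀) ^ 2)).card := by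
  set x := (if h₀ = 1 then 0 else 248 * h₀ ^ 2) with hx
  have hx1 : ∀ t, 2 ≤ t → t < 2 * h₀ → 62 * t ^ 2 ≤ x := hx_of h₀
  set A := (BB s R).filter (fun m => ∃ l, a < m l) with hA
  set B := (BB s R).filter (fun m => 2 * sT m ≤ R) with hB
  set F := (BB s R).filter (fun m => (∀ l, m l ≤ a) ∧ R < 2 * sT m ∧ ∃ k, 2 ^ (k + 1) * h₀ ≤ a ∧
        mass m (2 * (2 ^ k * h₀)) < 992 * (2 ^ k * h₀) ^ 2) with hF
  have h1 : (BB s R).filter (fun m => ¬ MassOK x m) ⊆ (A ∪ B) ∪ F := by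
    intro m hm
    rw [Finset.mem_filter] at hm
    obtain ⟨hm, hE⟩ := hm
    by_cases hmA : ∃ l, a < m l
    · exact Finset.mem_union_left _ (Finset.mem_union_left _ (Finset.mem_filter.2 ⟨hm, hmA⟩))
    by_cases hmB : 2 * sT m ≤ R
    · exact Finset.mem_union_left _ (Finset.mem_union_right _ (Finset.mem_filter.2 ⟨hm, hmB⟩))
    have hmA' : ∀ l, m l ≤ a := fun l => not_lt.1 fun h => hmA ⟨l, h⟩
    exact Finset.mem_union_right _ (Finset.mem_filter.2
        ⟨hm, hmA', not_le.1 hmB, not_massOK h₀ a hh x hx1 m hmA' hE⟩)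
  refine (Finset.card_le_card h1).trans ?_
  exact (Finset.card_union_le _ _).trans (Nat.add_le_add_right (Finset.card_union_le _ _) _)

open Classical in
/-- The union bound for all degrees. -/
theorem excA_card_le (s R a h₀ : ℕ) (hh : 1 ≤ h₀) :
    ((BB s R).filter (ExcA (if h₀ = 1 then 0 else 248 * h₀ ^ 2))).card ≤
      ((BB s R).filter (fun m => ∃ l, a < m l)).card +
      ((BB s R).filter (fun m => 2 * sT m ≤ R)).card +
      ((BB s R).filter (fun m => (∀ l, m l ≤ a) ∧ R < 2 * sT m ∧ ∃ k, 2 ^ (k + 1) * h₀ ≤ a ∧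
        mass m (2 * (2 ^ k * h₀)) < 992 * (2 ^ k * h₀) ^ 2)).card +
      (if h₀ = 1 then 0 else
        ((BB s R).filter (fun m => (∀ l, m l ≤ a) ∧ R < 2 * sT m ∧
          ∃ d, T (d + 1) ≤ sT m + 31 * h₀ ^ 2 ∧ sT m < T (d + 1) + 20 * h₀ ^ 2)).card) := by
  set x := (if h₀ = 1 then 0 else 248 * h₀ ^ 2) with hx
  have hx1 : ∀ t, 2 ≤ t → t < 2 * h₀ → 62 * t ^ 2 ≤ x := hx_of h₀
  set A := (BB s R).filter (fun m => ∃ l, a < m l) with hA
  set B := (BB s R).filter (fun m => 2 * sT m ≤ R) with hB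
  set F := (BB s R).filter (fun m => (∀ l, m l ≤ a) ∧ R < 2 * sT m ∧ ∃ k, 2 ^ (k + 1) * h₀ ≤ a ∧
        mass m (2 * (2 ^ k * h₀)) < 992 * (2 ^ k * h₀) ^ 2) with hF
  set V := (BB s R).filter (fun m => (∀ l, m l ≤ a) ∧ R < 2 * sT m ∧
          ∃ d, T (d + 1) ≤ sT m + 31 * h₀ ^ 2 ∧ sT m < T (d + 1) + 20 * h₀ ^ 2) with hV
  have h1 : (BB s R).filter (ExcA x) ⊆ ((A ∪ B) ∪ F) ∪ (if h₀ = 1 then ∅ else V) := by
    intro m hm
    rw [Finset.mem_filter] at hm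
    obtain ⟨hm, hE⟩ := hm
    by_cases hmA : ∃ l, a < m l
    · exact Finset.mem_union_left _ (Finset.mem_union_left _ (Finset.mem_union_left _
        (Finset.mem_filter.2 ⟨hm, hmA⟩)))
    by_cases hmB : 2 * sT m ≤ R
    · exact Finset.mem_union_left _ (Finset.mem_union_left _ (Finset.mem_union_right _
        (Finset.mem_filter.2 ⟨hm, hmB⟩)))
    have hmA' : ∀ l, m l ≤ a := fun l => not_lt.1 fun h => hmA ⟨l, h⟩
    have hmB' : R < 2 * sT m := not_le.1 hmB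
    by_cases hmF : MassOK x m
    · have hw : ¬ ∀ d, x + 8 * sT m ≤ 8 * T (d + 1) ∨ x + 13 * T (d + 1) ≤ 13 * sT m :=
        fun h => hE ⟨hmF, h⟩
      rw [not_forall] at hw
      obtain ⟨d, hw⟩ := hw
      rw [not_or, not_le, not_le] at hw
      obtain ⟨w1, w2⟩ := hw
      by_cases h3 : h₀ = 1
      · exfalso
        rw [if_pos h3] at hx
        omega
      · rw [if_neg h3] at hx
        refine Finset.mem_union_right _ ?_
        rw [if_neg h3]
        refine Finset.mem_filter.2 ⟨hm, hmA', hmB', d, ?_, ?_⟩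
        · omega
        · omega
    · refine Finset.mem_union_left _ (Finset.mem_union_right _ (Finset.mem_filter.2
        ⟨hm, hmA', hmB', not_massOK h₀ a hh x hx1 m hmA' hmF⟩))
  refine (Finset.card_le_card h1).trans ?_
  refine (Finset.card_union_le _ _).trans ?_
  refine Nat.add_le_add ((Finset.card_union_le _ _).trans
    (Nat.add_le_add_right (Finset.card_union_le _ _) _)) ?_
  split_ifs with h3
  · simp
  · exact le_rfl

/-- The numbers: MIDDLE. -/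
theorem num_F8 (a ℓ R s w h L : ℝ) (ha : 1 ≤ a) (hℓ : 0.69 ≤ ℓ) (hs : 1 ≤ s) (hR : s ≤ R)
    (hw : 10 ^ 14 * ℓ ^ 2 ≤ w) (has : a ^ 2 * s ≤ 10608 * ℓ * R) (hL : 0 < L)
    (h2 : R ≤ 8 * a ^ 2 * L) (hh : 0 < h) (hh2 : R * w ^ 2 ≤ 4 * h ^ 2 * s ^ 3) :
    2 * (2016 * (a + 1) / (L * h)) ^ 8 ≤ 1 / 4 * (1 / w) := by
  have hR0 : 0 < R := by linarith
  have hs0 : 0 < s := by linarith
  have hw0 : 0 < w := by nlinarith
  obtain ⟨ρ, hρ⟩ : ∃ ρ, ρ = 2016 * (a + 1) / (L * h) := ⟨_, rfl⟩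
  have hρ0 : 0 ≤ ρ := by rw [hρ]; positivity
  have h3 : ρ ≤ 32256 * a ^ 3 / (R * h) := by
    rw [hρ, div_le_div_iff₀ (by positivity) (by positivity)]
    have h4 : (a + 1) * R ≤ (2 * a) * (8 * a ^ 2 * L) :=
      mul_le_mul (by linarith) h2 hR0.le (by linarith)
    calc 2016 * (a + 1) * (R * h) = 2016 * ((a + 1) * R) * h := by ring
      _ ≤ 2016 * ((2 * a) * (8 * a ^ 2 * L)) * h :=
          mul_le_mul_of_nonneg_right (by linarith) hh.le
      _ = 32256 * a ^ 3 * (L * h) := by ring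
  have h4 : ρ ^ 2 ≤ 5 * 10 ^ 21 * ℓ ^ 3 / w ^ 2 := by
    have h5 : ρ ^ 2 ≤ (32256 * a ^ 3 / (R * h)) ^ 2 := pow_le_pow_left₀ hρ0 h3 2
    refine h5.trans ?_
    rw [div_pow, div_le_div_iff₀ (by positivity) (by positivity)]
    have h6 : (a ^ 2 * s) ^ 3 ≤ (10608 * ℓ * R) ^ 3 := pow_le_pow_left₀ (by positivity) has 3
    have h7 : ((32256 * a ^ 3) ^ 2 * w ^ 2) * (s ^ 3 * R) ≤
        (5 * 10 ^ 21 * ℓ ^ 3 * (R * h) ^ 2) * (s ^ 3 * R) := by
      calc ((32256 * a ^ 3) ^ 2 * w ^ 2) * (s ^ 3 * R)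
          = 32256 ^ 2 * (a ^ 2 * s) ^ 3 * (R * w ^ 2) := by ring
        _ ≤ 32256 ^ 2 * (10608 * ℓ * R) ^ 3 * (4 * h ^ 2 * s ^ 3) := by
            refine mul_le_mul ?_ hh2 (by positivity) (by positivity)
            linarith
        _ = (32256 ^ 2 * 10608 ^ 3 * 4) * (ℓ ^ 3 * (R * h) ^ 2 * (s ^ 3 * R)) := by ring
        _ ≤ (5 * 10 ^ 21) * (ℓ ^ 3 * (R * h) ^ 2 * (s ^ 3 * R)) := by
            refine mul_le_mul_of_nonneg_right ?_ (by positivity)
            norm_num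
        _ = _ := by ring
    exact le_of_mul_le_mul_right h7 (by positivity)
  have h5 : (ρ ^ 2) ^ 4 ≤ (5 * 10 ^ 21 * ℓ ^ 3 / w ^ 2) ^ 4 := pow_le_pow_left₀ (by positivity) h4 4
  have h6 : ρ ^ 8 = (ρ ^ 2) ^ 4 := by ring
  rw [← hρ, h6]
  refine (mul_le_mul_of_nonneg_left h5 (by norm_num)).trans ?_
  have e : 1 / 4 * (1 / w) = 1 / (4 * w) := by field_simp
  rw [e, div_pow, mul_div_assoc', div_le_div_iff₀ (by positivity) (by positivity)]
  have h8 : (10 ^ 14 * ℓ ^ 2) ^ 7 ≤ w ^ 7 := pow_le_pow_left₀ (by positivity) hw 7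
  have h9 : (0.4 : ℝ) ≤ ℓ ^ 2 := by nlinarith
  calc 2 * (5 * 10 ^ 21 * ℓ ^ 3) ^ 4 * (4 * w) = (5000 * 10 ^ 84 * ℓ ^ 12) * w := by ring
    _ ≤ (0.4 * 10 ^ 98 * ℓ ^ 12) * w := by
        refine mul_le_mul_of_nonneg_right ?_ hw0.le
        refine mul_le_mul_of_nonneg_right ?_ (by positivity)
        norm_num
    _ ≤ (ℓ ^ 2 * 10 ^ 98 * ℓ ^ 12) * w := by
        refine mul_le_mul_of_nonneg_right ?_ hw0.le
        refine mul_le_mul_of_nonneg_right ?_ (by positivity)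
        exact mul_le_mul_of_nonneg_right h9 (by positivity)
    _ = (10 ^ 14 * ℓ ^ 2) ^ 7 * w := by ring
    _ ≤ w ^ 7 * w := mul_le_mul_of_nonneg_right h8 hw0.le
    _ = 1 * (w ^ 2) ^ 4 := by ring

/-- The numbers: SHELLS. -/
theorem num_V (a ℓ R s σ w h b g L ω : ℝ) (hℓ : 0.69 ≤ ℓ) (hs : 1 ≤ s) (hσ : 0 < σ)
    (hσ2 : σ ^ 2 = s) (hω : 0 < ω) (hω2 : ω ^ 2 = R) (hR : s ^ 2 ≤ R)
    (hw : 10 ^ 14 * ℓ ^ 2 ≤ w) (hwσ : w ^ 2 ≤ σ) (hRw : R * w ^ 8 ≤ s ^ 6)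
    (has : a ^ 2 * s ≤ 10608 * ℓ * R) (hL : 0 < L)
    (h2 : R ≤ 8 * a ^ 2 * L) (hh2 : h ^ 2 * s ^ 3 ≤ R * w ^ 2)
    (hb : 0 < b) (hb2 : R ≤ 16 * s * b ^ 2) (hg : 0 < g) (hg2 : R ≤ 16 * g ^ 2) :
    s * (((a ^ 2 + 51 * h ^ 2) / g + 1) * (51 * h ^ 2 / b + 1)) / (L * b) ≤ 1 / 4 * (1 / w) := by
  have hs0 : 0 < s := by linarith
  have hR0 : 0 < R := by nlinarith
  have hw0 : 0 < w := by nlinarith
  have hw1 : 1 ≤ w := by nlinarith
  have hsω : s ≤ ω := by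
    have : s ^ 2 ≤ ω ^ 2 := by rw [hω2]; exact hR
    exact le_of_sq_le_sq this hω.le
  have h4 : s / L ≤ 84864 * ℓ := by
    rw [div_le_iff₀ hL]
    have h5 : R * s ≤ (84864 * ℓ * L) * R := by
      calc R * s ≤ (8 * a ^ 2 * L) * s := mul_le_mul_of_nonneg_right h2 hs0.le
        _ = 8 * L * (a ^ 2 * s) := by ring
        _ ≤ 8 * L * (10608 * ℓ * R) := mul_le_mul_of_nonneg_left has (by positivity)
        _ = _ := by ring
    have h6 : s * R ≤ (84864 * ℓ * L) * R := by linarith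
    exact le_of_mul_le_mul_right h6 hR0
  have hωb : ω ≤ 4 * σ * b := by
    have : ω ^ 2 ≤ (4 * σ * b) ^ 2 := by
      calc ω ^ 2 = R := hω2
        _ ≤ 16 * s * b ^ 2 := hb2
        _ = _ := by rw [← hσ2]; ring
    exact le_of_sq_le_sq this (by positivity)
  have hωg : ω ≤ 4 * g := by
    have : ω ^ 2 ≤ (4 * g) ^ 2 := by
      calc ω ^ 2 = R := hω2
        _ ≤ 16 * g ^ 2 := hg2
        _ = _ := by ring
    exact le_of_sq_le_sq this (by positivity)
  have hωw : ω * w ^ 4 ≤ s ^ 3 := by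
    have : (ω * w ^ 4) ^ 2 ≤ (s ^ 3) ^ 2 := by
      calc (ω * w ^ 4) ^ 2 = ω ^ 2 * w ^ 8 := by ring
        _ = R * w ^ 8 := by rw [hω2]
        _ ≤ s ^ 6 := hRw
        _ = _ := by ring
    exact le_of_sq_le_sq this (by positivity)
  -- the number of windows
  have hD : (a ^ 2 + 51 * h ^ 2) / g + 1 ≤ 42438 * ℓ * ω / s := by
    have h5 : 51 * h ^ 2 * s ≤ (1 / 4) * ℓ * R := by
      have h6 : (51 * h ^ 2 * s) * s ^ 2 ≤ ((1 / 4) * ℓ * R) * s ^ 2 := by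
        calc (51 * h ^ 2 * s) * s ^ 2 = 51 * (h ^ 2 * s ^ 3) := by ring
          _ ≤ 51 * (R * w ^ 2) := by linarith
          _ ≤ 51 * (R * σ) := by
              have := mul_le_mul_of_nonneg_left hwσ hR0.le
              linarith
          _ ≤ ((1 / 4) * ℓ * R) * s ^ 2 := by
              have h7 : 51 * σ ≤ (1 / 4) * ℓ * s ^ 2 := by
                have h8 : (10 : ℝ) ^ 10 ≤ σ := by nlinarith
                have h9 : s ^ 2 = σ ^ 3 * σ := by rw [← hσ2]; ring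
                rw [h9]
                have h10 : (10 : ℝ) ^ 10 * 1 ≤ σ ^ 3 := by
                  have : σ ^ 3 = σ * (σ ^ 2) := by ring
                  rw [this]
                  refine mul_le_mul h8 ?_ (by norm_num) hσ.le
                  rw [hσ2]
                  exact hs
                nlinarith
              nlinarith
      exact le_of_mul_le_mul_right h6 (by positivity)
    have h6 : (a ^ 2 + 51 * h ^ 2) / g ≤ 42434 * ℓ * ω / s := by
      rw [div_le_div_iff₀ hg hs0]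
      have h7 : (a ^ 2 + 51 * h ^ 2) * s ≤ 10608.25 * ℓ * R := by nlinarith
      calc (a ^ 2 + 51 * h ^ 2) * s ≤ 10608.25 * ℓ * R := h7
        _ = 10608.25 * ℓ * ω * ω := by rw [← hω2]; ring
        _ ≤ 10608.25 * ℓ * ω * (4 * g) := mul_le_mul_of_nonneg_left hωg (by positivity)
        _ ≤ 42434 * ℓ * ω * g := by
            have : 0 ≤ ℓ * ω * g := by positivity
            nlinarith
    have h7 : 1 ≤ 4 * ℓ * ω / s := by
      rw [le_div_iff₀ hs0]
      nlinarith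
    have e : 42438 * ℓ * ω / s = 42434 * ℓ * ω / s + 4 * ℓ * ω / s := by ring
    rw [e]
    linarith
  have hB : (51 * h ^ 2 / b + 1) / b ≤ 816 * w ^ 2 / s ^ 2 + 4 * σ / ω := by
    have e : (51 * h ^ 2 / b + 1) / b = 51 * h ^ 2 / b ^ 2 + 1 / b := by
      field_simp
    rw [e]
    refine add_le_add ?_ ?_
    · rw [div_le_div_iff₀ (by positivity) (by positivity)]
      have h5 : (h ^ 2 * s ^ 2) * s ≤ (16 * w ^ 2 * b ^ 2) * s := by
        calc (h ^ 2 * s ^ 2) * s = h ^ 2 * s ^ 3 := by ring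
          _ ≤ R * w ^ 2 := hh2
          _ ≤ (16 * s * b ^ 2) * w ^ 2 := mul_le_mul_of_nonneg_right hb2 (by positivity)
          _ = _ := by ring
      have h6 := le_of_mul_le_mul_right h5 hs0
      nlinarith
    · rw [div_le_div_iff₀ hb hω]
      linarith
  have hD0 : 0 ≤ (a ^ 2 + 51 * h ^ 2) / g + 1 := by positivity
  have hB0 : 0 ≤ (51 * h ^ 2 / b + 1) / b := by positivity
  have hDB : ((a ^ 2 + 51 * h ^ 2) / g + 1) * ((51 * h ^ 2 / b + 1) / b) ≤
      35000000 * ℓ / w ^ 2 := by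
    calc ((a ^ 2 + 51 * h ^ 2) / g + 1) * ((51 * h ^ 2 / b + 1) / b)
        ≤ (42438 * ℓ * ω / s) * (816 * w ^ 2 / s ^ 2 + 4 * σ / ω) :=
          mul_le_mul hD hB hB0 (by positivity)
      _ = 34629408 * ℓ * (ω * w ^ 2 / s ^ 3) + 169752 * ℓ * (σ / s) := by
          field_simp
          ring
      _ ≤ 34629408 * ℓ * (1 / w ^ 2) + 169752 * ℓ * (1 / w ^ 2) := by
          refine add_le_add (mul_le_mul_of_nonneg_left ?_ (by positivity))
            (mul_le_mul_of_nonneg_left ?_ (by positivity))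
          · rw [div_le_div_iff₀ (by positivity) (by positivity)]
            calc ω * w ^ 2 * w ^ 2 = ω * w ^ 4 := by ring
              _ ≤ 1 * s ^ 3 := by linarith
          · rw [div_le_div_iff₀ hs0 (by positivity)]
            calc σ * w ^ 2 ≤ σ * σ := mul_le_mul_of_nonneg_left hwσ hσ.le
              _ = 1 * s := by rw [← hσ2]; ring
      _ = 34799160 * ℓ / w ^ 2 := by ring
      _ ≤ 35000000 * ℓ / w ^ 2 := by
          refine div_le_div_of_nonneg_right ?_ (by positivity)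
          nlinarith
  have e : s * (((a ^ 2 + 51 * h ^ 2) / g + 1) * (51 * h ^ 2 / b + 1)) / (L * b) =
      (s / L) * (((a ^ 2 + 51 * h ^ 2) / g + 1) * ((51 * h ^ 2 / b + 1) / b)) := by
    field_simp
  rw [e]
  calc (s / L) * (((a ^ 2 + 51 * h ^ 2) / g + 1) * ((51 * h ^ 2 / b + 1) / b))
      ≤ (84864 * ℓ) * (35000000 * ℓ / w ^ 2) :=
        mul_le_mul h4 hDB (by positivity) (by positivity)
    _ = (84864 * 35000000 * ℓ ^ 2) / w ^ 2 := by ring
    _ ≤ ((1 / 4) * w) / w ^ 2 := by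
        refine div_le_div_of_nonneg_right ?_ (by positivity)
        nlinarith
    _ = 1 / 4 * (1 / w) := by
        field_simp

end ShghI
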