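import Pool.Agent.ShghI.Uni7

/-!
# The exceptional vectors for all degrees are rare
-/

namespace ShghI

open ShghJ

/-- `w` and the logarithm. -/
theorem w_facts (s : ℕ) (hs : 2 ≤ s) (w : ℝ) (hw : 10 ^ 14 * Real.log s ^ 2 ≤ w)
    (hws : w ^ 4 ≤ s) : 0.69 ≤ Real.log s ∧ 10 ^ 13 ≤ w ∧ w ^ 2 ≤ √s ∧
      10 ^ 12 * Real.log s ^ 2 < √s ∧ 10 ^ 12 * Real.log s ^ 2 / √s ≤ 1 / 4 * (1 / w) := by
  have hs2 : (2 : ℝ) ≤ s := by exact_mod_cast hs
  have hs0 : (0 : ℝ) < s := by linarith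
  have hℓ : 0.69 ≤ Real.log s := by
    have h3 : Real.log 2 ≤ Real.log s := Real.log_le_log (by norm_num) hs2
    have h4 := Real.log_two_gt_d9
    linarith
  have hσ0 : 0 < √(s : ℝ) := Real.sqrt_pos.2 hs0
  have hσ2 : √(s : ℝ) ^ 2 = s := Real.sq_sqrt hs0.le
  have hw13 : 10 ^ 13 ≤ w := by nlinarith
  have hw0 : 0 < w := by linarith
  have hwσ : w ^ 2 ≤ √(s : ℝ) := by
    have : (w ^ 2) ^ 2 ≤ √(s : ℝ) ^ 2 := by
      rw [hσ2]
      calc (w ^ 2) ^ 2 = w ^ 4 := by ring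
        _ ≤ (s : ℝ) := hws
    exact le_of_sq_le_sq this hσ0.le
  refine ⟨hℓ, hw13, hwσ, ?_, ?_⟩
  · nlinarith
  · have e : 1 / 4 * (1 / w) = 1 / (4 * w) := by field_simp
    rw [e, div_le_div_iff₀ hσ0 (by linarith)]
    have h1 : 10 ^ 12 * Real.log s ^ 2 ≤ w / 100 := by linarith
    calc 10 ^ 12 * Real.log s ^ 2 * (4 * w) ≤ (w / 100) * (4 * w) :=
          mul_le_mul_of_nonneg_right h1 (by linarith)
      _ ≤ 1 * w ^ 2 := by nlinarith
      _ ≤ 1 * √s := by linarith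

open Classical in
/-- The exceptional vectors for all degrees are rare. -/
theorem uni_all (s R : ℕ) (hs : 2 ≤ s) (w : ℝ) (hw : 10 ^ 14 * Real.log s ^ 2 ≤ w)
    (hws : w ^ 4 ≤ s) : ∃ x : ℕ, (x : ℝ) * (s : ℝ) ^ 3 ≤ 248 * (w ^ 2 * R) ∧
    (((BB s R).filter (fun m => ¬ MassOK x m)).card : ℝ) ≤ 1 / w * (BB s R).card ∧
    ((R : ℝ) * w ^ 8 ≤ (s : ℝ) ^ 6 →
      (((BB s R).filter (ExcA x)).card : ℝ) ≤ 1 / w * (BB s R).card) := by
  obtain ⟨hℓ, hw13, hwσ, hΛ, he⟩ := w_facts s hs w hw hws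
  have hs2 : (2 : ℝ) ≤ s := by exact_mod_cast hs
  have hs0 : (0 : ℝ) < s := by linarith
  have hσ0 : 0 < √(s : ℝ) := Real.sqrt_pos.2 hs0
  have hσ2 : √(s : ℝ) ^ 2 = s := Real.sq_sqrt hs0.le
  have hw0 : 0 < w := by linarith
  have hP0 : (0 : ℝ) ≤ (BB s R).card := Nat.cast_nonneg _
  by_cases hR2 : (R : ℝ) ≤ (s : ℝ) ^ 2
  · -- few conditions
    obtain ⟨x, -, hx0, hx⟩ := uni_mass s R hs
    rw [hx0 hR2] at hx
    have h1 : (((BB s R).filter (fun m => ¬ MassOK 0 m)).card : ℝ) ≤ 1 / w * (BB s R).card := by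
      refine hx.trans (mul_le_mul_of_nonneg_right (he.trans ?_) hP0)
      have : 0 < 1 / w := by positivity
      linarith
    refine ⟨0, ?_, h1, fun _ => ?_⟩
    · rw [Nat.cast_zero, zero_mul]
      positivity
    · refine le_trans ?_ h1
      have h2 : (BB s R).filter (ExcA 0) ⊆ (BB s R).filter (fun m => ¬ MassOK 0 m) := by
        intro m hm
        rw [Finset.mem_filter] at hm ⊢
        refine ⟨hm.1, fun h => hm.2 ⟨h, fun d => ?_⟩⟩
        rcases le_total (sT m) (T (d + 1)) with h1 | h1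
        · left
          omega
        · right
          omega
      exact_mod_cast Finset.card_le_card h2
  rw [not_le] at hR2
  have hσ1 : 10 ≤ √(s : ℝ) := by nlinarith
  have hσs : √(s : ℝ) ≤ s := by
    have : √(s : ℝ) * 1 ≤ √(s : ℝ) * √(s : ℝ) := mul_le_mul_of_nonneg_left (by linarith) hσ0.le
    nlinarith
  have hsR : (s : ℝ) < R := by nlinarith
  have hR0 : (0 : ℝ) < R := by linarith
  obtain ⟨n, rfl⟩ : ∃ n, s = n + 2 := ⟨s - 2, by omega⟩
  obtain ⟨q, i, a, L, hq1, hqN, hi1, ha1, hL1, h26, h52, hLR, h992, h8, haR⟩ :=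
    choose_all n R _ hσ0.le hσ2 hℓ hΛ (lt_of_le_of_lt hσs hsR)
  have hX1 := tail_card' (n + 1) R q a i hq1 (by nlinarith) h26
  have hX2 := small_card (n + 1) R q i hq1 (by nlinarith) h52
  have hpow := pow_bound _ hs2 i hi1
  have hX := prop_part ((n + 2 : ℕ) : ℝ) 1 (BB (n + 2) R).card
    ((BB (n + 2) R).filter (fun m => ∃ l, a < m l)).card
    ((BB (n + 2) R).filter (fun m => 2 * sT m ≤ R)).card i hs2 (Nat.cast_nonneg _)
    (Nat.cast_nonneg _) (Nat.cast_nonneg _) (one_le_pow₀ (by linarith)) hpow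
    (by rw [mul_one]; exact_mod_cast hX1) (by exact_mod_cast hX2)
  have h8' : (R : ℝ) ≤ 8 * (a : ℝ) ^ 2 * L := by exact_mod_cast h8
  have ha1' : (1 : ℝ) ≤ a := by exact_mod_cast ha1
  have hL0 : (0 : ℝ) < L := by exact_mod_cast hL1
  obtain ⟨S, hS⟩ : ∃ S : ℝ, S = ((n + 2 : ℕ) : ℝ) := ⟨_, rfl⟩
  rw [← hS] at hw hws hℓ hwσ hΛ he hs2 hs0 hσ0 hσ2 hR2 hσ1 hσs hsR hi1 haR hpow hX ⊢
  set σ := √S with hσd
  set ℓ := Real.log S with hℓd
  have has : (a : ℝ) ^ 2 * S ≤ 10608 * ℓ * R := by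
    have h4 : (2 * R / S + 1) * S = 2 * R + S := by
      rw [add_mul, div_mul_cancel₀ _ hs0.ne', one_mul]
    calc (a : ℝ) ^ 2 * S ≤ 3536 * ℓ * (2 * R / S + 1) * S :=
          mul_le_mul_of_nonneg_right haR hs0.le
      _ = 3536 * ℓ * (2 * R + S) := by rw [mul_assoc, h4]
      _ ≤ 3536 * ℓ * (3 * R) := mul_le_mul_of_nonneg_left (by linarith) (by positivity)
      _ = _ := by ring
  have h2000 : 2000 * a ^ 2 ≤ R := by
    have h1 : 2000 * (a : ℝ) ^ 2 * S ≤ R * S := by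
      calc 2000 * (a : ℝ) ^ 2 * S = 2000 * ((a : ℝ) ^ 2 * S) := by ring
        _ ≤ 2000 * (10608 * ℓ * R) := by linarith
        _ = (21216000 * ℓ) * R := by ring
        _ ≤ S * R := by
            refine mul_le_mul_of_nonneg_right ?_ hR0.le
            nlinarith
        _ = R * S := by ring
    have h2 := le_of_mul_le_mul_right h1 hs0
    exact_mod_cast h2
  have hXs : (((BB (n + 2) R).filter (fun m => ∃ l, a < m l)).card : ℝ) +
      ((BB (n + 2) R).filter (fun m => 2 * sT m ≤ R)).card ≤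
      1 / 4 * (1 / w) * (BB (n + 2) R).card := by
    have h1 : S * ((((BB (n + 2) R).filter (fun m => ∃ l, a < m l)).card : ℝ) +
      ((BB (n + 2) R).filter (fun m => 2 * sT m ≤ R)).card) ≤
      S * (1 / 4 * (1 / w) * (BB (n + 2) R).card) := by
      refine hX.trans ?_
      have h2 : (1 : ℝ) ≤ S * (1 / 4 * (1 / w)) := by
        have e : S * (1 / 4 * (1 / w)) = S / (4 * w) := by field_simp
        rw [e, one_le_div (by linarith)]
        nlinarith
      calc ((BB (n + 2) R).card : ℝ) = 1 * (BB (n + 2) R).card := (one_mul _).symm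
        _ ≤ (S * (1 / 4 * (1 / w))) * (BB (n + 2) R).card :=
            mul_le_mul_of_nonneg_right h2 hP0
        _ = _ := by ring
    exact le_of_mul_le_mul_left h1 hs0
  -- the choice of `h₀`
  have hS3 : 0 < S ^ 3 := by positivity
  obtain ⟨h₀, hh1, hh2, hh3⟩ : ∃ h : ℕ, 1 ≤ h ∧ (h = 1 ∨ (h : ℝ) ^ 2 * S ^ 3 ≤ R * w ^ 2) ∧
      R * w ^ 2 ≤ 4 * (h : ℝ) ^ 2 * S ^ 3 := by
    rcases le_total (S ^ 3) (R * w ^ 2) with h1 | h1
    · obtain ⟨h, g1, g2, g3⟩ := floor_sqrt (R * w ^ 2 / S ^ 3) ((one_le_div hS3).2 h1)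
      rw [le_div_iff₀ hS3] at g2
      rw [div_le_iff₀ hS3] at g3
      exact ⟨h, g1, Or.inr g2, g3⟩
    · refine ⟨1, le_rfl, Or.inl rfl, ?_⟩
      rw [Nat.cast_one]
      linarith
  have hh0 : (0 : ℝ) < h₀ := by exact_mod_cast hh1
  have hF := (mid_sum8 (n + 2) R a h₀ L hh1 hL1 hLR h2000).trans (mul_le_mul_of_nonneg_right
    (num_F8 a ℓ R S w h₀ L ha1' hℓ (by linarith) hsR.le hw has hL0 h8' hh0 hh3) hP0)
  have e4 : 1 / 4 * (1 / w) * ((BB (n + 2) R).card : ℝ) =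
      1 / 4 * (1 / w * (BB (n + 2) R).card) := by ring
  rw [e4] at hF hXs
  have hZ0 : 0 ≤ 1 / w * ((BB (n + 2) R).card : ℝ) := by positivity
  refine ⟨(if h₀ = 1 then 0 else 248 * h₀ ^ 2), ?_, ?_, fun hRw => ?_⟩
  · split_ifs with hc
    · rw [Nat.cast_zero, zero_mul]
      positivity
    · push_cast
      have h1 := hh2.resolve_left hc
      calc 248 * (h₀ : ℝ) ^ 2 * S ^ 3 = 248 * ((h₀ : ℝ) ^ 2 * S ^ 3) := by ring
        _ ≤ 248 * (w ^ 2 * (R : ℝ)) := by linarith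
  · refine (Nat.cast_le.2 (mass_card_le (n + 2) R a h₀ hh1)).trans ?_
    rw [Nat.cast_add, Nat.cast_add]
    generalize 1 / w * ((BB (n + 2) R).card : ℝ) = Z at hF hXs hZ0 ⊢
    linarith
  · refine (Nat.cast_le.2 (excA_card_le (n + 2) R a h₀ hh1)).trans ?_
    have hVb : (((if h₀ = 1 then 0 else
        ((BB (n + 2) R).filter (fun m => (∀ l, m l ≤ a) ∧ R < 2 * sT m ∧
          ∃ d, T (d + 1) ≤ sT m + 31 * h₀ ^ 2 ∧ sT m < T (d + 1) + 20 * h₀ ^ 2)).card) : ℕ) : ℝ) ≤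
        1 / 4 * (1 / w * (BB (n + 2) R).card) := by
      split_ifs with hc
      · rw [Nat.cast_zero]
        linarith
      have hh4 := hh2.resolve_left hc
      -- the choice of `b` and `g`
      have h4S : 0 < 4 * S := by linarith
      have h4SR : 4 * S ≤ R := by
        have : 4 * S ≤ S * S := mul_le_mul_of_nonneg_right (by nlinarith) hs0.le
        nlinarith
      obtain ⟨b, hb1, hb2, hb3⟩ := floor_sqrt (R / (4 * S)) ((one_le_div h4S).2 h4SR)
      rw [le_div_iff₀ h4S] at hb2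
      rw [div_le_iff₀ h4S] at hb3
      obtain ⟨g, hg1, hg2, hg3⟩ := floor_sqrt (R / 4) (by
        rw [le_div_iff₀ (by norm_num)]
        linarith)
      rw [le_div_iff₀ (by norm_num)] at hg2
      rw [div_le_iff₀ (by norm_num)] at hg3
      have hb0 : (0 : ℝ) < b := by exact_mod_cast hb1
      have hg0 : (0 : ℝ) < g := by exact_mod_cast hg1
      have hTb : T b ≤ b ^ 2 := by
        have h3 := two_T b
        nlinarith
      have hTg : T g ≤ g ^ 2 := by
        have h3 := two_T g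
        nlinarith
      have hTa : T a ≤ a ^ 2 := by
        have h3 := two_T a
        nlinarith
      have hsb : 4 * ((n + 2) * T b) ≤ R := by
        have h1 : 4 * ((n + 2) * T b) ≤ 4 * ((n + 2) * b ^ 2) :=
          Nat.mul_le_mul_left _ (Nat.mul_le_mul_left _ hTb)
        have h2 : ((4 * ((n + 2) * b ^ 2) : ℕ) : ℝ) ≤ R := by
          have e : ((4 * ((n + 2) * b ^ 2) : ℕ) : ℝ) = (b : ℝ) ^ 2 * (4 * S) := by
            rw [hS]
            push_cast
            ring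
          rw [e]
          exact hb2
        exact h1.trans (by exact_mod_cast h2)
      have hgR : 2 * T g + 2 * (20 * h₀ ^ 2) ≤ R := by
        have h1 : 4 * g ^ 2 ≤ R := by
          have : (4 : ℝ) * (g : ℝ) ^ 2 ≤ R := by linarith
          exact_mod_cast this
        have h2 : 80 * h₀ ^ 2 ≤ R := by
          have h3 : (80 : ℝ) * (h₀ : ℝ) ^ 2 ≤ R := by
            have h4 : (80 * (h₀ : ℝ) ^ 2) * S ^ 3 ≤ R * S ^ 3 := by
              calc (80 * (h₀ : ℝ) ^ 2) * S ^ 3 = 80 * ((h₀ : ℝ) ^ 2 * S ^ 3) := by ring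
                _ ≤ 80 * (R * w ^ 2) := by linarith
                _ = R * (80 * w ^ 2) := by ring
                _ ≤ R * S ^ 3 := by
                    refine mul_le_mul_of_nonneg_left ?_ hR0.le
                    have h5 : w ^ 2 ≤ S := hwσ.trans hσs
                    have h6 : 80 * S ≤ S ^ 3 := by
                      have h7 : (100 : ℝ) ≤ S := by nlinarith
                      have h8 : S ^ 3 = S * S * S := by ring
                      rw [h8]
                      refine mul_le_mul_of_nonneg_right ?_ hs0.le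
                      nlinarith
                    linarith
            exact le_of_mul_le_mul_right h4 hS3
          exact_mod_cast h3
        omega
      have hsh := exch_shells (n + 2) R a b L g (31 * h₀ ^ 2) (20 * h₀ ^ 2) hb1 hg1 hLR hsb hgR
      have hsh' : (((BB (n + 2) R).filter (fun m => (∀ l, m l ≤ a) ∧ R < 2 * sT m ∧
          ∃ d, T (d + 1) ≤ sT m + 31 * h₀ ^ 2 ∧ sT m < T (d + 1) + 20 * h₀ ^ 2)).card : ℝ) ≤
          (S * ((((a : ℝ) ^ 2 + 51 * (h₀ : ℝ) ^ 2) / g + 1) * (51 * (h₀ : ℝ) ^ 2 / b + 1)) /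
            (L * b)) * (BB (n + 2) R).card := by
        have h3 : (0 : ℝ) < L * b := by positivity
        rw [div_mul_eq_mul_div, le_div_iff₀ h3]
        have h1 : (((BB (n + 2) R).filter (fun m => (∀ l, m l ≤ a) ∧ R < 2 * sT m ∧
          ∃ d, T (d + 1) ≤ sT m + 31 * h₀ ^ 2 ∧ sT m < T (d + 1) + 20 * h₀ ^ 2)).card : ℝ) *
          (L * b) ≤ (BB (n + 2) R).card * (S *
          ((((T a + 31 * h₀ ^ 2 + 20 * h₀ ^ 2) / g + 1 : ℕ) : ℝ) *
            (((31 * h₀ ^ 2 + 20 * h₀ ^ 2) / b + 1 : ℕ) : ℝ))) := by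
          rw [hS]
          exact_mod_cast hsh
        refine h1.trans ?_
        have h4 : (((T a + 31 * h₀ ^ 2 + 20 * h₀ ^ 2) / g + 1 : ℕ) : ℝ) ≤
            ((a : ℝ) ^ 2 + 51 * (h₀ : ℝ) ^ 2) / g + 1 := by
          rw [Nat.cast_add, Nat.cast_one]
          refine add_le_add (Nat.cast_div_le.trans ?_) le_rfl
          refine div_le_div_of_nonneg_right ?_ hg0.le
          have h5 : T a + 31 * h₀ ^ 2 + 20 * h₀ ^ 2 ≤ a ^ 2 + 51 * h₀ ^ 2 := by omega
          exact_mod_cast h5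
        have h5 : (((31 * h₀ ^ 2 + 20 * h₀ ^ 2) / b + 1 : ℕ) : ℝ) ≤
            51 * (h₀ : ℝ) ^ 2 / b + 1 := by
          rw [Nat.cast_add, Nat.cast_one]
          refine add_le_add (Nat.cast_div_le.trans ?_) le_rfl
          refine div_le_div_of_nonneg_right ?_ hb0.le
          push_cast
          linarith
        have h6 : (0 : ℝ) ≤ ((a : ℝ) ^ 2 + 51 * (h₀ : ℝ) ^ 2) / g + 1 := by positivity
        rw [mul_comm (S * _)]
        refine mul_le_mul_of_nonneg_left ?_ hP0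
        refine mul_le_mul_of_nonneg_left ?_ hs0.le
        exact mul_le_mul h4 h5 (Nat.cast_nonneg _) h6
      refine hsh'.trans ?_
      rw [← e4]
      refine mul_le_mul_of_nonneg_right ?_ hP0
      exact num_V a ℓ R S σ w h₀ b g L (√(R : ℝ)) hℓ (by linarith) hσ0 hσ2 (Real.sqrt_pos.2 hR0)
        (Real.sq_sqrt hR0.le) hR2.le hw hwσ hRw has hL0 h8' hh4 hb0 (by linarith) hg0
        (by linarith)
    rw [Nat.cast_add, Nat.cast_add, Nat.cast_add]
    generalize 1 / w * ((BB (n + 2) R).card : ℝ) = Z at hF hXs hZ0 hVb ⊢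
    linarith

end ShghI
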