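import Pool.Agent.ShghI.BaseR

/-!
# ShghI, WinR: window, mass condition and structure for a general base
-/

namespace ShghI

open ShghJ

variable {d : ℕ} {h : Multiset ℕ → ℕ}

/-- WINDOW for a general base. -/
theorem win_of_base (H : HFunD d h) {K : Multiset ℕ} {k D1 : ℕ} {reach G : ℕ → ℕ}
    (HB : BaseD d h K k D1 reach G) {κ R : ℝ} (hR : 5 / 2 ≤ R) {M : ℕ} {S : Multiset ℕ}
    (hS : ∀ x ∈ S, x ≤ M)
    (HF0 : ∀ m : List ℕ, m.Pairwise (· ≤ ·) → (∀ x ∈ m, x ≤ M) → HCE0 d D1 reach G κ m (FiD R m))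
    (HF : ∀ m : List ℕ, m.Pairwise (· ≤ ·) → (∀ x ∈ m, x ≤ M) → HCE d D1 reach G κ m (FiD R m)) :
    (1 ≤ h (K + S) →
      2 * ((h (K + S) : ℝ) + TT (K + S)) ≤ R * (M : ℝ) ^ 2 + 2 * T (d + 1)) ∧
    ((2 * R - 1) * (M : ℝ) ^ 2 ≤ 2 * ((T (d + 1) : ℝ) - TT (K + S)) →
      h (K + S) + TT (K + S) = T (d + 1)) := by
  have hchi := H.chi_le (K + S)
  have key : 1 ≤ h (K + S) → T (d + 1) < h (K + S) + TT (K + S) →
      2 * ((h (K + S) : ℝ) + TT (K + S)) ≤ R * (M : ℝ) ^ 2 + 2 * T (d + 1) ∧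
      2 * (T (d + 1) : ℝ) < (2 * R - 1) * (M : ℝ) ^ 2 + 2 * TT (K + S) := by
    intro h0 he
    have hcoe : ((S.sort (· ≤ ·) : List ℕ) : Multiset ℕ) = S := Multiset.sort_eq _ _
    have hs : (S.sort (· ≤ ·)).Pairwise (· ≤ ·) := Multiset.pairwise_sort _ _
    have hmM : ∀ x ∈ S.sort (· ≤ ·), x ≤ M := fun x hx => hS x (by simpa using hx)
    generalize S.sort (· ≤ ·) = m at *
    subst hcoe
    rw [add_comm K (m : Multiset ℕ)] at h0 he ⊢
    obtain ⟨l, hl, y, A, hA, hsplit, h2, hyF, hmy, hyd, hxy, he1, hA1, _, hN2, hB, _⟩ :=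
      finalE H κ m (FiD R m) HB (HF0 m hs hmM) (HF m hs hmM) h0 he
    rw [FiD_eq _ m hl] at hyF
    have hlM : m[l] ≤ M := hmM _ (List.getElem_mem hl)
    have hlM' : ((m[l] : ℕ) : ℝ) ≤ M := by exact_mod_cast hlM
    have ha' : (2 : ℝ) ≤ (m[l] : ℕ) := by exact_mod_cast h2
    have h3 := hB M (fun x hx => hmM x (List.mem_of_mem_drop hx))
    have h4 : TT ((m : Multiset ℕ) + K) =
        TT ((m.drop l : List ℕ) : Multiset ℕ) + TT A := by rw [hsplit, TT_add]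
    have h3' : 2 * (TT (m.drop l) : ℝ) + 2 * h ((m : Multiset ℕ) + K) ≤ 2 * h A + M * y := by
      exact_mod_cast h3
    have h4' : (TT ((m : Multiset ℕ) + K) : ℝ) =
        TT ((m.drop l : List ℕ) : Multiset ℕ) + TT A := by exact_mod_cast h4
    have he1' : (h A : ℝ) + TT A = T (d + 1) := by exact_mod_cast he1
    have h0' : (1 : ℝ) ≤ h ((m : Multiset ℕ) + K) := by exact_mod_cast h0
    have hdrop0 : (0 : ℝ) ≤ TT ((m.drop l : List ℕ) : Multiset ℕ) := Nat.cast_nonneg _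
    have hyM : (y : ℝ) ≤ R * M := hyF.trans (mul_le_mul_of_nonneg_left hlM' (by linarith))
    have hM0 : (0 : ℝ) ≤ M := by linarith
    have h5 : (M : ℝ) * y ≤ R * (M : ℝ) ^ 2 := by nlinarith
    constructor
    · linarith
    · have h10 : (((m[l] : ℕ) : ℝ) - 1) * (2 * y + 4 - ((m[l] : ℕ) : ℝ)) ≤
          (((m[l] : ℕ) : ℝ) - 1) * ((2 * R - 1) * ((m[l] : ℕ) : ℝ) + 4) :=
        mul_le_mul_of_nonneg_left (by linarith) (by linarith)
      have h11 : (((m[l] : ℕ) : ℝ) - 1) * ((2 * R - 1) * ((m[l] : ℕ) : ℝ) + 4) <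
          (2 * R - 1) * ((m[l] : ℕ) : ℝ) ^ 2 := by nlinarith
      have h12 : (2 * R - 1) * ((m[l] : ℕ) : ℝ) ^ 2 ≤ (2 * R - 1) * (M : ℝ) ^ 2 :=
        mul_le_mul_of_nonneg_left (pow_le_pow_left₀ (by linarith) hlM' 2) (by linarith)
      linarith
  have hchi' : (T (d + 1) : ℝ) ≤ h (K + S) + TT (K + S) := by exact_mod_cast hchi
  constructor
  · intro h0
    by_cases he : T (d + 1) < h (K + S) + TT (K + S)
    · exact (key h0 he).1
    · have h1 : (h (K + S) : ℝ) + TT (K + S) ≤ T (d + 1) := by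
        exact_mod_cast (not_lt.1 he)
      have : 0 ≤ R * (M : ℝ) ^ 2 := by positivity
      linarith
  · intro hQ
    by_cases he : T (d + 1) < h (K + S) + TT (K + S)
    · exfalso
      by_cases h0 : 1 ≤ h (K + S)
      · have h1 := (key h0 he).2
        linarith
      · have h1 : 0 ≤ (2 * R - 1) * (M : ℝ) ^ 2 := mul_nonneg (by linarith) (by positivity)
        have h2 : (T (d + 1) : ℝ) < TT (K + S) := by
          have : T (d + 1) < TT (K + S) := by omega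
          exact_mod_cast this
        linarith
    · omega

/-- MASS CONDITION for a general base. -/
theorem mass_of_base (H : HFunD d h) {K : Multiset ℕ} {k D1 : ℕ} {reach G : ℕ → ℕ}
    (HB : BaseD d h K k D1 reach G) {κ c x : ℝ} (_hc : 0 ≤ c) {M : ℕ} {S : Multiset ℕ}
    (hSM : ∀ y ∈ S, y ≤ M)
    (HF0 : ∀ m : List ℕ, m.Pairwise (· ≥ ·) → (∀ y ∈ m, y ≤ M) → MassD c x m →
      HCE0 d D1 reach G κ m (FdC x m))
    (HF : ∀ m : List ℕ, m.Pairwise (· ≥ ·) → (∀ y ∈ m, y ≤ M) → MassD c x m →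
      HCE d D1 reach G κ m (FdC x m))
    (hS : ∀ m ∈ S, 2 ≤ m → c * (m : ℝ) ^ 2 ≤ x + TT (S.filter (fun j => j < m)))
    (hx : x ≤ 8 * |(T (d + 1) : ℝ) - TT (K + S)|) :
    h (K + S) = T (d + 1) - TT (K + S) := by
  have hchi := H.chi_le (K + S)
  by_cases h0 : 1 ≤ h (K + S)
  · by_cases he : T (d + 1) < h (K + S) + TT (K + S)
    · exfalso
      have hcoe : ((S.sort (· ≥ ·) : List ℕ) : Multiset ℕ) = S := Multiset.sort_eq _ _
      have hs : (S.sort (· ≥ ·)).Pairwise (· ≥ ·) := Multiset.pairwise_sort _ _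
      have hmM : ∀ y ∈ S.sort (· ≥ ·), y ≤ M := fun y hy => hSM y (by simpa using hy)
      generalize S.sort (· ≥ ·) = m at *
      subst hcoe
      rw [add_comm K (m : Multiset ℕ)] at h0 he hx
      have hM : MassD c x m := by
        intro l hl h2
        have h3 := hS m[l] (by simp) h2
        have h4 := filter_le_drop hs hl
        have h6 : (TT ((m : Multiset ℕ).filter (fun j => j < m[l])) : ℝ) ≤
            (TT (m.drop l : List ℕ) : ℝ) := by exact_mod_cast h4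
        linarith
      obtain ⟨l, hl, y, A, hA, hsplit, h2, hyF, hmy, hyd, hxy, he1, hA1, hN, _, hB, _⟩ :=
        finalE H κ m (FdC x m) HB (HF0 m hs hmM hM) (HF m hs hmM hM) h0 he
      have h3 := hB m[l] (by
        intro z hz
        obtain ⟨i, hi, hli, rfl⟩ := mem_drop hz
        exact decr_le hs hli hi)
      have e1 := FdC_eq x m hl h2
      have h4 : TT ((m : Multiset ℕ) + K) =
          TT ((m.drop l : List ℕ) : Multiset ℕ) + TT A := by rw [hsplit, TT_add]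
      have h3' : 2 * (TT (m.drop l : List ℕ) : ℝ) + 2 * h ((m : Multiset ℕ) + K) ≤
          2 * h A + (m[l] : ℕ) * y := by exact_mod_cast h3
      have hN' : (h A : ℝ) < (m[l] : ℕ) * y := by exact_mod_cast hN
      have he1' : (h A : ℝ) + TT A = T (d + 1) := by exact_mod_cast he1
      have h4' : (TT ((m : Multiset ℕ) + K) : ℝ) = TT (m.drop l : List ℕ) + TT A := by
        exact_mod_cast h4
      have h0' : (1 : ℝ) ≤ h ((m : Multiset ℕ) + K) := by exact_mod_cast h0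
      have hA1' : (1 : ℝ) ≤ h A := by exact_mod_cast hA1
      have h2' : (2 : ℝ) ≤ (m[l] : ℕ) := by exact_mod_cast h2
      have h7 : 8 * ((m[l] : ℕ) * (y : ℝ)) ≤ x + TT (m.drop l : List ℕ) := by
        rw [← e1]; nlinarith
      have h12 := end_mass (c := 8) (χ := (T (d + 1) : ℝ) - TT ((m : Multiset ℕ) + K))
        (by norm_num) (Nat.cast_nonneg (TT (m.drop l : List ℕ)))
        (show (0 : ℝ) < h ((m : Multiset ℕ) + K) by linarith) hx
        (by rw [h4', ← he1']; ring) hN' h3' (by linarith)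
      linarith
    · omega
  · omega

section

variable {h : ℕ → Multiset ℕ → ℕ} {d k M : ℕ} {K S : Multiset ℕ}

/-- RELATIVE WINDOW: `K` non-special with room. -/
theorem win_rel (H : ∀ d' ≤ d, HFunD d' (h d')) (Mu : MulFun h d)
    (hK : h d K + TT K = T (d + 1)) (hroom : 2 * TT K + 3 * k * (d + 1) ≤ 2 * T (d + 1))
    (hk : 3 * M * d ≤ k * (k + 1) + 1) (hS : ∀ x ∈ S, x ≤ M) :
    (1 ≤ h d (K + S) →
      20 * (h d (K + S) + TT (K + S)) ≤ 41 * M ^ 2 + 20 * T (d + 1)) ∧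
    (18 * (M : ℤ) ^ 2 ≤ 5 * ((T (d + 1) : ℤ) - TT (K + S)) →
      h d (K + S) + TT (K + S) = T (d + 1)) := by
  have HB := baseD_of_room (fun d' hd' => (H d' hd').toHFun) Mu hK hroom
  obtain ⟨h1, h2⟩ := win_of_base (H d le_rfl) HB (κ := 4 / 3) (R := 41 / 10) (by norm_num) hS
    (fun m _ hm => hce0_of_hcd0 hm hk HCD0_incr) (fun m hs hm => hce_of_hcd hm hk (HCD_incr hs))
  constructor
  · intro h0
    have h3 := h1 h0
    have h4 : 20 * ((h d (K + S) : ℝ) + TT (K + S)) ≤ 41 * (M : ℝ) ^ 2 + 20 * T (d + 1) := by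
      linarith
    exact_mod_cast h4
  · intro h0
    refine h2 ?_
    have h3 : 18 * (M : ℝ) ^ 2 ≤ 5 * ((T (d + 1) : ℝ) - TT (K + S)) := by exact_mod_cast h0
    linarith

/-- RELATIVE MASS CONDITION. -/
theorem mass_rel (H : ∀ d' ≤ d, HFunD d' (h d')) (Mu : MulFun h d)
    (hK : h d K + TT K = T (d + 1)) (hroom : 2 * TT K + 3 * k * (d + 1) ≤ 2 * T (d + 1))
    (hk : 3 * M * d ≤ k * (k + 1) + 1) (hSM : ∀ x ∈ S, x ≤ M) {x : ℝ} (hx0 : 0 ≤ x)
    (hS : ∀ m ∈ S, 2 ≤ m → 62 * (m : ℝ) ^ 2 ≤ x + TT (S.filter (fun j => j < m)))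
    (hx : x ≤ 8 * |(T (d + 1) : ℝ) - TT (K + S)|) :
    h d (K + S) = T (d + 1) - TT (K + S) :=
  mass_of_base (H d le_rfl) (baseD_of_room (fun d' hd' => (H d' hd').toHFun) Mu hK hroom)
    (κ := 7 / 5) (by norm_num : (0 : ℝ) ≤ 62) hSM
    (fun _ _ hm hM => hce0_of_hcd0 hm hk (HCD0_decr hM))
    (fun _ hs hm hM => hce_of_hcd hm hk (HCD_decr hx0 hs hM)) hS hx

end

end ShghI
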